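import Pool.Agent.H75.TB.Ev

/-!
# TB-M2: binomial expansion of `T n` in powers of `T 1 - 1`

`bp e` is the polynomial `C(X, e) = X (X-1) ⋯ (X-e+1) / e!`. For every integer `n`
`T n = ∑_{e<k} C(n,e) (T 1 - 1)^e + (T 1 - 1)^k r`.
Proof: two-sided induction on `n` (`Int.induction_on`), for a fixed `k` (`k = 0` is trivial with
`r = T n`). `n = 0`: `C(0,e) = 0` for `e > 0`. Step `n → n+1`: `T (n+1) = T n + (T 1 - 1) T n` and
Pascal's rule `C(n+1,e) = C(n,e) + C(n,e-1)`. Step `n+1 → n`: put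
`D = T n - ∑_{e<k} C(n,e)(T 1-1)^e`; `D * T 1 = T (n+1) - ∑_{e<k} C(n,e) ((T 1-1)^e + (T 1-1)^(e+1))`
`= T (n+1) - ∑_{e<k} C(n+1,e) (T 1-1)^e - C(n,k-1) (T 1-1)^k` is divisible by `(T 1-1)^k`; multiply
by `T (-1)`.
-/

namespace Pool.Agent.H75.TB

open LaurentPolynomial

/-- the polynomial `C(X, e)` -/
noncomputable def bp (e : ℕ) : Polynomial ℚ :=
  Polynomial.C ((e.factorial : ℚ)⁻¹) * descPochhammer ℚ e

theorem bp_natDegree (e : ℕ) : (bp e).natDegree ≤ e := by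
  unfold bp
  refine (Polynomial.natDegree_C_mul_le _ _).trans ?_
  rw [descPochhammer_natDegree]

theorem bp_coeff (e : ℕ) : (bp e).coeff e = (e.factorial : ℚ)⁻¹ := by
  unfold bp
  rw [Polynomial.coeff_C_mul]
  have h : (descPochhammer ℚ e).coeff e = 1 := by
    have h1 := (monic_descPochhammer ℚ e).coeff_natDegree
    rwa [descPochhammer_natDegree] at h1
  rw [h, mul_one]

theorem bp_zero : bp 0 = 1 := by
  simp [bp]

theorem bp_eval_zero (e : ℕ) : (bp (e + 1)).eval (0 : ℚ) = 0 := by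
  unfold bp
  rw [Polynomial.eval_mul, descPochhammer_succ_left, Polynomial.eval_mul, Polynomial.eval_X]
  simp

theorem bp_pascal (e : ℕ) (x : ℚ) : (bp (e + 1)).eval (x + 1) = (bp (e + 1)).eval x + (bp e).eval x := by
  unfold bp
  simp only [Polynomial.eval_mul, Polynomial.eval_C]
  have h1 : (descPochhammer ℚ (e + 1)).eval (x + 1) = (x + 1) * (descPochhammer ℚ e).eval x := by
    rw [descPochhammer_succ_left, Polynomial.eval_mul, Polynomial.eval_X, Polynomial.eval_comp]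
    simp
  have h2 : (descPochhammer ℚ (e + 1)).eval x = (descPochhammer ℚ e).eval x * (x - e) := by
    rw [descPochhammer_succ_right, Polynomial.eval_mul]
    simp
  rw [h1, h2, Nat.factorial_succ]
  have h3 : (e.factorial : ℚ) ≠ 0 := by exact_mod_cast e.factorial_ne_zero
  have h4 : ((e : ℚ) + 1) ≠ 0 := by positivity
  push_cast
  field_simp
  ring

/-- the truncated binomial sum -/
noncomputable def bsum (n : ℤ) (k : ℕ) : LP :=
  ∑ e ∈ Finset.range k, C ((bp e).eval (n : ℚ)) * (T 1 - 1) ^ e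

theorem bsum_succ (n : ℤ) (k : ℕ) : bsum (n + 1) (k + 1) =
    bsum n (k + 1) * T 1 - C ((bp k).eval (n : ℚ)) * (T 1 - 1) ^ (k + 1) := by
  have h1 : ∀ m : ℤ, bsum m (k + 1) = (∑ e ∈ Finset.range k, C ((bp (e + 1)).eval (m : ℚ)) * (T 1 - 1) ^ (e + 1)) +
      1 := by
    intro m
    unfold bsum
    rw [Finset.sum_range_succ']
    simp [bp_zero]
  have h2 : bsum (n + 1) (k + 1) = (∑ e ∈ Finset.range k, C ((bp (e + 1)).eval (n : ℚ)) * (T 1 - 1) ^ (e + 1)) +
      (∑ e ∈ Finset.range k, C ((bp e).eval (n : ℚ)) * (T 1 - 1) ^ (e + 1)) + 1 := by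
    rw [h1, ← Finset.sum_add_distrib]
    congr 1
    refine Finset.sum_congr rfl fun e _ => ?_
    push_cast
    rw [bp_pascal, map_add]
    ring
  have h3 : (∑ e ∈ Finset.range k, C ((bp e).eval (n : ℚ)) * (T 1 - 1) ^ (e + 1) : LP) =
      bsum n k * (T 1 - 1) := by
    unfold bsum
    rw [Finset.sum_mul]
    refine Finset.sum_congr rfl fun e _ => ?_
    ring
  have h4 : bsum n (k + 1) = bsum n k + C ((bp k).eval (n : ℚ)) * (T 1 - 1) ^ k := by
    unfold bsum
    rw [Finset.sum_range_succ]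
  rw [h3] at h2
  have h5 := h1 n
  rw [h2]
  linear_combination (1 - T 1 : LP) * h4 - h5

theorem bsum_dvd (k : ℕ) (n : ℤ) : ((T 1 - 1) ^ (k + 1) : LP) ∣ T n - bsum n (k + 1) := by
  induction n using Int.induction_on with
  | zero =>
    have : bsum 0 (k + 1) = 1 := by
      unfold bsum
      rw [Finset.sum_range_succ']
      simp [bp_zero, bp_eval_zero]
    rw [this, T_zero, sub_self]
    exact dvd_zero _
  | succ i ih =>
    rw [bsum_succ, T_add]
    have e : (T (i : ℤ) * T 1 - (bsum (i : ℤ) (k + 1) * T 1 - C ((bp k).eval ((i : ℤ) : ℚ)) * (T 1 - 1) ^ (k + 1)) : LP) =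
        (T (i : ℤ) - bsum (i : ℤ) (k + 1)) * T 1 + (T 1 - 1) ^ (k + 1) * C ((bp k).eval ((i : ℤ) : ℚ)) := by ring
    rw [e]
    exact dvd_add (ih.mul_right _) (dvd_mul_right _ _)
  | pred i ih =>
    have h := bsum_succ (-(i : ℤ) - 1) k
    rw [sub_add_cancel] at h
    rw [h] at ih
    have e : (T (-(i : ℤ) - 1) - bsum (-(i : ℤ) - 1) (k + 1) : LP) =
        (T (-(i : ℤ)) - (bsum (-(i : ℤ) - 1) (k + 1) * T 1 - C ((bp k).eval ((-(i : ℤ) - 1 : ℤ) : ℚ)) *
          (T 1 - 1) ^ (k + 1))) * T (-1) - (T 1 - 1) ^ (k + 1) * (C ((bp k).eval ((-(i : ℤ) - 1 : ℤ) : ℚ)) * T (-1)) := by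
      have e1 : (T (-(i : ℤ) - 1) : LP) = T (-(i : ℤ)) * T (-1) := by
        rw [← T_add]
        rfl
      have e2 : (T 1 * T (-1) : LP) = 1 := by
        rw [← T_add, add_neg_cancel, T_zero]
      rw [e1]
      linear_combination (bsum (-(i : ℤ) - 1) (k + 1)) * e2
    rw [e]
    exact dvd_sub (ih.mul_right _) (dvd_mul_right _ _)

theorem T_expand (n : ℤ) (k : ℕ) : ∃ r : LP, (T n : LP) =
    ∑ e ∈ Finset.range k, C ((bp e).eval (n : ℚ)) * (T 1 - 1) ^ e + (T 1 - 1) ^ k * r := by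
  cases k with
  | zero => exact ⟨T n, by simp⟩
  | succ k =>
    obtain ⟨r, hr⟩ := bsum_dvd k n
    refine ⟨r, ?_⟩
    rw [← hr]
    unfold bsum
    ring

end Pool.Agent.H75.TB
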