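import Mathlib

/-!
# TB-G3: Britton's lemma for several stable letters

Induction on `n`, using Mathlib's `HNNExtension` (`of_injective`, `ReducedWord`,
`ReducedWord.toList_eq_nil_of_mem_of_range`). `n = 0`: `P = G`. Step: let `(P, ι, t)` be the group
for the first `n` letters (`Fin.castSucc`), put `A' = (A (last n)).map ι`, `B' = ...`, `φ'` the
induced isomorphism (`ι` injective), `P' = HNNExtension P A' B' φ'`, `ι' = of ∘ ι`, `t' i = of (t i)`
for `i < n` and `t' (last n)` the new letter. Given a reduced list `l` over `Fin (n+1)`: if the last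
letter does not occur the product lies in `of.range`, `of` is injective and the induction
hypothesis applies. Otherwise split `l` at the occurrences of the last letter:
`ι' g * product = of w₀ * t^{u₁} * of w₁ * ⋯ * t^{u_k} * of w_k`, where
`w_i = ι g_i * (product of a reduced list over Fin n)`. This is a reduced word of the HNN extension:
if `w_i ∈ A'` (or `B'`) then `w_i ∈ ι.range`, so by the induction hypothesis its list is empty,
`w_i = ι g_i`, `g_i ∈ A` (or `B`) and the chain condition gives `u_i = u_{i+1}`. Its list is not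
empty, so the product is not in `of.range`, in particular not in `ι'.range`.
-/

namespace Pool.Agent.H75.TB

open HNNExtension

/-- the relation between consecutive syllables `t_i^u g` of a reduced word -/
def BRed {G : Type*} [Group G] {I : Type*} (A B : I → Subgroup G) (x y : I × ℤˣ × G) : Prop :=
  x.1 = y.1 → x.2.2 ∈ toSubgroup (A x.1) (B x.1) x.2.1 → x.2.1 = y.2.1

theorem mem_toSubgroup_map {G P : Type*} [Group G] [Group P] {A B : Subgroup G} {ι : G →* P}
    (hι : Function.Injective ι) {u : ℤˣ} {g : G} (h : ι g ∈ toSubgroup (A.map ι) (B.map ι) u) :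
    g ∈ toSubgroup A B u := by
  rcases Int.units_eq_one_or u with rfl | rfl
  · obtain ⟨a, ha, e⟩ := h
    rw [← hι e]; exact ha
  · obtain ⟨a, ha, e⟩ := h
    rw [← hι e]; exact ha

theorem toSubgroup_le_range {G P : Type*} [Group G] [Group P] {A B : Subgroup G} {ι : G →* P}
    {u : ℤˣ} {p : P} (h : p ∈ toSubgroup (A.map ι) (B.map ι) u) : p ∈ ι.range := by
  rcases Int.units_eq_one_or u with rfl | rfl
  · obtain ⟨a, ha, e⟩ := h
    exact ⟨a, e⟩
  · obtain ⟨a, ha, e⟩ := h
    exact ⟨a, e⟩

/-- The decomposition of a reduced list at the occurrences of the last letter. -/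
theorem britton_split {G P P' : Type} [Group G] [Group P] [Group P'] {n : ℕ} (A B : Fin (n + 1) → Subgroup G)
    (ι : G →* P) (hι : Function.Injective ι) (t : Fin n → P) (o : P →* P') (s : P') (t' : Fin (n + 1) → P')
    (ht1 : ∀ i : Fin n, t' i.castSucc = o (t i)) (ht2 : t' (Fin.last n) = s)
    (hB : ∀ (g : G) (l : List (Fin n × ℤˣ × G)),
      l.IsChain (BRed (fun i => A i.castSucc) (fun i => B i.castSucc)) →
        ι g * (l.map fun x => t x.1 ^ (x.2.1 : ℤ) * ι x.2.2).prod ∈ ι.range → l = []) :
    ∀ l : List (Fin (n + 1) × ℤˣ × G), l.IsChain (BRed A B) →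
      ∃ (l₀ : List (Fin n × ℤˣ × G)) (W : List (ℤˣ × P)),
        l₀.IsChain (BRed (fun i => A i.castSucc) (fun i => B i.castSucc)) ∧
        W.IsChain (fun a b => a.2 ∈ toSubgroup ((A (Fin.last n)).map ι) ((B (Fin.last n)).map ι) a.1 → a.1 = b.1) ∧
        (l.map fun x => t' x.1 ^ (x.2.1 : ℤ) * o (ι x.2.2)).prod =
          o ((l₀.map fun x => t x.1 ^ (x.2.1 : ℤ) * ι x.2.2).prod) *
            (W.map fun x => s ^ (x.1 : ℤ) * o x.2).prod ∧
        (∀ y ∈ l₀.head?, (y.1.castSucc, y.2) ∈ l.head?) ∧
        (l₀ = [] → ∀ w ∈ W.head?, ∃ g', (Fin.last n, w.1, g') ∈ l.head?) ∧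
        (l₀ = [] → W = [] → l = []) := by
  intro l
  induction l with
  | nil => exact fun _ => ⟨[], [], List.isChain_nil, List.isChain_nil, by simp, by simp, by simp, by simp⟩
  | cons x l ih =>
    intro hl
    obtain ⟨hx, hl'⟩ := List.isChain_cons.1 hl
    obtain ⟨l₀, W, c1, c2, e, h1, h2, h3⟩ := ih hl'
    obtain ⟨i, u, g⟩ := x
    induction i using Fin.lastCases with
    | last =>
      refine ⟨[], (u, ι g * (l₀.map fun x => t x.1 ^ (x.2.1 : ℤ) * ι x.2.2).prod) :: W, List.isChain_nil, ?_,
        ?_, by simp, ?_, by simp⟩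
      · refine List.isChain_cons.2 ⟨fun w hw hmem => ?_, c2⟩
        have hl0 : l₀ = [] := hB g l₀ c1 (toSubgroup_le_range hmem)
        subst hl0
        obtain ⟨g', hg'⟩ := h2 rfl w hw
        exact hx _ hg' rfl (mem_toSubgroup_map hι (by simpa using hmem))
      · simp only [List.map_cons, List.prod_cons, List.map_nil, List.prod_nil, map_one, one_mul, e, ht2,
          map_mul, mul_assoc]
      · rintro - w hw
        simp only [List.head?_cons, Option.mem_def, Option.some.injEq] at hw
        subst hw
        exact ⟨g, by simp⟩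
    | cast i =>
      refine ⟨(i, u, g) :: l₀, W, ?_, c2, ?_, ?_, by simp, by simp⟩
      · refine List.isChain_cons.2 ⟨fun y hy hiy hmem => ?_, c1⟩
        have hiy' : i = y.1 := hiy
        exact hx _ (h1 y hy) (congrArg Fin.castSucc hiy') hmem
      · simp only [List.map_cons, List.prod_cons, e, ht1, map_mul, map_zpow, mul_assoc]
      · intro y hy
        simp only [List.head?_cons, Option.mem_def, Option.some.injEq] at hy
        subst hy
        simp

theorem multi_britton_fin {G : Type} [Group G] (n : ℕ) (A B : Fin n → Subgroup G)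
    (φ : ∀ i, A i ≃* B i) :
    ∃ (P : Type) (_ : Group P) (ι : G →* P) (t : Fin n → P), Function.Injective ι ∧
      (∀ i (a : A i), t i * ι a = ι (φ i a) * t i) ∧
      ∀ (g : G) (l : List (Fin n × ℤˣ × G)), l.IsChain (BRed A B) →
        ι g * (l.map fun x => t x.1 ^ (x.2.1 : ℤ) * ι x.2.2).prod ∈ ι.range → l = [] := by
  induction n with
  | zero =>
    refine ⟨G, inferInstance, MonoidHom.id G, fun i => i.elim0, Function.injective_id, fun i => i.elim0,
      fun g l _ _ => ?_⟩
    cases l with
    | nil => rfl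
    | cons x l => exact x.1.elim0
  | succ n ih =>
    obtain ⟨P, hP, ι, t, hι, hrel, hB⟩ := ih (fun i => A i.castSucc) (fun i => B i.castSucc)
      (fun i => φ i.castSucc)
    let φ' : ((A (Fin.last n)).map ι) ≃* ((B (Fin.last n)).map ι) :=
      (((A (Fin.last n)).equivMapOfInjective ι hι).symm.trans (φ (Fin.last n))).trans
        ((B (Fin.last n)).equivMapOfInjective ι hι)
    have hφ' : ∀ a : A (Fin.last n), (φ' ⟨ι a, Subgroup.mem_map_of_mem ι a.2⟩ : P) = ι (φ (Fin.last n) a) := by
      intro a
      have : ((A (Fin.last n)).equivMapOfInjective ι hι).symm ⟨ι a, Subgroup.mem_map_of_mem ι a.2⟩ = a := by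
        rw [MulEquiv.symm_apply_eq]
        rfl
      simp only [φ', MulEquiv.trans_apply, this]
      rfl
    let t' : Fin (n + 1) → HNNExtension P ((A (Fin.last n)).map ι) ((B (Fin.last n)).map ι) φ' :=
      Fin.lastCases HNNExtension.t (fun i => HNNExtension.of (t i))
    have ht1 : ∀ i : Fin n, t' i.castSucc = HNNExtension.of (t i) := fun i => by simp [t']
    have ht2 : t' (Fin.last n) = HNNExtension.t := by simp [t']
    refine ⟨HNNExtension P ((A (Fin.last n)).map ι) ((B (Fin.last n)).map ι) φ', inferInstance,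
      HNNExtension.of.comp ι, t', (HNNExtension.of_injective φ').comp hι, ?_, ?_⟩
    · intro i
      induction i using Fin.lastCases with
      | last =>
        intro a
        rw [ht2, MonoidHom.comp_apply, MonoidHom.comp_apply, ← hφ' a]
        exact HNNExtension.t_mul_of (φ := φ') ⟨ι a, Subgroup.mem_map_of_mem ι a.2⟩
      | cast i =>
        intro a
        rw [ht1, MonoidHom.comp_apply, MonoidHom.comp_apply, ← map_mul, ← map_mul]
        exact congrArg _ (hrel i a)
    · intro g l hl hmem
      obtain ⟨l₀, W, c1, c2, e, h1, h2, h3⟩ := britton_split A B ι hι t HNNExtension.of HNNExtension.t t' ht1 ht2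
        hB l hl
      simp only [MonoidHom.comp_apply] at hmem
      rw [e, ← mul_assoc, ← map_mul] at hmem
      have hW : W = [] := by
        refine HNNExtension.ReducedWord.toList_eq_nil_of_mem_of_range φ'
          ⟨ι g * (l₀.map fun x => t x.1 ^ (x.2.1 : ℤ) * ι x.2.2).prod, W, c2⟩ ?_
        obtain ⟨a, ha⟩ := hmem
        exact ⟨ι a, ha⟩
      subst hW
      obtain ⟨a, ha⟩ := hmem
      rw [List.map_nil, List.prod_nil, mul_one] at ha
      have := hB g l₀ c1 ⟨a, HNNExtension.of_injective φ' ha⟩
      exact h3 this rfl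

theorem multi_britton {G : Type} [Group G] {I : Type} [Finite I] (A B : I → Subgroup G)
    (φ : ∀ i, A i ≃* B i) :
    ∃ (P : Type) (_ : Group P) (ι : G →* P) (t : I → P), Function.Injective ι ∧
      (∀ i (a : A i), t i * ι a = ι (φ i a) * t i) ∧
      ∀ (g : G) (l : List (I × ℤˣ × G)), l.IsChain (BRed A B) →
        ι g * (l.map fun x => t x.1 ^ (x.2.1 : ℤ) * ι x.2.2).prod ∈ ι.range → l = [] := by
  obtain ⟨n, ⟨e⟩⟩ := Finite.exists_equiv_fin I
  obtain ⟨P, hP, ι, t, hι, hrel, hB⟩ := multi_britton_fin n (fun j => A (e.symm j)) (fun j => B (e.symm j))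
    (fun j => φ (e.symm j))
  refine ⟨P, hP, ι, fun i => t (e i), hι, ?_, ?_⟩
  · intro i
    obtain ⟨j, rfl⟩ := e.symm.surjective i
    intro a
    simp only [Equiv.apply_symm_apply]
    exact hrel j a
  · intro g l hl hmem
    have := hB g (l.map fun x => (e x.1, x.2)) ?_ ?_
    · simpa using this
    · refine List.isChain_map _ |>.2 ?_
      refine hl.imp fun x y hxy h1 h2 => ?_
      have h1' : e x.1 = e y.1 := h1
      refine hxy (e.injective h1') ?_
      simpa using h2
    · simpa [List.map_map, Function.comp_def] using hmem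

end Pool.Agent.H75.TB
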