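import Pool.Agent.H75.TB.Lag
import Pool.Agent.H75.TB.Binom

/-!
# TB-M3: which functions of the slope are polynomials in `T p`

`k = 2L+1`, `M = (2L)!`, `χ = (1 + T + ⋯ + T^(M-1))^(2L)`, so `χ (T 1 - 1)^(2L) = (T M - 1)^(2L)`.
Say that a function `f : ℤ → LP` is representable if there is `F : Polynomial LP`,
`natDegree F < k`, with `F(T p) = f p` for `|p| ≤ L` (an `LP`-submodule). THEOREM `repr`:
`p ↦ χ (T 1 - 1)^e g(p)` is representable when `g ∈ ℚ[X]` has degree `≤ e`.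

Proof. For `e : ℕ` let `J e` be the `LP`-submodule of `ℤ → LP` spanned by the functions
`p ↦ (T 1 - 1)^e' C (p^m)`, `m ≤ e'`, `e ≤ e'`, and the functions `p ↦ (T 1-1)^(2L) r p`
(`r` arbitrary).
(a) If `f ∈ J e` then `p ↦ (T p - 1) f p ∈ J (e+1)`: for a generator `(T 1-1)^e' p^m` use
`T p - 1 = ∑_{1≤i<n} C(p,i) (T 1-1)^i + (T 1-1)^n r` (`T_expand`, `n = 2L+1`), `C(p,i) p^m` is a
polynomial in `p` of degree `≤ i + m ≤ e' + i` (and `e'+i ≥ e+1`); generators of the second kind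
are clear.
(b) For `j ≤ e`: `(T p - 1)^j (T 1-1)^(e-j) - (T 1-1)^e p^j ∈ J (e+1)` as a function of `p`
(induction on `j`: write `j+1 ≤ e`; `(T p-1)^(j+1) (T 1-1)^(e-j-1) = (T p-1) [(T p-1)^j (T 1-1)^(e-1-j)]`,
by induction the bracket is `(T 1-1)^(e-1) p^j + J e`; apply (a) to the `J e` part, and
`(T p-1)(T 1-1)^(e-1) p^j = (T 1-1)^e p^(j+1) + J (e+1)` by `T_expand`).
(c) `χ • J e` is representable for all `e`, by downward induction from `e = 2L`: for `e ≥ 2L`
every element of `J e` is `(T 1-1)^(2L) r p`: `lagrange`. Step: a generator with `e' = e`,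
`(T 1-1)^e p^m`, `m ≤ e < 2L`: by (b) it is `(T p - 1)^m (T 1-1)^(e-m)` (the polynomial
`(X-1)^m (T 1-1)^(e-m)` of degree `m < k` at `X = T p`) minus an element of `J (e+1)`.
(A direct formulation by strong induction without submodules is fine too.)
-/

namespace Pool.Agent.H75.TB

open LaurentPolynomial

/-- `χ = (1 + T + ⋯ + T^(M-1))^(2L)`, `M = (2L)!` -/
noncomputable def chi (L : ℕ) : LP :=
  (∑ i ∈ Finset.range (2 * L).factorial, T (i : ℤ)) ^ (2 * L)

theorem chi_mul (L : ℕ) :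
    chi L * (T 1 - 1) ^ (2 * L) = (T ((2 * L).factorial : ℤ) - 1) ^ (2 * L) := by
  have hT : ∀ i : ℕ, (T (i : ℤ) : LP) = T 1 ^ i := by
    intro i
    rw [T_pow]; simp
  rw [chi, ← mul_pow, Finset.sum_congr rfl (fun i _ => hT i), geom_sum_mul, hT]

theorem chi_pos (L : ℕ) {y : ℝ} (hy : 0 < y) : 0 < pe (chi L) y := by
  rw [chi, pe_pow _ hy.ne', pe_sum]
  refine pow_pos (Finset.sum_pos (fun i _ => ?_) ⟨0, Finset.mem_range.2 (Nat.factorial_pos _)⟩) _
  rw [pe_T]
  exact zpow_pos hy _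

/-- functions divisible by `(T 1 - 1)^(2L)` -/
theorem repr_high (L : ℕ) (r : ℤ → LP) : ∃ F : Polynomial LP, F.natDegree < 2 * L + 1 ∧
    ∀ p : ℤ, |p| ≤ L → F.eval (T p) = chi L * (T 1 - 1) ^ (2 * L) * r p := by
  obtain ⟨F, h1, h2⟩ := lagrange L r
  refine ⟨F, h1, fun p hp => ?_⟩
  rw [h2 p hp, chi_mul]

/-- representable functions -/
def Rep (L : ℕ) (f : ℤ → LP) : Prop :=
  ∃ F : Polynomial LP, F.natDegree < 2 * L + 1 ∧ ∀ p : ℤ, |p| ≤ L → F.eval (T p) = f p

theorem Rep.add {L : ℕ} {f g : ℤ → LP} (hf : Rep L f) (hg : Rep L g) : Rep L (f + g) := by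
  obtain ⟨F, h1, h2⟩ := hf
  obtain ⟨G, h3, h4⟩ := hg
  refine ⟨F + G, lt_of_le_of_lt (Polynomial.natDegree_add_le _ _) (max_lt h1 h3), fun p hp => ?_⟩
  rw [Polynomial.eval_add, h2 p hp, h4 p hp]; rfl

theorem Rep.smul {L : ℕ} {f : ℤ → LP} (hf : Rep L f) (c : LP) : Rep L (c • f) := by
  obtain ⟨F, h1, h2⟩ := hf
  refine ⟨Polynomial.C c * F, lt_of_le_of_lt (Polynomial.natDegree_C_mul_le _ _) h1, fun p hp => ?_⟩
  rw [Polynomial.eval_mul, Polynomial.eval_C, h2 p hp]; rfl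

theorem Rep.zero {L : ℕ} : Rep L 0 := ⟨0, by simp, fun p _ => by simp⟩

/-- the generators of `J e` -/
def Jgen (L e : ℕ) : Set (ℤ → LP) :=
  {f | ∃ e' m, m ≤ e' ∧ e ≤ e' ∧ f = fun p : ℤ => (T 1 - 1) ^ e' * C ((p : ℚ) ^ m)} ∪
  {f | ∃ r : ℤ → LP, f = fun p => (T 1 - 1) ^ (2 * L) * r p}

/-- the submodule `J e` -/
noncomputable def J (L e : ℕ) : Submodule LP (ℤ → LP) := Submodule.span LP (Jgen L e)

theorem J_high (L e : ℕ) (r : ℤ → LP) : (fun p => (T 1 - 1) ^ (2 * L) * r p) ∈ J L e :=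
  Submodule.subset_span (Or.inr ⟨r, rfl⟩)

theorem J_pol (L e e' : ℕ) (g : Polynomial ℚ) (hg : g.natDegree ≤ e') (he : e ≤ e') :
    (fun p : ℤ => (T 1 - 1) ^ e' * C (g.eval (p : ℚ))) ∈ J L e := by
  have h1 : (fun p : ℤ => ((T 1 - 1) ^ e' * C (g.eval (p : ℚ)) : LP)) =
      ∑ m ∈ Finset.range (g.natDegree + 1), (C (g.coeff m) : LP) •
        (fun p : ℤ => ((T 1 - 1) ^ e' * C ((p : ℚ) ^ m) : LP)) := by
    funext p
    rw [Finset.sum_apply, Polynomial.eval_eq_sum_range, map_sum, Finset.mul_sum]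
    refine Finset.sum_congr rfl fun m _ => ?_
    rw [Pi.smul_apply, smul_eq_mul, map_mul]
    ring
  rw [h1]
  refine Submodule.sum_mem _ fun m hm => Submodule.smul_mem _ _ (Submodule.subset_span (Or.inl ?_))
  rw [Finset.mem_range] at hm
  exact ⟨e', m, by omega, he, rfl⟩

theorem bp_one_eval (x : ℚ) : (bp 1).eval x = x := by
  simp [bp]

theorem claim_expand (L : ℕ) (p : ℤ) : ∃ r : LP, (T p - 1 : LP) = C (p : ℚ) * (T 1 - 1) +
    ∑ i ∈ Finset.range (2 * L), C ((bp (i + 2)).eval (p : ℚ)) * (T 1 - 1) ^ (i + 2) +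
      (T 1 - 1) ^ (2 * L) * r := by
  obtain ⟨r, hr⟩ := T_expand p (2 * L + 2)
  refine ⟨(T 1 - 1) ^ 2 * r, ?_⟩
  rw [hr, Finset.sum_range_succ', Finset.sum_range_succ', bp_zero, Polynomial.eval_one]
  simp only [zero_add, bp_one_eval, pow_one, pow_zero, map_one, mul_one, add_assoc, one_add_one_eq_two]
  ring

theorem claim_step (L e' m : ℕ) : ∃ f ∈ J L (e' + 2), m ≤ e' → ∀ p : ℤ,
    (T p - 1) * ((T 1 - 1) ^ e' * C ((p : ℚ) ^ m)) = (T 1 - 1) ^ (e' + 1) * C ((p : ℚ) ^ (m + 1)) + f p := by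
  by_cases hm : m ≤ e'
  swap
  · exact ⟨0, Submodule.zero_mem _, fun h => (hm h).elim⟩
  choose r hr using claim_expand L
  refine ⟨(∑ i ∈ Finset.range (2 * L), fun p : ℤ => ((T 1 - 1) ^ (e' + i + 2) *
      C ((bp (i + 2) * Polynomial.X ^ m).eval (p : ℚ)) : LP)) +
      (fun p : ℤ => (T 1 - 1) ^ (2 * L) * (r p * ((T 1 - 1) ^ e' * C ((p : ℚ) ^ m)))), ?_, fun _ p => ?_⟩
  · refine Submodule.add_mem _ (Submodule.sum_mem _ fun i _ => ?_) (J_high L _ _)
    refine J_pol L _ _ _ ?_ (by omega)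
    refine Polynomial.natDegree_mul_le.trans ?_
    have h1 := bp_natDegree (i + 2)
    have h2 : (Polynomial.X ^ m : Polynomial ℚ).natDegree ≤ m := Polynomial.natDegree_X_pow_le m
    omega
  · have h1 : (∑ i ∈ Finset.range (2 * L), C ((bp (i + 2)).eval (p : ℚ)) * (T 1 - 1) ^ (i + 2) : LP) *
        ((T 1 - 1) ^ e' * C ((p : ℚ) ^ m)) = ∑ i ∈ Finset.range (2 * L), ((T 1 - 1) ^ (e' + i + 2) *
      C ((bp (i + 2) * Polynomial.X ^ m).eval (p : ℚ)) : LP) := by
      rw [Finset.sum_mul]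
      refine Finset.sum_congr rfl fun i _ => ?_
      rw [Polynomial.eval_mul, Polynomial.eval_pow, Polynomial.eval_X, map_mul]; ring
    have h2 : (C ((p : ℚ) ^ (m + 1)) : LP) = C ((p : ℚ) ^ m) * C (p : ℚ) := by
      rw [pow_succ (p : ℚ) m, map_mul]
    rw [hr p, Pi.add_apply, Finset.sum_apply, add_mul, add_mul, h1, h2]
    ring

theorem J_anti (L : ℕ) {e e' : ℕ} (h : e ≤ e') : J L e' ≤ J L e := by
  refine Submodule.span_mono ?_
  rintro f (⟨a, m, h1, h2, h3⟩ | h1)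
  · exact Or.inl ⟨a, m, h1, h.trans h2, h3⟩
  · exact Or.inr h1

theorem J_mul (L e : ℕ) {f : ℤ → LP} (hf : f ∈ J L e) : (fun p => (T p - 1) * f p) ∈ J L (e + 1) := by
  induction hf using Submodule.span_induction with
  | mem f hf =>
    rcases hf with ⟨e', m, h1, h2, rfl⟩ | ⟨r, rfl⟩
    · obtain ⟨f, hf, hf'⟩ := claim_step L e' m
      have : (fun p : ℤ => ((T p - 1) * ((T 1 - 1) ^ e' * C ((p : ℚ) ^ m)) : LP)) =
          (fun p : ℤ => ((T 1 - 1) ^ (e' + 1) * C ((p : ℚ) ^ (m + 1)) : LP)) + f := by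
        funext p
        exact hf' h1 p
      show (fun p : ℤ => ((T p - 1) * ((T 1 - 1) ^ e' * C ((p : ℚ) ^ m)) : LP)) ∈ _
      rw [this]
      refine Submodule.add_mem _ (Submodule.subset_span (Or.inl ⟨e' + 1, m + 1, by omega, by omega, rfl⟩))
        (J_anti L (by omega) hf)
    · have : (fun p : ℤ => ((T p - 1) * ((T 1 - 1) ^ (2 * L) * r p) : LP)) =
          fun p => (T 1 - 1) ^ (2 * L) * ((T p - 1) * r p) := by
        funext p; ring
      show (fun p : ℤ => ((T p - 1) * ((T 1 - 1) ^ (2 * L) * r p) : LP)) ∈ _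
      rw [this]
      exact J_high L _ _
  | zero =>
    have : (fun p : ℤ => ((T p - 1) * (0 : ℤ → LP) p : LP)) = 0 := by funext p; simp
    rw [this]; exact Submodule.zero_mem _
  | add f g _ _ hf hg =>
    have : (fun p : ℤ => ((T p - 1) * (f + g) p : LP)) =
        (fun p => (T p - 1) * f p) + fun p => (T p - 1) * g p := by
      funext p; simp [mul_add]
    rw [this]; exact Submodule.add_mem _ hf hg
  | smul c f _ hf =>
    have : (fun p : ℤ => ((T p - 1) * (c • f) p : LP)) = c • fun p => (T p - 1) * f p := by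
      funext p
      simp only [Pi.smul_apply, smul_eq_mul]; ring
    rw [this]; exact Submodule.smul_mem _ _ hf

theorem claim_b (L d j : ℕ) : (fun p : ℤ => ((T p - 1) ^ j * (T 1 - 1) ^ d -
    (T 1 - 1) ^ (d + j) * C ((p : ℚ) ^ j) : LP)) ∈ J L (d + j + 1) := by
  induction j with
  | zero =>
    have : (fun p : ℤ => ((T p - 1) ^ 0 * (T 1 - 1) ^ d - (T 1 - 1) ^ (d + 0) * C ((p : ℚ) ^ 0) : LP)) = 0 := by
      funext p; simp
    rw [this]; exact Submodule.zero_mem _
  | succ j ih =>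
    obtain ⟨f, hf, hf'⟩ := claim_step L (d + j) j
    have h1 := J_mul L _ ih
    have : (fun p : ℤ => ((T p - 1) ^ (j + 1) * (T 1 - 1) ^ d -
        (T 1 - 1) ^ (d + (j + 1)) * C ((p : ℚ) ^ (j + 1)) : LP)) =
        (fun p : ℤ => (T p - 1) * ((T p - 1) ^ j * (T 1 - 1) ^ d -
          (T 1 - 1) ^ (d + j) * C ((p : ℚ) ^ j))) + f := by
      funext p
      have h2 := hf' (by omega) p
      rw [Pi.add_apply]
      have h3 : f p = (T p - 1) * ((T 1 - 1) ^ (d + j) * C ((p : ℚ) ^ j)) -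
          (T 1 - 1) ^ (d + j + 1) * C ((p : ℚ) ^ (j + 1)) := by rw [h2]; ring
      rw [h3]; ring
    rw [this]
    exact Submodule.add_mem _ h1 hf

theorem claim_c (L n : ℕ) : ∀ e, 2 * L ≤ e + n → ∀ f ∈ J L e, Rep L (chi L • f) := by
  induction n with
  | zero =>
    intro e he f hf
    induction hf using Submodule.span_induction with
    | mem f hf =>
      rcases hf with ⟨e', m, h1, h2, rfl⟩ | ⟨r, rfl⟩
      · obtain ⟨F, hF, hF'⟩ := repr_high L (fun p => (T 1 - 1) ^ (e' - 2 * L) * C ((p : ℚ) ^ m))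
        refine ⟨F, hF, fun p hp => ?_⟩
        rw [hF' p hp, Pi.smul_apply, smul_eq_mul]
        have : (T 1 - 1 : LP) ^ e' = (T 1 - 1) ^ (2 * L) * (T 1 - 1) ^ (e' - 2 * L) := by
          rw [← pow_add]; congr 1; omega
        rw [this]; ring
      · obtain ⟨F, hF, hF'⟩ := repr_high L r
        refine ⟨F, hF, fun p hp => ?_⟩
        rw [hF' p hp, Pi.smul_apply, smul_eq_mul]; ring
    | zero => rw [smul_zero]; exact Rep.zero
    | add f g _ _ hf hg => rw [smul_add]; exact hf.add hg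
    | smul c f _ hf => rw [smul_comm]; exact hf.smul c
  | succ n ih =>
    intro e he f hf
    by_cases h2L : 2 * L ≤ e
    · exact ih e (by omega) f hf
    induction hf using Submodule.span_induction with
    | mem f hf =>
      rcases hf with ⟨e', m, h1, h2, rfl⟩ | ⟨r, rfl⟩
      · rcases Nat.lt_or_ge e e' with h3 | h3
        · exact ih (e + 1) (by omega) _ (Submodule.subset_span (Or.inl ⟨e', m, h1, h3, rfl⟩))
        · have h4 : e' = e := le_antisymm h3 h2
          subst h4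
          have h5 := ih (e' + 1) (by omega) _ (by
            have := claim_b L (e' - m) m
            rwa [Nat.sub_add_cancel h1] at this)
          have h6 : Rep L (chi L • fun p : ℤ => ((T p - 1) ^ m * (T 1 - 1) ^ (e' - m) : LP)) := by
            refine ⟨Polynomial.C (chi L * (T 1 - 1) ^ (e' - m)) * (Polynomial.X - 1) ^ m, ?_, fun p _ => ?_⟩
            · refine lt_of_le_of_lt (Polynomial.natDegree_C_mul_le _ _) ?_
              refine lt_of_le_of_lt Polynomial.natDegree_pow_le ?_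
              have h7 : (Polynomial.X - 1 : Polynomial LP).natDegree ≤ 1 := by
                rw [← Polynomial.C_1]
                exact Polynomial.natDegree_X_sub_C_le _
              have h8 : m * (Polynomial.X - 1 : Polynomial LP).natDegree ≤ m * 1 := Nat.mul_le_mul_left _ h7
              omega
            · rw [Polynomial.eval_mul, Polynomial.eval_C, Polynomial.eval_pow, Polynomial.eval_sub,
                Polynomial.eval_X, Polynomial.eval_one, Pi.smul_apply, smul_eq_mul]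
              ring
          have h9 : (chi L • fun p : ℤ => ((T 1 - 1) ^ e' * C ((p : ℚ) ^ m) : LP)) =
              (chi L • fun p : ℤ => ((T p - 1) ^ m * (T 1 - 1) ^ (e' - m) : LP)) +
                (-1 : LP) • (chi L • fun p : ℤ => ((T p - 1) ^ m * (T 1 - 1) ^ (e' - m) -
                  (T 1 - 1) ^ e' * C ((p : ℚ) ^ m) : LP)) := by
            funext p
            simp only [Pi.add_apply, Pi.smul_apply, smul_eq_mul]
            ring
          rw [h9]
          exact h6.add (h5.smul _)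
      · exact ih (e + 1) (by omega) _ (J_high L _ _)
    | zero => rw [smul_zero]; exact Rep.zero
    | add f g _ _ hf hg => rw [smul_add]; exact hf.add hg
    | smul c f _ hf => rw [smul_comm]; exact hf.smul c

theorem repr (L e : ℕ) (g : Polynomial ℚ) (hg : g.natDegree ≤ e) :
    ∃ F : Polynomial LP, F.natDegree < 2 * L + 1 ∧
    ∀ p : ℤ, |p| ≤ L → F.eval (T p) = chi L * (T 1 - 1) ^ e * C (g.eval (p : ℚ)) := by
  obtain ⟨F, hF, hF'⟩ := claim_c L (2 * L) e (by omega) _ (J_pol L e e g hg le_rfl)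
  refine ⟨F, hF, fun p hp => ?_⟩
  rw [hF' p hp, Pi.smul_apply, smul_eq_mul, mul_assoc]

end Pool.Agent.H75.TB
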