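import Mathlib
import Pool.Agent.H29.Defs

/-!
# Tubular groups, free-by-cyclic groups, right-angled Artin groups: definitions
-/

namespace Pool.Agent.H75.TB

/-- The right-angled Artin group of a simple graph: generators are the vertices, the relations
say that adjacent vertices commute. -/
abbrev RAAG {ι : Type} (Γ : SimpleGraph ι) : Type :=
  PresentedGroup {r : FreeGroup ι | ∃ i j, Γ.Adj i j ∧
    r = FreeGroup.of i * FreeGroup.of j * (FreeGroup.of i)⁻¹ * (FreeGroup.of j)⁻¹}

/-- `G` virtually embeds in a right-angled Artin group: a subgroup of finite index of `G` has an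
injective homomorphism to the right-angled Artin group of a finite simple graph. -/
def VirtuallyRAAG (G : Type*) [Group G] : Prop :=
  ∃ (H : Subgroup G) (n : ℕ) (Γ : SimpleGraph (Fin n)) (f : H →* RAAG Γ),
    H.FiniteIndex ∧ Function.Injective f

/-- `G` is free-by-cyclic: it has a normal subgroup that is free of finite rank, with infinite
cyclic quotient. -/
def FreeByCyclic (G : Type*) [Group G] : Prop :=
  ∃ (n : ℕ) (N : Subgroup G) (_ : N.Normal),
    Nonempty (N ≃* FreeGroup (Fin n)) ∧ Nonempty (G ⧸ N ≃* Multiplicative ℤ)

/-- A finite connected graph of groups with vertex groups `ℤ × ℤ` and infinite cyclic edge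
groups. `V` vertices, `E` edges, `src`, `tgt` the ends of an edge. The generator of the edge group
of `e` is `u e` in the vertex group of `src e` and `u' e` in the vertex group of `tgt e`. `par`
is a spanning tree rooted at `root`: each other vertex `v` is joined by the edge `par v` to a
vertex of smaller depth. -/
structure TubGraph where
  V : Type
  E : Type
  finV : Finite V
  finE : Finite E
  src : E → V
  tgt : E → V
  root : V
  par : {v : V // v ≠ root} → E
  depth : V → ℕ
  par_spec : ∀ v : {v : V // v ≠ root},
    (src (par v) = v ∧ depth (tgt (par v)) < depth v) ∨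
    (tgt (par v) = v ∧ depth (src (par v)) < depth v)
  u : E → ℤ × ℤ
  u' : E → ℤ × ℤ
  u_ne : ∀ e, u e ≠ 0
  u'_ne : ∀ e, u' e ≠ 0

namespace TubGraph

variable (D : TubGraph)

/-- Generators of the fundamental group: two for each vertex, one for each edge. -/
abbrev Gen : Type := (D.V × Bool) ⊕ D.E

/-- The word for the element `a` of the vertex group of `v`. -/
def vert (v : D.V) (a : ℤ × ℤ) : FreeGroup D.Gen :=
  FreeGroup.of (Sum.inl (v, false)) ^ a.1 * FreeGroup.of (Sum.inl (v, true)) ^ a.2

/-- The stable letter of the edge `e`. -/
def stab (e : D.E) : FreeGroup D.Gen := FreeGroup.of (Sum.inr e)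

/-- The defining relations: the two generators of each vertex group commute, the stable letter
of `e` conjugates `u e` to `u' e`, and the stable letters of the spanning tree are trivial. -/
def rels : Set (FreeGroup D.Gen) :=
  {r | ∃ v, r = FreeGroup.of (Sum.inl (v, false)) * FreeGroup.of (Sum.inl (v, true)) *
    (FreeGroup.of (Sum.inl (v, false)))⁻¹ * (FreeGroup.of (Sum.inl (v, true)))⁻¹} ∪
  {r | ∃ e, r = D.stab e * D.vert (D.src e) (D.u e) * (D.stab e)⁻¹ *
    (D.vert (D.tgt e) (D.u' e))⁻¹} ∪
  {r | ∃ v, r = D.stab (D.par v)}

/-- The fundamental group of the graph of groups. -/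
abbrev Grp : Type := PresentedGroup D.rels

end TubGraph

end Pool.Agent.H75.TB
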