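import Pool.Agent.H75.TB.Words

/-!
# TB-G2b: reduced words

Take a loop word `(a, l)` at the root of minimal length with value `g` (`exists_word`). If it is not
reduced, `l` contains consecutive letters `x, y` with the same edge, opposite signs and
`x.2 = m • eg x.1`. By the relation `gt_rel` (and its powers), with `s = ±1` the sign of `x`,
`t^s (m • eg x.1) t^{-s}` is the element `m • (generator at the other end)` of the vertex group of
`st x.1 = fi y.1`, so the two letters can be removed, this element and `y.2` being added to the
preceding vertex element: a shorter word (still a path: `fi y.1 = st x.1`). Induction on the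
position in the list: prove `shorten`: if `IsPath w v l` and `¬ Red l` then there are `a'`, `l'` with
`IsPath w v l'`, `l'.length < l.length` and the same value, for any path word starting at any `v`.
-/

namespace Pool.Agent.H75.TB

variable {D : TubGraph}

/-- value of a letter -/
def wordsR_lt {B : Type*} [Group B] (S : PathSys D B) (x : D.E × Bool) : B :=
  if x.2 then S.t x.1 else (S.t x.1)⁻¹

theorem wordsR_ev_cons {B : Type*} [Group B] (S : PathSys D B) (v : D.V) (a : ℤ × ℤ)
    (x : (D.E × Bool) × (ℤ × ℤ)) (l : PWord D) :
    S.ev v a (x :: l) = S.i v (Multiplicative.ofAdd a) * wordsR_lt S x.1 * S.ev (fi x.1) x.2 l :=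
  rfl

theorem wordsR_ev_add {B : Type*} [Group B] (S : PathSys D B) (v : D.V) (a b : ℤ × ℤ)
    (l : PWord D) :
    S.ev v (a + b) l = S.i v (Multiplicative.ofAdd a) * S.ev v b l := by
  cases l with
  | nil =>
    change S.i v (Multiplicative.ofAdd (a + b)) = _ * S.i v (Multiplicative.ofAdd b)
    rw [ofAdd_add, map_mul]
  | cons x l =>
    rw [wordsR_ev_cons, wordsR_ev_cons, ofAdd_add, map_mul]
    group

theorem wordsR_semi {B : Type*} [Group B] (S : PathSys D B) (e : D.E) (s : Bool) (m : ℤ) :
    wordsR_lt S (e, s) * S.i (fi (e, s)) (Multiplicative.ofAdd (m • eg (e, s))) =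
      S.i (fi (e, !s)) (Multiplicative.ofAdd (m • eg (e, !s))) * wordsR_lt S (e, s) := by
  have h1 : SemiconjBy (S.t e) (S.i (D.src e) (Multiplicative.ofAdd (D.u e)))
      (S.i (D.tgt e) (Multiplicative.ofAdd (D.u' e))) := S.rel e
  have h2 := h1.zpow_right m
  have h3 := h2.inv_symm_left
  have hz : ∀ (v : D.V) (b : ℤ × ℤ), S.i v (Multiplicative.ofAdd b) ^ m =
      S.i v (Multiplicative.ofAdd (m • b)) := by
    intro v b
    rw [ofAdd_zsmul, map_zpow]
  rw [hz, hz] at h2 h3
  cases s with
  | true => exact h2
  | false => exact h3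

theorem wordsR_lt_not {B : Type*} [Group B] (S : PathSys D B) (e : D.E) (s : Bool) :
    wordsR_lt S (e, !s) = (wordsR_lt S (e, s))⁻¹ := by
  cases s <;> simp [wordsR_lt]

theorem wordsR_st (e : D.E) (s : Bool) : st (e, s) = fi (e, !s) := by
  cases s <;> simp [st, fi]

theorem shorten (v w : D.V) (a : ℤ × ℤ) (l : PWord D) (hl : IsPath w v l) (hr : ¬ Red l) :
    ∃ (a' : ℤ × ℤ) (l' : PWord D), IsPath w v l' ∧ l'.length < l.length ∧
      (canSys D).ev v a' l' = (canSys D).ev v a l := by
  induction l generalizing v a with
  | nil => exact absurd List.IsChain.nil hr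
  | cons x l ih =>
    obtain ⟨hx, hl1⟩ := hl
    by_cases hred : Red l
    · -- the first two letters violate the condition
      cases l with
      | nil => exact absurd (List.IsChain.singleton x) hr
      | cons y r =>
        obtain ⟨hy, hl2⟩ := hl1
        have hbad : ¬ (x.1.1 = y.1.1 → x.1.2 ≠ y.1.2 → ∀ m : ℤ, x.2 ≠ m • eg x.1) := by
          intro h
          exact hr (List.IsChain.cons_cons h hred)
        push Not at hbad
        obtain ⟨h1, h2, m, hm⟩ := hbad
        obtain ⟨⟨e, s⟩, xa⟩ := x
        obtain ⟨⟨e', s'⟩, ya⟩ := y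
        simp only at h1 h2 hm hx hy hl2
        subst h1
        have hs : s' = !s := by
          cases s <;> cases s' <;> simp_all
        subst hs
        subst hm
        have hv : fi (e, !s) = v := by rw [← wordsR_st]; exact hx
        refine ⟨a + (m • eg (e, !s) + ya), r, ?_, ?_, ?_⟩
        · rw [← hv]; exact hl2
        · simp
        · rw [wordsR_ev_add, wordsR_ev_add, wordsR_ev_cons, wordsR_ev_cons]
          simp only
          have key := wordsR_semi (canSys D) e s m
          rw [wordsR_lt_not]
          rw [hv] at key ⊢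
          set T := wordsR_lt (canSys D) (e, s) with hT
          set I := (canSys D).i v (Multiplicative.ofAdd (m • eg (e, !s))) with hI
          set J := (canSys D).i (fi (e, s)) (Multiplicative.ofAdd (m • eg (e, s))) with hJ
          have : I = T * J * T⁻¹ := by rw [key]; group
          rw [this]
          group
    · obtain ⟨a', l', hp, hlen, hev⟩ := ih (fi x.1) x.2 hl1 hred
      refine ⟨a, (x.1, a') :: l', ⟨hx, hp⟩, by simpa using hlen, ?_⟩
      rw [wordsR_ev_cons, wordsR_ev_cons]
      simp only
      rw [hev]

theorem exists_reduced (g : D.Grp) : ∃ (a : ℤ × ℤ) (l : PWord D),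
    IsPath D.root D.root l ∧ Red l ∧ (canSys D).ev D.root a l = g := by
  have main : ∀ n : ℕ, ∀ (a : ℤ × ℤ) (l : PWord D), l.length ≤ n → IsPath D.root D.root l →
      (canSys D).ev D.root a l = g → ∃ (a : ℤ × ℤ) (l : PWord D),
        IsPath D.root D.root l ∧ Red l ∧ (canSys D).ev D.root a l = g := by
    intro n
    induction n with
    | zero =>
      intro a l hn hl he
      have h0 : l = [] := List.length_eq_zero_iff.mp (Nat.le_zero.mp hn)
      subst h0
      exact ⟨a, [], hl, List.IsChain.nil, he⟩
    | succ n ih =>
      intro a l hn hl he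
      by_cases hr : Red l
      · exact ⟨a, l, hl, hr, he⟩
      · obtain ⟨a', l', hp, hlen, hev⟩ := shorten D.root D.root a l hl hr
        exact ih a' l' (by omega) hp (hev.trans he)
  obtain ⟨a, l, hl, he⟩ := exists_word g
  exact main l.length a l le_rfl hl he

end Pool.Agent.H75.TB
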