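import Pool.Agent.H75.TB.Nontriv
import Pool.Agent.H75.TB.WordsR

/-!
# TB-G6: embedding data give a virtual embedding in a right-angled Artin group

`Θ : D.Grp →* M.B` from `exists_lift` and `exists_sys`; `Θ` is injective: if `Θ g = 1` write
`g` as the value of a reduced loop word (`exists_reduced`); `lift_ev` gives (`γ root = 1`)
`S.ev root a l = 1`, so `l = []` (`target_nil`) and `M.iv root a = 1`, i.e.
`M.zz (fun j => ofAdd (d root j a)) = 1`; `zz` is injective (homomorphism
`RAAG M.graph →* (J → Multiplicative ℤ)`, `z_j ↦ mulSingle j (ofAdd 1)`, `τ ↦ 1`), so `d root j a = 0`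
for all `j`, `a = 0` by `sep`, `g = 1`.
`H` = kernel of `D.Grp → M.F` (second component of `Θ`), of finite index as `M.F` is finite
(`D.finE`, `NeZero (M.c e)` from `c_pos`). On `H` the first component of `Θ` is an injective
homomorphism to `RAAG M.graph`. Finally `M.VV` is finite: transport the graph to `Fin n`
(`Finite.exists_equiv_fin`, `raagMap`).
-/

namespace Pool.Agent.H75.TB

theorem virtuallyRAAG_of_mulEquiv {G H : Type*} [Group G] [Group H] (e : G ≃* H)
    (h : VirtuallyRAAG H) : VirtuallyRAAG G := by
  obtain ⟨K, n, Γ, f, hK, hf⟩ := h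
  refine ⟨K.comap e.toMonoidHom, n, Γ, f.comp (e.toMonoidHom.subgroupComap K), ?_, ?_⟩
  · refine ⟨?_⟩
    rw [Subgroup.index_comap_of_surjective K (f := e.toMonoidHom) e.surjective]
    exact hK.index_ne_zero
  · intro x y hxy
    have h1 := hf hxy
    apply Subtype.ext
    apply e.injective
    exact congrArg Subtype.val h1

namespace EmbData

open Multiplicative

variable {D : TubGraph} (M : EmbData D)

/-- the left inverse of `zz` -/
def zinv : RAAG M.graph →* (M.J → Multiplicative ℤ) :=
  raagLift (fun x => match x with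
    | Sum.inl j => Pi.mulSingle j (ofAdd (1 : ℤ))
    | Sum.inr _ => 1) fun _ _ _ => mul_comm _ _

lemma zinv_zz (f : M.J → Multiplicative ℤ) : M.zinv (M.zz f) = f := by
  have h : M.zinv.comp M.zz = MonoidHom.id _ := by
    refine MonoidHom.functions_ext _ _ _ fun i x => ?_
    rw [MonoidHom.comp_apply, zz, MonoidHom.noncommPiCoprod_mulSingle, zpowersHom_apply, map_zpow,
      zinv, raagLift_rg, MonoidHom.id_apply]
    change (Pi.mulSingle i (ofAdd (1 : ℤ)) : M.J → Multiplicative ℤ) ^ (toAdd x) = _
    rw [← Pi.mulSingle_zpow, ← ofAdd_zsmul, smul_eq_mul, mul_one, ofAdd_toAdd]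
  exact DFunLike.congr_fun h f

end EmbData

theorem EmbData.emb {D : TubGraph} (M : EmbData D) : VirtuallyRAAG D.Grp := by
  classical
  obtain ⟨S, h1, h2⟩ := M.exists_sys
  obtain ⟨Θ, γ, hγ, hΘv, hΘt⟩ := exists_lift S
  have hinj : Function.Injective Θ := by
    rw [injective_iff_map_eq_one]
    intro g hg
    obtain ⟨a, l, hl, hr, he⟩ := exists_reduced g
    have h3 := lift_ev S Θ γ hΘv hΘt D.root D.root a l hl
    rw [he, hg, hγ, one_mul, inv_one, mul_one] at h3
    have hl0 := M.target_nil S h1 h2 D.root D.root a l hl hr h3.symm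
    subst hl0
    have h4 : M.iv D.root a = 1 := by
      rw [← h1]
      exact h3.symm
    have h5 : M.zz (fun j => Multiplicative.ofAdd (M.d D.root j a)) = 1 :=
      congrArg SemidirectProduct.left h4
    have h6 := congrArg M.zinv h5
    rw [M.zinv_zz, map_one] at h6
    have h7 : a = 0 := M.sep D.root a fun j => by
      have := congrFun h6 j
      simpa using this
    subst h7
    rw [← he]
    change (canSys D).i D.root (Multiplicative.ofAdd 0) = 1
    rw [ofAdd_zero, map_one]
  have := D.finE
  have : Fintype D.E := Fintype.ofFinite _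
  have hF : Finite M.F := by
    have : Finite (∀ e : D.E, ZMod (M.c e)) := inferInstance
    have : Finite (Multiplicative (∀ e : D.E, ZMod (M.c e))) := this
    infer_instance
  have hV : Finite M.VV := by
    have : Finite M.I := inferInstance
    infer_instance
  obtain ⟨n, ⟨ε⟩⟩ := Finite.exists_equiv_fin M.VV
  let π : M.B →* M.F := SemidirectProduct.rightHom
  let H : Subgroup D.Grp := (π.comp Θ).ker
  have hH : ∀ g : H, (Θ g.1).right = 1 := fun g => g.2
  let f : H →* RAAG M.graph :=
    { toFun := fun g => (Θ g.1).left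
      map_one' := by simp
      map_mul' := fun x y => by
        rw [Subgroup.coe_mul, map_mul, SemidirectProduct.mul_left, hH x, map_one]
        rfl }
  have hf : Function.Injective f := by
    intro x y hxy
    apply Subtype.ext
    apply hinj
    exact SemidirectProduct.ext hxy ((hH x).trans (hH y).symm)
  let Γ : SimpleGraph (Fin n) := M.graph.comap ε.symm
  have hΓ : ∀ i j, M.graph.Adj i j → Γ.Adj (ε i) (ε j) := fun i j h => by
    simpa [Γ] using h
  have hΓ' : ∀ i j, Γ.Adj i j → M.graph.Adj (ε.symm i) (ε.symm j) := fun i j h => h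
  have hm : Function.Injective (raagMap (Γ := M.graph) (Δ := Γ) ε hΓ) := by
    have h8 : (raagMap (Γ := Γ) (Δ := M.graph) ε.symm hΓ').comp (raagMap ε hΓ) =
        MonoidHom.id _ := raag_hom_ext fun i => by simp [raagMap]
    intro x y hxy
    have h9 := congrArg (raagMap (Γ := Γ) (Δ := M.graph) ε.symm hΓ') hxy
    rw [← MonoidHom.comp_apply, ← MonoidHom.comp_apply, h8] at h9
    exact h9
  refine ⟨H, n, Γ, (raagMap ε hΓ).comp f, ?_, ?_⟩
  · infer_instance
  · exact hm.comp hf

end Pool.Agent.H75.TB
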