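import Mathlib

/-!
# Real values of Laurent polynomials over ℚ; rows
-/

namespace Pool.Agent.H75.TB

open LaurentPolynomial

/-- Laurent polynomials over `ℚ`. -/
abbrev LP : Type := ℚ[T;T⁻¹]

/-- the value of a Laurent polynomial at a real number (meaningful for `y ≠ 0`) -/
noncomputable def pe (f : LP) (y : ℝ) : ℝ := f.coeff.sum fun n c => (c : ℝ) * y ^ n

/-- evaluation as a ring homomorphism -/
noncomputable def evH (y : ℝ) (hy : y ≠ 0) : LP →+* ℝ :=
  LaurentPolynomial.eval₂ (algebraMap ℚ ℝ) (Units.mk0 y hy)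

lemma evH_T (y : ℝ) (hy : y ≠ 0) (n : ℤ) : evH y hy (T n) = y ^ n := by
  simp [evH]

lemma evH_C (y : ℝ) (hy : y ≠ 0) (c : ℚ) : evH y hy (C c) = c := by
  simp [evH]

lemma pe_zero (y : ℝ) : pe 0 y = 0 := by simp [pe]

lemma pe_add (f g : LP) (y : ℝ) : pe (f + g) y = pe f y + pe g y := by
  unfold pe
  have : (f + g).coeff = f.coeff + g.coeff := rfl
  rw [this, Finsupp.sum_add_index']
  · intro a; simp
  · intro a b c; push_cast; ring

lemma pe_single (n : ℤ) (c : ℚ) (y : ℝ) : pe (C c * T n) y = c * y ^ n := by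
  rw [← single_eq_C_mul_T]
  unfold pe
  have : (AddMonoidAlgebra.single n c : LP).coeff = Finsupp.single n c := rfl
  rw [this, Finsupp.sum_single_index]
  simp

lemma pe_eq_evH (f : LP) (y : ℝ) (hy : y ≠ 0) : pe f y = evH y hy f := by
  induction f using LaurentPolynomial.induction_on' with
  | add p q hp hq => rw [pe_add, hp, hq, map_add]
  | C_mul_T n a => rw [pe_single, map_mul, evH_T, evH_C]

lemma pe_T (n : ℤ) (y : ℝ) : pe (T n) y = y ^ n := by
  have := pe_single n 1 y
  simpa using this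

lemma pe_C (c : ℚ) (y : ℝ) : pe (C c) y = c := by
  have := pe_single 0 c y
  simpa using this

lemma pe_one (y : ℝ) : pe 1 y = 1 := by
  have := pe_C 1 y
  simpa using this

lemma pe_mul (f g : LP) {y : ℝ} (hy : y ≠ 0) : pe (f * g) y = pe f y * pe g y := by
  rw [pe_eq_evH _ _ hy, pe_eq_evH _ _ hy, pe_eq_evH _ _ hy, map_mul]

lemma pe_neg (f : LP) (y : ℝ) : pe (-f) y = - pe f y := by
  have h := pe_add f (-f) y
  rw [add_neg_cancel, pe_zero] at h
  linarith

lemma pe_sub (f g : LP) (y : ℝ) : pe (f - g) y = pe f y - pe g y := by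
  rw [sub_eq_add_neg, pe_add, pe_neg, ← sub_eq_add_neg]

lemma pe_pow (f : LP) {y : ℝ} (hy : y ≠ 0) (n : ℕ) : pe (f ^ n) y = pe f y ^ n := by
  rw [pe_eq_evH _ _ hy, pe_eq_evH _ _ hy, map_pow]

lemma pe_smul (c : ℚ) (f : LP) (y : ℝ) : pe (c • f) y = c * pe f y := by
  induction f using LaurentPolynomial.induction_on' with
  | add p q hp hq => rw [smul_add, pe_add, hp, hq, pe_add]; ring
  | C_mul_T n a =>
    rw [LaurentPolynomial.smul_eq_C_mul, ← mul_assoc, ← map_mul, pe_single, pe_single]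
    push_cast; ring

lemma pe_sum {ι : Type*} (s : Finset ι) (f : ι → LP) (y : ℝ) :
    pe (∑ i ∈ s, f i) y = ∑ i ∈ s, pe (f i) y := by
  classical
  induction s using Finset.induction_on with
  | empty => simp [pe_zero]
  | insert a s ha ih => rw [Finset.sum_insert ha, pe_add, ih, Finset.sum_insert ha]

lemma pe_prod {ι : Type*} (s : Finset ι) (f : ι → LP) {y : ℝ} (hy : y ≠ 0) :
    pe (∏ i ∈ s, f i) y = ∏ i ∈ s, pe (f i) y := by
  classical
  induction s using Finset.induction_on with
  | empty => simp [pe_one]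
  | insert a s ha ih => rw [Finset.prod_insert ha, pe_mul _ _ hy, ih, Finset.prod_insert ha]

lemma pe_invert (f : LP) (y : ℝ) : pe (invert f) y = pe f y⁻¹ := by
  induction f using LaurentPolynomial.induction_on' with
  | add p q hp hq => rw [map_add, pe_add, hp, hq, pe_add]
  | C_mul_T n a => rw [map_mul, invert_C, invert_T, pe_single, pe_single]; simp [zpow_neg, inv_zpow]

lemma continuousOn_pe (f : LP) : ContinuousOn (pe f) (Set.Ioi 0) := by
  unfold pe Finsupp.sum
  refine continuousOn_finset_sum _ fun n _ => continuousOn_const.mul ?_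
  intro y hy
  exact (continuousAt_zpow₀ y n (Or.inl (ne_of_gt hy))).continuousWithinAt

/-- A row system: for each `A : ℤ` a Laurent polynomial, finitely many nonzero. Its value on the
line of slope `p` is `∑_A h_A T^{A p}`. -/
noncomputable def rowEv (h : ℤ →₀ LP) (p : ℤ) : LP := h.sum fun A c => c * T (A * p)

lemma rowEv_zero (p : ℤ) : rowEv 0 p = 0 := by simp [rowEv]

lemma rowEv_add (h h' : ℤ →₀ LP) (p : ℤ) : rowEv (h + h') p = rowEv h p + rowEv h' p := by
  unfold rowEv
  rw [Finsupp.sum_add_index']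
  · intro a; simp
  · intro a b c; ring

lemma rowEv_smul (c : LP) (h : ℤ →₀ LP) (p : ℤ) : rowEv (c • h) p = c * rowEv h p := by
  unfold rowEv
  rw [Finsupp.sum_smul_index' (by simp), Finsupp.mul_sum]
  refine Finsupp.sum_congr fun A _ => ?_
  simp [mul_assoc]

lemma rowEv_single (A : ℤ) (c : LP) (p : ℤ) : rowEv (Finsupp.single A c) p = c * T (A * p) := by
  unfold rowEv
  rw [Finsupp.sum_single_index]
  simp

lemma rowEv_sum {ι : Type*} (s : Finset ι) (f : ι → ℤ →₀ LP) (p : ℤ) :
    rowEv (∑ i ∈ s, f i) p = ∑ i ∈ s, rowEv (f i) p := by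
  classical
  induction s using Finset.induction_on with
  | empty => simp [rowEv_zero]
  | insert a s ha ih => rw [Finset.sum_insert ha, rowEv_add, ih, Finset.sum_insert ha]

lemma rowEv_eq_sum (h : ℤ →₀ LP) (p : ℤ) {s : Finset ℤ} (hs : h.support ⊆ s) :
    rowEv h p = ∑ A ∈ s, h A * T (A * p) := by
  unfold rowEv
  rw [Finsupp.sum_of_support_subset _ hs]
  intro i _; simp

/-- The value of the quadratic `A + B s + Γ s²`. -/
def qv (A B Γ : ℚ) (p : ℤ) : ℚ := A + B * p + Γ * p ^ 2

end Pool.Agent.H75.TB
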