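import Pool.Agent.H75.TB.MomA

/-!
# TB-M4b: positive weights on integers with prescribed moments

For finitely many positive rationals `Γ v` and `k = 2L+1` there are numbers `ν j`, a bound `R` and
weights `W v a > 0` for `|a| ≤ R` (`0` for `|a| > R`) with
`∑_a W v a a^j = ν_j Γ_v^{j/2}` for even `j < k` and `= 0` for odd `j < k`.

Proof. `δ` from `near_ones`, `m_j = msum L j` (`m_j = 0` for odd `j`).
For each `v` choose a positive rational `r_v` so close to `√Γ_v` that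
`|(Γ_v/r_v²)^{j/2} m_j - m_j| < δ/2` for all even `j < k` (continuity at `r = √Γ_v` and density of
`ℚ`). Let `D ≥ 1` be an integer such that all `D r_v` are positive integers, `ν_j = D^j m_j`, and
`R ≥ 2L+1`, `R ≥ D r_v L` for all `v`.
For fixed `v`, the rows `D r_v a`, `|a| ≤ L`, are the main rows (distinct integers); all other rows
`|b| ≤ R` get the weight `ε`; the weights `w_a` of the main rows have to satisfy
`∑_a w_a (D r_v a)^j = D^j m_j Γ_v^{j/2} [j even] - ε ∑_{b other} b^j`, i.e. dividing by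
`(D r_v)^j`: `∑_a w_a a^j = (Γ_v/r_v²)^{j/2} m_j [j even] - ε (∑_{b other} b^j)/(D r_v)^j`.
For small `ε > 0` (rational) the right hand side is within `δ` of `m_j`; use `near_ones`.
(`j/2` is the natural number quotient, `(r^2)^(j/2) = r^j` for even `j`.)
-/

namespace Pool.Agent.H75.TB

/-- Rational approximation of the square root. -/
theorem mom_r (Γ : ℚ) (hΓ : 0 < Γ) (m : ℕ → ℚ) (K : ℕ) (δ : ℚ) (hδ : 0 < δ) :
    ∃ r : ℚ, 0 < r ∧ ∀ j < K, |(Γ / r ^ 2) ^ (j / 2) * m j - m j| < δ := by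
  have hΓ' : (0 : ℝ) < Γ := by exact_mod_cast hΓ
  have hδ' : (0 : ℝ) < δ := by exact_mod_cast hδ
  have hs : 0 < Real.sqrt Γ := Real.sqrt_pos.2 hΓ'
  have hsq : Real.sqrt Γ ^ 2 = Γ := Real.sq_sqrt hΓ'.le
  have h1 : ∀ j, ∀ᶠ x : ℝ in nhds (Real.sqrt Γ),
      |((Γ : ℝ) / x ^ 2) ^ (j / 2) * (m j : ℝ) - (m j : ℝ)| < (δ : ℝ) := by
    intro j
    have hc : ContinuousAt (fun x : ℝ => |((Γ : ℝ) / x ^ 2) ^ (j / 2) * (m j : ℝ) - (m j : ℝ)|) (Real.sqrt Γ) := by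
      have h2 : ContinuousAt (fun x : ℝ => (Γ : ℝ) / x ^ 2) (Real.sqrt Γ) :=
        continuousAt_const.div (continuousAt_id.pow 2) (by
          show Real.sqrt Γ ^ 2 ≠ 0
          rw [hsq]; exact hΓ'.ne')
      exact (((h2.pow (j / 2)).mul continuousAt_const).sub continuousAt_const).abs
    have h3 : |((Γ : ℝ) / Real.sqrt Γ ^ 2) ^ (j / 2) * (m j : ℝ) - (m j : ℝ)| < (δ : ℝ) := by
      rw [hsq, div_self hΓ'.ne', one_pow, one_mul, sub_self, abs_zero]
      exact hδ'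
    exact hc.eventually_lt continuousAt_const h3
  have h2 : ∀ᶠ x : ℝ in nhds (Real.sqrt Γ), ∀ j ∈ Finset.range K,
      |((Γ : ℝ) / x ^ 2) ^ (j / 2) * (m j : ℝ) - (m j : ℝ)| < (δ : ℝ) := by
    rw [Filter.eventually_all_finset]
    exact fun j _ => h1 j
  obtain ⟨ε, hε, h3⟩ := Metric.eventually_nhds_iff.1 h2
  obtain ⟨r, hr1, hr2⟩ := exists_rat_btwn (show Real.sqrt Γ < Real.sqrt Γ + ε by linarith)
  have h4 : dist (r : ℝ) (Real.sqrt Γ) < ε := by
    rw [Real.dist_eq, abs_lt]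
    constructor <;> linarith
  refine ⟨r, ?_, ?_⟩
  · have : (0 : ℝ) < r := hs.trans hr1
    exact_mod_cast this
  · intro j hj
    have h5 := h3 h4 j (Finset.mem_range.2 hj)
    exact_mod_cast h5

/-- The construction for one vertex. -/
theorem mom_one (L R n : ℕ) (hn : 0 < n) (hnR : n * L ≤ R) (Γ r D δ : ℚ)
    (hr : 0 < r) (hD : (n : ℚ) = D * r) (hδ : 0 < δ)
    (hnear : ∀ b : ℕ → ℚ, (∀ j < 2 * L + 1, |b j - msum L j| < δ) →
      ∃ w : ℤ → ℚ, (∀ a : ℤ, |a| ≤ L → 0 < w a) ∧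
        ∀ j < 2 * L + 1, ∑ a ∈ Finset.Icc (-(L : ℤ)) L, w a * (a : ℚ) ^ j = b j)
    (hrr : ∀ j < 2 * L + 1, |(Γ / r ^ 2) ^ (j / 2) * msum L j - msum L j| < δ / 2) :
    ∃ W : ℤ → ℚ, (∀ a : ℤ, |a| ≤ R → 0 < W a) ∧ (∀ a : ℤ, (R : ℤ) < |a| → W a = 0) ∧
      ∀ j < 2 * L + 1, ∑ a ∈ Finset.Icc (-(R : ℤ)) R, W a * (a : ℚ) ^ j =
        if Even j then D ^ j * msum L j * Γ ^ (j / 2) else 0 := by
  classical
  have hn0 : (0 : ℚ) < n := by exact_mod_cast hn
  have hnz : (0 : ℤ) < n := by exact_mod_cast hn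
  obtain ⟨M, hM⟩ : ∃ M : Finset ℤ, M = (Finset.Icc (-(L : ℤ)) L).image (fun a => (n : ℤ) * a) := ⟨_, rfl⟩
  have hMI : M ⊆ Finset.Icc (-(R : ℤ)) R := by
    intro b hb
    rw [hM, Finset.mem_image] at hb
    obtain ⟨a, ha, rfl⟩ := hb
    rw [Finset.mem_Icc] at ha ⊢
    have h1 : (n : ℤ) * L ≤ R := by exact_mod_cast hnR
    constructor
    · nlinarith [mul_le_mul_of_nonneg_left ha.1 hnz.le]
    · nlinarith [mul_le_mul_of_nonneg_left ha.2 hnz.le]
  obtain ⟨S, hS⟩ : ∃ S : ℕ → ℚ, S = fun j => ∑ b ∈ Finset.Icc (-(R : ℤ)) R \ M, (b : ℚ) ^ j := ⟨_, rfl⟩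
  obtain ⟨T, hT⟩ : ∃ T : ℚ, T = ∑ j ∈ Finset.range (2 * L + 1), |S j| / (n : ℚ) ^ j := ⟨_, rfl⟩
  have hTj : ∀ j < 2 * L + 1, |S j| / (n : ℚ) ^ j ≤ T := by
    intro j hj
    rw [hT]
    exact Finset.single_le_sum (f := fun j => |S j| / (n : ℚ) ^ j)
      (fun i _ => by positivity) (Finset.mem_range.2 hj)
  have hT0 : 0 ≤ T := by
    rw [hT]
    exact Finset.sum_nonneg fun i _ => by positivity
  obtain ⟨ε, hε⟩ : ∃ ε : ℚ, ε = δ / (2 * (1 + T)) := ⟨_, rfl⟩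
  have hε0 : 0 < ε := by rw [hε]; positivity
  have hεT : ε * (1 + T) = δ / 2 := by
    rw [hε]
    field_simp
  have hεj : ∀ j < 2 * L + 1, |ε * S j / (n : ℚ) ^ j| < δ / 2 := by
    intro j hj
    have h1 : |ε * S j / (n : ℚ) ^ j| = ε * (|S j| / (n : ℚ) ^ j) := by
      rw [abs_div, abs_mul, abs_of_pos hε0, abs_of_pos (by positivity : (0 : ℚ) < (n : ℚ) ^ j), mul_div_assoc]
    rw [h1, ← hεT]
    have h2 := hTj j hj
    have h3 := mul_le_mul_of_nonneg_left h2 hε0.le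
    nlinarith
  obtain ⟨w, hw1, hw2⟩ := hnear
    (fun j => (if Even j then (Γ / r ^ 2) ^ (j / 2) * msum L j else 0) - ε * S j / (n : ℚ) ^ j) (by
    intro j hj
    have h1 := hεj j hj
    have h2 := hrr j hj
    by_cases he : Even j
    · show |(if Even j then (Γ / r ^ 2) ^ (j / 2) * msum L j else 0) - ε * S j / (n : ℚ) ^ j - msum L j| < δ
      rw [if_pos he]
      have h3 : (Γ / r ^ 2) ^ (j / 2) * msum L j - ε * S j / (n : ℚ) ^ j - msum L j =
        ((Γ / r ^ 2) ^ (j / 2) * msum L j - msum L j) - ε * S j / (n : ℚ) ^ j := by ring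
      rw [h3]
      refine lt_of_le_of_lt (abs_sub _ _) ?_
      linarith
    · show |(if Even j then (Γ / r ^ 2) ^ (j / 2) * msum L j else 0) - ε * S j / (n : ℚ) ^ j - msum L j| < δ
      rw [if_neg he, msum_odd L j he, zero_sub, sub_zero, abs_neg]
      linarith)
  refine ⟨fun a => if |a| ≤ (R : ℤ) then (if a ∈ M then w (a / n) else ε) else 0, ?_, ?_, ?_⟩
  · intro a ha
    show 0 < if |a| ≤ (R : ℤ) then (if a ∈ M then w (a / n) else ε) else 0
    rw [if_pos ha]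
    by_cases haM : a ∈ M
    · rw [if_pos haM]
      rw [hM, Finset.mem_image] at haM
      obtain ⟨c, hc, rfl⟩ := haM
      rw [Int.mul_ediv_cancel_left _ hnz.ne']
      rw [Finset.mem_Icc] at hc
      exact hw1 c (abs_le.2 hc)
    · rw [if_neg haM]
      exact hε0
  · intro a ha
    exact if_neg (not_le.2 ha)
  · intro j hj
    have h1 : ∑ a ∈ Finset.Icc (-(R : ℤ)) R,
        (if |a| ≤ (R : ℤ) then (if a ∈ M then w (a / n) else ε) else 0) * (a : ℚ) ^ j =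
        ∑ a ∈ Finset.Icc (-(R : ℤ)) R, (if a ∈ M then w (a / n) else ε) * (a : ℚ) ^ j := by
      refine Finset.sum_congr rfl fun a ha => ?_
      rw [if_pos (abs_le.2 (Finset.mem_Icc.1 ha))]
    rw [h1, ← Finset.sum_sdiff hMI]
    have h2 : ∑ a ∈ Finset.Icc (-(R : ℤ)) R \ M, (if a ∈ M then w (a / n) else ε) * (a : ℚ) ^ j =
        ε * S j := by
      rw [hS, Finset.mul_sum]
      refine Finset.sum_congr rfl fun a ha => ?_
      rw [if_neg (Finset.mem_sdiff.1 ha).2]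
    have h3 : ∑ a ∈ M, (if a ∈ M then w (a / n) else ε) * (a : ℚ) ^ j =
        (n : ℚ) ^ j * ∑ a ∈ Finset.Icc (-(L : ℤ)) L, w a * (a : ℚ) ^ j := by
      have h4 : ∑ a ∈ M, (if a ∈ M then w (a / n) else ε) * (a : ℚ) ^ j =
          ∑ a ∈ M, w (a / n) * (a : ℚ) ^ j :=
        Finset.sum_congr rfl fun a ha => by rw [if_pos ha]
      rw [h4, hM, Finset.sum_image (fun a _ b _ h => mul_left_cancel₀ hnz.ne' h), Finset.mul_sum]
      refine Finset.sum_congr rfl fun a _ => ?_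
      rw [Int.mul_ediv_cancel_left _ hnz.ne']
      push_cast
      rw [mul_pow]
      ring
    rw [h2, h3, hw2 j hj]
    have hnj : ((n : ℚ) ^ j) ≠ 0 := pow_ne_zero _ hn0.ne'
    by_cases he : Even j
    · rw [if_pos he, if_pos he]
      obtain ⟨i, hi⟩ := he
      have h5 : j / 2 = i := by omega
      rw [h5, mul_sub, mul_div_cancel₀ _ hnj]
      have h6 : (n : ℚ) ^ j * ((Γ / r ^ 2) ^ i * msum L j) = D ^ j * msum L j * Γ ^ i := by
        rw [hD, hi, div_pow, mul_pow, ← pow_mul, show 2 * i = i + i by ring]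
        have hr' : r ^ (i + i) ≠ 0 := pow_ne_zero _ hr.ne'
        field_simp
      rw [h6]
      ring
    · rw [if_neg he, if_neg he, zero_sub, mul_neg, mul_div_cancel₀ _ hnj]
      ring

theorem moments {V : Type} [Finite V] (Γ : V → ℚ) (hΓ : ∀ v, 0 < Γ v) (L : ℕ) :
    ∃ (ν : ℕ → ℚ) (R : ℕ) (W : V → ℤ → ℚ), 2 * L + 1 ≤ R ∧
      (∀ v (a : ℤ), |a| ≤ R → 0 < W v a) ∧ (∀ v (a : ℤ), (R : ℤ) < |a| → W v a = 0) ∧
      ∀ v, ∀ j < 2 * L + 1, ∑ a ∈ Finset.Icc (-(R : ℤ)) R, W v a * (a : ℚ) ^ j =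
        if Even j then ν j * Γ v ^ (j / 2) else 0 := by
  classical
  obtain ⟨_⟩ := nonempty_fintype V
  obtain ⟨δ, hδ, hnear⟩ := near_ones L
  have h1 := fun v => mom_r (Γ v) (hΓ v) (msum L) (2 * L + 1) (δ / 2) (by linarith)
  choose r hr hrr using h1
  obtain ⟨D, hD⟩ : ∃ D : ℕ, D = ∏ v, (r v).den := ⟨_, rfl⟩
  have hD0 : 0 < D := by
    rw [hD]
    exact Finset.prod_pos fun v _ => (r v).den_pos
  have h2 : ∀ v, ∃ n : ℕ, 0 < n ∧ (n : ℚ) = D * r v := by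
    intro v
    obtain ⟨c, hc⟩ : (r v).den ∣ D := by
      rw [hD]
      exact Finset.dvd_prod_of_mem _ (Finset.mem_univ v)
    have hpos : 0 < (D : ℚ) * r v := mul_pos (by exact_mod_cast hD0) (hr v)
    have h3 : (D : ℚ) * r v = ((c * (r v).num : ℤ) : ℚ) := by
      rw [hc]
      push_cast
      have h4 : ((r v).den : ℚ) * r v = (r v).num := by
        rw [mul_comm]
        exact Rat.mul_den_eq_num (r v)
      rw [← h4]
      ring
    have h5 : 0 < (c * (r v).num : ℤ) := by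
      rw [h3] at hpos
      exact_mod_cast hpos
    refine ⟨(c * (r v).num : ℤ).toNat, by omega, ?_⟩
    rw [h3]
    have h6 : (((c * (r v).num : ℤ).toNat : ℤ)) = c * (r v).num := Int.toNat_of_nonneg h5.le
    exact_mod_cast h6
  choose n hn hnD using h2
  obtain ⟨R, hR⟩ : ∃ R : ℕ, R = 2 * L + 1 + ∑ v, n v * L := ⟨_, rfl⟩
  have hnR : ∀ v, n v * L ≤ R := by
    intro v
    rw [hR]
    have := Finset.single_le_sum (f := fun v => n v * L) (fun i _ => Nat.zero_le _) (Finset.mem_univ v)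
    have h3 : n v * L ≤ ∑ v, n v * L := this
    omega
  have h3 := fun v => mom_one L R (n v) (hn v) (hnR v) (Γ v) (r v) D δ (hr v) (hnD v) hδ hnear (hrr v)
  choose W hW1 hW2 hW3 using h3
  exact ⟨fun j => (D : ℚ) ^ j * msum L j, R, W, by omega, hW1, hW2, hW3⟩

end Pool.Agent.H75.TB
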