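import Pool.Agent.H75.TB.Claim

/-!
# TB-M5a: the correction term at `y = 1`

`k = 2L+1`, `c_i = ν_i / i!`, `Φ₀(q) = ∑_{i < k, i even} C (c_i q^(i/2)) (T 1 - 1)^i`,
`ψ(p) = A + B p + Γ p²`. By `T_expand (a p) k`, for every `p`
`E_p := Φ₀(ψ(p)) - ∑_{|a| ≤ R} C (W a) T (a p) = ∑_{e<k} C (G_e(p)) (T 1 - 1)^e + (T 1-1)^k r_p`
where `G_e` is the polynomial `[e even] c_e ψ^{e/2} - ∑_a W a • (bp e)(a X)` (composition
`(bp e).comp (C a * X)`), `natDegree G_e ≤ e` and its coefficient of `X^e` is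
`[e even] c_e Γ^{e/2} - ∑_a W a a^e / e! = 0` (`bp_coeff` and the hypothesis `hW`). So `G_0 = 0` and
`natDegree G_e ≤ e - 1` for `e ≥ 1`, and
`E_p = (T 1 - 1) [∑_{1≤e<k} C (G_e(p)) (T 1-1)^(e-1) + (T 1-1)^(2L) r_p]`.
By `repr` (degree `≤ e-1`, exponent `e-1`) and `repr_high` there is a polynomial `F` of degree
`< k` over `LP` (a sum) with `F(T p) = χ [...]` for `|p| ≤ L`.
-/

namespace Pool.Agent.H75.TB

open LaurentPolynomial

/-- the polynomial `G_e` -/
noncomputable def nearA_G (R : ℕ) (A B Γ : ℚ) (ν : ℕ → ℚ) (W : ℤ → ℚ) (e : ℕ) : Polynomial ℚ :=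
  (if Even e then Polynomial.C (ν e / e.factorial) *
    (Polynomial.C A + Polynomial.C B * Polynomial.X + Polynomial.C Γ * Polynomial.X ^ 2) ^ (e / 2) else 0) -
    ∑ a ∈ Finset.Icc (-(R : ℤ)) R, Polynomial.C (W a) * (bp e).comp (Polynomial.C (a : ℚ) * Polynomial.X)

theorem nearA_eval (R : ℕ) (A B Γ : ℚ) (ν : ℕ → ℚ) (W : ℤ → ℚ) (e : ℕ) (p : ℤ) :
    (nearA_G R A B Γ ν W e).eval (p : ℚ) =
      (if Even e then ν e / e.factorial * qv A B Γ p ^ (e / 2) else 0) -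
        ∑ a ∈ Finset.Icc (-(R : ℤ)) R, W a * (bp e).eval (((a * p : ℤ)) : ℚ) := by
  unfold nearA_G qv
  rw [Polynomial.eval_sub, Polynomial.eval_finsetSum]
  congr 1
  · split_ifs
    · simp
    · simp
  · refine Finset.sum_congr rfl fun a _ => ?_
    rw [Polynomial.eval_mul, Polynomial.eval_C, Polynomial.eval_comp, Polynomial.eval_mul,
      Polynomial.eval_C, Polynomial.eval_X]
    push_cast
    rfl

theorem nearA_quad (A B Γ : ℚ) :
    (Polynomial.C A + Polynomial.C B * Polynomial.X + Polynomial.C Γ * Polynomial.X ^ 2).natDegree ≤ 2 := by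
  compute_degree

theorem nearA_natDegree (R : ℕ) (A B Γ : ℚ) (ν : ℕ → ℚ) (W : ℤ → ℚ) (e : ℕ) :
    (nearA_G R A B Γ ν W e).natDegree ≤ e := by
  unfold nearA_G
  refine (Polynomial.natDegree_sub_le _ _).trans (max_le ?_ ?_)
  · split_ifs with h
    · refine (Polynomial.natDegree_C_mul_le _ _).trans ?_
      refine (Polynomial.natDegree_pow_le_of_le (e / 2) (nearA_quad A B Γ)).trans ?_
      omega
    · simp
  · refine Polynomial.natDegree_sum_le_of_forall_le _ _ fun a _ => ?_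
    refine (Polynomial.natDegree_C_mul_le _ _).trans ?_
    refine (Polynomial.natDegree_comp_le).trans ?_
    have h1 : (Polynomial.C (a : ℚ) * Polynomial.X).natDegree ≤ 1 := by compute_degree
    calc (bp e).natDegree * (Polynomial.C (a : ℚ) * Polynomial.X).natDegree ≤ e * 1 :=
          Nat.mul_le_mul (bp_natDegree e) h1
      _ = e := mul_one e

theorem nearA_coeff (R : ℕ) (A B Γ : ℚ) (ν : ℕ → ℚ) (W : ℤ → ℚ) (e : ℕ)
    (hW : ∑ a ∈ Finset.Icc (-(R : ℤ)) R, W a * (a : ℚ) ^ e = if Even e then ν e * Γ ^ (e / 2) else 0) :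
    (nearA_G R A B Γ ν W e).coeff e = 0 := by
  unfold nearA_G
  rw [Polynomial.coeff_sub, Polynomial.finsetSum_coeff]
  have h1 : ∑ a ∈ Finset.Icc (-(R : ℤ)) R,
      (Polynomial.C (W a) * (bp e).comp (Polynomial.C (a : ℚ) * Polynomial.X)).coeff e =
      (e.factorial : ℚ)⁻¹ * ∑ a ∈ Finset.Icc (-(R : ℤ)) R, W a * (a : ℚ) ^ e := by
    rw [Finset.mul_sum]
    refine Finset.sum_congr rfl fun a _ => ?_
    rw [Polynomial.coeff_C_mul, Polynomial.comp_C_mul_X_coeff, bp_coeff]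
    ring
  rw [h1, hW]
  split_ifs with h
  · obtain ⟨m, rfl⟩ := h
    have h2 : (m + m) / 2 = m := by omega
    rw [h2, Polynomial.coeff_C_mul]
    have h3 := Polynomial.coeff_pow_of_natDegree_le (m := m) (nearA_quad A B Γ)
    have h4 : m * 2 = m + m := by omega
    rw [h4] at h3
    rw [h3]
    have h5 : (Polynomial.C A + Polynomial.C B * Polynomial.X + Polynomial.C Γ * Polynomial.X ^ 2).coeff 2 = Γ := by
      simp
    rw [h5]
    ring
  · simp

theorem nearA_deg_lt {R : ℕ} {A B Γ : ℚ} {ν : ℕ → ℚ} {W : ℤ → ℚ} {e : ℕ}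
    (hW : ∑ a ∈ Finset.Icc (-(R : ℤ)) R, W a * (a : ℚ) ^ (e + 1) =
      if Even (e + 1) then ν (e + 1) * Γ ^ ((e + 1) / 2) else 0) :
    (nearA_G R A B Γ ν W (e + 1)).natDegree ≤ e := by
  have h1 := nearA_natDegree R A B Γ ν W (e + 1)
  have h2 := nearA_coeff R A B Γ ν W (e + 1) hW
  by_contra hcon
  have h3 : (nearA_G R A B Γ ν W (e + 1)).natDegree = e + 1 := by omega
  have h4 : (nearA_G R A B Γ ν W (e + 1)).leadingCoeff = 0 := by
    rw [Polynomial.leadingCoeff, h3]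
    exact h2
  rw [Polynomial.leadingCoeff_eq_zero] at h4
  rw [h4, Polynomial.natDegree_zero] at h3
  omega

theorem nearA_zero {R : ℕ} {A B Γ : ℚ} {ν : ℕ → ℚ} {W : ℤ → ℚ}
    (hW : ∑ a ∈ Finset.Icc (-(R : ℤ)) R, W a * (a : ℚ) ^ 0 =
      if Even 0 then ν 0 * Γ ^ (0 / 2) else 0) : nearA_G R A B Γ ν W 0 = 0 := by
  have h1 := nearA_natDegree R A B Γ ν W 0
  have h2 := nearA_coeff R A B Γ ν W 0 hW
  rw [Polynomial.eq_C_of_natDegree_le_zero h1, h2, Polynomial.C_0]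

theorem near_one (L R : ℕ) (A B Γ : ℚ) (ν : ℕ → ℚ) (W : ℤ → ℚ)
    (hW : ∀ j < 2 * L + 1, ∑ a ∈ Finset.Icc (-(R : ℤ)) R, W a * (a : ℚ) ^ j =
        if Even j then ν j * Γ ^ (j / 2) else 0) :
    ∃ F : Polynomial LP, F.natDegree < 2 * L + 1 ∧ ∀ p : ℤ, |p| ≤ L →
      chi L * (∑ i ∈ (Finset.range (2 * L + 1)).filter Even,
        C (ν i / i.factorial * qv A B Γ p ^ (i / 2)) * (T 1 - 1) ^ i) =
      chi L * ∑ a ∈ Finset.Icc (-(R : ℤ)) R, C (W a) * T (a * p) +
        (T 1 - 1) * F.eval (T p) := by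
  classical
  choose r hr using fun n : ℤ => T_expand n (2 * L + 1)
  let G : ℕ → Polynomial ℚ := nearA_G R A B Γ ν W
  have hF : ∀ e, ∃ F : Polynomial LP, e < 2 * L → F.natDegree < 2 * L + 1 ∧
      ∀ p : ℤ, |p| ≤ L → F.eval (T p) = chi L * (T 1 - 1) ^ e * C ((G (e + 1)).eval (p : ℚ)) := by
    intro e
    by_cases he : e < 2 * L
    · obtain ⟨F, h1, h2⟩ := repr L e (G (e + 1)) (nearA_deg_lt (hW (e + 1) (by omega)))
      exact ⟨F, fun _ => ⟨h1, h2⟩⟩
    · exact ⟨0, fun h => absurd h he⟩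
  choose Fe hFe using hF
  obtain ⟨Fh, hFh1, hFh2⟩ := repr_high L
    (fun p => - ∑ a ∈ Finset.Icc (-(R : ℤ)) R, C (W a) * r (a * p))
  refine ⟨∑ e ∈ Finset.range (2 * L), Fe e + Fh, ?_, fun p hp => ?_⟩
  · have h1 : (∑ e ∈ Finset.range (2 * L), Fe e).natDegree ≤ 2 * L := by
      refine Polynomial.natDegree_sum_le_of_forall_le _ _ fun e he => ?_
      have := (hFe e (Finset.mem_range.1 he)).1
      omega
    have h2 := Polynomial.natDegree_add_le (∑ e ∈ Finset.range (2 * L), Fe e) Fh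
    have h3 : max (∑ e ∈ Finset.range (2 * L), Fe e).natDegree Fh.natDegree ≤ 2 * L :=
      max_le h1 (by omega)
    omega
  · rw [Polynomial.eval_add, Polynomial.eval_finsetSum, hFh2 p hp]
    have h1 : ∑ e ∈ Finset.range (2 * L), (Fe e).eval (T p) =
        ∑ e ∈ Finset.range (2 * L), chi L * (T 1 - 1) ^ e * C ((G (e + 1)).eval (p : ℚ)) :=
      Finset.sum_congr rfl fun e he => (hFe e (Finset.mem_range.1 he)).2 p hp
    rw [h1]
    -- the expansion
    have h2 : ∑ a ∈ Finset.Icc (-(R : ℤ)) R, C (W a) * T (a * p) =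
        ∑ e ∈ Finset.range (2 * L + 1), C (∑ a ∈ Finset.Icc (-(R : ℤ)) R,
          W a * (bp e).eval (((a * p : ℤ)) : ℚ)) * (T 1 - 1) ^ e +
        (T 1 - 1) ^ (2 * L + 1) * ∑ a ∈ Finset.Icc (-(R : ℤ)) R, C (W a) * r (a * p) := by
      have h3 : ∀ a : ℤ, C (W a) * T (a * p) = ∑ e ∈ Finset.range (2 * L + 1),
          C (W a * (bp e).eval (((a * p : ℤ)) : ℚ)) * (T 1 - 1) ^ e +
          (T 1 - 1) ^ (2 * L + 1) * (C (W a) * r (a * p)) := by
        intro a
        rw [hr (a * p), mul_add, Finset.mul_sum]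
        congr 1
        · refine Finset.sum_congr rfl fun e _ => ?_
          rw [map_mul, mul_assoc]
        · ring
      rw [Finset.sum_congr rfl fun a _ => h3 a, Finset.sum_add_distrib, Finset.sum_comm,
        ← Finset.mul_sum]
      congr 1
      refine Finset.sum_congr rfl fun e _ => ?_
      rw [map_sum, Finset.sum_mul]
    have h4 : ∑ i ∈ (Finset.range (2 * L + 1)).filter Even,
        C (ν i / i.factorial * qv A B Γ p ^ (i / 2)) * (T 1 - 1) ^ i =
        ∑ e ∈ Finset.range (2 * L + 1),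
          C (if Even e then ν e / e.factorial * qv A B Γ p ^ (e / 2) else 0) * (T 1 - 1) ^ e := by
      rw [Finset.sum_filter]
      refine Finset.sum_congr rfl fun e _ => ?_
      split_ifs
      · rfl
      · rw [map_zero, zero_mul]
    have h5 : ∑ i ∈ (Finset.range (2 * L + 1)).filter Even,
        C (ν i / i.factorial * qv A B Γ p ^ (i / 2)) * (T 1 - 1) ^ i =
        ∑ a ∈ Finset.Icc (-(R : ℤ)) R, C (W a) * T (a * p) +
        ((T 1 - 1) * ∑ e ∈ Finset.range (2 * L), C ((G (e + 1)).eval (p : ℚ)) * (T 1 - 1) ^ e -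
        (T 1 - 1) ^ (2 * L + 1) * ∑ a ∈ Finset.Icc (-(R : ℤ)) R, C (W a) * r (a * p)) := by
      have h6 : ∑ e ∈ Finset.range (2 * L + 1), C ((G e).eval (p : ℚ)) * (T 1 - 1) ^ e =
          (T 1 - 1) * ∑ e ∈ Finset.range (2 * L), C ((G (e + 1)).eval (p : ℚ)) * (T 1 - 1) ^ e := by
        rw [Finset.sum_range_succ']
        have h7 : G 0 = 0 := nearA_zero (hW 0 (by omega))
        rw [h7, Polynomial.eval_zero, map_zero, zero_mul, add_zero, Finset.mul_sum]
        refine Finset.sum_congr rfl fun e _ => ?_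
        rw [pow_succ]
        ring
      have h8 : ∑ e ∈ Finset.range (2 * L + 1), C ((G e).eval (p : ℚ)) * (T 1 - 1) ^ e =
          ∑ e ∈ Finset.range (2 * L + 1),
            C (if Even e then ν e / e.factorial * qv A B Γ p ^ (e / 2) else 0) * (T 1 - 1) ^ e -
          ∑ e ∈ Finset.range (2 * L + 1), C (∑ a ∈ Finset.Icc (-(R : ℤ)) R,
            W a * (bp e).eval (((a * p : ℤ)) : ℚ)) * (T 1 - 1) ^ e := by
        rw [← Finset.sum_sub_distrib]
        refine Finset.sum_congr rfl fun e _ => ?_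
        rw [← sub_mul, ← map_sub, nearA_eval]
      rw [← h6, h8, h4, h2]
      ring
    rw [h5]
    have h9 : ∑ e ∈ Finset.range (2 * L), chi L * (T 1 - 1) ^ e * C ((G (e + 1)).eval (p : ℚ)) =
        chi L * ∑ e ∈ Finset.range (2 * L), C ((G (e + 1)).eval (p : ℚ)) * (T 1 - 1) ^ e := by
      rw [Finset.mul_sum]
      refine Finset.sum_congr rfl fun e _ => ?_
      ring
    rw [h9, pow_succ]
    ring

end Pool.Agent.H75.TB
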