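import Pool.Agent.H75.TB.Sol
import Pool.Agent.H75.TB.NearA
import Pool.Agent.H75.TB.Mom

/-!
# TB-M5b: a solution that is positive at `y = 1`

`k = 2L+1`. Take `ν, R, W` from `moments`, and for each `v` the polynomial `F` from `near_one`.
`Φ(q) = chi L * ∑_{i < k, i even} C (ν_i / i! * q^(i/2)) (T 1 - 1)^i`.
Rows: `h_a = χ C (W a) + (T 1-1) F.coeff a` for `0 ≤ a < k` and `h_a = χ C (W a)` for the other
`|a| ≤ R` (`k ≤ R`), `0` for `|a| > R`. Then
`rowEv h p = χ ∑_a C (W a) T (a p) + (T 1-1) F(T p) = Φ(ψ(p))` (`F(T p) = ∑_i F.coeff i T (i p)`,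
`Polynomial.eval_eq_sum_range'`), and at `y = 1`, `T 1 - 1` vanishes, so `h_a(1) = χ(1) W a > 0`
(`chi_pos`).
-/

namespace Pool.Agent.H75.TB

open LaurentPolynomial

/-- a sum of singles at a point of the index set -/
lemma Near_sum_single_mem (s : Finset ℤ) (f : ℤ → LP) {a : ℤ} (ha : a ∈ s) :
    (∑ b ∈ s, Finsupp.single b (f b)) a = f a := by
  rw [Finsupp.finsetSum_apply, Finset.sum_eq_single a]
  · rw [Finsupp.single_eq_same]
  · intro b _ hb
    exact Finsupp.single_eq_of_ne (Ne.symm hb)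
  · intro h
    exact absurd ha h

/-- a sum of singles at a point different from all base points -/
lemma Near_sum_single_ne {ι : Type} (s : Finset ι) (g : ι → ℤ) (f : ι → LP) {a : ℤ}
    (ha : ∀ i ∈ s, g i ≠ a) : (∑ i ∈ s, Finsupp.single (g i) (f i)) a = 0 := by
  rw [Finsupp.finsetSum_apply]
  refine Finset.sum_eq_zero fun i hi => ?_
  exact Finsupp.single_eq_of_ne (Ne.symm (ha i hi))

/-- the factor `T 1 - 1` vanishes at `y = 1` -/
lemma Near_pe_one (g : LP) : pe ((T 1 - 1) * g) 1 = 0 := by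
  rw [pe_mul _ _ one_ne_zero, pe_sub, pe_T, pe_one, zpow_one, sub_self, zero_mul]

theorem near {V : Type} [Finite V] (A B Γ : V → ℚ) (hΓ : ∀ v, 0 < Γ v) (L : ℕ) :
    ∃ (R : ℕ) (Φ : ℚ → LP) (h : V → ℤ →₀ LP), 2 * L + 1 ≤ R ∧ IsSol A B Γ L R Φ h ∧
      ∀ v (a : ℤ), |a| ≤ R → 0 < pe (h v a) 1 := by
  obtain ⟨ν, R, W, hR, hpos, -, hW⟩ := moments Γ hΓ L
  choose F hF1 hF2 using fun v => near_one L R (A v) (B v) (Γ v) ν (W v) (hW v)
  refine ⟨R, fun q => chi L * (∑ i ∈ (Finset.range (2 * L + 1)).filter Even,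
      C (ν i / i.factorial * q ^ (i / 2)) * (T 1 - 1) ^ i),
    fun v => (∑ a ∈ Finset.Icc (-(R : ℤ)) R, Finsupp.single a (chi L * C (W v a))) +
      ∑ i ∈ Finset.range (2 * L + 1), Finsupp.single (i : ℤ) ((T 1 - 1) * (F v).coeff i),
    hR, ⟨?_, ?_⟩, ?_⟩
  · intro v p hp
    have hT : (F v).eval (T p) =
        ∑ i ∈ Finset.range (2 * L + 1), (F v).coeff i * T ((i : ℤ) * p) := by
      rw [Polynomial.eval_eq_sum_range' (hF1 v)]
      refine Finset.sum_congr rfl fun i _ => ?_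
      rw [T_pow]
    show rowEv _ p = chi L * (∑ i ∈ (Finset.range (2 * L + 1)).filter Even,
      C (ν i / i.factorial * qv (A v) (B v) (Γ v) p ^ (i / 2)) * (T 1 - 1) ^ i)
    rw [hF2 v p hp, hT, rowEv_add, rowEv_sum, rowEv_sum, Finset.mul_sum, Finset.mul_sum]
    congr 1
    · refine Finset.sum_congr rfl fun a _ => ?_
      rw [rowEv_single, mul_assoc]
    · refine Finset.sum_congr rfl fun i _ => ?_
      rw [rowEv_single, mul_assoc]
  · intro v a ha
    show ((∑ a ∈ Finset.Icc (-(R : ℤ)) R, Finsupp.single a (chi L * C (W v a))) +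
      ∑ i ∈ Finset.range (2 * L + 1), Finsupp.single (i : ℤ) ((T 1 - 1) * (F v).coeff i) :
        ℤ →₀ LP) a = 0
    rw [Finsupp.add_apply, Near_sum_single_ne _ (fun a => a), Near_sum_single_ne, add_zero]
    · intro i hi h
      rw [Finset.mem_range] at hi
      rw [← h, abs_of_nonneg (by positivity)] at ha
      omega
    · intro b hb h
      rw [Finset.mem_Icc] at hb
      rw [← h] at ha
      exact absurd (abs_le.2 hb) (not_le.2 ha)
  · intro v a ha
    show 0 < pe (((∑ a ∈ Finset.Icc (-(R : ℤ)) R, Finsupp.single a (chi L * C (W v a))) +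
      ∑ i ∈ Finset.range (2 * L + 1), Finsupp.single (i : ℤ) ((T 1 - 1) * (F v).coeff i) :
        ℤ →₀ LP) a) 1
    have h0 : pe ((∑ i ∈ Finset.range (2 * L + 1),
        Finsupp.single (i : ℤ) ((T 1 - 1) * (F v).coeff i)) a) 1 = 0 := by
      rw [Finsupp.finsetSum_apply, pe_sum]
      refine Finset.sum_eq_zero fun i _ => ?_
      rw [Finsupp.single_apply]
      split_ifs
      · exact Near_pe_one _
      · exact pe_zero 1
    rw [Finsupp.add_apply, pe_add, h0, add_zero,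
      Near_sum_single_mem _ (fun a => chi L * C (W v a)) (Finset.mem_Icc.2 (abs_le.1 ha)),
      pe_mul _ _ one_ne_zero, pe_C]
    have h1 : (0 : ℝ) < (W v a : ℝ) := by exact_mod_cast hpos v a ha
    exact mul_pos (chi_pos L one_pos) h1

end Pool.Agent.H75.TB
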