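import Pool.Agent.H75.TB.Ev

/-!
# TB-M1: reduction of rows

Let `k = 2L+1` and `β(x) = ∏_{|p| ≤ L} (x - T p)`, a monic polynomial of degree `k` over the ring
`LP = ℚ[T;T⁻¹]` with `β(0) = ∏ (-T p) = (-1)^k T 0`, a unit (`∑_{|p|≤L} p = 0`).

For `B ≥ 0`: `F = X^B %ₘ β` (`Polynomial.modByMonic`), since `β(T p) = 0`.
For `B < 0`: there is a polynomial `G` with `X * G ≡ 1 mod β`: `G = -β(0)⁻¹ * divX β`
(`X * divX β + C (β.coeff 0) = β`: `Polynomial.divX_mul_X_add`), so
`G(T p) = T (-p)`; take `F = G^|B| %ₘ β`. Use `Polynomial.natDegree_modByMonic_lt` (or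
`degree_modByMonic_lt`), `Polynomial.modByMonic_eq_sub_mul_div`.
-/

namespace Pool.Agent.H75.TB

open LaurentPolynomial Polynomial

/-- the product `∏_{|p| ≤ L} (X - T p)` -/
noncomputable def redB (L : ℕ) : Polynomial LP :=
  ∏ p ∈ Finset.Icc (-(L : ℤ)) L, (X - Polynomial.C (LaurentPolynomial.T p : LP))

theorem redB_monic (L : ℕ) : (redB L).Monic := monic_prod_of_monic _ _ fun p _ => monic_X_sub_C _

theorem redB_natDegree (L : ℕ) : (redB L).natDegree = 2 * L + 1 := by
  rw [redB, natDegree_prod_of_monic _ _ fun p _ => monic_X_sub_C _]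
  simp only [natDegree_X_sub_C]
  rw [Finset.sum_const, Int.card_Icc]
  simp
  omega

theorem redB_eval (L : ℕ) (p : ℤ) (hp : |p| ≤ L) : (redB L).eval (LaurentPolynomial.T p : LP) = 0 := by
  rw [redB, eval_prod]
  refine Finset.prod_eq_zero (i := p) ?_ ?_
  · rw [Finset.mem_Icc]
    exact abs_le.1 hp
  · simp

theorem redB_T_prod (s : Finset ℤ) : ∏ p ∈ s, (LaurentPolynomial.T p : LP) = LaurentPolynomial.T (∑ p ∈ s, p) := by
  classical
  induction s using Finset.induction_on with
  | empty => simp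
  | insert a s ha ih => rw [Finset.prod_insert ha, ih, Finset.sum_insert ha, LaurentPolynomial.T_add]

theorem redB_sum (L : ℕ) : ∑ p ∈ Finset.Icc (-(L : ℤ)) L, p = 0 := by
  have h : ∑ p ∈ Finset.Icc (-(L : ℤ)) L, p = ∑ p ∈ Finset.Icc (-(L : ℤ)) L, -p := by
    refine Finset.sum_nbij' (fun p => -p) (fun p => -p) ?_ ?_ ?_ ?_ ?_
    · intro p hp
      rw [Finset.mem_Icc] at hp ⊢
      omega
    · intro p hp
      rw [Finset.mem_Icc] at hp ⊢
      omega
    · intro p _
      simp
    · intro p _
      simp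
    · intro p _
      simp
  rw [Finset.sum_neg_distrib] at h
  omega

theorem redB_coeff (L : ℕ) : (redB L).coeff 0 = -1 := by
  rw [coeff_zero_eq_eval_zero, redB, eval_prod]
  simp only [eval_sub, eval_X, Polynomial.eval_C, zero_sub]
  have h : ∀ p : ℤ, -(LaurentPolynomial.T p : LP) = (-1) * LaurentPolynomial.T p := fun p => by ring
  rw [Finset.prod_congr rfl fun p _ => h p, Finset.prod_mul_distrib, redB_T_prod, redB_sum, Finset.prod_const,
    Int.card_Icc, LaurentPolynomial.T_zero, mul_one]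
  have : ((L : ℤ) + 1 - -(L : ℤ)).toNat = 2 * L + 1 := by omega
  rw [this, pow_succ, pow_mul]
  simp

/-- Every monomial is, at the nodes `T p`, `|p| ≤ L`, a polynomial of degree `< 2L+1`. -/
theorem reduce (L : ℕ) (B : ℤ) : ∃ F : Polynomial LP, F.natDegree < 2 * L + 1 ∧
    ∀ p : ℤ, |p| ≤ L → F.eval (LaurentPolynomial.T p) = LaurentPolynomial.T (B * p) := by
  classical
  set β : Polynomial LP := redB L with hβ
  have hmon : β.Monic := redB_monic L
  have hdeg : β.natDegree = 2 * L + 1 := redB_natDegree L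
  have hne : β ≠ 1 := by
    intro h
    rw [h, natDegree_one] at hdeg
    omega
  have hev : ∀ (P : Polynomial LP) (p : ℤ), |p| ≤ L →
      (P %ₘ β).eval (LaurentPolynomial.T p) = P.eval (LaurentPolynomial.T p) := by
    intro P p hp
    rw [modByMonic_eq_sub_mul_div _ β, eval_sub, eval_mul, redB_eval L p hp]
    ring
  rcases le_or_gt 0 B with hB | hB
  · refine ⟨(X ^ B.toNat) %ₘ β, ?_, fun p hp => ?_⟩
    · rw [← hdeg]
      exact natDegree_modByMonic_lt _ hmon hne
    · rw [hev _ p hp, eval_pow, eval_X, LaurentPolynomial.T_pow, Int.toNat_of_nonneg hB]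
  · refine ⟨((divX β) ^ (-B).toNat) %ₘ β, ?_, fun p hp => ?_⟩
    · rw [← hdeg]
      exact natDegree_modByMonic_lt _ hmon hne
    · have h1 : (divX β).eval (LaurentPolynomial.T p) = LaurentPolynomial.T (-p) := by
        have h2 := congrArg (Polynomial.eval (LaurentPolynomial.T p : LP)) (divX_mul_X_add β)
        rw [eval_add, eval_mul, eval_X, Polynomial.eval_C, redB_eval L p hp, redB_coeff] at h2
        have h3 : (divX β).eval (LaurentPolynomial.T p) * LaurentPolynomial.T p = 1 := by
          linear_combination h2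
        calc (divX β).eval (LaurentPolynomial.T p) =
            (divX β).eval (LaurentPolynomial.T p) * LaurentPolynomial.T p * LaurentPolynomial.T (-p) := by
              rw [mul_assoc, ← LaurentPolynomial.T_add, add_neg_cancel, LaurentPolynomial.T_zero, mul_one]
          _ = _ := by rw [h3, one_mul]
      rw [hev _ p hp, eval_pow, h1, LaurentPolynomial.T_pow, Int.toNat_of_nonneg (by omega)]
      congr 1
      ring

end Pool.Agent.H75.TB
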