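import Pool.Agent.H75.TB.Sol
import Pool.Agent.H75.TB.Red
import Pool.Agent.H75.TB.Near

/-!
# TB-M6: more rows

From `near` we have a solution `(Φ, h)` with rows `|a| ≤ R₁`, `R₁ ≥ 2L+1`, all positive at
`y = 1`; by continuity (`continuousOn_pe`, finitely many rows and vertices) there is `η > 1` with
all `pe (h v a) y > 0` for `|a| ≤ R₁`, `η⁻¹ ≤ y ≤ η`. Let `R ≥ R₁`. For `R₁ < |b| ≤ R` take `F_b`
from `reduce L b`; the row system `E_b` = (`1` in row `b`, `-F_b.coeff i` in the rows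
`0 ≤ i < 2L+1`, note `2L < R₁`) has `rowEv E_b p = T (b p) - F_b(T p) = 0` for `|p| ≤ L`. Put
`h' v = h v + C ε • ∑_b E_b`: the rows `b` have the value `ε > 0`, and the rows `0 ≤ i ≤ 2L`
have the value `h_i(y) - ε ∑_b (F_b.coeff i)(y)`, positive on `[η⁻¹, η]` for small rational
`ε > 0` by compactness; the other rows are unchanged. `Φ` is unchanged.
-/

namespace Pool.Agent.H75.TB

open LaurentPolynomial

/-- The row system that creates the row `b`. -/
noncomputable def ext_E (L : ℕ) (F : ℤ → Polynomial LP) (b : ℤ) : ℤ →₀ LP :=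
  Finsupp.single b 1 + ∑ i ∈ Finset.range (2 * L + 1), Finsupp.single (i : ℤ) (-(F b).coeff i)

lemma ext_rowEv (L : ℕ) (F : ℤ → Polynomial LP) (b : ℤ) (hd : (F b).natDegree < 2 * L + 1) (p : ℤ)
    (hp : (F b).eval (T p) = T (b * p)) : rowEv (ext_E L F b) p = 0 := by
  unfold ext_E
  rw [rowEv_add, rowEv_sum, rowEv_single, one_mul, ← hp, Polynomial.eval_eq_sum_range' hd]
  rw [← Finset.sum_add_distrib]
  refine Finset.sum_eq_zero fun i _ => ?_
  rw [rowEv_single, T_pow]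
  ring

lemma ext_low (L : ℕ) (F : ℤ → Polynomial LP) (b a : ℤ) (ha : (2 * L : ℤ) < |a|) :
    ext_E L F b a = if b = a then 1 else 0 := by
  unfold ext_E
  rw [Finsupp.add_apply, Finsupp.finsetSum_apply, Finsupp.single_apply]
  have h1 : ∑ i ∈ Finset.range (2 * L + 1), (Finsupp.single (i : ℤ) (-(F b).coeff i)) a = 0 := by
    refine Finset.sum_eq_zero fun i hi => ?_
    rw [Finset.mem_range] at hi
    rw [Finsupp.single_apply, if_neg]
    rintro rfl
    rw [abs_of_nonneg (by positivity)] at ha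
    omega
  rw [h1, add_zero]

lemma ext_eta {V : Type} [Finite V] (R : ℕ) (h : V → ℤ →₀ LP)
    (hpos : ∀ v (a : ℤ), |a| ≤ R → 0 < pe (h v a) 1) :
    ∃ η : ℝ, 1 < η ∧ ∀ v (a : ℤ), |a| ≤ R → ∀ y : ℝ, η⁻¹ ≤ y → y ≤ η → 0 < pe (h v a) y := by
  have h1 : ∀ᶠ y in nhds (1 : ℝ), ∀ v, ∀ a ∈ Finset.Icc (-(R : ℤ)) R, 0 < pe (h v a) y := by
    rw [Filter.eventually_all]
    intro v
    rw [Filter.eventually_all_finset]
    intro a ha
    rw [Finset.mem_Icc] at ha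
    have hc : ContinuousAt (pe (h v a)) 1 :=
      (continuousOn_pe _).continuousAt (Ioi_mem_nhds one_pos)
    exact hc.eventually (lt_mem_nhds (hpos v a (abs_le.2 ha)))
  obtain ⟨ε, hε, h2⟩ := Metric.eventually_nhds_iff.1 h1
  refine ⟨1 + ε / 2, by linarith, fun v a ha y hy1 hy2 => ?_⟩
  refine h2 ?_ v a (Finset.mem_Icc.2 (abs_le.1 ha))
  have h3 : 1 - ε / 2 ≤ (1 + ε / 2)⁻¹ := by
    rw [← one_div, le_div_iff₀ (by positivity)]
    nlinarith [sq_nonneg ε]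
  rw [Real.dist_eq, abs_lt]
  constructor <;> linarith

lemma ext_eps {V : Type} [Finite V] (R : ℕ) (h : V → ℤ →₀ LP) (D : ℤ → LP) {η : ℝ} (hη : 1 < η)
    (hpos : ∀ v (a : ℤ), |a| ≤ R → ∀ y : ℝ, η⁻¹ ≤ y → y ≤ η → 0 < pe (h v a) y) :
    ∃ ε : ℚ, 0 < ε ∧ ∀ v (a : ℤ), |a| ≤ R → ∀ y : ℝ, η⁻¹ ≤ y → y ≤ η →
      0 < pe (h v a) y + ε * pe (D a) y := by
  have hη0 : 0 < η⁻¹ := by positivity
  have h1 : ∀ᶠ e in nhds (0 : ℝ), ∀ v, ∀ a ∈ Finset.Icc (-(R : ℤ)) R,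
      0 < e → ∀ y : ℝ, η⁻¹ ≤ y → y ≤ η → 0 < pe (h v a) y + e * pe (D a) y := by
    rw [Filter.eventually_all]
    intro v
    rw [Filter.eventually_all_finset]
    intro a ha
    rw [Finset.mem_Icc] at ha
    have hp := hpos v a (abs_le.2 ha)
    have hsub : Set.Icc η⁻¹ η ⊆ Set.Ioi 0 := fun y hy => hη0.trans_le hy.1
    have hc : ContinuousOn (fun y => pe (D a) y / pe (h v a) y) (Set.Icc η⁻¹ η) := by
      refine ContinuousOn.div ((continuousOn_pe _).mono hsub) ((continuousOn_pe _).mono hsub) ?_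
      intro y hy
      exact (hp y hy.1 hy.2).ne'
    obtain ⟨K, hK⟩ := isCompact_Icc.exists_bound_of_continuousOn hc
    have h2 : ∀ᶠ e in nhds (0 : ℝ), e * (|K| + 1) < 1 := by
      have : Filter.Tendsto (fun e : ℝ => e * (|K| + 1)) (nhds 0) (nhds (0 * (|K| + 1))) :=
        (continuous_id.mul continuous_const).tendsto 0
      rw [zero_mul] at this
      exact this.eventually (gt_mem_nhds one_pos)
    filter_upwards [h2] with e he he0 y hy1 hy2
    have h3 := hp y hy1 hy2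
    have h4 := hK y ⟨hy1, hy2⟩
    rw [Real.norm_eq_abs] at h4
    have h5 : pe (D a) y = (pe (D a) y / pe (h v a) y) * pe (h v a) y := by
      field_simp
    have h6 : -(|K|) ≤ pe (D a) y / pe (h v a) y := by
      have h7 := neg_abs_le (pe (D a) y / pe (h v a) y)
      have h8 := le_abs_self K
      linarith
    rw [h5]
    have h9 : pe (h v a) y + e * (pe (D a) y / pe (h v a) y * pe (h v a) y) =
        pe (h v a) y * (1 + e * (pe (D a) y / pe (h v a) y)) := by ring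
    rw [h9]
    refine mul_pos h3 ?_
    have h10 : e * (-(|K|)) ≤ e * (pe (D a) y / pe (h v a) y) := mul_le_mul_of_nonneg_left h6 he0.le
    nlinarith
  obtain ⟨δ, hδ, h2⟩ := Metric.eventually_nhds_iff.1 h1
  obtain ⟨ε, hε0, hε⟩ := exists_rat_btwn hδ
  have hε0' : (0 : ℚ) < ε := by exact_mod_cast hε0
  refine ⟨ε, hε0', fun v a ha => ?_⟩
  refine h2 ?_ v a (Finset.mem_Icc.2 (abs_le.1 ha)) hε0
  rw [Real.dist_eq, sub_zero, abs_of_pos hε0]
  exact hε

theorem extend {V : Type} [Finite V] (A B Γ : V → ℚ) (hΓ : ∀ v, 0 < Γ v) (L : ℕ) :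
    ∃ (η : ℝ) (R₀ : ℕ), 1 < η ∧ ∀ R ≥ R₀, ∃ (Φ : ℚ → LP) (h : V → ℤ →₀ LP),
      IsSol A B Γ L R Φ h ∧
      ∀ v (a : ℤ), |a| ≤ R → ∀ y : ℝ, η⁻¹ ≤ y → y ≤ η → 0 < pe (h v a) y := by
  obtain ⟨R₁, Φ, h, hR₁, hsol, hpos⟩ := near A B Γ hΓ L
  obtain ⟨η, hη, hpos'⟩ := ext_eta R₁ h hpos
  refine ⟨η, R₁, hη, fun R hR => ?_⟩
  choose F hF1 hF2 using reduce L
  set S : Finset ℤ := (Finset.Icc (-(R : ℤ)) R).filter (fun b => (R₁ : ℤ) < |b|) with hS
  have hmS : ∀ b, b ∈ S ↔ |b| ≤ R ∧ (R₁ : ℤ) < |b| := by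
    intro b
    rw [hS, Finset.mem_filter, Finset.mem_Icc, abs_le]
  set D : ℤ →₀ LP := ∑ b ∈ S, ext_E L F b with hD
  have hDlow : ∀ a : ℤ, (R₁ : ℤ) < |a| → D a = if a ∈ S then 1 else 0 := by
    intro a ha
    rw [hD, Finsupp.finsetSum_apply]
    have h1 : ∀ b ∈ S, ext_E L F b a = if b = a then 1 else 0 := fun b _ =>
      ext_low L F b a (by omega)
    rw [Finset.sum_congr rfl h1, Finset.sum_ite_eq']
  obtain ⟨ε, hε, hpos2⟩ := ext_eps R₁ h (fun a => D a) hη hpos'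
  refine ⟨Φ, fun v => h v + (C ε : LP) • D, ⟨fun v p hp => ?_, fun v a ha => ?_⟩,
    fun v a ha y hy1 hy2 => ?_⟩
  · have h1 : rowEv D p = 0 := by
      rw [hD, rowEv_sum]
      exact Finset.sum_eq_zero fun b _ => ext_rowEv L F b (hF1 b) p (hF2 b p hp)
    rw [rowEv_add, rowEv_smul, h1, mul_zero, add_zero, hsol.ev v p hp]
  · have hR' : (R₁ : ℤ) < |a| := lt_of_le_of_lt (by exact_mod_cast hR) ha
    have h1 : a ∉ S := fun h => absurd ((hmS a).1 h).1 (not_le.2 ha)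
    rw [Finsupp.add_apply, Finsupp.smul_apply, hsol.supp v a hR', hDlow a hR', if_neg h1, smul_zero,
      add_zero]
  · have hy : y ≠ 0 := by
      have : 0 < η⁻¹ := by positivity
      exact (this.trans_le hy1).ne'
    have h1 : (h v + (C ε : LP) • D) a = h v a + C ε * D a := by
      rw [Finsupp.add_apply, Finsupp.smul_apply, smul_eq_mul]
    show 0 < pe ((h v + (C ε : LP) • D) a) y
    rw [h1, pe_add, pe_mul _ _ hy, pe_C]
    rcases le_or_gt |a| (R₁ : ℤ) with h2 | h2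
    · exact hpos2 v a h2 y hy1 hy2
    · rw [hsol.supp v a h2, hDlow a h2, if_pos ((hmS a).2 ⟨ha, h2⟩), pe_zero, pe_one]
      have : (0 : ℝ) < ε := by exact_mod_cast hε
      linarith

end Pool.Agent.H75.TB
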