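import Mathlib

/-!
# TB-G8a: centralisers in free groups are cyclic

A subgroup `C` of a free group is free (Nielsen-Schreier in Mathlib: `subgroupIsFreeOfIsFree`).
Let `C` be the centraliser of `x ≠ 1` in `N`; it is a free group (`IsFreeGroup`), `x ∈ C` is central
in `C` and `≠ 1`. A free group on a set with at least two elements `a ≠ b` has trivial centre: if `x`
commutes with the generators `a` and `b` then (reduced words: `FreeGroup.toWord`, or map to a group
where the image can be seen) `x` is a power of `a` and a power of `b`, so trivial. One way: in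
`FreeGroup α`, if `x ≠ 1` commutes with `of a`, then `x` is a power of `of a`: look at the reduced
word of `x`: if its first letter is not `a^{±1}` then the words of `a x` and `x a` have different
first letters; if it starts with `a^{±1}`, `x = a^{±1} x'` with `x'` shorter and commuting with `a`.
So `C` is free on one generator (or trivial), hence cyclic.
-/

namespace Pool.Agent.H75.TB

/-- a free group with a nontrivial centre has at most one generator -/
theorem FBCa_central {α : Type*} (x : FreeGroup α) (hx : x ≠ 1) (hc : ∀ y, y * x = x * y) :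
    Subsingleton α := by
  classical
  by_contra hns
  have hnt : Nontrivial α := not_subsingleton_iff_nontrivial.1 hns
  have hne : x.toWord ≠ [] := fun h => hx (FreeGroup.toWord_eq_nil_iff.1 h)
  obtain ⟨c, hcd⟩ : ∃ c, x.toWord.head hne = c := ⟨_, rfl⟩
  obtain ⟨ℓ, hℓ⟩ : ∃ ℓ, x.toWord.getLast hne = ℓ := ⟨_, rfl⟩
  obtain ⟨d, hd⟩ := exists_ne c.1
  obtain ⟨σ, hσ⟩ : ∃ σ : Bool, ℓ.1 = d → ℓ.2 = !σ := by
    by_cases h : ℓ.1 = d
    · exact ⟨!ℓ.2, fun _ => by simp⟩
    · exact ⟨true, fun h' => absurd h' h⟩
  have hred : FreeGroup.IsReduced ([(d, σ)] ++ x.toWord ++ [(d, !σ)]) := by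
    unfold FreeGroup.IsReduced
    rw [List.isChain_append, List.isChain_append]
    refine ⟨⟨List.isChain_singleton _, FreeGroup.isReduced_toWord, ?_⟩, List.isChain_singleton _, ?_⟩
    · intro p hp q hq
      rw [List.head?_eq_some_head hne, hcd] at hq
      simp only [List.getLast?_singleton, Option.mem_def, Option.some.injEq] at hp hq
      subst hp
      subst hq
      intro h
      exact absurd h hd
    · intro p hp q hq
      rw [List.getLast?_append_of_ne_nil _ hne, List.getLast?_eq_some_getLast hne, hℓ] at hp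
      simp only [List.head?_cons, Option.mem_def, Option.some.injEq] at hp hq
      subst hp
      subst hq
      exact hσ
  have h1 : FreeGroup.mk ([(d, σ)] ++ x.toWord ++ [(d, !σ)]) = x := by
    rw [← FreeGroup.mul_mk, ← FreeGroup.mul_mk, FreeGroup.mk_toWord, hc, mul_assoc, FreeGroup.mul_mk]
    have h2 : FreeGroup.mk ([(d, σ)] ++ [(d, !σ)]) = 1 := by
      have h3 : (FreeGroup.mk [(d, !σ)]) = (FreeGroup.mk [(d, σ)])⁻¹ := by
        rw [FreeGroup.inv_mk]
        simp [FreeGroup.invRev]
      rw [← FreeGroup.mul_mk, h3, mul_inv_cancel]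
    rw [h2, mul_one]
  have h2 : (FreeGroup.mk ([(d, σ)] ++ x.toWord ++ [(d, !σ)])).toWord =
      [(d, σ)] ++ x.toWord ++ [(d, !σ)] := by
    rw [FreeGroup.toWord_mk, hred.reduce_eq]
  rw [h1] at h2
  have h3 := congrArg List.length h2
  simp at h3
  omega

theorem FBCa_cyclic {α : Type*} [Subsingleton α] : ∃ z : FreeGroup α, ∀ y, ∃ k : ℤ, y = z ^ k := by
  by_cases h : Nonempty α
  · obtain ⟨a⟩ := h
    refine ⟨FreeGroup.of a, fun y => ?_⟩
    refine FreeGroup.induction_on y ⟨0, by simp⟩ (fun b => ⟨1, ?_⟩) (fun b _ => ⟨-1, ?_⟩) ?_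
    · rw [Subsingleton.elim b a, zpow_one]
    · rw [Subsingleton.elim b a, zpow_neg_one]
    · rintro _ _ ⟨k, rfl⟩ ⟨m, rfl⟩
      exact ⟨k + m, (zpow_add _ _ _).symm⟩
  · rw [not_nonempty_iff] at h
    exact ⟨1, fun y => ⟨0, by rw [zpow_zero]; exact Subsingleton.elim _ _⟩⟩

/-- in a free group the centraliser of a nontrivial element is cyclic -/
theorem centralizer_cyclic {N : Type*} [Group N] (n : ℕ) (e : N ≃* FreeGroup (Fin n)) (x : N)
    (hx : x ≠ 1) : ∃ z : N, ∀ y, y * x = x * y → ∃ k : ℤ, y = z ^ k := by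
  have : IsFreeGroup N := IsFreeGroup.ofMulEquiv e.symm
  let C : Subgroup N := Subgroup.centralizer {x}
  have hxC : x ∈ C := by
    rw [Subgroup.mem_centralizer_singleton_iff]
  let f := IsFreeGroup.toFreeGroup C
  have hsub : Subsingleton (IsFreeGroup.Generators C) := by
    refine FBCa_central (f ⟨x, hxC⟩) ?_ ?_
    · intro h
      rw [map_eq_one_iff f f.injective] at h
      exact hx (congrArg Subtype.val h)
    · intro y
      obtain ⟨y, rfl⟩ := f.surjective y
      rw [← map_mul, ← map_mul]
      congr 1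
      apply Subtype.ext
      have := y.2
      rw [Subgroup.mem_centralizer_singleton_iff] at this
      exact this
  obtain ⟨z, hz⟩ := FBCa_cyclic (α := IsFreeGroup.Generators C)
  refine ⟨(f.symm z : C), fun y hy => ?_⟩
  have hyC : y ∈ C := by
    rw [Subgroup.mem_centralizer_singleton_iff]
    exact hy
  obtain ⟨k, hk⟩ := hz (f ⟨y, hyC⟩)
  refine ⟨k, ?_⟩
  have h1 : (⟨y, hyC⟩ : C) = (f.symm z) ^ k := by
    rw [← map_zpow, ← hk, MulEquiv.symm_apply_apply]
  have h2 := congrArg Subtype.val h1
  simpa using h2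

end Pool.Agent.H75.TB
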