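import Pool.Agent.H75.TB.Source
import Pool.Agent.H75.TB.FBCa

/-!
# TB-G8b: free-by-cyclic tubular groups: the homomorphism is nonzero on the edge groups

`N = Φ.ker` is free.
(1) `fbc_vertex_ne`: for every vertex `v` some `a` has `Φ (gv v a) ≠ 1`: otherwise the injective
(`vertex_injective`) image of `ℤ × ℤ` is contained in `N`, in the centraliser of `gv v (1,0) ≠ 1`,
so all its elements are powers of one `z` (`centralizer_cyclic`): `gv v (1,0) = z^k`,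
`gv v (0,1) = z^l`, `gv v (l, -k) = 1`, so `k = l = 0`, contradiction.
(2) `fbc_edge_ne`: `Φ (gv (src e) (u e)) ≠ 1`. Suppose it is `1`. Put `x₀ = gv (tgt e) (u' e) =
gt e * gv (src e) (u e) * (gt e)⁻¹ ∈ N` (`gt_rel`), `x₀ ≠ 1` (`vertex_injective`, `u'_ne`). By (1)
choose `a₀` at `src e`, `b₀` at `tgt e` with nontrivial `Φ`; multiples `a = i • a₀`, `b = j • b₀`
with `i, j ≠ 0` and `Φ a = Φ b ≠ 1`. Then `a ≠ m • u e` (as `Φ (u e) = 1`), and `b ≠ m • u' e`.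
`X = gt e * gv (src e) a * (gt e)⁻¹` and `Y = gv (tgt e) b` commute with `x₀`, and `n = X Y⁻¹ ∈ N`
commutes with `x₀`. By `centralizer_cyclic` (in `N`) all elements of `N` commuting with `x₀` are
powers of one `z`, wlog `z` commutes with `x₀` as `x₀ = z^l`, `l ≠ 0`, is a power of `z`. `Y z Y⁻¹ ∈ N`
commutes with `Y x₀ Y⁻¹ = x₀`, so `Y z Y⁻¹ = z^k`, similarly `Y⁻¹ z Y = z^k'`, `k k' = 1` (`z` has
infinite order), `k = ±1`, and `z^l = x₀ = Y x₀ Y⁻¹ = z^(k l)` gives `k = 1`. So `Y` commutes with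
`z`, hence with `n` and with `X = n Y`: contradiction to `not_commute`.
`fbc_hom`: compose the quotient map with the isomorphism to `Multiplicative ℤ`.
-/

namespace Pool.Agent.H75.TB

open Multiplicative

/-- the vertex group as a homomorphism -/
def fbc_gvh {D : TubGraph} (v : D.V) : Multiplicative (ℤ × ℤ) →* D.Grp :=
  MonoidHom.mk' (fun a => gv v (toAdd a)) (fun _ _ => gv_add v _ _)

theorem fbc_zsmul {D : TubGraph} (v : D.V) (m : ℤ) (a : ℤ × ℤ) : (gv v (m • a) : D.Grp) = gv v a ^ m := by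
  have h := map_zpow (fbc_gvh (D := D) v) (ofAdd a) m
  exact h

theorem fbc_comm {D : TubGraph} (v : D.V) (a b : ℤ × ℤ) : (gv v a * gv v b : D.Grp) = gv v b * gv v a := by
  rw [← gv_add, ← gv_add, add_comm]

theorem fbc_tf {D : TubGraph} (Φ : D.Grp →* Multiplicative ℤ) (n : ℕ)
    (e : Φ.ker ≃* FreeGroup (Fin n)) {z : Φ.ker} (hz : z ≠ 1) {k : ℤ} (h : z ^ k = 1) : k = 0 := by
  have h1 : (e z) ^ k = 1 := by rw [← map_zpow, h, map_one]
  have h2 : e z ≠ 1 := fun h3 => hz (e.injective (by rw [h3, map_one]))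
  exact (IsMulTorsionFree.zpow_eq_one_iff_right h2).1 h1

theorem fbc_vertex_ne {D : TubGraph} (Φ : D.Grp →* Multiplicative ℤ) (n : ℕ)
    (e : Φ.ker ≃* FreeGroup (Fin n)) (v : D.V) : ∃ a, Φ (gv v a) ≠ 1 := by
  by_contra hc
  push Not at hc
  have hx : (⟨gv v (1, 0), hc _⟩ : Φ.ker) ≠ 1 := by
    intro h
    have h1 := vertex_injective v (1, 0) (congrArg Subtype.val h)
    exact absurd (congrArg Prod.fst h1) (by norm_num)
  obtain ⟨z, hz⟩ := centralizer_cyclic n e _ hx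
  obtain ⟨k, hk⟩ := hz ⟨gv v (1, 0), hc _⟩ rfl
  obtain ⟨l, hl⟩ := hz ⟨gv v (0, 1), hc _⟩ (Subtype.ext (fbc_comm v _ _))
  have hk' : gv v (1, 0) = (z : D.Grp) ^ k := by
    have := congrArg Subtype.val hk
    simpa using this
  have hl' : gv v (0, 1) = (z : D.Grp) ^ l := by
    have := congrArg Subtype.val hl
    simpa using this
  have h1 : gv v ((l : ℤ), -k) = (1 : D.Grp) := by
    have e1 : ((l : ℤ), -k) = l • ((1 : ℤ), (0 : ℤ)) + (-k) • ((0 : ℤ), (1 : ℤ)) := by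
      ext <;> simp
    rw [e1, gv_add, fbc_zsmul, fbc_zsmul, hk', hl', ← zpow_mul, ← zpow_mul, ← zpow_add]
    have : k * l + l * -k = 0 := by ring
    rw [this, zpow_zero]
  have h2 := vertex_injective v _ h1
  have h3 : k = 0 := by
    have := congrArg Prod.snd h2
    simpa using this
  rw [h3, zpow_zero] at hk'
  exact hx (Subtype.ext hk')

theorem fbc_edge_ne {D : TubGraph} (Φ : D.Grp →* Multiplicative ℤ) (n : ℕ)
    (e : Φ.ker ≃* FreeGroup (Fin n)) (ε : D.E) : Φ (gv (D.src ε) (D.u ε)) ≠ 1 := by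
  intro h0
  have hx0 : gt ε * gv (D.src ε) (D.u ε) * (gt ε)⁻¹ = gv (D.tgt ε) (D.u' ε) := by
    rw [gt_rel, mul_assoc, mul_inv_cancel, mul_one]
  have hΦx : Φ (gv (D.tgt ε) (D.u' ε)) = 1 := by
    rw [← hx0, map_mul, map_mul, h0, mul_one, map_inv, mul_inv_cancel]
  have hxne : (⟨gv (D.tgt ε) (D.u' ε), hΦx⟩ : Φ.ker) ≠ 1 := by
    intro h
    exact D.u'_ne ε (vertex_injective _ _ (congrArg Subtype.val h))
  obtain ⟨z, hz⟩ := centralizer_cyclic n e _ hxne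
  obtain ⟨a₀, ha₀⟩ := fbc_vertex_ne Φ n e (D.src ε)
  obtain ⟨b₀, hb₀⟩ := fbc_vertex_ne Φ n e (D.tgt ε)
  obtain ⟨i, hi⟩ : ∃ i : ℤ, i = toAdd (Φ (gv (D.tgt ε) b₀)) := ⟨_, rfl⟩
  obtain ⟨j, hj⟩ : ∃ j : ℤ, j = toAdd (Φ (gv (D.src ε) a₀)) := ⟨_, rfl⟩
  have hi' : Φ (gv (D.tgt ε) b₀) = ofAdd i := by rw [hi]; rfl
  have hj' : Φ (gv (D.src ε) a₀) = ofAdd j := by rw [hj]; rfl
  have hi0 : i ≠ 0 := by
    intro h
    rw [h] at hi'
    exact hb₀ hi'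
  have hj0 : j ≠ 0 := by
    intro h
    rw [h] at hj'
    exact ha₀ hj'
  have hΦa : Φ (gv (D.src ε) (i • a₀)) = ofAdd (i * j) := by
    rw [fbc_zsmul, map_zpow, hj', ← ofAdd_zsmul, smul_eq_mul]
  have hΦb : Φ (gv (D.tgt ε) (j • b₀)) = ofAdd (i * j) := by
    rw [fbc_zsmul, map_zpow, hi', ← ofAdd_zsmul, smul_eq_mul, mul_comm]
  have hij : (ofAdd (i * j) : Multiplicative ℤ) ≠ 1 := by
    intro h
    have : i * j = 0 := ofAdd_eq_one.1 h
    rcases mul_eq_zero.1 this with h | h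
    · exact hi0 h
    · exact hj0 h
  refine not_commute ε (i • a₀) (j • b₀) ?_ ?_ ?_
  · intro m hm
    rw [hm, fbc_zsmul, map_zpow, h0, one_zpow] at hΦa
    exact hij hΦa.symm
  · intro m hm
    rw [hm, fbc_zsmul, map_zpow, hΦx, one_zpow] at hΦb
    exact hij hΦb.symm
  obtain ⟨x₀, hx₀⟩ : ∃ x₀ : D.Grp, x₀ = gv (D.tgt ε) (D.u' ε) := ⟨_, rfl⟩
  obtain ⟨X, hX⟩ : ∃ X : D.Grp, X = gt ε * gv (D.src ε) (i • a₀) * (gt ε)⁻¹ := ⟨_, rfl⟩
  obtain ⟨Y, hY⟩ : ∃ Y : D.Grp, Y = gv (D.tgt ε) (j • b₀) := ⟨_, rfl⟩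
  rw [← hX, ← hY]
  have hXx : X * x₀ = x₀ * X := by
    rw [hx₀, ← hx0, hX]
    have := fbc_comm (D.src ε) (i • a₀) (D.u ε)
    calc gt ε * gv (D.src ε) (i • a₀) * (gt ε)⁻¹ * (gt ε * gv (D.src ε) (D.u ε) * (gt ε)⁻¹)
        = gt ε * (gv (D.src ε) (i • a₀) * gv (D.src ε) (D.u ε)) * (gt ε)⁻¹ := by group
      _ = gt ε * (gv (D.src ε) (D.u ε) * gv (D.src ε) (i • a₀)) * (gt ε)⁻¹ := by rw [this]
      _ = gt ε * gv (D.src ε) (D.u ε) * (gt ε)⁻¹ * (gt ε * gv (D.src ε) (i • a₀) * (gt ε)⁻¹) := by group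
  have hYx : Y * x₀ = x₀ * Y := by
    rw [hx₀, hY]
    exact fbc_comm _ _ _
  have hΦX : Φ X = ofAdd (i * j) := by
    rw [hX, map_mul, map_mul, hΦa, map_inv, mul_comm (Φ (gt ε)), mul_assoc, mul_inv_cancel, mul_one]
  have hΦY : Φ Y = ofAdd (i * j) := by rw [hY, hΦb]
  have hn : Φ (X * Y⁻¹) = 1 := by rw [map_mul, map_inv, hΦX, hΦY, mul_inv_cancel]
  have hYix : Y⁻¹ * x₀ = x₀ * Y⁻¹ := by
    calc Y⁻¹ * x₀ = Y⁻¹ * (x₀ * Y) * Y⁻¹ := by group
      _ = Y⁻¹ * (Y * x₀) * Y⁻¹ := by rw [hYx]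
      _ = x₀ * Y⁻¹ := by group
  obtain ⟨k1, hk1⟩ := hz ⟨X * Y⁻¹, hn⟩ (by
    refine Subtype.ext ?_
    change X * Y⁻¹ * gv (D.tgt ε) (D.u' ε) = gv (D.tgt ε) (D.u' ε) * (X * Y⁻¹)
    rw [← hx₀, mul_assoc, hYix, ← mul_assoc, hXx, mul_assoc])
  obtain ⟨l, hl⟩ := hz ⟨gv (D.tgt ε) (D.u' ε), hΦx⟩ rfl
  have hl' : x₀ = (z : D.Grp) ^ l := by
    have := congrArg Subtype.val hl
    rw [hx₀]
    simpa using this
  have hk1' : X * Y⁻¹ = (z : D.Grp) ^ k1 := by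
    have := congrArg Subtype.val hk1
    simpa using this
  have hzΦ : Φ (Y * z * Y⁻¹) = 1 := by
    have : Φ z = 1 := z.2
    rw [map_mul, map_mul, this, mul_one, map_inv, mul_inv_cancel]
  have hYxY : Y * x₀ * Y⁻¹ = x₀ := by rw [hYx, mul_assoc, mul_inv_cancel, mul_one]
  obtain ⟨k, hk⟩ := hz ⟨Y * z * Y⁻¹, hzΦ⟩ (by
    refine Subtype.ext ?_
    change Y * z * Y⁻¹ * gv (D.tgt ε) (D.u' ε) = gv (D.tgt ε) (D.u' ε) * (Y * z * Y⁻¹)
    rw [← hx₀]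
    have hzx : (z : D.Grp) * x₀ = x₀ * z := by
      rw [hl', ← zpow_one_add, add_comm, zpow_add_one]
    calc Y * z * Y⁻¹ * x₀ = Y * z * Y⁻¹ * (Y * x₀ * Y⁻¹) := by rw [hYxY]
      _ = Y * (z * x₀) * Y⁻¹ := by group
      _ = Y * (x₀ * z) * Y⁻¹ := by rw [hzx]
      _ = (Y * x₀ * Y⁻¹) * (Y * z * Y⁻¹) := by group
      _ = x₀ * (Y * z * Y⁻¹) := by rw [hYxY])
  have hk' : Y * z * Y⁻¹ = (z : D.Grp) ^ k := by
    have := congrArg Subtype.val hk
    simpa using this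
  have hzne : z ≠ 1 := by
    intro h
    rw [h, one_zpow] at hl
    exact hxne hl
  have hkl : k = 1 := by
    have h1 : (z : D.Grp) ^ (k * l) = (z : D.Grp) ^ l := by
      rw [zpow_mul, ← hk', conj_zpow, ← hl', hYxY]
    have h2 : z ^ (k * l - l) = 1 := by
      refine Subtype.ext ?_
      rw [SubgroupClass.coe_zpow, zpow_sub, h1, mul_inv_cancel]
      rfl
    have h3 := fbc_tf Φ n e hzne h2
    have h4 : l ≠ 0 := by
      intro h
      rw [h, zpow_zero] at hl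
      exact hxne hl
    have h5 : (k - 1) * l = 0 := by linarith
    rcases mul_eq_zero.1 h5 with h | h
    · linarith
    · exact absurd h h4
  rw [hkl, zpow_one] at hk'
  have hYz : Y * z = z * Y := by
    calc Y * z = Y * z * Y⁻¹ * Y := by group
      _ = z * Y := by rw [hk']
  have hYn : Y * (X * Y⁻¹) = (X * Y⁻¹) * Y := by
    rw [hk1']
    exact ((show Commute Y (z : D.Grp) from hYz).zpow_right k1)
  calc X * Y = (X * Y⁻¹) * Y * Y := by group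
    _ = Y * (X * Y⁻¹) * Y := by rw [hYn]
    _ = Y * X := by group

theorem fbc_hom {G : Type*} [Group G] (h : FreeByCyclic G) :
    ∃ (Φ : G →* Multiplicative ℤ) (n : ℕ), Nonempty (Φ.ker ≃* FreeGroup (Fin n)) := by
  obtain ⟨n, N, hN, ⟨e⟩, ⟨f⟩⟩ := h
  refine ⟨f.toMonoidHom.comp (QuotientGroup.mk' N), n, ⟨MulEquiv.trans (MulEquiv.subgroupCongr ?_) e⟩⟩
  ext x
  rw [MonoidHom.mem_ker, MonoidHom.comp_apply]
  constructor
  · intro h1
    have h2 : (QuotientGroup.mk' N) x = 1 := f.injective (by rw [map_one]; exact h1)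
    rwa [← MonoidHom.mem_ker, QuotientGroup.ker_mk'] at h2
  · intro h1
    have h2 : (QuotientGroup.mk' N) x = 1 := by
      rwa [← MonoidHom.mem_ker, QuotientGroup.ker_mk']
    rw [h2, map_one]

end Pool.Agent.H75.TB
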