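import Pool.Agent.H75.TB.FarB

/-!
# TB-M9c: a solution that is positive for `y ≥ η`

Choose a natural number `Λ ≥ 1` such that for all `v` the numbers `Λ A_v`, `Λ B_v`, `Λ Γ_v` are
integers and `2 L η^(-Λ Γ_v) ≤ 1/4` (`Λ` a large multiple of a common denominator).
`Ψ_v p = Λ (A_v + B_v p + Γ_v p²)`, `s_v p = Λ (B_v + 2 Γ_v p)`, `G_v = Λ Γ_v` satisfy the hypotheses
of `far_vertex` for every `R ≥ R₀` which bounds all `|s_v p|`, `|p| ≤ L`. Let `D_v`, `h_v` be given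
by `far_vertex`. The solution: rows `(∏_{w ≠ v} D_w) • h_v`, `Φ q = (∏_w D_w) * T ⌊Λ q⌋`.
-/

namespace Pool.Agent.H75.TB

open LaurentPolynomial

/-- A common denominator. -/
theorem far_den {V : Type} [Fintype V] (A : V → ℚ) : ∃ d : ℕ, 0 < d ∧ ∀ v, ∃ a : ℤ, (d : ℚ) * A v = a := by
  classical
  refine ⟨∏ v, (A v).den, Finset.prod_pos fun v _ => (A v).den_pos, fun v => ?_⟩
  refine ⟨(∏ w ∈ Finset.univ.erase v, ((A w).den : ℤ)) * (A v).num, ?_⟩
  rw [← Finset.mul_prod_erase Finset.univ (fun v => (A v).den) (Finset.mem_univ v)]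
  push_cast
  have h1 : ((A v).den : ℚ) * A v = (A v).num := by
    rw [mul_comm]
    exact Rat.mul_den_eq_num (A v)
  calc ((A v).den : ℚ) * (∏ w ∈ Finset.univ.erase v, ((A w).den : ℚ)) * A v
      = (∏ w ∈ Finset.univ.erase v, ((A w).den : ℚ)) * (((A v).den : ℚ) * A v) := by ring
    _ = _ := by rw [h1]

theorem far {V : Type} [Finite V] (A B Γ : V → ℚ) (hΓ : ∀ v, 0 < Γ v) (L : ℕ) (η : ℝ)
    (hη : 1 < η) (R₀ : ℕ) :
    ∃ R ≥ R₀, ∃ (Φ : ℚ → LP) (h : V → ℤ →₀ LP), IsSol A B Γ L R Φ h ∧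
      ∀ v (a : ℤ), |a| ≤ R → ∀ y : ℝ, η ≤ y → 0 < pe (h v a) y := by
  classical
  have : Fintype V := Fintype.ofFinite V
  obtain ⟨d1, hd1, hA⟩ := far_den A
  obtain ⟨d2, hd2, hB⟩ := far_den B
  obtain ⟨d3, hd3, hC⟩ := far_den Γ
  choose a1 ha1 using hA
  choose b1 hb1 using hB
  choose c1 hc1 using hC
  -- the exponent
  obtain ⟨k, hk⟩ : ∃ k : ℕ, 2 * (L : ℝ) * (η⁻¹) ^ k ≤ 1 / 4 := by
    have h1 : Filter.Tendsto (fun k : ℕ => 2 * (L : ℝ) * (η⁻¹) ^ k) Filter.atTop (nhds (2 * (L : ℝ) * 0)) :=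
      (tendsto_pow_atTop_nhds_zero_of_lt_one (by positivity) (inv_lt_one_of_one_lt₀ hη)).const_mul _
    rw [mul_zero] at h1
    exact (h1.eventually (ge_mem_nhds (by norm_num))).exists
  let Λ : ℕ := (k + 1) * (d1 * d2 * d3)
  let α : V → ℤ := fun v => (k + 1) * (d2 * d3) * a1 v
  let β : V → ℤ := fun v => (k + 1) * (d1 * d3) * b1 v
  let γ : V → ℤ := fun v => (k + 1) * (d1 * d2) * c1 v
  have hα : ∀ v, (Λ : ℚ) * A v = α v := by
    intro v
    simp only [Λ, α]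
    push_cast
    rw [← ha1]
    ring
  have hβ : ∀ v, (Λ : ℚ) * B v = β v := by
    intro v
    simp only [Λ, β]
    push_cast
    rw [← hb1]
    ring
  have hγ : ∀ v, (Λ : ℚ) * Γ v = γ v := by
    intro v
    simp only [Λ, γ]
    push_cast
    rw [← hc1]
    ring
  have hc1p : ∀ v, 1 ≤ c1 v := by
    intro v
    have h1 : (0 : ℚ) < c1 v := by
      rw [← hc1]
      have := hΓ v
      positivity
    have h2 : 0 < c1 v := by exact_mod_cast h1
    omega
  have hγk : ∀ v, (k : ℤ) + 1 ≤ γ v := by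
    intro v
    have h1 : (1 : ℤ) ≤ (d1 : ℤ) * d2 := by
      have : 0 < d1 * d2 := Nat.mul_pos hd1 hd2
      exact_mod_cast this
    have h2 : (1 : ℤ) ≤ (d1 : ℤ) * d2 * c1 v := by
      have := hc1p v
      nlinarith
    have h3 : γ v = ((k : ℤ) + 1) * ((d1 : ℤ) * d2 * c1 v) := by
      simp only [γ]
      ring
    rw [h3]
    have h4 : (0 : ℤ) ≤ (k : ℤ) + 1 := by positivity
    nlinarith
  have hG : ∀ v, ((γ v).toNat : ℤ) = γ v := fun v => Int.toNat_of_nonneg (by have := hγk v; omega)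
  let R : ℕ := R₀ + ∑ v, ((β v).natAbs + 2 * (γ v).natAbs * L)
  have hR : ∀ v (p : ℤ), |p| ≤ L → |β v + 2 * γ v * p| ≤ R := by
    intro v p hp
    have h1 : (β v).natAbs + 2 * (γ v).natAbs * L ≤ ∑ v, ((β v).natAbs + 2 * (γ v).natAbs * L) :=
      Finset.single_le_sum (f := fun v => (β v).natAbs + 2 * (γ v).natAbs * L) (fun _ _ => Nat.zero_le _)
        (Finset.mem_univ v)
    have h2 : ((β v).natAbs + 2 * (γ v).natAbs * L : ℕ) ≤ R := by
      simp only [R]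
      omega
    have h3 : (((β v).natAbs + 2 * (γ v).natAbs * L : ℕ) : ℤ) ≤ (R : ℤ) := by exact_mod_cast h2
    push_cast at h3
    calc |β v + 2 * γ v * p| ≤ |β v| + |2 * γ v * p| := abs_add_le _ _
      _ = |β v| + 2 * |γ v| * |p| := by rw [abs_mul (2 * γ v) p, abs_mul 2 (γ v), abs_two]
      _ ≤ |β v| + 2 * |γ v| * L := by
        have := mul_le_mul_of_nonneg_left hp (show (0 : ℤ) ≤ 2 * |γ v| by positivity)
        linarith
      _ ≤ R := h3
  have hv : ∀ v, ∃ (D : LP) (h : ℤ →₀ LP), (∀ y : ℝ, η ≤ y → 0 < pe D y) ∧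
      (∀ a : ℤ, (R : ℤ) < |a| → h a = 0) ∧
      (∀ p : ℤ, |p| ≤ L → rowEv h p = D * T (α v + β v * p + γ v * p ^ 2)) ∧
      ∀ a : ℤ, |a| ≤ R → ∀ y : ℝ, η ≤ y → 0 < pe (h a) y := by
    intro v
    refine far_vertex L R (fun p => α v + β v * p + γ v * p ^ 2) (fun p => β v + 2 * γ v * p) (γ v).toNat ?_ ?_
      (hR v) η hη ?_
    · have := hγk v
      omega
    · intro p q
      rw [hG]
      ring
    · refine le_trans (mul_le_mul_of_nonneg_left ?_ (by positivity)) hk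
      refine pow_le_pow_of_le_one (by positivity) (inv_le_one_of_one_le₀ hη.le) ?_
      have := hγk v
      omega
  choose D h hD hsupp hev hpos using hv
  refine ⟨R, Nat.le_add_right _ _, fun q => (∏ w, D w) * T ⌊(Λ : ℚ) * q⌋,
    fun v => (∏ w ∈ Finset.univ.erase v, D w) • h v, ⟨?_, ?_⟩, ?_⟩
  · intro v p hp
    rw [rowEv_smul, hev v p hp, ← Finset.mul_prod_erase Finset.univ D (Finset.mem_univ v)]
    have h1 : (Λ : ℚ) * qv (A v) (B v) (Γ v) p = ((α v + β v * p + γ v * p ^ 2 : ℤ) : ℚ) := by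
      unfold qv
      push_cast
      rw [← hα, ← hβ, ← hγ]
      ring
    rw [h1, Int.floor_intCast]
    ring
  · intro v a ha
    rw [Finsupp.smul_apply, hsupp v a ha, smul_zero]
  · intro v a ha y hy
    have hy0 : y ≠ 0 := by
      have : 0 < y := by linarith
      exact this.ne'
    rw [Finsupp.smul_apply, smul_eq_mul, pe_mul _ _ hy0, pe_prod _ _ hy0]
    exact mul_pos (Finset.prod_pos fun w _ => hD w y hy) (hpos v a ha y hy)

end Pool.Agent.H75.TB
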