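import Mathlib

/-!
# TB-M9a: a linear system close to the identity has a positive solution

`det ≠ 0`: `det_ne_zero_of_sum_row_lt_diag` (Gershgorin). Let `X = max_i |x i|`. From
`x i = ρ i - ∑_{j ≠ i} N i j x j` we get `|x i| ≤ 1 + X/4`, so `X ≤ 4/3`, and
`x i ≥ 3/4 - X/4 ≥ 3/4 - 1/3 > 0`.
-/

namespace Pool.Agent.H75.TB

theorem pos_of_near_id {ι : Type*} [Fintype ι] [DecidableEq ι] (N : Matrix ι ι ℝ) (x ρ : ι → ℝ)
    (hd : ∀ i, N i i = 1) (ho : ∀ i, ∑ j ∈ Finset.univ.erase i, |N i j| ≤ 1 / 4)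
    (hx : N.mulVec x = ρ) (h1 : ∀ i, 3 / 4 ≤ ρ i) (h2 : ∀ i, ρ i ≤ 1) :
    N.det ≠ 0 ∧ ∀ i, 0 < x i := by
  refine ⟨?_, ?_⟩
  · apply det_ne_zero_of_sum_row_lt_diag
    intro i
    rw [hd i, norm_one]
    simp only [Real.norm_eq_abs]
    linarith [ho i]
  · intro i
    have hrow : ∀ k, x k = ρ k - ∑ j ∈ Finset.univ.erase k, N k j * x j := by
      intro k
      have h := congrFun hx k
      rw [Matrix.mulVec, dotProduct, ← Finset.add_sum_erase _ _ (Finset.mem_univ k), hd k, one_mul] at h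
      linarith
    obtain ⟨k, -, hk⟩ := Finset.exists_max_image Finset.univ (fun j => |x j|) ⟨i, Finset.mem_univ i⟩
    have hb : ∀ j, |∑ l ∈ Finset.univ.erase j, N j l * x l| ≤ 1 / 4 * |x k| := by
      intro j
      calc |∑ l ∈ Finset.univ.erase j, N j l * x l|
          ≤ ∑ l ∈ Finset.univ.erase j, |N j l * x l| := Finset.abs_sum_le_sum_abs _ _
        _ ≤ ∑ l ∈ Finset.univ.erase j, |N j l| * |x k| := by
            refine Finset.sum_le_sum (fun l _ => ?_)
            rw [abs_mul]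
            exact mul_le_mul_of_nonneg_left (hk l (Finset.mem_univ l)) (abs_nonneg _)
        _ = (∑ l ∈ Finset.univ.erase j, |N j l|) * |x k| := (Finset.sum_mul _ _ _).symm
        _ ≤ 1 / 4 * |x k| := mul_le_mul_of_nonneg_right (ho j) (abs_nonneg _)
    have hX : |x k| ≤ 4 / 3 := by
      have h3 := hrow k
      have h4 := abs_le.1 (hb k)
      have h5 := h1 k
      have h6 := h2 k
      rcases abs_cases (x k) with ⟨h7, _⟩ | ⟨h7, _⟩ <;> rw [h7] at h4 ⊢ <;> linarith [h4.1, h4.2]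
    have h3 := hrow i
    have h4 := abs_le.1 (hb i)
    have h5 := h1 i
    linarith [h4.1, h4.2]

end Pool.Agent.H75.TB
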