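import Pool.Agent.H75.TB.Sol
import Pool.Agent.H75.TB.FarA

/-!
# TB-M9b: the far solution for one vertex (complete, helper69)

Nodes `p`, `|p| ≤ L`; integers `Ψ p` and rows `s p` with `s q (p - q) - (Ψ p - Ψ q) = -G (p-q)²`
(`Ψ` is `Λ` times the quadratic, `s` its slope); the `s p` are distinct (`G > 0`: take the sum of the
identity for `(p,q)` and `(q,p)`: `(s q - s p)(p - q) = -2 G (p-q)²`).
Matrix over `LP` indexed by `{p : ℤ // p ∈ Finset.Icc (-L) L}`: `N_{pq} = T (-G (p-q)²)`.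
`D = (det N)²`. Let `m` be a natural number with `m ≥ |b| |p| + |Ψ p|` for `|b| ≤ R`, `|p| ≤ L`, and
`ε = 1/(4(2R+1))`. Define, for `|p| ≤ L`,
`ρ_p = 1 - ∑_{|b| ≤ R, b not of the form s q} C ε T (-m + b p - Ψ p)`,
`u = det N • (adjugate N *ᵥ ρ)` (so `N *ᵥ u = D • ρ`, `Matrix.mul_adjugate`),
rows: `h_{s p} = u_p T (Ψ p - s p * p)`, `h_b = C ε D T (-m)` for the other `|b| ≤ R`, `0` else.
Then for `|p| ≤ L`:
`rowEv h p = ∑_q u_q T (Ψ q - s q q + s q p) + ∑_b C ε D T (-m + b p)`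
`= T (Ψ p) ∑_q N_pq u_q + D T (Ψ p) (1 - ρ_p) = D T (Ψ p)`.
Positivity at a real `y ≥ η`: the matrix `N(y)` (entries `pe`) has diagonal `1` and off-diagonal row
sums `≤ 2L y^{-G} ≤ 2L η^{-G} ≤ 1/4`; `3/4 ≤ ρ_p(y) ≤ 1` (all exponents are `≤ 0`, `y ≥ 1`). Apply
`pos_of_near_id` to `x = u(y)/D(y)` (`D(y) = (det N(y))² ≠ 0`; first get `det N(y) ≠ 0` by applying
it to `x = N(y)⁻¹ ρ(y)` or `det_ne_zero_of_sum_row_lt_diag`). `evH` is a ring homomorphism:
`RingHom.map_det`, `RingHom.map_adjugate`.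
-/

namespace Pool.Agent.H75.TB

open LaurentPolynomial

/-- the nodes -/
abbrev FarI (L : ℕ) : Type := {p : ℤ // p ∈ Finset.Icc (-(L : ℤ)) L}

theorem farB_card (L : ℕ) : Fintype.card (FarI L) = 2 * L + 1 := by
  rw [Fintype.card_coe, Int.card_Icc]
  omega

/-- the matrix -/
noncomputable def farN (L G : ℕ) : Matrix (FarI L) (FarI L) LP :=
  Matrix.of fun p q => T (-(G : ℤ) * (p.1 - q.1) ^ 2)

theorem farB_zpow_le {y : ℝ} (hy : 1 ≤ y) {a b : ℤ} (h : a ≤ b) : y ^ a ≤ y ^ b :=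
  zpow_le_zpow_right₀ hy h

/-- off-diagonal row sums -/
theorem farB_off (L G : ℕ) (η : ℝ) (hη : 1 < η) (hsm : 2 * (L : ℝ) * (η⁻¹) ^ G ≤ 1 / 4) {y : ℝ}
    (hy : η ≤ y) (p : FarI L) :
    ∑ q ∈ Finset.univ.erase p, |y ^ (-(G : ℤ) * (p.1 - q.1) ^ 2)| ≤ 1 / 4 := by
  have hη0 : 0 < η := lt_trans one_pos hη
  have hy0 : 0 < y := lt_of_lt_of_le hη0 hy
  have hy1 : 1 ≤ y := hη.le.trans hy
  have h1 : ∀ q ∈ Finset.univ.erase p, |y ^ (-(G : ℤ) * (p.1 - q.1) ^ 2)| ≤ (η⁻¹) ^ G := by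
    intro q hq
    have hne : q ≠ p := (Finset.mem_erase.1 hq).1
    have hne' : p.1 - q.1 ≠ 0 := fun h => hne (Subtype.ext (by linarith))
    have h2 : 1 ≤ (p.1 - q.1) ^ 2 := by
      have := sq_pos_of_ne_zero hne'
      omega
    have h3 : -(G : ℤ) * (p.1 - q.1) ^ 2 ≤ -(G : ℤ) := by
      have : (0 : ℤ) ≤ G := Int.natCast_nonneg _
      nlinarith
    rw [abs_of_pos (zpow_pos hy0 _)]
    refine (farB_zpow_le hy1 h3).trans ?_
    rw [zpow_neg, zpow_natCast, inv_pow]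
    exact inv_anti₀ (pow_pos hη0 _) (pow_le_pow_left₀ hη0.le hy _)
  refine (Finset.sum_le_sum h1).trans ?_
  rw [Finset.sum_const, Finset.card_erase_of_mem (Finset.mem_univ _), Finset.card_univ, farB_card,
    nsmul_eq_mul]
  have : ((2 * L + 1 - 1 : ℕ) : ℝ) = 2 * L := by push_cast [Nat.add_sub_cancel]; ring
  rw [this]
  exact hsm

theorem farB_det (L G : ℕ) (η : ℝ) (hη : 1 < η) (hsm : 2 * (L : ℝ) * (η⁻¹) ^ G ≤ 1 / 4) {y : ℝ}
    (hy : η ≤ y) : (Matrix.of fun p q : FarI L => y ^ (-(G : ℤ) * (p.1 - q.1) ^ 2)).det ≠ 0 := by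
  refine det_ne_zero_of_sum_row_lt_diag fun p => ?_
  have h1 := farB_off L G η hη hsm hy p
  have h2 : ‖(Matrix.of fun p q : FarI L => y ^ (-(G : ℤ) * (p.1 - q.1) ^ 2)) p p‖ = 1 := by
    simp
  rw [h2]
  refine lt_of_le_of_lt ?_ (show (1 / 4 : ℝ) < 1 by norm_num)
  refine le_trans (le_of_eq ?_) h1
  rfl

theorem far_vertex (L R : ℕ) (Ψ s : ℤ → ℤ) (G : ℕ) (hG : 0 < G)
    (hs : ∀ p q, s q * (p - q) - (Ψ p - Ψ q) = -(G : ℤ) * (p - q) ^ 2)
    (hR : ∀ p : ℤ, |p| ≤ L → |s p| ≤ R) (η : ℝ) (hη : 1 < η)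
    (hsm : 2 * (L : ℝ) * (η⁻¹) ^ G ≤ 1 / 4) :
    ∃ (D : LP) (h : ℤ →₀ LP), (∀ y : ℝ, η ≤ y → 0 < pe D y) ∧
      (∀ a : ℤ, (R : ℤ) < |a| → h a = 0) ∧
      (∀ p : ℤ, |p| ≤ L → rowEv h p = D * T (Ψ p)) ∧
      ∀ a : ℤ, |a| ≤ R → ∀ y : ℝ, η ≤ y → 0 < pe (h a) y := by
  classical
  have hη0 : 0 < η := lt_trans one_pos hη
  -- the slopes are distinct
  have hinj : ∀ p q, s p = s q → p = q := by
    intro p q h
    by_contra hne
    have h1 := hs p q
    have h2 := hs q p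
    have h3 : (G : ℤ) * (p - q) ^ 2 = 0 := by
      rw [h] at h2
      nlinarith
    have h4 : (G : ℤ) ≠ 0 := by exact_mod_cast hG.ne'
    rcases mul_eq_zero.1 h3 with h5 | h5
    · exact h4 h5
    · exact hne (by have := pow_eq_zero_iff (two_ne_zero) |>.1 h5; linarith)
  -- the bound for the exponents
  obtain ⟨m, hm⟩ : ∃ m : ℕ, ∀ b p : ℤ, |b| ≤ R → |p| ≤ L → -(m : ℤ) + b * p - Ψ p ≤ 0 := by
    refine ⟨R * L + ∑ p ∈ Finset.Icc (-(L : ℤ)) L, (Ψ p).natAbs, fun b p hb hp => ?_⟩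
    have h1 : (Ψ p).natAbs ≤ ∑ p ∈ Finset.Icc (-(L : ℤ)) L, (Ψ p).natAbs :=
      Finset.single_le_sum (f := fun p => (Ψ p).natAbs) (fun _ _ => Nat.zero_le _)
        (Finset.mem_Icc.2 (abs_le.1 hp))
    have h2 : b * p ≤ R * L := by
      calc b * p ≤ |b * p| := le_abs_self _
        _ = |b| * |p| := abs_mul _ _
        _ ≤ R * L := by gcongr
    have h3 : -Ψ p ≤ |Ψ p| := neg_le_abs _
    have h4 : ((Ψ p).natAbs : ℤ) ≤ ((∑ p ∈ Finset.Icc (-(L : ℤ)) L, (Ψ p).natAbs : ℕ) : ℤ) := by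
      exact_mod_cast h1
    push_cast at h4 ⊢
    linarith
  obtain ⟨ε, hε⟩ : ∃ ε : ℚ, ε = 1 / (4 * (2 * R + 1)) := ⟨_, rfl⟩
  have hε0 : (0 : ℝ) < ε := by rw [hε]; push_cast; positivity
  let B : Finset ℤ := (Finset.Icc (-(R : ℤ)) R).filter fun b => ¬ ∃ q : FarI L, s q.1 = b
  have hBm : ∀ b, b ∈ B ↔ |b| ≤ R ∧ ¬ ∃ q : FarI L, s q.1 = b := by
    intro b
    rw [Finset.mem_filter, Finset.mem_Icc, abs_le]
  have hBc : (B.card : ℝ) ≤ 2 * R + 1 := by
    have h1 : B.card ≤ (Finset.Icc (-(R : ℤ)) R).card := Finset.card_filter_le _ _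
    rw [Int.card_Icc] at h1
    have h2 : ((R : ℤ) + 1 - -(R : ℤ)).toNat = 2 * R + 1 := by omega
    rw [h2] at h1
    exact_mod_cast h1
  have hIm : ∀ p : FarI L, |p.1| ≤ L := fun p => abs_le.2 (Finset.mem_Icc.1 p.2)
  let N := farN L G
  let ρ : FarI L → LP := fun p => 1 - ∑ b ∈ B, C ε * T (-(m : ℤ) + b * p.1 - Ψ p.1)
  let u : FarI L → LP := N.det • (N.adjugate.mulVec ρ)
  let D : LP := N.det ^ 2
  have hNu : N.mulVec u = D • ρ := by
    show N.mulVec (N.det • (N.adjugate.mulVec ρ)) = (N.det ^ 2) • ρ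
    rw [Matrix.mulVec_smul, Matrix.mulVec_mulVec, Matrix.mul_adjugate, Matrix.smul_mulVec,
      Matrix.one_mulVec, smul_smul, sq]
  let h : ℤ →₀ LP := ∑ p : FarI L, Finsupp.single (s p.1) (u p * T (Ψ p.1 - s p.1 * p.1)) +
    ∑ b ∈ B, Finsupp.single b (C ε * D * T (-(m : ℤ)))
  -- values of the rows
  have hha : ∀ a, h a = (∑ p : FarI L, if s p.1 = a then u p * T (Ψ p.1 - s p.1 * p.1) else 0) +
      if a ∈ B then C ε * D * T (-(m : ℤ)) else 0 := by
    intro a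
    show ((∑ p : FarI L, Finsupp.single (s p.1) (u p * T (Ψ p.1 - s p.1 * p.1)) +
      ∑ b ∈ B, Finsupp.single b (C ε * D * T (-(m : ℤ))) : ℤ →₀ LP)) a = _
    rw [Finsupp.add_apply, Finsupp.finsetSum_apply, Finsupp.finsetSum_apply]
    congr 1
    · refine Finset.sum_congr rfl fun p _ => ?_
      rw [Finsupp.single_apply]
    · simp only [Finsupp.single_apply]
      rw [Finset.sum_ite_eq']
  have hD : ∀ y : ℝ, η ≤ y → 0 < pe D y := by
    intro y hy
    have hy0 : y ≠ 0 := (lt_of_lt_of_le hη0 hy).ne'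
    have h1 : pe D y = pe N.det y ^ 2 := pe_pow _ hy0 2
    have h2 : pe N.det y ≠ 0 := by
      rw [pe_eq_evH _ _ hy0, RingHom.map_det]
      have h3 : (evH y hy0).mapMatrix N = Matrix.of fun p q : FarI L => y ^ (-(G : ℤ) * (p.1 - q.1) ^ 2) := by
        ext p q
        rw [RingHom.mapMatrix_apply, Matrix.map_apply]
        exact evH_T y hy0 _
      rw [h3]
      exact farB_det L G η hη hsm hy
    rw [h1]
    positivity
  refine ⟨D, h, hD, ?_, ?_, ?_⟩
  · intro a ha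
    rw [hha, if_neg (fun h1 => by have := ((hBm a).1 h1).1; omega), add_zero]
    refine Finset.sum_eq_zero fun p _ => if_neg fun h1 => ?_
    have := hR p.1 (hIm p)
    rw [h1] at this
    omega
  · intro p hp
    let P : FarI L := ⟨p, Finset.mem_Icc.2 (abs_le.1 hp)⟩
    show rowEv (∑ p : FarI L, Finsupp.single (s p.1) (u p * T (Ψ p.1 - s p.1 * p.1)) +
      ∑ b ∈ B, Finsupp.single b (C ε * D * T (-(m : ℤ)))) p = D * T (Ψ p)
    rw [rowEv_add, rowEv_sum, rowEv_sum]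
    simp only [rowEv_single]
    have h1 : ∑ q : FarI L, u q * T (Ψ q.1 - s q.1 * q.1) * T (s q.1 * p) = T (Ψ p) * (D * ρ P) := by
      have h2 : D * ρ P = ∑ q : FarI L, N P q * u q := by
        have := congrFun hNu P
        rw [Pi.smul_apply, smul_eq_mul] at this
        rw [← this]
        rfl
      rw [h2, Finset.mul_sum]
      refine Finset.sum_congr rfl fun q _ => ?_
      have h3 : N P q = T (-(G : ℤ) * (p - q.1) ^ 2) := rfl
      rw [h3, mul_assoc, ← T_add, ← mul_assoc, ← T_add, mul_comm]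
      congr 2
      have := hs p q.1
      linarith
    have h4 : ∑ b ∈ B, C ε * D * T (-(m : ℤ)) * T (b * p) = T (Ψ p) * (D * (1 - ρ P)) := by
      have h5 : 1 - ρ P = ∑ b ∈ B, C ε * T (-(m : ℤ) + b * p - Ψ p) := by
        show 1 - (1 - ∑ b ∈ B, C ε * T (-(m : ℤ) + b * p - Ψ p)) = _
        ring
      rw [h5, Finset.mul_sum, Finset.mul_sum]
      refine Finset.sum_congr rfl fun b _ => ?_
      have h6 : (T (-(m : ℤ)) : LP) * T (b * p) = T (Ψ p) * T (-(m : ℤ) + b * p - Ψ p) := by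
        rw [← T_add, ← T_add]
        congr 1
        ring
      calc C ε * D * T (-(m : ℤ)) * T (b * p) = C ε * D * (T (-(m : ℤ)) * T (b * p)) := by ring
        _ = C ε * D * (T (Ψ p) * T (-(m : ℤ) + b * p - Ψ p)) := by rw [h6]
        _ = T (Ψ p) * (D * (C ε * T (-(m : ℤ) + b * p - Ψ p))) := by ring
    rw [h1, h4]
    ring
  · intro a ha y hy
    have hypos : 0 < y := lt_of_lt_of_le hη0 hy
    have hy0 : y ≠ 0 := hypos.ne'
    have hy1 : 1 ≤ y := hη.le.trans hy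
    have hDy := hD y hy
    by_cases hq : ∃ q : FarI L, s q.1 = a
    · obtain ⟨q, rfl⟩ := hq
      have hq' : s q.1 ∉ B := fun h1 => ((hBm _).1 h1).2 ⟨q, rfl⟩
      rw [hha, if_neg hq', add_zero]
      have h1 : (∑ p : FarI L, if s p.1 = s q.1 then u p * T (Ψ p.1 - s p.1 * p.1) else 0) =
          u q * T (Ψ q.1 - s q.1 * q.1) := by
        rw [Finset.sum_eq_single q]
        · rw [if_pos rfl]
        · intro p _ hp
          exact if_neg fun h2 => hp (Subtype.ext (hinj _ _ h2))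
        · intro h2
          exact absurd (Finset.mem_univ _) h2
      rw [h1, pe_mul _ _ hy0, pe_T]
      refine mul_pos ?_ (zpow_pos hypos _)
      -- the linear system at `y`
      let x : FarI L → ℝ := fun p => pe (u p) y / pe D y
      have hx := (pos_of_near_id (Matrix.of fun p q : FarI L => y ^ (-(G : ℤ) * (p.1 - q.1) ^ 2)) x
        (fun p => pe (ρ p) y) (fun p => by simp) (fun p => farB_off L G η hη hsm hy p) ?_ ?_ ?_).2 q
      · have h2 : 0 < pe (u q) y / pe D y := hx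
        exact (div_pos_iff_of_pos_right hDy).1 h2
      · ext p
        have h2 := congrArg (evH y hy0) (congrFun hNu p)
        rw [RingHom.map_mulVec, Pi.smul_apply, smul_eq_mul, map_mul, ← pe_eq_evH, ← pe_eq_evH] at h2
        have h3 : (Matrix.of fun p q : FarI L => y ^ (-(G : ℤ) * (p.1 - q.1) ^ 2)).mulVec x p =
            (∑ q, (evH y hy0) (N p q) * (evH y hy0) (u q)) / pe D y := by
          rw [Finset.sum_div, Matrix.mulVec, dotProduct]
          refine Finset.sum_congr rfl fun r _ => ?_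
          show y ^ (-(G : ℤ) * (p.1 - r.1) ^ 2) * (pe (u r) y / pe D y) = _
          have h4 : (evH y hy0) (N p r) = y ^ (-(G : ℤ) * (p.1 - r.1) ^ 2) := evH_T y hy0 _
          rw [h4, pe_eq_evH _ _ hy0, mul_div_assoc]
        rw [h3]
        have h5 : (∑ q, (evH y hy0) (N p q) * (evH y hy0) (u q)) = pe D y * pe (ρ p) y := h2
        rw [h5, mul_comm, mul_div_assoc, div_self hDy.ne', mul_one]
      · intro p
        have h2 : pe (ρ p) y = 1 - ∑ b ∈ B, (ε : ℝ) * y ^ (-(m : ℤ) + b * p.1 - Ψ p.1) := by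
          show pe (1 - ∑ b ∈ B, C ε * T (-(m : ℤ) + b * p.1 - Ψ p.1)) y = _
          rw [pe_sub, pe_one, pe_sum]
          congr 1
          exact Finset.sum_congr rfl fun b _ => pe_single _ _ _
        show 3 / 4 ≤ pe (ρ p) y
        rw [h2]
        have h3 : ∑ b ∈ B, (ε : ℝ) * y ^ (-(m : ℤ) + b * p.1 - Ψ p.1) ≤ ∑ b ∈ B, (ε : ℝ) := by
          refine Finset.sum_le_sum fun b hb => ?_
          have h4 : y ^ (-(m : ℤ) + b * p.1 - Ψ p.1) ≤ y ^ (0 : ℤ) :=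
            farB_zpow_le hy1 (hm b p.1 ((hBm b).1 hb).1 (hIm p))
          rw [zpow_zero] at h4
          nlinarith
        rw [Finset.sum_const, nsmul_eq_mul] at h3
        have h5 : (B.card : ℝ) * (ε : ℝ) ≤ (2 * R + 1) * ε := by
          exact mul_le_mul_of_nonneg_right hBc hε0.le
        have h6 : ((2 : ℝ) * R + 1) * (ε : ℝ) = 1 / 4 := by
          rw [hε]
          push_cast
          have : (2 * (R : ℝ) + 1) ≠ 0 := by positivity
          field_simp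
        linarith
      · intro p
        have h2 : pe (ρ p) y = 1 - ∑ b ∈ B, (ε : ℝ) * y ^ (-(m : ℤ) + b * p.1 - Ψ p.1) := by
          show pe (1 - ∑ b ∈ B, C ε * T (-(m : ℤ) + b * p.1 - Ψ p.1)) y = _
          rw [pe_sub, pe_one, pe_sum]
          congr 1
          exact Finset.sum_congr rfl fun b _ => pe_single _ _ _
        show pe (ρ p) y ≤ 1
        rw [h2]
        have h3 : 0 ≤ ∑ b ∈ B, (ε : ℝ) * y ^ (-(m : ℤ) + b * p.1 - Ψ p.1) :=
          Finset.sum_nonneg fun b _ => (mul_pos hε0 (zpow_pos hypos _)).le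
        linarith
    · have haB : a ∈ B := (hBm a).2 ⟨ha, hq⟩
      rw [hha, if_pos haB]
      have h1 : (∑ p : FarI L, if s p.1 = a then u p * T (Ψ p.1 - s p.1 * p.1) else 0) = 0 :=
        Finset.sum_eq_zero fun p _ => if_neg fun h2 => hq ⟨p, h2⟩
      rw [h1, zero_add, pe_mul _ _ hy0, pe_mul _ _ hy0, pe_C, pe_T]
      exact mul_pos (mul_pos hε0 hDy) (zpow_pos hypos _)

end Pool.Agent.H75.TB
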