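import Pool.Agent.H75.TB.Main

/-!
# Final theorem
-/

namespace Pool.Agent.H75.TB

open Pool.Agent.H29

theorem tubular_cat0 {G : Type*} [Group G] (hG : FreeByCyclic G) (D : TubGraph)
    (hD : Nonempty (G ≃* D.Grp)) {X : Type*} [MetricSpace X] [Nonempty X] [IsCAT0 X]
    [MulAction G X] (hiso : ∀ (g : G) (x y : X), dist (g • x) (g • y) = dist x y)
    (hprop : ∀ K : Set X, IsCompact K → {g : G | ∃ x ∈ K, g • x ∈ K}.Finite)
    (hco : ∃ K : Set X, IsCompact K ∧ ∀ x : X, ∃ g : G, g • x ∈ K) : VirtuallyRAAG G := by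
  obtain ⟨ε⟩ := hD
  obtain ⟨Φ₀, n, ⟨e₀⟩⟩ := fbc_hom hG
  refine virtuallyRAAG_of_mulEquiv ε ?_
  let Φ : D.Grp →* Multiplicative ℤ := Φ₀.comp ε.symm.toMonoidHom
  have e1 : Φ.ker ≃* Φ₀.ker :=
    { toFun := fun x => ⟨ε.symm x.1, x.2⟩
      invFun := fun x => ⟨ε x.1, by
        have hx : Φ₀ x.1 = 1 := x.2
        show Φ₀ (ε.symm (ε x.1)) = 1
        rw [MulEquiv.symm_apply_apply]; exact hx⟩
      left_inv := fun x => by ext; simp
      right_inv := fun x => by ext; simp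
      map_mul' := fun x y => by ext; simp }
  obtain ⟨τ, h1, h2, h3, h4⟩ := exists_length hiso
  refine tubular_of_length Φ n (e1.trans e₀) (fun g => τ (ε.symm g)) ?_ ?_ ?_
  · intro g h
    show τ (ε.symm (h * g * h⁻¹)) = τ (ε.symm g)
    rw [map_mul, map_mul, map_inv, h2]
  · intro g hg
    have h5 : IsOfFinOrder (ε.symm g) := by
      refine finOrder_of_length_zero hiso hprop hco _ fun c hc => ?_
      by_contra hcon
      push Not at hcon
      have := h3 (ε.symm g) c hcon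
      have hg' : τ (ε.symm g) = 0 := hg
      linarith
    rw [isOfFinOrder_iff_pow_eq_one] at h5 ⊢
    obtain ⟨m, hm, hm1⟩ := h5
    refine ⟨m, hm, ?_⟩
    rw [← map_pow] at hm1
    exact (MulEquiv.map_eq_one_iff ε.symm).mp hm1
  · intro a b hab
    have := h4 (ε.symm a) (ε.symm b) (by rw [← map_mul, ← map_mul, hab])
    show τ (ε.symm (a * b)) ^ 2 + τ (ε.symm (a * b⁻¹)) ^ 2 = _
    rw [map_mul, map_mul, map_inv]
    exact this

end Pool.Agent.H75.TB
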