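import Pool.Agent.H75.TB.Grow

/-!
# TB-M7b: gluing

`w = (C c (T 1 + T (-1)))^n` with a rational `c > 0`, `c (η₁ + 1/η₁) < 1 < c (η + 1/η)`
(`t ↦ t + 1/t` is strictly increasing on `[1, ∞)`), `n` large.
* `η₁⁻¹ ≤ y ≤ η₁`: `0 < c (y + 1/y) ≤ θ := c (η₁ + 1/η₁) < 1`, so `|w g_i| ≤ θ^n max |g_i|` is less
  than `min f_i` for `n` large (compactness, `continuousOn_pe`).
* `η₁ ≤ y ≤ η` or `η⁻¹ ≤ y ≤ η₁⁻¹`: both `f_i` and `w g_i` are positive.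
* `y ≥ η`: with `z = c (y + 1/y) ≥ Θ = c (η + 1/η) > 1`. There is `K` with `z^K ≥ y` for all
  `y ≥ η`: if `y ≥ c⁻²` then `z² ≥ c² y² ≥ y`, and if `y ≤ c⁻²` then `z^K ≥ Θ^K ≥ c⁻² ≥ y` for `K`
  large (`K ≥ 2`). By `grow` (applied to `g_i`, `f_i` on `[η, ∞)`) there is `m` with
  `|f_i(y)| < y^m g_i(y)`, so `|f_i(y)| < z^(K m) g_i(y) ≤ z^n g_i(y)` for `n ≥ K m`.
* `y ≤ η⁻¹`: the same for `invert f_i`, `invert g_i` at `1/y` (`pe_invert`).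
-/

namespace Pool.Agent.H75.TB

open LaurentPolynomial

lemma sum_inv_mono {a b : ℝ} (ha : 0 < a) (hab : a ≤ b) (h : 1 ≤ a * b) : a + a⁻¹ ≤ b + b⁻¹ := by
  have hb : 0 < b := ha.trans_le hab
  have e : b + b⁻¹ - (a + a⁻¹) = (b - a) * (a * b - 1) / (a * b) := by
    field_simp
    ring
  have h1 : 0 ≤ (b - a) * (a * b - 1) / (a * b) :=
    div_nonneg (mul_nonneg (by linarith) (by linarith)) (mul_pos ha hb).le
  linarith

/-- the part `y ≥ η` -/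
lemma glue_far (f g : LP) (c η : ℝ) (hc : 0 < c) (hη : 1 < η) (hc2 : 1 < c * (η + η⁻¹))
    (hg : ∀ y, η ≤ y → 0 < pe g y) :
    ∃ n₀ : ℕ, ∀ n ≥ n₀, ∀ y, η ≤ y → 0 < pe f y + (c * (y + y⁻¹)) ^ n * pe g y := by
  obtain ⟨m, hm⟩ := grow g f η hη hg
  obtain ⟨K₀, hK₀⟩ := pow_unbounded_of_one_lt (c⁻¹ ^ 2) hc2
  obtain ⟨K, hK⟩ : ∃ K, K = K₀ + 2 := ⟨_, rfl⟩
  refine ⟨K * m, fun n hn y hy => ?_⟩
  have hη0 : 0 < η := by linarith
  have hy0 : 0 < y := by linarith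
  have hz1 : c * (η + η⁻¹) ≤ c * (y + y⁻¹) := by
    refine mul_le_mul_of_nonneg_left (sum_inv_mono hη0 hy ?_) hc.le
    nlinarith
  obtain ⟨z, hz⟩ : ∃ z, z = c * (y + y⁻¹) := ⟨_, rfl⟩
  rw [← hz] at hz1 ⊢
  have hz2 : 1 ≤ z := by linarith
  have hyz : y ≤ z ^ K := by
    rcases le_or_gt 1 (c ^ 2 * y) with h | h
    · have h3 : c * y ≤ z := by
        rw [hz]
        exact mul_le_mul_of_nonneg_left (by linarith [inv_pos.2 hy0]) hc.le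
      have h4 : (c * y) ^ 2 ≤ z ^ 2 := pow_le_pow_left₀ (mul_pos hc hy0).le h3 2
      have h5 : z ^ 2 ≤ z ^ K := pow_le_pow_right₀ hz2 (by omega)
      have h6 : y ≤ (c * y) ^ 2 := by
        have : (c * y) ^ 2 = (c ^ 2 * y) * y := by ring
        rw [this]
        nlinarith
      linarith
    · have h3 : (c * (η + η⁻¹)) ^ K₀ ≤ z ^ K₀ := pow_le_pow_left₀ (by linarith) hz1 _
      have h4 : z ^ K₀ ≤ z ^ K := pow_le_pow_right₀ hz2 (by omega)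
      have h5 : y ≤ c⁻¹ ^ 2 := by
        rw [inv_pow, ← one_div, le_div_iff₀ (by positivity)]
        linarith
      linarith
  have h7 : y ^ m ≤ z ^ n := by
    calc y ^ m ≤ (z ^ K) ^ m := pow_le_pow_left₀ hy0.le hyz m
      _ = z ^ (K * m) := (pow_mul z K m).symm
      _ ≤ z ^ n := pow_le_pow_right₀ hz2 hn
  have h8 := hm m le_rfl y hy
  have h9 : y ^ m * pe g y ≤ z ^ n * pe g y := mul_le_mul_of_nonneg_right h7 (hg y hy).le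
  have h10 := neg_abs_le (pe f y)
  linarith

/-- the compact part -/
lemma glue_near (f g : LP) (c η₁ : ℝ) (hc : 0 < c) (hη : 1 < η₁) (hc1 : c * (η₁ + η₁⁻¹) < 1)
    (hf : ∀ y, η₁⁻¹ ≤ y → y ≤ η₁ → 0 < pe f y) :
    ∃ n₀ : ℕ, ∀ n ≥ n₀, ∀ y, η₁⁻¹ ≤ y → y ≤ η₁ → 0 < pe f y + (c * (y + y⁻¹)) ^ n * pe g y := by
  have hη0 : 0 < η₁ := by linarith
  have hi0 : 0 < η₁⁻¹ := inv_pos.2 hη0
  have hcomp : IsCompact (Set.Icc η₁⁻¹ η₁) := isCompact_Icc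
  have hsub : Set.Icc η₁⁻¹ η₁ ⊆ Set.Ioi 0 := fun y hy => lt_of_lt_of_le hi0 hy.1
  have hne : (Set.Icc η₁⁻¹ η₁).Nonempty := ⟨η₁, by
    rw [Set.mem_Icc]
    exact ⟨by
      have : η₁⁻¹ < 1 := inv_lt_one_of_one_lt₀ hη
      linarith, le_rfl⟩⟩
  obtain ⟨y₁, hy₁, hmin⟩ := hcomp.exists_isMinOn hne ((continuousOn_pe f).mono hsub)
  obtain ⟨M, hM⟩ := hcomp.exists_bound_of_continuousOn ((continuousOn_pe g).mono hsub)
  have hmpos : 0 < pe f y₁ := hf y₁ hy₁.1 hy₁.2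
  obtain ⟨θ, hθ⟩ : ∃ θ, θ = c * (η₁ + η₁⁻¹) := ⟨_, rfl⟩
  rw [← hθ] at hc1
  have hθ0 : 0 < θ := by rw [hθ]; positivity
  have hM0 : 0 < |M| + 1 := by positivity
  obtain ⟨n₀, hn₀⟩ := exists_pow_lt_of_lt_one (show 0 < pe f y₁ / (|M| + 1) by positivity) hc1
  refine ⟨n₀, fun n hn y hy1 hy2 => ?_⟩
  have hy0 : 0 < y := lt_of_lt_of_le hi0 hy1
  have hzθ : c * (y + y⁻¹) ≤ θ := by
    rw [hθ]
    refine mul_le_mul_of_nonneg_left (sum_inv_mono hy0 hy2 ?_) hc.le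
    have h3 : η₁⁻¹ * η₁ = 1 := inv_mul_cancel₀ hη0.ne'
    nlinarith
  have hz0 : 0 ≤ c * (y + y⁻¹) := by positivity
  have h4 : (c * (y + y⁻¹)) ^ n ≤ θ ^ n₀ := by
    calc (c * (y + y⁻¹)) ^ n ≤ θ ^ n := pow_le_pow_left₀ hz0 hzθ n
      _ ≤ θ ^ n₀ := pow_le_pow_of_le_one hθ0.le hc1.le hn
  have h5 : |pe g y| ≤ |M| + 1 := by
    have h := hM y ⟨hy1, hy2⟩
    rw [Real.norm_eq_abs] at h
    linarith [le_abs_self M]
  have h6 : pe f y₁ ≤ pe f y := hmin ⟨hy1, hy2⟩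
  have h7 : θ ^ n₀ * (|M| + 1) < pe f y₁ := (lt_div_iff₀ hM0).1 hn₀
  have h8 : |(c * (y + y⁻¹)) ^ n * pe g y| ≤ θ ^ n₀ * (|M| + 1) := by
    rw [abs_mul, abs_of_nonneg (pow_nonneg hz0 n)]
    exact mul_le_mul h4 h5 (abs_nonneg _) (pow_nonneg hθ0.le _)
  have h9 := neg_abs_le ((c * (y + y⁻¹)) ^ n * pe g y)
  linarith

theorem glue {ι : Type} [Finite ι] (f g : ι → LP) (η₁ η : ℝ) (h1 : 1 < η₁) (h2 : η₁ < η)
    (hf : ∀ i y, η⁻¹ ≤ y → y ≤ η → 0 < pe (f i) y)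
    (hg : ∀ i y, 0 < y → (η₁ ≤ y ∨ y ≤ η₁⁻¹) → 0 < pe (g i) y) :
    ∃ w : LP, ∀ i y, 0 < y → 0 < pe (f i + w * g i) y := by
  have hη₁0 : 0 < η₁ := by linarith
  have hη1 : 1 < η := by linarith
  have hη0 : 0 < η := by linarith
  have hlt : η₁ + η₁⁻¹ < η + η⁻¹ := by
    have e : η + η⁻¹ - (η₁ + η₁⁻¹) = (η - η₁) * (η₁ * η - 1) / (η₁ * η) := by
      field_simp
      ring
    have h3 : 0 < (η - η₁) * (η₁ * η - 1) / (η₁ * η) := by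
      refine div_pos (mul_pos (by linarith) ?_) (mul_pos hη₁0 hη0)
      nlinarith
    linarith
  have hs1 : 0 < η₁ + η₁⁻¹ := by positivity
  have hs2 : 0 < η + η⁻¹ := by positivity
  obtain ⟨c, hc1, hc2⟩ := exists_rat_btwn (show (η + η⁻¹)⁻¹ < (η₁ + η₁⁻¹)⁻¹ from
    (inv_lt_inv₀ hs2 hs1).2 hlt)
  have hc0 : (0 : ℝ) < c := lt_trans (inv_pos.2 hs2) hc1
  have hA : (c : ℝ) * (η₁ + η₁⁻¹) < 1 := by
    have h := mul_lt_mul_of_pos_right hc2 hs1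
    rwa [inv_mul_cancel₀ hs1.ne'] at h
  have hB : 1 < (c : ℝ) * (η + η⁻¹) := by
    have h := mul_lt_mul_of_pos_right hc1 hs2
    rwa [inv_mul_cancel₀ hs2.ne'] at h
  have hiη : η⁻¹ < η₁⁻¹ := (inv_lt_inv₀ hη0 hη₁0).2 h2
  have hi1 : η₁⁻¹ < 1 := inv_lt_one_of_one_lt₀ h1
  have hev : ∀ᶠ n : ℕ in Filter.atTop, ∀ i, ∀ y, 0 < y →
      0 < pe (f i) y + ((c : ℝ) * (y + y⁻¹)) ^ n * pe (g i) y := by
    rw [Filter.eventually_all]
    intro i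
    obtain ⟨n₁, hn₁⟩ := glue_near (f i) (g i) c η₁ hc0 h1 hA (fun y hy hy' =>
      hf i y (hiη.le.trans hy) (hy'.trans h2.le))
    obtain ⟨n₂, hn₂⟩ := glue_far (f i) (g i) c η hc0 hη1 hB (fun y hy =>
      hg i y (by linarith) (Or.inl (by linarith)))
    obtain ⟨n₃, hn₃⟩ := glue_far (invert (f i)) (invert (g i)) c η hc0 hη1 hB (fun y hy => by
      rw [pe_invert]
      have hy0 : 0 < y := by linarith
      refine hg i y⁻¹ (inv_pos.2 hy0) (Or.inr ?_)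
      exact (inv_lt_inv₀ hy0 hη₁0).2 (by linarith) |>.le)
    filter_upwards [Filter.eventually_ge_atTop (n₁ + n₂ + n₃)] with n hn y hy
    have hzpos : 0 < ((c : ℝ) * (y + y⁻¹)) ^ n := by positivity
    rcases le_or_gt η y with h | h
    · exact hn₂ n (by omega) y h
    rcases le_or_gt y η⁻¹ with h' | h'
    · have h3 := hn₃ n (by omega) y⁻¹ (by
        have := (inv_le_inv₀ (inv_pos.2 hη0) hy).2 h'
        rwa [inv_inv] at this)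
      rw [pe_invert, pe_invert, inv_inv, add_comm y⁻¹ y] at h3
      exact h3
    have hfy : 0 < pe (f i) y := hf i y h'.le h.le
    rcases le_or_gt η₁ y with h3 | h3
    · have := mul_pos hzpos (hg i y hy (Or.inl h3))
      linarith
    rcases le_or_gt y η₁⁻¹ with h4 | h4
    · have := mul_pos hzpos (hg i y hy (Or.inr h4))
      linarith
    exact hn₁ n (by omega) y h4.le h3.le
  obtain ⟨n, hn⟩ := hev.exists
  refine ⟨(C c * (T 1 + T (-1))) ^ n, fun i y hy => ?_⟩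
  have h3 := hn i y hy
  rw [pe_add, pe_mul _ _ hy.ne', pe_pow _ hy.ne', pe_mul _ _ hy.ne', pe_add, pe_C, pe_T, pe_T,
    zpow_one, zpow_neg_one]
  exact h3

end Pool.Agent.H75.TB
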