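import Pool.Agent.H75.TB.Ev

/-!
# TB-M7a: growth of Laurent polynomials on `[η, ∞)`

`lower`: if `pe f y > 0` for all `y ≥ η > 1` then `pe f y ≥ c y^(-d)` on `[η, ∞)` for some
`c > 0`, `d : ℕ`. Proof: `f ≠ 0`; let `f * T d = toLaurent f'` with `f'` a polynomial
(`exists_T_pow`); `f'(y) = y^d pe f y > 0` for `y ≥ η`, so `f' ≠ 0` and `f'(y)` tends to `+∞` or
to a nonzero constant which must be positive as `y → ∞` (`Polynomial.tendsto_atTop_...`), and by
compactness it has a positive lower bound on `[η, ∞)`.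
`upper`: `|pe g y| ≤ C y^d` on `[1, ∞)`: every term `|c| y^n ≤ |c| y^d`, `d ≥ |n|`.
`grow` follows: `|pe g y| ≤ C y^{d'} < y^m c y^{-d} ≤ y^m pe f y` if `C / c < y^(m-d-d')`, true for
all `y ≥ η` once `η^(m-d-d') > C/c`.
-/

namespace Pool.Agent.H75.TB

open LaurentPolynomial

/-- the value of a polynomial -/
theorem grow_pe_toLaurent (P : Polynomial ℚ) {y : ℝ} (hy : y ≠ 0) :
    pe (Polynomial.toLaurent P) y = (P.map (algebraMap ℚ ℝ)).eval y := by
  rw [pe_eq_evH _ _ hy]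
  induction P using Polynomial.induction_on' with
  | add p q hp hq => rw [map_add, map_add, hp, hq, Polynomial.map_add, Polynomial.eval_add]
  | monomial n a =>
    rw [Polynomial.toLaurent_C_mul_T, map_mul, evH_T, evH_C, Polynomial.map_monomial, Polynomial.eval_monomial]
    simp

theorem lower (f : LP) (η : ℝ) (hη : 1 < η) (hf : ∀ y, η ≤ y → 0 < pe f y) :
    ∃ (c : ℝ) (d : ℕ), 0 < c ∧ ∀ y, η ≤ y → c ≤ y ^ d * pe f y := by
  obtain ⟨d, P, hP⟩ := LaurentPolynomial.exists_T_pow f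
  set g : Polynomial ℝ := P.map (algebraMap ℚ ℝ) with hg
  have hgy : ∀ y, η ≤ y → g.eval y = y ^ d * pe f y := by
    intro y hy
    have hy0 : y ≠ 0 := by linarith
    rw [hg, ← grow_pe_toLaurent P hy0, hP, pe_mul _ _ hy0, pe_T]
    rw [zpow_natCast]
    ring
  have hgpos : ∀ y, η ≤ y → 0 < g.eval y := by
    intro y hy
    rw [hgy y hy]
    exact mul_pos (pow_pos (by linarith) d) (hf y hy)
  have hlow : ∃ (M : ℝ) (c : ℝ), 0 < c ∧ ∀ y, M ≤ y → c ≤ g.eval y := by
    by_cases hd : 0 < g.degree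
    · rcases le_or_gt 0 g.leadingCoeff with hl | hl
      · have ht := Polynomial.tendsto_atTop_of_leadingCoeff_nonneg g hd hl
        obtain ⟨M, hM⟩ := Filter.eventually_atTop.1 (ht.eventually_ge_atTop 1)
        exact ⟨M, 1, one_pos, hM⟩
      · have ht := Polynomial.tendsto_atBot_of_leadingCoeff_nonpos g hd hl.le
        obtain ⟨M, hM⟩ := Filter.eventually_atTop.1 (ht.eventually_le_atBot 0)
        have h1 := hM (max M η) (le_max_left _ _)
        have h2 := hgpos (max M η) (le_max_right _ _)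
        linarith
    · push Not at hd
      have hc := Polynomial.eq_C_of_degree_le_zero hd
      refine ⟨η, g.coeff 0, ?_, ?_⟩
      · have := hgpos η le_rfl
        rw [hc, Polynomial.eval_C] at this
        exact this
      · intro y _
        rw [hc, Polynomial.eval_C]
        simp
  obtain ⟨M, c, hc, hM⟩ := hlow
  have hcomp : ∃ c' : ℝ, 0 < c' ∧ ∀ y ∈ Set.Icc η (max M η), c' ≤ g.eval y := by
    obtain ⟨y0, hy0, hmin⟩ := isCompact_Icc.exists_isMinOn (Set.nonempty_Icc.2 (le_max_right M η))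
      (g.continuous.continuousOn (s := Set.Icc η (max M η)))
    exact ⟨g.eval y0, hgpos y0 hy0.1, fun y hy => hmin hy⟩
  obtain ⟨c', hc', hmin⟩ := hcomp
  refine ⟨min c c', d, lt_min hc hc', fun y hy => ?_⟩
  rw [← hgy y hy]
  rcases le_or_gt M y with h | h
  · exact (min_le_left _ _).trans (hM y h)
  · exact (min_le_right _ _).trans (hmin y ⟨hy, h.le.trans (le_max_left _ _)⟩)

theorem upper (g : LP) : ∃ (c : ℝ) (d : ℕ), 0 < c ∧ ∀ y : ℝ, 1 ≤ y → |pe g y| ≤ c * y ^ d := by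
  induction g using LaurentPolynomial.induction_on' with
  | add p q hp hq =>
    obtain ⟨c1, d1, h1, h1'⟩ := hp
    obtain ⟨c2, d2, h2, h2'⟩ := hq
    refine ⟨c1 + c2, max d1 d2, add_pos h1 h2, fun y hy => ?_⟩
    rw [pe_add]
    have a1 := h1' y hy
    have a2 := h2' y hy
    have b1 : y ^ d1 ≤ y ^ max d1 d2 := pow_le_pow_right₀ hy (le_max_left _ _)
    have b2 : y ^ d2 ≤ y ^ max d1 d2 := pow_le_pow_right₀ hy (le_max_right _ _)
    calc |pe p y + pe q y| ≤ |pe p y| + |pe q y| := abs_add_le _ _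
      _ ≤ c1 * y ^ d1 + c2 * y ^ d2 := add_le_add a1 a2
      _ ≤ c1 * y ^ max d1 d2 + c2 * y ^ max d1 d2 :=
        add_le_add (mul_le_mul_of_nonneg_left b1 h1.le) (mul_le_mul_of_nonneg_left b2 h2.le)
      _ = (c1 + c2) * y ^ max d1 d2 := by ring
  | C_mul_T n a =>
    refine ⟨|(a : ℝ)| + 1, n.natAbs, by positivity, fun y hy => ?_⟩
    rw [pe_single, abs_mul]
    have hy0 : 0 < y := by linarith
    have h1 : |y ^ n| ≤ y ^ n.natAbs := by
      rw [abs_of_pos (zpow_pos hy0 n), ← zpow_natCast]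
      exact zpow_le_zpow_right₀ hy (by omega)
    calc |(a : ℝ)| * |y ^ n| ≤ |(a : ℝ)| * y ^ n.natAbs := mul_le_mul_of_nonneg_left h1 (abs_nonneg _)
      _ ≤ (|(a : ℝ)| + 1) * y ^ n.natAbs := by
        have : 0 < y ^ n.natAbs := pow_pos hy0 _
        nlinarith

theorem grow (f g : LP) (η : ℝ) (hη : 1 < η) (hf : ∀ y, η ≤ y → 0 < pe f y) :
    ∃ m₀ : ℕ, ∀ m ≥ m₀, ∀ y, η ≤ y → |pe g y| < y ^ m * pe f y := by
  obtain ⟨c, d, hc, hlo⟩ := lower f η hη hf
  obtain ⟨C', d', hC, hup⟩ := upper g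
  obtain ⟨k, hk⟩ := pow_unbounded_of_one_lt (C' / c) hη
  refine ⟨d + d' + k, fun m hm y hy => ?_⟩
  have hy1 : 1 ≤ y := by linarith
  have hy0 : 0 < y := by linarith
  obtain ⟨j, rfl⟩ := Nat.exists_eq_add_of_le hm
  have h1 := hlo y hy
  have h2 := hup y hy1
  have h3 : η ^ k ≤ y ^ k := pow_le_pow_left₀ (by linarith) hy k
  have h4 : C' < c * y ^ k := by
    have : C' / c < y ^ k := lt_of_lt_of_le hk h3
    rw [div_lt_iff₀ hc] at this
    linarith
  have h5 : (1 : ℝ) ≤ y ^ j := one_le_pow₀ hy1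
  have h6 : 0 < y ^ d' := pow_pos hy0 _
  have h7 : 0 < y ^ k := pow_pos hy0 _
  calc |pe g y| ≤ C' * y ^ d' := h2
    _ < c * y ^ k * y ^ d' := by exact mul_lt_mul_of_pos_right h4 h6
    _ ≤ (y ^ d * pe f y) * y ^ k * y ^ d' := by
      have := mul_le_mul_of_nonneg_right h1 (mul_pos h7 h6).le
      nlinarith
    _ ≤ (y ^ d * pe f y) * y ^ k * y ^ d' * y ^ j := by
      have h8 : 0 ≤ (y ^ d * pe f y) * y ^ k * y ^ d' :=
        mul_nonneg (mul_nonneg (hc.le.trans h1) h7.le) h6.le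
      nlinarith
    _ = y ^ (d + d' + k + j) * pe f y := by ring

end Pool.Agent.H75.TB
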