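import Pool.Agent.H75.TB.Ev

/-!
# TB-M1b: Lagrange interpolation at the nodes `T p`, `|p| ≤ L`

`k = 2L+1`. For a node `p` put `β_p = ∏_{q ≠ p} (X - C (T q))` (`|q| ≤ L`), degree `k-1 = 2L`;
`β_p(T q) = 0` for `q ≠ p` and `β_p(T p) = ∏_{q≠p} (T p - T q)`. Every factor `T p - T q` divides
`T M - 1`, `M = (2L)!`, since `0 < |p - q| ≤ 2L` divides `M` (`T p - T q = T q (T (p-q) - 1)`,
`T (-d) - 1 = -T (-d) (T d - 1)`, and `T (d j) - 1 = (T d)^j - 1` is divisible by `T d - 1`).
So `β_p(T p) * s_p = (T M - 1)^(2L)` for some `s_p`, and `F = ∑_p C (s_p * r p) * β_p`.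
-/

namespace Pool.Agent.H75.TB

open LaurentPolynomial Polynomial

lemma T_sub_one_dvd_pos {d : ℕ} {M : ℕ} (h : d ∣ M) :
    ((LaurentPolynomial.T (d : ℤ) : LP) - 1) ∣ (LaurentPolynomial.T (M : ℤ) - 1) := by
  obtain ⟨j, rfl⟩ := h
  have h1 : (LaurentPolynomial.T ((d * j : ℕ) : ℤ) : LP) = (LaurentPolynomial.T (d : ℤ)) ^ j := by
    rw [LaurentPolynomial.T_pow]
    congr 1
    push_cast; ring
  rw [h1]
  have := sub_dvd_pow_sub_pow (LaurentPolynomial.T (d : ℤ) : LP) 1 j
  rwa [one_pow] at this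

lemma T_sub_one_dvd {d : ℤ} {M : ℕ} (h : d.natAbs ∣ M) :
    ((LaurentPolynomial.T d : LP) - 1) ∣ (LaurentPolynomial.T (M : ℤ) - 1) := by
  rcases Int.natAbs_eq d with h1 | h1
  · rw [h1]; exact T_sub_one_dvd_pos h
  · obtain ⟨w, hw⟩ := T_sub_one_dvd_pos h
    refine ⟨- LaurentPolynomial.T (d.natAbs : ℤ) * w, ?_⟩
    rw [hw]
    have h2 : (LaurentPolynomial.T d : LP) * LaurentPolynomial.T (d.natAbs : ℤ) = 1 := by
      rw [← LaurentPolynomial.T_add, ← LaurentPolynomial.T_zero]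
      congr 1
      omega
    calc (LaurentPolynomial.T (d.natAbs : ℤ) - 1 : LP) * w
        = (LaurentPolynomial.T (d.natAbs : ℤ) - LaurentPolynomial.T d *
            LaurentPolynomial.T (d.natAbs : ℤ)) * w := by rw [h2]
      _ = _ := by ring

lemma T_sub_T_dvd {L : ℕ} {p q : ℤ} (hp : |p| ≤ L) (hq : |q| ≤ L) (hpq : q ≠ p) :
    ((LaurentPolynomial.T p : LP) - LaurentPolynomial.T q) ∣
      (LaurentPolynomial.T ((2 * L).factorial : ℤ) - 1) := by
  have h1 : (p - q).natAbs ∣ (2 * L).factorial := by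
    apply Nat.dvd_factorial
    · omega
    · rw [abs_le] at hp hq
      omega
  obtain ⟨w, hw⟩ := T_sub_one_dvd h1
  refine ⟨LaurentPolynomial.T (-q) * w, ?_⟩
  rw [hw]
  have h2 : (LaurentPolynomial.T p : LP) * LaurentPolynomial.T (-q) =
      LaurentPolynomial.T (p - q) := by
    rw [← LaurentPolynomial.T_add]
    congr 1
  have h3 : (LaurentPolynomial.T q : LP) * LaurentPolynomial.T (-q) = 1 := by
    rw [← LaurentPolynomial.T_add, ← LaurentPolynomial.T_zero]
    congr 1
    omega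
  calc (LaurentPolynomial.T (p - q) - 1 : LP) * w
      = (LaurentPolynomial.T p * LaurentPolynomial.T (-q) - LaurentPolynomial.T q *
          LaurentPolynomial.T (-q)) * w := by rw [h2, h3]
    _ = _ := by ring

/-- Lagrange interpolation with denominators cleared by `(T M - 1)^(2L)`, `M = (2L)!`. -/
theorem lagrange (L : ℕ) (r : ℤ → LP) : ∃ F : Polynomial LP, F.natDegree < 2 * L + 1 ∧
    ∀ p : ℤ, |p| ≤ L → F.eval (LaurentPolynomial.T p) =
      (LaurentPolynomial.T ((2 * L).factorial : ℤ) - 1) ^ (2 * L) * r p := by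
  classical
  obtain ⟨I, hI⟩ : ∃ I : Finset ℤ, I = Finset.Icc (-(L : ℤ)) L := ⟨_, rfl⟩
  have hmem : ∀ p : ℤ, p ∈ I ↔ |p| ≤ L := by
    intro p
    rw [hI, Finset.mem_Icc, abs_le]
  have hcard : ∀ p ∈ I, (I.erase p).card = 2 * L := by
    intro p hp
    rw [Finset.card_erase_of_mem hp, hI, Int.card_Icc]
    omega
  have hs : ∀ p : ℤ, ∃ s : LP, p ∈ I → (∏ q ∈ I.erase p,
      ((LaurentPolynomial.T p : LP) - LaurentPolynomial.T q)) * s =
        (LaurentPolynomial.T ((2 * L).factorial : ℤ) - 1) ^ (2 * L) := by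
    intro p
    by_cases hp : p ∈ I
    · have h1 : (∏ q ∈ I.erase p, ((LaurentPolynomial.T p : LP) - LaurentPolynomial.T q)) ∣
          ∏ q ∈ I.erase p, ((LaurentPolynomial.T ((2 * L).factorial : ℤ) : LP) - 1) := by
        apply Finset.prod_dvd_prod_of_dvd
        intro q hq
        rw [Finset.mem_erase] at hq
        exact T_sub_T_dvd ((hmem p).mp hp) ((hmem q).mp hq.2) hq.1
      rw [Finset.prod_const, hcard p hp] at h1
      obtain ⟨s, hs⟩ := h1
      exact ⟨s, fun _ => hs.symm⟩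
    · exact ⟨0, fun h => absurd h hp⟩
  choose s hs using hs
  refine ⟨∑ p ∈ I, Polynomial.C (s p * r p) * ∏ q ∈ I.erase p,
    (Polynomial.X - Polynomial.C (LaurentPolynomial.T q : LP)), ?_, ?_⟩
  · apply Nat.lt_succ_of_le
    apply Polynomial.natDegree_sum_le_of_forall_le
    intro p hp
    refine (Polynomial.natDegree_C_mul_le _ _).trans ?_
    refine (Polynomial.natDegree_prod_le _ _).trans ?_
    simp only [Polynomial.natDegree_X_sub_C, Finset.sum_const, smul_eq_mul,
      mul_one]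
    exact (hcard p hp).le
  · intro p hp
    have hpI := (hmem p).mpr hp
    rw [Polynomial.eval_finsetSum, Finset.sum_eq_single p]
    · rw [Polynomial.eval_mul, Polynomial.eval_C, Polynomial.eval_prod]
      simp only [Polynomial.eval_sub, Polynomial.eval_X, Polynomial.eval_C]
      rw [← hs p hpI]
      ring
    · intro q hq hqp
      rw [Polynomial.eval_mul, Polynomial.eval_prod]
      rw [Finset.prod_eq_zero (Finset.mem_erase.mpr ⟨fun h => hqp h.symm, hpI⟩)]
      · rw [mul_zero]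
      · simp
    · intro h; exact absurd hpI h

end Pool.Agent.H75.TB
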