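import Pool.Agent.H29.Basic

/-!
# TB-C1: stable translation length in a CAT(0) space

`τ g = lim dist x (g^n • x) / n` (`Subadditive.lim` of `n ↦ dist x (g^n • x)`, or `iInf`), `x` a
fixed base point. Properties:
* independent of the base point (`|dist x (g^n x) - dist y (g^n y)| ≤ 2 dist x y`), hence
  conjugation invariant (`dist x (h g^n h⁻¹ x) = dist (h⁻¹ x) (g^n h⁻¹ x)`);
* if `c ≤ dist x (g • x)` for all `x` then `c ≤ τ g`: midpoint trick. For every isometry `g`
  and every `x`, with `m` the midpoint of `x` and `g x`, `g m` is the midpoint of `g x` and `g² x`, and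
  `dist m (g m) ≤ dist x (g² x) / 2` (`dist_pt_pt_left_le` in `H29/Basic` for the triangle with
  vertex `g x`). So `c ≤ dist x (g x)` for all `x` implies `2c ≤ dist x (g² x)` for all `x`, by
  induction `2^k c ≤ dist x (g^(2^k) x)`; divide by `2^k`.
* parallelogram law for commuting `a, b`. Put `P = x`, `Q = a^n x`, `R = a^n b^n x`, `W = b^n x`.
  `quad P Q R W`: `dist P R ^2 + dist Q W ^2 ≤ dist P W ^2 + dist Q R ^2 + 2 dist P Q * dist R W`
  (`H29.quad a b c d`). Here `dist P R = dist x ((ab)^n x)`, `dist Q W = dist x ((a⁻¹ b)^n x)`,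
  `dist P W = dist x (b^n x)`, `dist Q R = dist x (b^n x)` , `dist P Q = dist x (a^n x)`,
  `dist R W = dist (b^n a^n x) (b^n x) = dist x (a^n x)`. Divide by `n²`:
  `τ(ab)² + τ(a⁻¹b)² ≤ 2 τ(b)² + 2 τ(a)²`. Also `τ(g⁻¹) = τ(g)`, `τ(g²) = 2 τ(g)`. Apply the
  inequality to `ab`, `ab⁻¹` (product `a²`, quotient `b²`) to get `4τ(a)² + 4τ(b)² ≤
  2τ(ab)² + 2τ(ab⁻¹)²`: equality.
-/

namespace Pool.Agent.H75.TB

open Pool.Agent.H29

theorem exists_length {G : Type*} [Group G] {X : Type*} [MetricSpace X] [Nonempty X] [IsCAT0 X]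
    [MulAction G X] (hiso : ∀ (g : G) (x y : X), dist (g • x) (g • y) = dist x y) :
    ∃ τ : G → ℝ, (∀ g, 0 ≤ τ g) ∧ (∀ g h, τ (h * g * h⁻¹) = τ g) ∧
      (∀ g (c : ℝ), (∀ x : X, c ≤ dist x (g • x)) → c ≤ τ g) ∧
      ∀ a b, a * b = b * a → τ (a * b) ^ 2 + τ (a * b⁻¹) ^ 2 = 2 * τ a ^ 2 + 2 * τ b ^ 2 := by
  classical
  obtain ⟨x0⟩ := ‹Nonempty X›
  have hsub : ∀ g : G, Subadditive (fun n => dist x0 (g ^ n • x0)) := by
    intro g m n
    show dist x0 (g ^ (m + n) • x0) ≤ dist x0 (g ^ m • x0) + dist x0 (g ^ n • x0)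
    have h1 := dist_triangle x0 (g ^ m • x0) (g ^ (m + n) • x0)
    rw [pow_add, mul_smul, hiso] at h1
    rw [pow_add, mul_smul]
    exact h1
  have hbdd : ∀ g : G, BddBelow (Set.range fun n : ℕ => dist x0 (g ^ n • x0) / n) := by
    intro g
    refine ⟨0, ?_⟩
    rintro _ ⟨n, rfl⟩
    positivity
  obtain ⟨τ, hτ0⟩ : ∃ τ : G → ℝ, ∀ g, Filter.Tendsto (fun n : ℕ => dist x0 (g ^ n • x0) / n) Filter.atTop
      (nhds (τ g)) := ⟨fun g => (hsub g).lim, fun g => (hsub g).tendsto_lim (hbdd g)⟩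
  -- independence of the base point
  have hτ : ∀ (g : G) (x : X), Filter.Tendsto (fun n : ℕ => dist x (g ^ n • x) / n) Filter.atTop
      (nhds (τ g)) := by
    intro g x
    have h1 : Filter.Tendsto (fun n : ℕ => (dist x (g ^ n • x) - dist x0 (g ^ n • x0)) / n)
        Filter.atTop (nhds 0) := by
      refine squeeze_zero_norm (a := fun n : ℕ => (2 * dist x x0) / n) (fun n => ?_)
        (tendsto_const_div_atTop_nhds_zero_nat (2 * dist x x0))
      rw [norm_div, Real.norm_eq_abs, Real.norm_natCast]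
      refine div_le_div_of_nonneg_right ?_ (Nat.cast_nonneg n)
      have k1 : dist (g ^ n • x) (g ^ n • x0) = dist x x0 := hiso _ _ _
      have k2 := dist_triangle4 x x0 (g ^ n • x0) (g ^ n • x)
      have k3 := dist_triangle4 x0 x (g ^ n • x) (g ^ n • x0)
      rw [dist_comm (g ^ n • x0) (g ^ n • x), k1] at k2
      rw [k1, dist_comm x0 x] at k3
      rw [abs_le]
      constructor <;> linarith
    have h2 := h1.add (hτ0 g)
    rw [zero_add] at h2
    refine h2.congr fun n => ?_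
    ring
  have huniq : ∀ (g h : G) (x y : X), (∀ n : ℕ, dist x (g ^ n • x) = dist y (h ^ n • y)) → τ g = τ h := by
    intro g h x y he
    refine tendsto_nhds_unique (hτ g x) ((hτ h y).congr fun n => ?_)
    rw [he n]
  have hinv : ∀ g : G, τ g⁻¹ = τ g := by
    intro g
    refine huniq _ _ x0 x0 fun n => ?_
    have h1 := hiso (g ^ n) x0 ((g⁻¹) ^ n • x0)
    rw [← mul_smul, inv_pow, mul_inv_cancel, one_smul] at h1
    rw [inv_pow, ← h1, dist_comm]
  have hsq : ∀ g : G, τ (g ^ 2) = 2 * τ g := by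
    intro g
    have h1 : Filter.Tendsto (fun n : ℕ => 2 * n) Filter.atTop Filter.atTop :=
      Filter.tendsto_atTop_mono (fun n => (by omega : n ≤ 2 * n)) Filter.tendsto_id
    have h2 := ((hτ g x0).comp h1).const_mul 2
    refine tendsto_nhds_unique (hτ (g ^ 2) x0) (h2.congr fun n => ?_)
    show 2 * (dist x0 (g ^ (2 * n) • x0) / ((2 * n : ℕ) : ℝ)) = dist x0 ((g ^ 2) ^ n • x0) / n
    rw [← pow_mul]
    rcases Nat.eq_zero_or_pos n with rfl | hn
    · simp
    · have hn' : (n : ℝ) ≠ 0 := by positivity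
      push_cast
      field_simp
  have hpl : ∀ a b : G, a * b = b * a → τ (a * b) ^ 2 + τ (a * b⁻¹) ^ 2 ≤ 2 * τ a ^ 2 + 2 * τ b ^ 2 := by
    intro a b hab
    have hc : Commute a b := hab
    have hcn : ∀ n : ℕ, a ^ n * b ^ n = b ^ n * a ^ n := fun n => (hc.pow_pow n n).eq
    have e0 : τ (a * b⁻¹) = τ (a⁻¹ * b) := by
      rw [← hinv (a * b⁻¹), mul_inv_rev, inv_inv]
      have : b * a⁻¹ = a⁻¹ * b := (hc.inv_left.eq).symm
      rw [this]
    rw [e0]
    have key : ∀ n : ℕ, (dist x0 ((a * b) ^ n • x0) / n) ^ 2 + (dist x0 ((a⁻¹ * b) ^ n • x0) / n) ^ 2 ≤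
        2 * (dist x0 (a ^ n • x0) / n) ^ 2 + 2 * (dist x0 (b ^ n • x0) / n) ^ 2 := by
      intro n
      have q := quad x0 (a ^ n • x0) (a ^ n • b ^ n • x0) (b ^ n • x0)
      have d1 : dist x0 (a ^ n • b ^ n • x0) = dist x0 ((a * b) ^ n • x0) := by
        rw [hc.mul_pow, mul_smul]
      have d2 : dist (a ^ n • x0) (b ^ n • x0) = dist x0 ((a⁻¹ * b) ^ n • x0) := by
        rw [hc.inv_left.mul_pow, mul_smul, inv_pow, ← hiso (a ^ n) x0, smul_inv_smul]
      have d3 : dist (a ^ n • x0) (a ^ n • b ^ n • x0) = dist x0 (b ^ n • x0) := hiso _ _ _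
      have d4 : dist (a ^ n • b ^ n • x0) (b ^ n • x0) = dist x0 (a ^ n • x0) := by
        rw [← mul_smul, hcn, mul_smul, hiso, dist_comm]
      rw [d1, d2, d3, d4] at q
      simp only [div_pow]
      have hn2 : (0 : ℝ) ≤ ((n : ℝ) ^ 2)⁻¹ := by positivity
      have q2 := mul_le_mul_of_nonneg_right q hn2
      simp only [div_eq_mul_inv]
      nlinarith [q2]
    refine le_of_tendsto_of_tendsto' (((hτ (a * b) x0).pow 2).add ((hτ (a⁻¹ * b) x0).pow 2))
      ((((hτ a x0).pow 2).const_mul 2).add (((hτ b x0).pow 2).const_mul 2)) key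
  have hdouble : ∀ (g : G) (c : ℝ), (∀ x : X, c ≤ dist x (g • x)) → ∀ x : X, 2 * c ≤ dist x (g ^ 2 • x) := by
    intro g c hg x
    have hI : Isometry (fun y : X => g • y) := Isometry.of_dist_eq fun y z => hiso g y z
    have h1 := hg (pt (g • x) x (1 / 2))
    have h2 : g • pt (g • x) x (1 / 2) = pt (g • x) (g • g • x) (1 / 2) := by
      have h3 := map_pt hI (g • x) x half_mem_I
      have h4 := pt_comm (g • g • x) (g • x) half_mem_I
      have h5 : (1 : ℝ) - 1 / 2 = 1 / 2 := by norm_num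
      rw [h5] at h4
      rw [← h4]
      exact h3
    have h6 := dist_pt_pt_left_le (g • x) x (g • g • x) half_mem_I
    rw [h2] at h1
    have h7 : g ^ 2 • x = g • g • x := by rw [pow_two, mul_smul]
    rw [h7]
    linarith
  refine ⟨τ, fun g => ?_, fun g h => ?_, fun g c hg => ?_, fun a b hab => ?_⟩
  · exact ge_of_tendsto' (hτ g x0) fun n => by positivity
  · refine huniq _ _ x0 (h⁻¹ • x0) fun n => ?_
    rw [conj_pow, ← hiso h (h⁻¹ • x0), smul_inv_smul, mul_smul, mul_smul]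
  · have h1 : ∀ k : ℕ, ∀ x : X, 2 ^ k * c ≤ dist x (g ^ (2 ^ k) • x) := by
      intro k
      induction k with
      | zero => intro x; simpa using hg x
      | succ k ih =>
        intro x
        have h2 := hdouble (g ^ (2 ^ k)) (2 ^ k * c) ih x
        rw [← pow_mul, ← pow_succ] at h2
        have h3 : (2 : ℝ) ^ (k + 1) * c = 2 * (2 ^ k * c) := by rw [pow_succ]; ring
        rw [h3]
        exact h2
    have h2 : Filter.Tendsto (fun k : ℕ => 2 ^ k) Filter.atTop Filter.atTop :=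
      tendsto_pow_atTop_atTop_of_one_lt (by norm_num : (1 : ℕ) < 2)
    refine ge_of_tendsto' ((hτ g x0).comp h2) fun k => ?_
    show c ≤ dist x0 (g ^ (2 ^ k) • x0) / ((2 ^ k : ℕ) : ℝ)
    rw [le_div_iff₀ (by positivity)]
    have h3 := h1 k x0
    push_cast
    linarith
  · have h1 := hpl a b hab
    have hc : Commute a b := hab
    have h2 : (a * b) * (a * b⁻¹) = (a * b⁻¹) * (a * b) := by
      have c1 : Commute (a * b) (a * b⁻¹) := by
        refine Commute.mul_right (Commute.mul_left (Commute.refl a) hc.symm) ?_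
        exact Commute.mul_left hc.inv_right (Commute.refl b).inv_right
      exact c1.eq
    have h3 := hpl (a * b) (a * b⁻¹) h2
    have e1 : a * b * (a * b⁻¹) = a ^ 2 := by
      rw [hab, mul_assoc, ← mul_assoc a a, ← pow_two, ← mul_assoc, (hc.pow_left 2).eq.symm, mul_assoc,
        mul_inv_cancel, mul_one]
    have e2 : a * b * (a * b⁻¹)⁻¹ = b ^ 2 := by
      rw [mul_inv_rev, inv_inv, mul_assoc, ← mul_assoc b b, ← pow_two, ← mul_assoc, (hc.pow_right 2).eq,
        mul_assoc, mul_inv_cancel, mul_one]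
    rw [e1, e2, hsq, hsq] at h3
    nlinarith [h1, h3]

end Pool.Agent.H75.TB
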