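import Mathlib

/-!
# TB-C1b: proper cocompact actions: small displacement implies finite order
-/

namespace Pool.Agent.H75.TB

/-- For a proper cocompact action an element of infinite order has positive translation length.
Suppose `τ g = 0`. For every `n ≥ 1` there is `x_n` with `dist x_n (g x_n) < 1/n` (else `1/n ≤ τ g`).
Choose `h_n` with `y_n = h_n x_n ∈ K` and `g_n = h_n g h_n⁻¹`: `dist y_n (g_n y_n) < 1/n`. A
subsequence of `y_n` converges to `y`, then also `g_n y_n → y`, and
`K' = {y} ∪ {y_n} ∪ {g_n y_n}` (subsequence) is compact with `g_n K' ∩ K' ≠ ∅`: finitely many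
`g_n`. So some `γ = g_n` occurs infinitely often; `γ y_n → γ y` and `γ y_n → y`, so `γ y = y`.
All powers of `γ` fix `y`, the set of elements `g'` with `g' • y ∈ {y}` is finite, so `γ` has finite
order, and so has its conjugate `g`. -/
theorem finOrder_of_length_zero {G : Type*} [Group G] {X : Type*} [MetricSpace X]
    [MulAction G X] (hiso : ∀ (g : G) (x y : X), dist (g • x) (g • y) = dist x y)
    (hprop : ∀ K : Set X, IsCompact K → {g : G | ∃ x ∈ K, g • x ∈ K}.Finite)
    (hco : ∃ K : Set X, IsCompact K ∧ ∀ x : X, ∃ g : G, g • x ∈ K)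
    (g : G) (hg : ∀ c : ℝ, 0 < c → ∃ x : X, dist x (g • x) < c) : IsOfFinOrder g := by
  obtain ⟨K, hK, hK'⟩ := hco
  have hx : ∀ n : ℕ, ∃ x : X, dist x (g • x) < 1 / ((n : ℝ) + 1) := fun n =>
    hg _ (by positivity)
  choose x hx using hx
  choose h hh using fun n => hK' (x n)
  obtain ⟨a, ha, φ, hφ, hlim⟩ := hK.tendsto_subseq hh
  have hd : ∀ n, dist (h n • x n) ((h n * g * (h n)⁻¹) • (h n • x n)) < 1 / ((n : ℝ) + 1) := by
    intro n
    have h1 : (h n * g * (h n)⁻¹) • (h n • x n) = h n • (g • x n) := by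
      rw [mul_smul, mul_smul, inv_smul_smul]
    rw [h1, hiso]
    exact hx n
  have hlim2 : Filter.Tendsto (fun n => (h (φ n) * g * (h (φ n))⁻¹) • (h (φ n) • x (φ n)))
      Filter.atTop (nhds a) := by
    have h1 : Filter.Tendsto (fun n => dist (h (φ n) • x (φ n))
        ((h (φ n) * g * (h (φ n))⁻¹) • (h (φ n) • x (φ n)))) Filter.atTop (nhds 0) := by
      have h2 : Filter.Tendsto (fun n : ℕ => 1 / ((φ n : ℝ) + 1)) Filter.atTop (nhds 0) :=
        tendsto_one_div_add_atTop_nhds_zero_nat.comp hφ.tendsto_atTop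
      exact squeeze_zero (fun n => dist_nonneg) (fun n => (hd (φ n)).le) h2
    exact (tendsto_iff_of_dist h1).1 hlim
  -- finitely many group elements
  have hc1 : IsCompact (insert a (Set.range fun n => h (φ n) • x (φ n))) :=
    hlim.isCompact_insert_range
  have hc2 : IsCompact (insert a (Set.range fun n =>
      (h (φ n) * g * (h (φ n))⁻¹) • (h (φ n) • x (φ n)))) := hlim2.isCompact_insert_range
  have hfin := hprop _ (hc1.union hc2)
  have hmem : ∀ n, h (φ n) * g * (h (φ n))⁻¹ ∈ {g' : G | ∃ z ∈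
      insert a (Set.range fun n => h (φ n) • x (φ n)) ∪ insert a (Set.range fun n =>
      (h (φ n) * g * (h (φ n))⁻¹) • (h (φ n) • x (φ n))), g' • z ∈
      insert a (Set.range fun n => h (φ n) • x (φ n)) ∪ insert a (Set.range fun n =>
      (h (φ n) * g * (h (φ n))⁻¹) • (h (φ n) • x (φ n)))} := fun n =>
    ⟨h (φ n) • x (φ n), Or.inl (Or.inr ⟨n, rfl⟩), Or.inr (Or.inr ⟨n, rfl⟩)⟩
  haveI := hfin.to_subtype
  obtain ⟨⟨γ, hγ⟩, hinf⟩ := Finite.exists_infinite_fiber (fun n : ℕ =>
    (⟨h (φ n) * g * (h (φ n))⁻¹, hmem n⟩ : {g' : G | ∃ z ∈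
      insert a (Set.range fun n => h (φ n) • x (φ n)) ∪ insert a (Set.range fun n =>
      (h (φ n) * g * (h (φ n))⁻¹) • (h (φ n) • x (φ n))), g' • z ∈
      insert a (Set.range fun n => h (φ n) • x (φ n)) ∪ insert a (Set.range fun n =>
      (h (φ n) * g * (h (φ n))⁻¹) • (h (φ n) • x (φ n)))}))
  have hinf2 : {n : ℕ | h (φ n) * g * (h (φ n))⁻¹ = γ}.Infinite := by
    have h1 := Set.infinite_coe_iff.1 hinf
    refine h1.mono fun n hn => ?_
    exact congrArg Subtype.val hn
  obtain ⟨ψ, hψ, hψ'⟩ := Filter.extraction_of_frequently_atTop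
    (Nat.frequently_atTop_iff_infinite.2 hinf2)
  have e1 : Filter.Tendsto (fun n => γ • (h (φ (ψ n)) • x (φ (ψ n)))) Filter.atTop (nhds a) := by
    have h1 := hlim2.comp hψ.tendsto_atTop
    refine h1.congr fun n => ?_
    show (h (φ (ψ n)) * g * (h (φ (ψ n)))⁻¹) • (h (φ (ψ n)) • x (φ (ψ n))) = _
    rw [hψ' n]
  have e2 : Filter.Tendsto (fun n => γ • (h (φ (ψ n)) • x (φ (ψ n)))) Filter.atTop
      (nhds (γ • a)) := by
    have h1 := hlim.comp hψ.tendsto_atTop
    rw [tendsto_iff_dist_tendsto_zero] at h1 ⊢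
    refine h1.congr fun n => ?_
    rw [hiso]
    rfl
  have e3 : γ • a = a := tendsto_nhds_unique e2 e1
  -- the stabilizer is finite
  have hst : (MulAction.stabilizer G a : Set G).Finite := by
    refine (hprop {a} isCompact_singleton).subset fun g' hg' => ?_
    refine ⟨a, rfl, ?_⟩
    have : g' • a = a := hg'
    rw [this]
    rfl
  haveI : Finite (MulAction.stabilizer G a) := hst.to_subtype
  have h3 : IsOfFinOrder (⟨γ, e3⟩ : MulAction.stabilizer G a) := isOfFinOrder_of_finite _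
  have h4 : IsOfFinOrder γ := by
    have := (MulAction.stabilizer G a).subtype.isOfFinOrder h3
    exact this
  obtain ⟨n, hn, hn'⟩ := isOfFinOrder_iff_pow_eq_one.1 h4
  rw [← hψ' 0, conj_pow, conj_eq_one_iff] at hn'
  exact isOfFinOrder_iff_pow_eq_one.2 ⟨n, hn, hn'⟩

end Pool.Agent.H75.TB
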