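import Pool.Agent.H75.TB.Ev

/-!
# TB-C2: rational solutions

`rational_solution`: general fact: for finitely many real numbers `r_i` and `ε > 0` there is a
`ℚ`-linear map `f : ℝ →ₗ[ℚ] ℚ` with `|f r_i - r_i| < ε` for all `i`: let `W` be the `ℚ`-span of the
`r_i` (finite dimensional), `b` a basis of `W`, define `f` on `b_j` as a rational number very close
to the real number `b_j` and extend to `ℝ` (a complement exists: `LinearMap.exists_extend` or
`Submodule.exists_isCompl`). Apply `f` to the given real solution: the equations have rational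
(integer) coefficients, so they stay true, and `Γ' v = f (Γ v) > 0` for `ε < min Γ v`.
-/

namespace Pool.Agent.H75.TB

theorem exists_rat_linear {ι : Type*} [Finite ι] (r : ι → ℝ) (ε : ℝ) (hε : 0 < ε) :
    ∃ f : ℝ →ₗ[ℚ] ℚ, ∀ i, |(f (r i) : ℝ) - r i| < ε := by
  classical
  have : Fintype ι := Fintype.ofFinite ι
  obtain ⟨W, hW⟩ : ∃ W : Submodule ℚ ℝ, W = Submodule.span ℚ (Set.range r) := ⟨_, rfl⟩
  have hfin : Module.Finite ℚ W := by
    rw [hW]
    exact Module.Finite.span_of_finite ℚ (Set.finite_range r)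
  have hmem : ∀ i, r i ∈ W := by
    intro i
    rw [hW]
    exact Submodule.subset_span ⟨i, rfl⟩
  let b := Module.finBasis ℚ W
  let c : ι → Fin (Module.finrank ℚ W) → ℚ := fun i j => b.repr ⟨r i, hmem i⟩ j
  have hc : ∀ i, r i = ∑ j, (c i j : ℝ) * (b j : ℝ) := by
    intro i
    have h1 := b.sum_repr ⟨r i, hmem i⟩
    have h2 := congrArg (fun w : W => (w : ℝ)) h1
    simp only [Submodule.coe_sum, Submodule.coe_smul] at h2
    rw [← h2]
    refine Finset.sum_congr rfl fun j _ => ?_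
    rw [Rat.smul_def]
  let K : ℝ := 1 + ∑ i, ∑ j, |(c i j : ℝ)|
  have hS : ∀ i, ∑ j, |(c i j : ℝ)| ≤ K - 1 := by
    intro i
    have : ∑ j, |(c i j : ℝ)| ≤ ∑ i, ∑ j, |(c i j : ℝ)| :=
      Finset.single_le_sum (f := fun i => ∑ j, |(c i j : ℝ)|)
        (fun i _ => Finset.sum_nonneg fun j _ => abs_nonneg _) (Finset.mem_univ i)
    simp only [K]
    linarith
  have hK : 1 ≤ K := by
    have : 0 ≤ ∑ i, ∑ j, |(c i j : ℝ)| :=
      Finset.sum_nonneg fun i _ => Finset.sum_nonneg fun j _ => abs_nonneg _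
    simp only [K]
    linarith
  have hδ : 0 < ε / K := by positivity
  have hq : ∀ j, ∃ q : ℚ, |(q : ℝ) - (b j : ℝ)| < ε / K := by
    intro j
    obtain ⟨q, hq1, hq2⟩ := exists_rat_btwn (show (b j : ℝ) - ε / K < (b j : ℝ) + ε / K by linarith)
    exact ⟨q, by rw [abs_lt]; constructor <;> linarith⟩
  choose q hq using hq
  obtain ⟨f, hf⟩ := LinearMap.exists_extend (b.constr ℚ q)
  refine ⟨f, fun i => ?_⟩
  have hfi : f (r i) = ∑ j, c i j * q j := by
    have h1 : f (r i) = (f.comp W.subtype) ⟨r i, hmem i⟩ := rfl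
    rw [h1, hf, Module.Basis.constr_apply_fintype]
    refine Finset.sum_congr rfl fun j _ => ?_
    simp [c, Module.Basis.equivFun_apply]
  rw [hfi]
  have h2 : ((∑ j, c i j * q j : ℚ) : ℝ) - r i = ∑ j, (c i j : ℝ) * ((q j : ℝ) - (b j : ℝ)) := by
    push_cast
    rw [hc i, ← Finset.sum_sub_distrib]
    refine Finset.sum_congr rfl fun j _ => ?_
    ring
  rw [h2]
  calc |∑ j, (c i j : ℝ) * ((q j : ℝ) - (b j : ℝ))|
      ≤ ∑ j, |(c i j : ℝ) * ((q j : ℝ) - (b j : ℝ))| := Finset.abs_sum_le_sum_abs _ _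
    _ ≤ ∑ j, |(c i j : ℝ)| * (ε / K) := by
        refine Finset.sum_le_sum fun j _ => ?_
        rw [abs_mul]
        exact mul_le_mul_of_nonneg_left (hq j).le (abs_nonneg _)
    _ = (∑ j, |(c i j : ℝ)|) * (ε / K) := by rw [Finset.sum_mul]
    _ ≤ (K - 1) * (ε / K) := mul_le_mul_of_nonneg_right (hS i) hδ.le
    _ = ε - ε / K := by field_simp
    _ < ε := by linarith

theorem rational_solution {V E : Type} [Finite V] (s t : E → V) (p p' : E → ℤ)
    (A B Γ : V → ℝ) (hΓ : ∀ v, 0 < Γ v)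
    (h : ∀ e, A (s e) + B (s e) * p e + Γ (s e) * (p e : ℝ) ^ 2 =
      A (t e) + B (t e) * p' e + Γ (t e) * (p' e : ℝ) ^ 2) :
    ∃ A' B' Γ' : V → ℚ, (∀ v, 0 < Γ' v) ∧
      ∀ e, qv (A' (s e)) (B' (s e)) (Γ' (s e)) (p e) =
        qv (A' (t e)) (B' (t e)) (Γ' (t e)) (p' e) := by
  rcases isEmpty_or_nonempty V with hV | hV
  · exact ⟨fun _ => 0, fun _ => 0, fun _ => 0, fun v => hV.elim v, fun e => hV.elim (s e)⟩
  · obtain ⟨v₀, hv₀⟩ := Finite.exists_min Γ
    obtain ⟨f, hf⟩ := exists_rat_linear Γ (Γ v₀) (hΓ v₀)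
    refine ⟨fun v => f (A v), fun v => f (B v), fun v => f (Γ v), ?_, ?_⟩
    · intro v
      have h1 := (abs_lt.mp (hf v)).1
      have h2 := hv₀ v
      have h3 : (0 : ℝ) < f (Γ v) := by linarith
      exact_mod_cast h3
    · intro e
      have key : ∀ (a b c : ℝ) (n : ℤ), f (a + b * n + c * (n : ℝ) ^ 2) =
          qv (f a) (f b) (f c) n := by
        intro a b c n
        have e1 : b * (n : ℝ) = (n : ℚ) • b := by rw [Rat.smul_def]; push_cast; ring
        have e2 : c * (n : ℝ) ^ 2 = ((n : ℚ) ^ 2) • c := by rw [Rat.smul_def]; push_cast; ring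
        rw [e1, e2, map_add, map_add, map_smul, map_smul, qv]
        simp only [smul_eq_mul]
        ring
      have := congrArg f (h e)
      rw [key, key] at this
      exact this

end Pool.Agent.H75.TB
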