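import Pool.Agent.H75.TB.Sheets
import Pool.Agent.H75.TB.Emb
import Pool.Agent.H75.TB.FBC
import Pool.Agent.H75.TB.Len
import Pool.Agent.H75.TB.LenB
import Pool.Agent.H75.TB.Rat

/-!
# Tubular free-by-cyclic groups acting geometrically on CAT(0) spaces
-/

namespace Pool.Agent.H75.TB

open Pool.Agent.H29 Multiplicative

/-- the homomorphism `φ` on the vertex groups -/
def phiV {D : TubGraph} (Φ : D.Grp →* Multiplicative ℤ) (v : D.V) : ℤ × ℤ →+ ℤ where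
  toFun a := toAdd (Φ (gv v a))
  map_zero' := by
    have h := gv_add v (0 : ℤ × ℤ) 0
    rw [add_zero] at h
    have : gv v (0 : ℤ × ℤ) = 1 := by simpa using h
    rw [this]; simp
  map_add' a b := by rw [gv_add, map_mul, toAdd_mul]

lemma mgv_zero {D : TubGraph} (v : D.V) : gv v (0 : ℤ × ℤ) = 1 := by
  have h := gv_add v (0 : ℤ × ℤ) 0
  rw [add_zero] at h
  simpa using h

lemma mgv_neg {D : TubGraph} (v : D.V) (a : ℤ × ℤ) : gv v (-a) = (gv v a)⁻¹ := by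
  have h := gv_add v (-a) a
  rw [neg_add_cancel, mgv_zero] at h
  exact eq_inv_of_mul_eq_one_left h.symm

lemma mgv_nsmul {D : TubGraph} (v : D.V) (a : ℤ × ℤ) (n : ℕ) : gv v (n • a) = (gv v a) ^ n := by
  induction n with
  | zero => simp [mgv_zero]
  | succ n ih => rw [succ_nsmul, gv_add, ih, pow_succ]

lemma mgv_comm {D : TubGraph} (v : D.V) (a b : ℤ × ℤ) : gv v a * gv v b = gv v b * gv v a := by
  rw [← gv_add, ← gv_add, add_comm]

theorem tubular_of_length {D : TubGraph} (Φ : D.Grp →* Multiplicative ℤ)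
    (n : ℕ) (e : Φ.ker ≃* FreeGroup (Fin n)) (τ : D.Grp → ℝ)
    (h2 : ∀ g h, τ (h * g * h⁻¹) = τ g) (h3 : ∀ g, τ g = 0 → IsOfFinOrder g)
    (h4 : ∀ a b, a * b = b * a → τ (a * b) ^ 2 + τ (a * b⁻¹) ^ 2 = 2 * τ a ^ 2 + 2 * τ b ^ 2) :
    VirtuallyRAAG D.Grp := by
  classical
  have hφ : ∀ v, phiV Φ v ≠ 0 := by
    intro v h0
    obtain ⟨a, ha⟩ := fbc_vertex_ne Φ n e v
    apply ha
    have : phiV Φ v a = 0 := by rw [h0]; rfl
    exact this
  have φ_ne : ∀ ε, phiV Φ (D.src ε) (D.u ε) ≠ 0 := by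
    intro ε h0
    exact fbc_edge_ne Φ n e ε h0
  have φ_eq : ∀ ε, phiV Φ (D.tgt ε) (D.u' ε) = phiV Φ (D.src ε) (D.u ε) := by
    intro ε
    have h := congrArg Φ (gt_rel ε)
    rw [map_mul, map_mul, mul_comm] at h
    exact (mul_right_cancel h).symm ▸ rfl
  have := D.finE
  have : Fintype D.E := Fintype.ofFinite _
  set N : ℤ := ∏ ε, phiV Φ (D.src ε) (D.u ε) with hNdef
  have hN : N ≠ 0 := Finset.prod_ne_zero_iff.mpr fun ε _ => φ_ne ε
  have hdvd : ∀ ε, phiV Φ (D.src ε) (D.u ε) ∣ N := fun ε =>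
    Finset.dvd_prod_of_mem (fun ε => phiV Φ (D.src ε) (D.u ε)) (Finset.mem_univ ε)
  let p : D.E → ℤ := fun ε => N / phiV Φ (D.src ε) (D.u ε) * xc (phiV Φ (D.src ε)) (D.u ε)
  let p' : D.E → ℤ := fun ε => N / phiV Φ (D.src ε) (D.u ε) * xc (phiV Φ (D.tgt ε)) (D.u' ε)
  have hp : ∀ ε, p ε * phiV Φ (D.src ε) (D.u ε) = N * xc (phiV Φ (D.src ε)) (D.u ε) := by
    intro ε
    have := Int.ediv_mul_cancel (hdvd ε)
    calc p ε * phiV Φ (D.src ε) (D.u ε) = (N / phiV Φ (D.src ε) (D.u ε) *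
        phiV Φ (D.src ε) (D.u ε)) * xc (phiV Φ (D.src ε)) (D.u ε) := by ring
      _ = _ := by rw [this]
  have hp' : ∀ ε, p' ε * phiV Φ (D.tgt ε) (D.u' ε) = N * xc (phiV Φ (D.tgt ε)) (D.u' ε) := by
    intro ε
    have := Int.ediv_mul_cancel (hdvd ε)
    rw [φ_eq]
    calc p' ε * phiV Φ (D.src ε) (D.u ε) = (N / phiV Φ (D.src ε) (D.u ε) *
        phiV Φ (D.src ε) (D.u ε)) * xc (phiV Φ (D.tgt ε)) (D.u' ε) := by ring
      _ = _ := by rw [this]
  let Q : D.V → ℤ × ℤ → ℝ := fun v a => τ (gv v a) ^ 2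
  have hQ : ∀ v a b, Q v (a + b) + Q v (a - b) = 2 * Q v a + 2 * Q v b := by
    intro v a b
    have := h4 (gv v a) (gv v b) (mgv_comm v a b)
    rw [← gv_add, ← mgv_neg, ← gv_add, ← sub_eq_add_neg] at this
    exact this
  have hpos : ∀ v a, a ≠ 0 → 0 < Q v a := by
    intro v a ha
    refine lt_of_le_of_ne (sq_nonneg _) fun h0 => ha ?_
    have h1 : τ (gv v a) = 0 := by
      have : τ (gv v a) ^ 2 = 0 := h0.symm
      exact pow_eq_zero_iff (two_ne_zero) |>.mp this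
    obtain ⟨m, hm, hm1⟩ := isOfFinOrder_iff_pow_eq_one.mp (h3 _ h1)
    rw [← mgv_nsmul] at hm1
    have h5 := vertex_injective v _ hm1
    exact (smul_eq_zero.mp h5).resolve_left hm.ne'
  have hedge : ∀ ε, Q (D.src ε) (D.u ε) = Q (D.tgt ε) (D.u' ε) := by
    intro ε
    have h := gt_rel ε
    have h6 : gv (D.tgt ε) (D.u' ε) = gt ε * gv (D.src ε) (D.u ε) * (gt ε)⁻¹ := by
      rw [h]; group
    show τ _ ^ 2 = τ _ ^ 2
    rw [h6, h2]
  choose A B Γ hΓ hform using fun v => slope_form (phiV Φ v) (hφ v) (Q v) (hQ v) (hpos v) N hN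
  have := D.finV
  obtain ⟨A', B', Γ', hΓ', heq⟩ := rational_solution D.src D.tgt p p' A B Γ hΓ (by
    intro ε
    rw [hform (D.src ε) (D.u ε) (p ε) (φ_ne ε) (hp ε),
      hform (D.tgt ε) (D.u' ε) (p' ε) (by rw [φ_eq]; exact φ_ne ε) (hp' ε), hedge, φ_eq])
  obtain ⟨M⟩ := exists_embData D (phiV Φ) hφ φ_ne φ_eq N hN p p' hp hp' A' B' Γ' hΓ' heq
  exact M.emb

end Pool.Agent.H75.TB
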