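import Pool.Agent.H75.TB.PolyaA

/-!
# TB-M8b: Pólya's theorem for Laurent polynomials

`f ≠ 0` (its value at `1` is positive). Write `f = T lo * toLaurent P` with `P.coeff 0 ≠ 0`
(`exists_T_pow`, then divide by the largest power of `X`, e.g. `Polynomial.exists_eq_pow_rootMultiplicity_mul_and_not_dvd`
or `Polynomial.natTrailingDegree`/`divX`). `P(y) = y^(-lo) pe f y > 0` for `y > 0`.
`(1+T 1)^(2m) T(-m) f = T (lo - m) * toLaurent ((1+X)^(2m) P)` has the coefficient of index `b` equal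
to the coefficient of index `b + m - lo` of `(1+X)^(2m) P` (and `0` if this is negative). By
`polya_poly` with `N = 2m`, `m` large, this is positive when `0 ≤ b + m - lo ≤ 2m + d`, `d` the degree
of `P`, and `0` otherwise; the inequalities hold for all `|b| ≤ L` if `m ≥ L + |lo|`.
-/

namespace Pool.Agent.H75.TB

open LaurentPolynomial

lemma pe_toLaurent (P : Polynomial ℚ) {y : ℝ} (hy : y ≠ 0) :
    pe (Polynomial.toLaurent P) y = Polynomial.aeval y P := by
  rw [pe_eq_evH _ _ hy, evH, LaurentPolynomial.eval₂_toLaurent]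
  rfl

lemma coeff_T_mul (n : ℤ) (f : LP) (b : ℤ) : (T n * f : LP).coeff b = f.coeff (b - n) := by
  have h := AddMonoidAlgebra.coeff_single_mul_eq_mul_coeff (r := (1 : ℚ)) (x := f) (m := n) (m₁ := b)
    (b - n) (fun m' _ => by constructor <;> intro h <;> omega)
  rw [one_mul] at h
  exact h

lemma coeff_toLaurent_nat (P : Polynomial ℚ) (n : ℕ) :
    (Polynomial.toLaurent P : LP).coeff (n : ℤ) = P.coeff n := by
  rw [coeff_toLaurent]
  exact Finsupp.mapDomain_apply Nat.castEmbedding.injective _ _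

lemma coeff_toLaurent_neg (P : Polynomial ℚ) {b : ℤ} (hb : b < 0) :
    (Polynomial.toLaurent P : LP).coeff b = 0 := by
  rw [coeff_toLaurent]
  refine Finsupp.mapDomain_of_notMem_range _ _ ?_
  rintro ⟨n, hn⟩
  have : (n : ℤ) = b := hn
  omega

theorem polya (f : LP) (hf : ∀ y : ℝ, 0 < y → 0 < pe f y) (L : ℕ) :
    ∃ m₀ : ℕ, ∀ m ≥ m₀, (∀ b, 0 ≤ ((1 + T 1) ^ (2 * m) * T (-(m : ℤ)) * f : LP).coeff b) ∧
      ∀ b : ℤ, |b| ≤ L → 0 < ((1 + T 1) ^ (2 * m) * T (-(m : ℤ)) * f : LP).coeff b := by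
  obtain ⟨n, P₀, hP₀⟩ := exists_T_pow f
  have hf0 : f ≠ 0 := by
    intro h
    have := hf 1 one_pos
    rw [h, pe_zero] at this
    exact lt_irrefl _ this
  have hP0 : P₀ ≠ 0 := by
    rintro rfl
    rw [map_zero] at hP₀
    have h1 : f * T n * T (-n : ℤ) = 0 := by rw [← hP₀, zero_mul]
    rw [mul_T_assoc, add_neg_cancel, T_zero, mul_one] at h1
    exact hf0 h1
  obtain ⟨P, hP, hdvd⟩ := Polynomial.exists_eq_pow_rootMultiplicity_mul_and_not_dvd P₀ hP0 0
  rw [map_zero, sub_zero] at hP hdvd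
  have hc0 : P.coeff 0 ≠ 0 := fun h => hdvd (Polynomial.X_dvd_iff.2 h)
  obtain ⟨k, hk⟩ : ∃ k : ℕ, k = P₀.rootMultiplicity 0 := ⟨_, rfl⟩
  rw [← hk] at hP
  have hfP : f = T ((k : ℤ) - n) * Polynomial.toLaurent P := by
    have h1 : f = f * T n * T (-n : ℤ) := by rw [mul_T_assoc, add_neg_cancel, T_zero, mul_one]
    rw [h1, ← hP₀, hP, map_mul, Polynomial.toLaurent_X_pow, T_sub]
    ring
  obtain ⟨lo, hlo⟩ : ∃ lo : ℤ, lo = (k : ℤ) - n := ⟨_, rfl⟩
  rw [← hlo] at hfP
  have hpos : ∀ y : ℝ, 0 < y → 0 < Polynomial.aeval y P := by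
    intro y hy
    have h1 := hf y hy
    rw [hfP, pe_mul _ _ hy.ne', pe_T, pe_toLaurent _ hy.ne'] at h1
    exact (pos_iff_pos_of_mul_pos h1).1 (zpow_pos hy _)
  obtain ⟨N₀, hN₀⟩ := polya_poly P hc0 hpos
  refine ⟨N₀ + L + lo.natAbs, fun m hm => ?_⟩
  have hprod : ((1 + T 1) ^ (2 * m) * T (-(m : ℤ)) * f : LP) =
      T (lo - m) * Polynomial.toLaurent ((1 + Polynomial.X) ^ (2 * m) * P) := by
    rw [hfP, map_mul, map_pow, map_add, map_one, Polynomial.toLaurent_X, T_sub]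
    ring
  have hdeg : ((1 + Polynomial.X) ^ (2 * m) * P).natDegree ≤ 2 * m + P.natDegree := by
    refine (Polynomial.natDegree_mul_le).trans ?_
    refine Nat.add_le_add_right ?_ _
    refine (Polynomial.natDegree_pow_le).trans ?_
    have h1 : (1 + Polynomial.X : Polynomial ℚ).natDegree ≤ 1 := by
      rw [add_comm, ← Polynomial.C_1]
      exact (Polynomial.natDegree_X_add_C _).le
    calc 2 * m * (1 + Polynomial.X : Polynomial ℚ).natDegree ≤ 2 * m * 1 := Nat.mul_le_mul_left _ h1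
      _ = 2 * m := mul_one _
  have hNm : 2 * m ≥ N₀ := by omega
  constructor
  · intro b
    rw [hprod, coeff_T_mul]
    rcases lt_or_ge (b - (lo - m)) 0 with h | h
    · rw [coeff_toLaurent_neg _ h]
    · obtain ⟨j, hj⟩ := Int.eq_ofNat_of_zero_le h
      rw [hj, coeff_toLaurent_nat]
      rcases le_or_gt j (2 * m + P.natDegree) with h1 | h1
      · exact (hN₀ _ hNm j h1).le
      · rw [Polynomial.coeff_eq_zero_of_natDegree_lt (hdeg.trans_lt h1)]
  · intro b hb
    rw [hprod, coeff_T_mul]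
    have hb' := abs_le.1 hb
    have h : 0 ≤ b - (lo - m) := by omega
    obtain ⟨j, hj⟩ := Int.eq_ofNat_of_zero_le h
    rw [hj, coeff_toLaurent_nat]
    exact hN₀ _ hNm j (by omega)

end Pool.Agent.H75.TB
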