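import Pool.Agent.H75.TB.Two
import Pool.Agent.H75.TB.Ext
import Pool.Agent.H75.TB.Glue
import Pool.Agent.H75.TB.Polya

/-!
# TB-M11: Theorem M (matching)
-/

namespace Pool.Agent.H75.TB

open LaurentPolynomial

/-- the number of `(a, b)` with `a p + b = ω`, counted with the multiplicity `m (a, b)` -/
def lineSum (m : ℤ × ℤ →₀ ℕ) (p ω : ℤ) : ℕ :=
  m.sum fun x n => if x.1 * p + x.2 = ω then n else 0

/-- a solution that is positive everywhere on `(0, ∞)` -/
theorem positive_solution {V : Type} [Finite V] (A B Γ : V → ℚ) (hΓ : ∀ v, 0 < Γ v) (L : ℕ) :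
    ∃ (R : ℕ) (Φ : ℚ → LP) (h : V → ℤ →₀ LP), 1 ≤ R ∧ IsSol A B Γ L R Φ h ∧
      ∀ v (a : ℤ), |a| ≤ R → ∀ y : ℝ, 0 < y → 0 < pe (h v a) y := by
  classical
  obtain ⟨η, R₀, hη, hext⟩ := extend A B Γ hΓ L
  obtain ⟨η₁, h1, h2⟩ := exists_between hη
  obtain ⟨R, hR, Φ', h', hs', hp'⟩ := twoSided A B Γ hΓ L η₁ h1 (max R₀ 1)
  obtain ⟨Φ, h, hs, hp⟩ := hext R (le_trans (le_max_left _ _) hR)
  let ι := V × {a : ℤ // |a| ≤ (R : ℤ)}
  have hfin : Finite {a : ℤ // |a| ≤ (R : ℤ)} := by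
    refine Set.Finite.to_subtype ((Set.finite_Icc (-(R : ℤ)) R).subset ?_)
    intro a ha
    exact abs_le.mp ha
  obtain ⟨w, hw⟩ := glue (ι := ι) (fun i => h i.1 i.2.1) (fun i => h' i.1 i.2.1) η₁ η h1 h2
    (fun i y hy hy' => hp i.1 i.2.1 i.2.2 y hy hy')
    (fun i y hy hy' => hp' i.1 i.2.1 i.2.2 y hy hy')
  refine ⟨R, _, _, le_trans (le_max_right _ _) hR, hs.add (hs'.smul w), ?_⟩
  intro v a ha y hy
  have := hw (v, ⟨a, ha⟩) y hy
  simpa using this

lemma coeff_mul_T' (f : LP) (n b : ℤ) : (f * T n : LP).coeff b = f.coeff (b - n) := by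
  rw [mul_comm, coeff_T_mul]

/-- a common denominator -/
lemma exists_den (F : Finset ℚ) : ∃ D : ℕ, 0 < D ∧ ∀ q ∈ F, ∃ z : ℤ, (D : ℚ) * q = z := by
  refine ⟨∏ q ∈ F, q.den, Finset.prod_pos fun q _ => q.den_pos, fun q hq => ?_⟩
  obtain ⟨k, hk⟩ := Finset.dvd_prod_of_mem (fun q : ℚ => q.den) hq
  refine ⟨k * q.num, ?_⟩
  rw [hk]
  push_cast
  have h := Rat.den_mul_eq_num q
  linear_combination (k : ℚ) * h

lemma lineSum_eq (h : ℤ →₀ LP) (μ : ℤ × ℤ →₀ ℕ) (hμ : ∀ a b, (μ (a, b) : ℚ) = (h a).coeff b) (p ω : ℤ) :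
    ((lineSum μ p ω : ℕ) : ℚ) = (rowEv h p).coeff ω := by
  classical
  obtain ⟨S, hS⟩ : ∃ S : Finset ℤ, S = μ.support.image Prod.fst ∪ h.support := ⟨_, rfl⟩
  obtain ⟨B, hB⟩ : ∃ B : Finset ℤ, B = μ.support.image Prod.snd ∪ S.image (fun a => ω - a * p) := ⟨_, rfl⟩
  have h1 : lineSum μ p ω = ∑ x ∈ S ×ˢ B, if x.1 * p + x.2 = ω then μ x else 0 := by
    rw [lineSum]
    refine Finsupp.sum_of_support_subset _ ?_ _ ?_
    · intro x hx
      rw [Finset.mem_product]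
      refine ⟨?_, ?_⟩
      · rw [hS]
        exact Finset.mem_union_left _ (Finset.mem_image.2 ⟨x, hx, rfl⟩)
      · rw [hB]
        exact Finset.mem_union_left _ (Finset.mem_image.2 ⟨x, hx, rfl⟩)
    · intro i _
      simp
  rw [h1, Nat.cast_sum, Finset.sum_product, rowEv_eq_sum h p (s := S) (by
    rw [hS]; exact Finset.subset_union_right), AddMonoidAlgebra.coeff_sum, Finset.sum_apply']
  refine Finset.sum_congr rfl fun a ha => ?_
  rw [coeff_mul_T', Finset.sum_eq_single (ω - a * p)]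
  · rw [if_pos (by ring), hμ]
  · intro b _ hb
    rw [if_neg]
    · simp
    · intro h
      apply hb
      have h' : a * p + b = ω := h
      linarith
  · intro h
    exfalso
    apply h
    rw [hB]
    exact Finset.mem_union_right _ (Finset.mem_image.2 ⟨a, ha, rfl⟩)

theorem matching {V : Type} [Finite V] (A B Γ : V → ℚ) (hΓ : ∀ v, 0 < Γ v) (L : ℕ) :
    ∃ μ : V → (ℤ × ℤ →₀ ℕ),
      (∀ v w (p p' : ℤ), |p| ≤ L → |p'| ≤ L →
        qv (A v) (B v) (Γ v) p = qv (A w) (B w) (Γ w) p' →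
        ∀ ω, lineSum (μ v) p ω = lineSum (μ w) p' ω) ∧
      ∀ v (b : ℤ), |b| ≤ L → 0 < μ v (1, b) := by
  classical
  cases nonempty_fintype V
  obtain ⟨R, Φ, h, hR, hsol, hpos⟩ := positive_solution A B Γ hΓ L
  -- Pólya
  have hev : ∀ᶠ m : ℕ in Filter.atTop, ∀ v : V, ∀ a ∈ Finset.Icc (-(R : ℤ)) R,
      (∀ b, 0 ≤ ((1 + T 1) ^ (2 * m) * T (-(m : ℤ)) * h v a : LP).coeff b) ∧
      ∀ b : ℤ, |b| ≤ L → 0 < ((1 + T 1) ^ (2 * m) * T (-(m : ℤ)) * h v a : LP).coeff b := by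
    rw [Filter.eventually_all]
    intro v
    rw [Filter.eventually_all_finset]
    intro a ha
    rw [Finset.mem_Icc] at ha
    obtain ⟨m₀, hm₀⟩ := polya (h v a) (hpos v a (abs_le.2 ha)) L
    exact Filter.eventually_atTop.2 ⟨m₀, hm₀⟩
  obtain ⟨m, hm⟩ := hev.exists
  obtain ⟨w, hw⟩ : ∃ w : LP, w = (1 + T 1) ^ (2 * m) * T (-(m : ℤ)) := ⟨_, rfl⟩
  rw [← hw] at hm
  -- the common denominator
  obtain ⟨D, hD, hden⟩ := exists_den (Finset.univ.biUnion fun v : V => (h v).support.biUnion fun a =>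
    (w * h v a).coeff.support.image (w * h v a).coeff)
  obtain ⟨h', hh'⟩ : ∃ h' : V → ℤ →₀ LP, h' = fun v => (C (D : ℚ) * w) • h v := ⟨_, rfl⟩
  have hsol' := hsol.smul (C (D : ℚ) * w)
  rw [← hh'] at hsol'
  have hco : ∀ v a b, (h' v a).coeff b = D * (w * h v a).coeff b := by
    intro v a b
    rw [hh']
    show ((C (D : ℚ) * w) * h v a : LP).coeff b = _
    rw [mul_assoc, ← LaurentPolynomial.smul_eq_C_mul]
    rfl
  have hnat : ∀ v a b, ∃ n : ℕ, (h' v a).coeff b = n := by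
    intro v a b
    have h0 : 0 ≤ (h' v a).coeff b := by
      rw [hco]
      refine mul_nonneg (Nat.cast_nonneg _) ?_
      by_cases ha : a ∈ Finset.Icc (-(R : ℤ)) R
      · exact (hm v a ha).1 b
      · have : h v a = 0 := hsol.supp v a (by
          by_contra hcon
          exact ha (Finset.mem_Icc.2 (abs_le.1 (not_lt.1 hcon))))
        rw [this, mul_zero]
        exact le_rfl
    have h1 : ∃ z : ℤ, (h' v a).coeff b = z := by
      rw [hco]
      by_cases hb : (w * h v a).coeff b = 0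
      · exact ⟨0, by rw [hb]; simp⟩
      · refine hden _ ?_
        rw [Finset.mem_biUnion]
        refine ⟨v, Finset.mem_univ v, ?_⟩
        rw [Finset.mem_biUnion]
        refine ⟨a, ?_, ?_⟩
        · rw [Finsupp.mem_support_iff]
          intro h0
          rw [h0, mul_zero] at hb
          exact hb rfl
        · exact Finset.mem_image.2 ⟨b, Finsupp.mem_support_iff.2 hb, rfl⟩
    obtain ⟨z, hz⟩ := h1
    rw [hz] at h0 ⊢
    obtain ⟨n, hn⟩ := Int.eq_ofNat_of_zero_le (by exact_mod_cast h0 : (0 : ℤ) ≤ z)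
    exact ⟨n, by rw [hn]; simp⟩
  have hμ : ∀ v, ∃ μ : ℤ × ℤ →₀ ℕ, ∀ a b, (μ (a, b) : ℚ) = (h' v a).coeff b := by
    intro v
    choose f hf using hnat v
    refine ⟨Finsupp.onFinset ((h' v).support ×ˢ ((h' v).support.biUnion fun a => (h' v a).coeff.support))
      (fun x => f x.1 x.2) ?_, ?_⟩
    · intro x hx
      have h1 : (h' v x.1).coeff x.2 ≠ 0 := by
        rw [hf]
        exact_mod_cast hx
      have h2 : x.1 ∈ (h' v).support := by
        rw [Finsupp.mem_support_iff]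
        intro h0
        rw [h0] at h1
        exact h1 rfl
      rw [Finset.mem_product, Finset.mem_biUnion]
      exact ⟨h2, x.1, h2, Finsupp.mem_support_iff.2 h1⟩
    · intro a b
      rw [hf]
      rfl
  choose μ hμ' using hμ
  refine ⟨μ, ?_, ?_⟩
  · intro v v' p p' hp hp' hq ω
    have h1 := lineSum_eq (h' v) (μ v) (hμ' v) p ω
    have h2 := lineSum_eq (h' v') (μ v') (hμ' v') p' ω
    have h3 : (lineSum (μ v) p ω : ℚ) = lineSum (μ v') p' ω := by
      rw [h1, h2, hsol'.ev v p hp, hsol'.ev v' p' hp', hq]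
    exact_mod_cast h3
  · intro v b hb
    have h1 : (0 : ℚ) < μ v (1, b) := by
      rw [hμ', hco]
      refine mul_pos (by exact_mod_cast hD) ((hm v 1 ?_).2 b hb)
      rw [Finset.mem_Icc]
      omega
    exact_mod_cast h1

end Pool.Agent.H75.TB
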