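import Mathlib

/-!
# TB-M4a: a Vandermonde system near `(1, …, 1)`

`k = 2L+1`, `m_j = ∑_{|a| ≤ L} a^j`. The square Vandermonde matrix `(a^j)`, `|a| ≤ L`, `j < k`, is
invertible (`Matrix.det_vandermonde_ne_zero_iff`; index the nodes by `Fin k`, `a = i - L`) and
`w_a = 1` solves `∑_a w_a a^j = m_j`. The solution depends linearly on the right hand side: by
Cramer/inverse matrix `w_a = ∑_j (V⁻¹)_{aj} b_j`, `|w_a - 1| ≤ ∑_j |(V⁻¹)_{aj}| |b_j - m_j| < 1` if
`δ` is small.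
-/

namespace Pool.Agent.H75.TB

/-- the sums `∑_{|a| ≤ L} a^j` -/
noncomputable def msum (L j : ℕ) : ℚ := ∑ a ∈ Finset.Icc (-(L : ℤ)) L, (a : ℚ) ^ j

theorem msum_odd (L j : ℕ) (hj : ¬ Even j) : msum L j = 0 := by
  have h : msum L j = - msum L j := by
    unfold msum
    rw [← Finset.sum_neg_distrib]
    refine Finset.sum_nbij' (fun a => -a) (fun a => -a) ?_ ?_ ?_ ?_ ?_
    · intro a ha; simp only [Finset.mem_Icc] at ha ⊢; omega
    · intro a ha; simp only [Finset.mem_Icc] at ha ⊢; omega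
    · intro a _; simp
    · intro a _; simp
    · intro a _
      rw [Int.cast_neg, (Nat.not_even_iff_odd.1 hj).neg_pow, neg_neg]
  linarith

theorem msum_nonneg (L j : ℕ) (hj : Even j) : 0 ≤ msum L j :=
  Finset.sum_nonneg fun _ _ => hj.pow_nonneg _

theorem sum_Icc_fin (L : ℕ) (f : ℤ → ℚ) :
    ∑ a ∈ Finset.Icc (-(L : ℤ)) L, f a = ∑ i : Fin (2 * L + 1), f ((i : ℕ) - (L : ℤ)) := by
  symm
  refine Finset.sum_bij (fun i _ => ((i : ℕ) : ℤ) - (L : ℤ)) ?_ ?_ ?_ ?_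
  · intro i _
    have := i.2
    simp only [Finset.mem_Icc]; omega
  · intro i _ j _ h
    exact Fin.ext (by omega)
  · intro a ha
    simp only [Finset.mem_Icc] at ha
    exact ⟨⟨(a + L).toNat, by omega⟩, Finset.mem_univ _, by simp only; omega⟩
  · intro i _; rfl

theorem near_ones (L : ℕ) : ∃ δ : ℚ, 0 < δ ∧ ∀ b : ℕ → ℚ, (∀ j < 2 * L + 1, |b j - msum L j| < δ) →
    ∃ w : ℤ → ℚ, (∀ a : ℤ, |a| ≤ L → 0 < w a) ∧
      ∀ j < 2 * L + 1, ∑ a ∈ Finset.Icc (-(L : ℤ)) L, w a * (a : ℚ) ^ j = b j := by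
  set x : Fin (2 * L + 1) → ℚ := fun i => ((((i : ℕ) : ℤ) - (L : ℤ) : ℤ) : ℚ) with hx
  set V : Matrix (Fin (2 * L + 1)) (Fin (2 * L + 1)) ℚ := (Matrix.vandermonde x).transpose with hV
  have hinj : Function.Injective x := by
    intro i j h
    have h1 : (((i : ℕ) : ℤ) - (L : ℤ) : ℤ) = ((j : ℕ) : ℤ) - (L : ℤ) := Int.cast_injective h
    exact Fin.ext (by omega)
  have hdet : IsUnit V.det := by
    rw [hV, Matrix.det_transpose]
    exact isUnit_iff_ne_zero.2 (Matrix.det_vandermonde_ne_zero_iff.2 hinj)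
  set S : ℚ := ∑ i, ∑ j, |V⁻¹ i j| with hS
  have hS0 : 0 ≤ S := Finset.sum_nonneg fun i _ => Finset.sum_nonneg fun j _ => abs_nonneg _
  refine ⟨1 / (1 + S), by positivity, fun b hb => ?_⟩
  set c : Fin (2 * L + 1) → ℚ := fun j => b j - msum L j with hc
  set w' : Fin (2 * L + 1) → ℚ := fun i => 1 + (V⁻¹.mulVec c) i with hw'
  have hpos : ∀ i, 0 < w' i := by
    intro i
    have h1 : |(V⁻¹.mulVec c) i| ≤ ∑ j, |V⁻¹ i j| * (1 / (1 + S)) := by
      rw [Matrix.mulVec, dotProduct]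
      refine (Finset.abs_sum_le_sum_abs _ _).trans (Finset.sum_le_sum fun j _ => ?_)
      rw [abs_mul]
      exact mul_le_mul_of_nonneg_left (hb j j.2).le (abs_nonneg _)
    have h2 : ∑ j, |V⁻¹ i j| * (1 / (1 + S)) ≤ S * (1 / (1 + S)) := by
      rw [← Finset.sum_mul]
      refine mul_le_mul_of_nonneg_right ?_ (by positivity)
      exact Finset.single_le_sum (f := fun i => ∑ j, |V⁻¹ i j|)
        (fun i _ => Finset.sum_nonneg fun j _ => abs_nonneg _) (Finset.mem_univ i)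
    have h3 : S * (1 / (1 + S)) < 1 := by
      rw [mul_one_div, div_lt_one (by positivity)]; linarith
    have h4 := (abs_lt.1 (lt_of_le_of_lt (h1.trans h2) h3)).1
    simp only [hw']; linarith
  have hmul : V.mulVec w' = fun j : Fin (2 * L + 1) => b j := by
    have h1 : w' = (fun _ => (1 : ℚ)) + V⁻¹.mulVec c := by funext i; rfl
    rw [h1, Matrix.mulVec_add, Matrix.mulVec_mulVec, Matrix.mul_nonsing_inv V hdet, Matrix.one_mulVec]
    funext j
    simp only [Pi.add_apply, hc]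
    have h2 : V.mulVec (fun _ => (1 : ℚ)) j = msum L j := by
      rw [Matrix.mulVec, dotProduct, msum, sum_Icc_fin L (fun a => (a : ℚ) ^ (j : ℕ))]
      refine Finset.sum_congr rfl fun i _ => ?_
      simp [hV, hx, Matrix.vandermonde_apply]
    rw [h2]; ring
  refine ⟨fun a => if h : (a + L).toNat < 2 * L + 1 then w' ⟨(a + L).toNat, h⟩ else 1, ?_, ?_⟩
  · intro a _
    dsimp only
    split_ifs with h
    · exact hpos _
    · exact one_pos
  · intro j hj
    rw [sum_Icc_fin L (fun a => (if h : (a + L).toNat < 2 * L + 1 then w' ⟨(a + L).toNat, h⟩ else 1) * (a : ℚ) ^ j)]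
    have h1 := congrFun hmul ⟨j, hj⟩
    rw [Matrix.mulVec, dotProduct] at h1
    rw [← h1]
    refine Finset.sum_congr rfl fun i _ => ?_
    have h2 : ((((i : ℕ) : ℤ) - (L : ℤ)) + L).toNat = i := by omega
    have h3 : ((((i : ℕ) : ℤ) - (L : ℤ)) + L).toNat < 2 * L + 1 := by rw [h2]; exact i.2
    rw [dif_pos h3]
    have h4 : (⟨((((i : ℕ) : ℤ) - (L : ℤ)) + L).toNat, h3⟩ : Fin (2 * L + 1)) = i := Fin.ext h2
    rw [h4]
    simp [hV, hx, Matrix.vandermonde_apply, mul_comm]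

end Pool.Agent.H75.TB
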