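import Pool.Agent.H75.TB.Target
import Pool.Agent.H75.TB.Britton

/-!
# TB-G5: reduced path words have nontrivial value in the ambient group

Let `Z = M.J → Multiplicative ℤ` and for `τ : M.I` let `C τ ≤ Z` be the subgroup of all `f` with
`f i ≠ 1 → M.adjZ i τ`. Apply `multi_britton` (`M.I` is finite when `D.E` is: `D.finE`,
`NeZero (M.c e)`) to `G = Z`, `A = B = C`, `φ` the identity: group `P`, `ι : Z →* P`, `t τ`
commuting with `ι (C τ)`. `ρ : RAAG M.graph →* P` with `z_j ↦ ι (Pi.mulSingle j (ofAdd 1))`,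
`τ ↦ t τ` (`raagLift`); `ρ (M.zz f) = ι f`.

Elements of `M.B` are pairs `(r, f)`. For `f : M.F` write `f • r = raagAut _ f r`;
`f • M.zz g = M.zz (g ∘ f.1⁻¹)`. Multiplying on the right:
`(r, f) * iv v a = (r * f • z(a), f * (1, φ a))`,
`(r, f) * te e = (r * τ_{e, f.1, f.2 e}, f * (σ_e, 1))`,
`(r, f) * (te e)⁻¹ = (r * (τ_{e, f.1 σ_e⁻¹, f.2 e})⁻¹, f * (σ_e⁻¹, 1))`.
So for a path word `l` starting at `v` and `f : M.F` define the list of syllables
(letter, sign, element of `Z`): for `x :: l` with `x.1 = (e, true)`: letter `⟨e, f.1, f.2 e⟩`, sign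
`1`, `f' = f * (σ_e, 1)`; with `x.1 = (e, false)`: letter `⟨e, f.1 σ_e⁻¹, f.2 e⟩`, sign `-1`,
`f' = f * (σ_e⁻¹, 1)`; the element of `Z` is `(fun j => ofAdd (d (fi x.1) j x.2)) ∘ f'.1⁻¹`, and we
continue with `f' * (1, φ x.2)` (after the initial `f * (1, φ a)`). Then
`ρ (f • (S.ev v a l).1) = ι (..) * product of the syllables`.

The syllable list of a REDUCED path word is a `BRed C C`-chain. Consecutive syllables with the
same letter and opposite signs come from the same edge `e`:
* `t_e a t_e⁻¹` (`a` at `src e`): letters `⟨e, f.1, f.2 e⟩` and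
  `⟨e, f.1 σ_e σ_e⁻¹, f.2 e + φ a⟩`: equal iff `φ a = 0` in `ZMod (c e)`, i.e. `c e ∣ φ a`. The element
  `(d (src e) · a) ∘ (f.1 σ_e)⁻¹` lies in `C ⟨e, f.1, _⟩` iff for all `j` with
  `d (src e) j a ≠ 0`: `d (tgt e) (f.1⁻¹ f.1 σ_e j) (u' e) = d (src e) j (u e) ≠ 0` (`mtch`). So by
  `fort_src` `φ(u_e) • a = φ a • u_e`, and with `φ a = φ(u_e) m`: `a = m • u_e = m • eg (e, true)`,
  contradiction to `Red`.
* `t_e⁻¹ a t_e` (`a` at `tgt e`): letters `⟨e, f.1 σ_e⁻¹, f.2 e⟩` and
  `⟨e, f.1 σ_e⁻¹, f.2 e + φ a⟩`; membership: `d (tgt e) j a ≠ 0 → d (tgt e) j (u' e) ≠ 0`; so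
  `a = m • u'_e = m • eg (e, false)` by `fort_tgt`.
By `multi_britton`, if the value is `1` then the syllable list is empty, so `l = []`.
-/

namespace Pool.Agent.H75.TB

open Multiplicative

section nontriv

theorem nt_inv1 {α : Type*} (p : Equiv.Perm α) (x : α) : p⁻¹ (p x) = x := p.symm_apply_apply x

theorem nt_inv2 {α : Type*} (p : Equiv.Perm α) (x : α) : p (p⁻¹ x) = x := p.apply_symm_apply x

variable {D : TubGraph} (M : EmbData D)

/-- the subgroup of the edge `τ` -/
def ntC (τ : M.I) : Subgroup (M.J → Multiplicative ℤ) where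
  carrier := {f | ∀ i, f i ≠ 1 → M.adjZ i τ}
  mul_mem' := by
    intro a b ha hb i hi
    by_cases h : a i = 1
    · refine hb i fun h' => hi ?_
      rw [Pi.mul_apply, h, h', one_mul]
    · exact ha i h
  one_mem' := by
    intro i hi
    exact absurd rfl hi
  inv_mem' := by
    intro a ha i hi
    refine ha i fun h => hi ?_
    rw [Pi.inv_apply, h, inv_one]

/-- the element of `Z` of a vertex element seen from `f` -/
def ntz (f : M.F) (v : D.V) (a : ℤ × ℤ) : M.J → Multiplicative ℤ :=
  fun j => ofAdd (M.d v (f.1⁻¹ j) a)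

/-- the component in `F` of a vertex element -/
def ntp (v : D.V) (a : ℤ × ℤ) : M.F :=
  (1, ofAdd fun e => ((M.φ v a : ℤ) : ZMod (M.c e)))

/-- the component in `F` of a letter -/
def nts (x : D.E × Bool) : M.F := (if x.2 then M.σ x.1 else (M.σ x.1)⁻¹, 1)

/-- the letter -/
def ntl (f : M.F) (x : D.E × Bool) : M.I :=
  ⟨x.1, if x.2 then f.1 else f.1 * (M.σ x.1)⁻¹, toAdd f.2 x.1⟩

/-- the list of syllables -/
def ntsyl : M.F → PWord D → List (M.I × ℤˣ × (M.J → Multiplicative ℤ))
  | _, [] => []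
  | f, x :: l => (ntl M f x.1, (if x.1.2 then 1 else -1),
      ntz M (f * nts M x.1) (fi x.1) x.2) ::
        ntsyl (f * nts M x.1 * ntp M (fi x.1) x.2) l

theorem nt_dvd {e : D.E} {n : ℤ} (h : ((n : ℤ) : ZMod (M.c e)) = 0) :
    ∃ m : ℤ, n = M.φ (D.src e) (D.u e) * m := by
  have h1 := (ZMod.intCast_zmod_eq_zero_iff_dvd n (M.c e)).1 h
  unfold EmbData.c at h1
  rw [Int.natAbs_dvd] at h1
  exact h1

theorem nt_tf {k : ℤ} (hk : k ≠ 0) {a u : ℤ × ℤ} {m : ℤ} (h : k • a = (k * m) • u) :
    a = m • u := by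
  rw [mul_smul] at h
  exact smul_right_injective _ hk h

theorem nt_chain : ∀ (l : PWord D) (f : M.F), Red l → (ntsyl M f l).IsChain
    (BRed (fun τ => ntC M τ) (fun τ => ntC M τ)) := by
  intro l
  induction l with
  | nil => intro f _; exact List.IsChain.nil
  | cons x l ih =>
    intro f hl
    rcases l with _ | ⟨y, l⟩
    · exact List.IsChain.singleton _
    · have hl' : Red (y :: l) := (List.isChain_cons_cons.1 hl).2
      have hxy := (List.isChain_cons_cons.1 hl).1
      have h2 := ih (f * nts M x.1 * ntp M (fi x.1) x.2) hl'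
      refine List.isChain_cons_cons.2 ⟨?_, h2⟩
      -- the pair of syllables
      rintro hlet hmem
      by_contra hsg
      obtain ⟨⟨e, s⟩, a⟩ := x
      obtain ⟨⟨e', s'⟩, b⟩ := y
      have hmem' : ntz M (f * nts M (e, s)) (fi (e, s)) a ∈ ntC M (ntl M f (e, s)) := by
        have : ∀ u : ℤˣ, HNNExtension.toSubgroup (ntC M (ntl M f (e, s)))
            (ntC M (ntl M f (e, s))) u = ntC M (ntl M f (e, s)) := by
          intro u
          rcases Int.units_eq_one_or u with h | h
          · rw [h]; rfl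
          · rw [h]; rfl
        have h3 := hmem
        simp only at h3
        rwa [this] at h3
      have hee : e = e' := congrArg Sigma.fst hlet
      subst hee
      have hlet2 : (if s then f.1 else f.1 * (M.σ e)⁻¹, toAdd f.2 e) =
          ((if s' then (f * nts M (e, s) * ntp M (fi (e, s)) a).1 else
            (f * nts M (e, s) * ntp M (fi (e, s)) a).1 * (M.σ e)⁻¹,
            toAdd (f * nts M (e, s) * ntp M (fi (e, s)) a).2 e) :
            Equiv.Perm M.J × ZMod (M.c e)) := by
        have := hlet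
        simp only [ntl, Sigma.mk.injEq, heq_eq_eq, true_and] at this
        exact this
      have hss : s ≠ s' := by
        rintro rfl
        exact hsg rfl
      have hφ : ((M.φ (fi (e, s)) a : ℤ) : ZMod (M.c e)) = 0 := by
        have h4 := congrArg Prod.snd hlet2
        simp only at h4
        have h5 : toAdd (f * nts M (e, s) * ntp M (fi (e, s)) a).2 e =
            toAdd f.2 e + ((M.φ (fi (e, s)) a : ℤ) : ZMod (M.c e)) := by
          show toAdd f.2 e + 0 + ((M.φ (fi (e, s)) a : ℤ) : ZMod (M.c e)) = _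
          rw [add_zero]
        rw [h5] at h4
        exact (left_eq_add.1 h4)
      obtain ⟨m, hm⟩ := nt_dvd M hφ
      refine hxy rfl hss m ?_
      cases s
      · -- t⁻¹ a t
        have hf : fi (e, false) = D.tgt e := rfl
        have hg : eg (e, false) = D.u' e := rfl
        show a = m • eg (e, false)
        rw [hg]
        rw [hf] at hm hmem'
        have hm2 : M.φ (D.tgt e) a = M.φ (D.tgt e) (D.u' e) * m := by rw [M.φ_eq]; exact hm
        refine nt_tf (by rw [M.φ_eq]; exact M.φ_ne e) (?_ :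
          M.φ (D.tgt e) (D.u' e) • a = (M.φ (D.tgt e) (D.u' e) * m) • D.u' e)
        rw [← hm2]
        refine M.fort_tgt e a fun j hj => ?_
        by_contra hja
        have h6 := hmem' ((f.1 * (M.σ e)⁻¹) j) (by
          show ofAdd (M.d (D.tgt e) ((f.1 * (M.σ e)⁻¹)⁻¹ ((f.1 * (M.σ e)⁻¹) j)) a) ≠ 1
          rw [nt_inv1]
          exact fun h => hja (ofAdd.injective h))
        have h7 : M.d (D.tgt e) ((f.1 * (M.σ e)⁻¹)⁻¹ ((f.1 * (M.σ e)⁻¹) j)) (D.u' e) ≠ 0 := h6
        rw [nt_inv1] at h7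
        exact h7 hj
      · have hf : fi (e, true) = D.src e := rfl
        have hg : eg (e, true) = D.u e := rfl
        show a = m • eg (e, true)
        rw [hg]
        rw [hf] at hm hmem'
        refine nt_tf (M.φ_ne e) (?_ :
          M.φ (D.src e) (D.u e) • a = (M.φ (D.src e) (D.u e) * m) • D.u e)
        rw [← hm]
        refine M.fort_src e a fun j hj => ?_
        by_contra hja
        have h6 := hmem' ((f.1 * M.σ e) j) (by
          show ofAdd (M.d (D.src e) ((f.1 * M.σ e)⁻¹ ((f.1 * M.σ e) j)) a) ≠ 1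
          rw [nt_inv1]
          exact fun h => hja (ofAdd.injective h))
        have h7 : M.d (D.tgt e) (f.1⁻¹ ((f.1 * M.σ e) j)) (D.u' e) ≠ 0 := h6
        rw [Equiv.Perm.mul_apply, nt_inv1, M.mtch] at h7
        exact h7 hj

end nontriv

theorem EmbData.target_nil {D : TubGraph} (M : EmbData D) (S : PathSys D M.B)
    (h1 : ∀ v a, S.i v (ofAdd a) = M.iv v a) (h2 : ∀ e, S.t e = M.te e)
    (v w : D.V) (a : ℤ × ℤ) (l : PWord D) (hl : IsPath w v l) (hr : Red l)
    (h : S.ev v a l = 1) : l = [] := by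
  haveI := D.finE
  obtain ⟨P, hP, ι, t, hι, hcomm, hbr⟩ := multi_britton (G := M.J → Multiplicative ℤ) (I := M.I)
    (fun τ => ntC M τ) (fun τ => ntC M τ) (fun τ => MulEquiv.refl _)
  -- the homomorphism ρ
  let g : M.VV → P := fun x => Sum.elim (fun j => ι (Pi.mulSingle j (ofAdd 1))) t x
  have hzt : ∀ (i : M.J) (τ : M.I), M.adjZ i τ →
      t τ * ι (Pi.mulSingle i (ofAdd 1)) = ι (Pi.mulSingle i (ofAdd 1)) * t τ := by
    intro i τ h
    have hmem : (Pi.mulSingle i (ofAdd 1) : M.J → Multiplicative ℤ) ∈ ntC M τ := by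
      intro j hj
      by_cases hji : j = i
      · rw [hji]; exact h
      · exact absurd (Pi.mulSingle_eq_of_ne hji _) hj
    exact hcomm τ ⟨_, hmem⟩
  have hg : ∀ i j, M.graph.Adj i j → g i * g j = g j * g i := by
    rintro (i | τ) (j | τ') h
    · show ι _ * ι _ = ι _ * ι _
      rw [← map_mul, ← map_mul, mul_comm]
    · exact (hzt i τ' h).symm
    · exact hzt j τ h
    · exact absurd h (fun h => h)
  let ρ : RAAG M.graph →* P := raagLift g hg
  let V : M.F → M.B → P := fun f b => ρ (raagAut M.adj_smul f b.left)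
  have hVmul : ∀ f b c, V f (b * c) = V f b * V (f * b.right) c := by
    intro f b c
    show ρ (raagAut M.adj_smul f (b.left * raagAut M.adj_smul b.right c.left)) =
      ρ (raagAut M.adj_smul f b.left) * ρ (raagAut M.adj_smul (f * b.right) c.left)
    rw [map_mul, map_mul, map_mul (raagAut M.adj_smul), MulAut.mul_apply]
  have hVz : ∀ (f : M.F) (z : M.J → Multiplicative ℤ),
      ρ (raagAut M.adj_smul f (M.zz z)) = ι (fun j => z (f.1⁻¹ j)) := by
    intro f z
    let h1 : (M.J → Multiplicative ℤ) →* P :=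
      ρ.comp ((raagAut M.adj_smul f).toMonoidHom.comp M.zz)
    let h2 : (M.J → Multiplicative ℤ) →* P :=
      ι.comp (MonoidHom.mk' (fun (z : M.J → Multiplicative ℤ) => fun j => z (f.1⁻¹ j)) (fun a b => rfl))
    have h12 : h1 = h2 := by
      apply MonoidHom.pi_ext
      intro i x
      show ρ (raagAut M.adj_smul f (M.zz (Pi.mulSingle i x))) = ι (fun j => (Pi.mulSingle i x : M.J → Multiplicative ℤ) (f.1⁻¹ j))
      have e1 : M.zz (Pi.mulSingle i x) = rg M.graph (Sum.inl i) ^ (toAdd x) := by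
        unfold EmbData.zz
        rw [MonoidHom.noncommPiCoprod_mulSingle, zpowersHom_apply]
      have e2 : (fun j => (Pi.mulSingle i x : M.J → Multiplicative ℤ) (f.1⁻¹ j)) =
          Pi.mulSingle (f.1 i) (ofAdd 1) ^ (toAdd x) := by
        funext j
        rw [Pi.pow_apply]
        by_cases h : j = f.1 i
        · subst h
          rw [nt_inv1, Pi.mulSingle_eq_same, Pi.mulSingle_eq_same, ← ofAdd_zsmul,
            smul_eq_mul, mul_one, ofAdd_toAdd]
        · have h' : f.1⁻¹ j ≠ i := fun h' => h (by rw [← h', nt_inv2])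
          rw [Pi.mulSingle_eq_of_ne h', Pi.mulSingle_eq_of_ne h, one_zpow]
      rw [e1, e2, map_zpow, map_zpow, raagAut_rg, map_zpow]
      congr 1
      show raagLift g hg (rg M.graph (Sum.inl (f.1 i))) = _
      rw [raagLift_rg]
      rfl
    exact DFunLike.congr_fun h12 z
  have hViv : ∀ f v a, V f (M.iv v a) = ι (ntz M f v a) := fun f v a => hVz f _
  have hVt : ∀ (f : M.F) (x : D.E × Bool), V f (if x.2 then S.t x.1 else (S.t x.1)⁻¹) =
      t (ntl M f x) ^ (((if x.2 then 1 else -1 : ℤˣ)) : ℤ) := by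
    intro f x
    obtain ⟨e, s⟩ := x
    rw [show S.t e = M.te e from h2 e]
    cases s
    · show V f (M.te e)⁻¹ = t (ntl M f (e, false)) ^ (((-1 : ℤˣ)) : ℤ)
      have e1 : V f ((M.te e)⁻¹ * M.te e) = 1 := by
        rw [inv_mul_cancel]
        show ρ (raagAut M.adj_smul f 1) = 1
        rw [map_one, map_one]
      rw [hVmul] at e1
      have e2 : V (f * (M.te e)⁻¹.right) (M.te e) = t (ntl M f (e, false)) := by
        show raagLift g hg (raagAut M.adj_smul (f * (M.te e)⁻¹.right)
          (rg M.graph (Sum.inr ⟨e, 1, 0⟩))) = _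
        rw [raagAut_rg, raagLift_rg]
        show t _ = t _
        congr 1
        have e3 : (f * (M.te e)⁻¹.right).1 = f.1 * (M.σ e)⁻¹ := rfl
        have e4 : toAdd (f * (M.te e)⁻¹.right).2 e = toAdd f.2 e := by
          show toAdd f.2 e + -0 = _
          rw [neg_zero, add_zero]
        rw [e3, e4, mul_one, add_zero]
        rfl
      rw [e2] at e1
      rw [Units.val_neg, Units.val_one, zpow_neg_one]
      exact eq_inv_of_mul_eq_one_left e1
    · show V f (M.te e) = t (ntl M f (e, true)) ^ (((1 : ℤˣ)) : ℤ)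
      rw [Units.val_one, zpow_one]
      show raagLift g hg (raagAut M.adj_smul f (rg M.graph (Sum.inr ⟨e, 1, 0⟩))) = _
      rw [raagAut_rg, raagLift_rg]
      show t _ = t _
      congr 1
      rw [mul_one, add_zero]
      rfl
  have hright : ∀ x : D.E × Bool, (if x.2 then S.t x.1 else (S.t x.1)⁻¹ : M.B).right =
      nts M x := by
    rintro ⟨e, s⟩
    rw [show S.t e = M.te e from h2 e]
    cases s
    · show ((M.te e).right)⁻¹ = _
      show ((M.σ e, 1) : M.F)⁻¹ = ((M.σ e)⁻¹, 1)
      rw [Prod.inv_mk, inv_one]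
    · rfl
  have hval : ∀ (l : PWord D) (f : M.F) (v : D.V) (a : ℤ × ℤ), V f (S.ev v a l) =
      ι (ntz M f v a) * ((ntsyl M (f * ntp M v a) l).map
        fun x => t x.1 ^ (x.2.1 : ℤ) * ι x.2.2).prod := by
    intro l
    induction l with
    | nil =>
      intro f v a
      rw [PathSys.ev, h1, hViv]
      simp [ntsyl]
    | cons x l ih =>
      intro f v a
      rw [PathSys.ev, h1, hVmul, hVmul, hViv, hVt, ih]
      rw [SemidirectProduct.mul_right, hright]
      have e1 : (M.iv v a).right = ntp M v a := rfl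
      rw [e1, ← mul_assoc f]
      simp only [ntsyl, List.map_cons, List.prod_cons, mul_assoc]
  have hone : V 1 (S.ev v a l) = 1 := by
    rw [h]
    show ρ (raagAut M.adj_smul 1 1) = 1
    rw [map_one, map_one]
  rw [hval] at hone
  have hnil := hbr (ntz M 1 v a) (ntsyl M (1 * ntp M v a) l) (nt_chain M l _ hr)
    (by rw [hone]; exact ι.range.one_mem)
  cases l with
  | nil => rfl
  | cons x l => simp [ntsyl] at hnil

end Pool.Agent.H75.TB
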