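import Mathlib

/-!
# TB-C3: parallelogram law on `ℤ × ℤ` and the quadratic of a vertex
-/

namespace Pool.Agent.H75.TB

/-- a function on `ℤ` with constant second difference is quadratic -/
theorem second_diff (g : ℤ → ℝ) (c : ℝ) (h : ∀ m, g (m + 1) + g (m - 1) = 2 * g m + 2 * c) (m : ℤ) :
    g m = c * m ^ 2 + (g 1 - g 0 - c) * m + g 0 := by
  have key : ∀ m : ℤ, g m = c * m ^ 2 + (g 1 - g 0 - c) * m + g 0 ∧
      g (m + 1) = c * ((m + 1 : ℤ) : ℝ) ^ 2 + (g 1 - g 0 - c) * ((m + 1 : ℤ) : ℝ) + g 0 := by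
    intro m
    induction m using Int.induction_on with
    | zero =>
      constructor
      · simp
      · simp
    | succ i ih =>
      obtain ⟨ih1, ih2⟩ := ih
      refine ⟨ih2, ?_⟩
      have := h ((i : ℤ) + 1)
      rw [add_sub_cancel_right] at this
      push_cast at ih1 ih2 ⊢
      linear_combination this + 2 * ih2 - ih1
    | pred i ih =>
      obtain ⟨ih1, ih2⟩ := ih
      have e : (-(i : ℤ) - 1) + 1 = -(i : ℤ) := by ring
      rw [e]
      refine ⟨?_, ih1⟩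
      have := h (-(i : ℤ))
      push_cast at ih1 ih2 ⊢
      linear_combination this + 2 * ih1 - ih2
  exact (key m).1

/-- Jordan-von Neumann for functions on `ℤ × ℤ`: `f 0 = 0`, `f (-a) = f a`, `f (n a) = n² f a`
(induction), the polarisation `f (a+b) - f (a-b)` is biadditive; or directly: for fixed `n`,
`m ↦ f (m, n)` has constant second difference `2 f (1, 0)`, so it is a quadratic polynomial in
`m` with leading coefficient `f (1,0)`, etc. -/
theorem quadratic_of_parallelogram (f : ℤ × ℤ → ℝ)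
    (h : ∀ a b, f (a + b) + f (a - b) = 2 * f a + 2 * f b) :
    ∃ α β γ : ℝ, ∀ m n : ℤ, f (m, n) = α * m ^ 2 + β * m * n + γ * n ^ 2 := by
  have h0 : f (0, 0) = 0 := by
    have := h (0, 0) (0, 0)
    simp only [Prod.mk_add_mk, Prod.mk_sub_mk, add_zero, sub_zero] at this
    linarith
  have hneg : ∀ m n : ℤ, f (-m, -n) = f (m, n) := by
    intro m n
    have := h (0, 0) (m, n)
    simp only [Prod.mk_add_mk, Prod.mk_sub_mk, zero_add, zero_sub] at this
    linarith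
  have h1 : ∀ n m : ℤ, f (m + 1, n) + f (m - 1, n) = 2 * f (m, n) + 2 * f (1, 0) := by
    intro n m
    have := h (m, n) (1, 0)
    simpa only [Prod.mk_add_mk, Prod.mk_sub_mk, add_zero, sub_zero] using this
  have h2 : ∀ m n : ℤ, f (m, n + 1) + f (m, n - 1) = 2 * f (m, n) + 2 * f (0, 1) := by
    intro m n
    have := h (m, n) (0, 1)
    simpa only [Prod.mk_add_mk, Prod.mk_sub_mk, add_zero, sub_zero] using this
  have e1 : ∀ n m : ℤ, f (m, n) = f (1, 0) * m ^ 2 + (f (1, n) - f (0, n) - f (1, 0)) * m + f (0, n) :=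
    fun n m => second_diff (fun m => f (m, n)) _ (h1 n) m
  have e2 : ∀ m n : ℤ, f (m, n) = f (0, 1) * n ^ 2 + (f (m, 1) - f (m, 0) - f (0, 1)) * n + f (m, 0) :=
    fun m n => second_diff (fun n => f (m, n)) _ (h2 m) n
  refine ⟨f (1, 0), f (1, 1) - f (1, 0) - f (0, 1), f (0, 1), fun m n => ?_⟩
  have a1 := e1 n m
  have a2 := e2 1 n
  have a3 := e2 0 n
  have a4 := e2 0 (-1)
  have a5 := hneg 0 1
  rw [neg_zero] at a5
  rw [h0] at a3 a4
  push_cast at a4
  rw [a5] at a4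
  rw [a1, a2, a3]
  ring

/-- transverse coordinate: `x (m, n) = φ(0,1) m - φ(1,0) n` -/
def xc (φ : ℤ × ℤ →+ ℤ) : ℤ × ℤ →+ ℤ where
  toFun a := φ (0, 1) * a.1 - φ (1, 0) * a.2
  map_zero' := by simp
  map_add' a b := by simp only [Prod.fst_add, Prod.snd_add]; ring

/-- `φ (m, n) = f m + g n`, `x = g m - f n`, `Δ = f² + g² > 0`; `Δ m = g x + f φ`,
`Δ n = g φ - f x`. With `Q (m,n) = α m² + β m n + γ n²` put
`F(x, c) = α (g x + f c)²/Δ² + β (g x + f c)(g c - f x)/Δ² + γ (g c - f x)²/Δ²`,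
`F (x a) (φ a) = Q a`, `F(x, c) = F(1,0) x² + (..) x c + F(0,1) c²`. Take
`A = F(0,1)`, `B` = mixed coefficient divided by `N`, `Γ = F(1,0)/N² = Q(g, -f)/(Δ² N²) > 0`. If
`c = φ a ≠ 0` and `p c = N x(a)`, then `p / N = x(a) / c` and
`A + B p + Γ p² = F(p/N, 1) = F(x(a)/c, 1) = Q(a)/c²`. -/
theorem slope_form (φ : ℤ × ℤ →+ ℤ) (hφ : φ ≠ 0) (Q : ℤ × ℤ → ℝ)
    (h : ∀ a b, Q (a + b) + Q (a - b) = 2 * Q a + 2 * Q b) (hpos : ∀ a, a ≠ 0 → 0 < Q a)
    (N : ℤ) (hN : N ≠ 0) :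
    ∃ A B Γ : ℝ, 0 < Γ ∧ ∀ (a : ℤ × ℤ) (p : ℤ), φ a ≠ 0 → p * φ a = N * xc φ a →
      A + B * p + Γ * (p : ℝ) ^ 2 = Q a / (φ a : ℝ) ^ 2 := by
  obtain ⟨α, β, γ, hQ⟩ := quadratic_of_parallelogram Q h
  have hφ' : ∀ m n : ℤ, φ (m, n) = φ (1, 0) * m + φ (0, 1) * n := by
    intro m n
    have : ((m, n) : ℤ × ℤ) = m • (1, 0) + n • (0, 1) := by
      ext <;> simp
    rw [this, map_add, map_zsmul, map_zsmul]
    simp only [smul_eq_mul]
    ring
  set f := φ (1, 0) with hf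
  set g := φ (0, 1) with hg
  have hfg : (g, -f) ≠ ((0, 0) : ℤ × ℤ) := by
    intro hc
    apply hφ
    have hg0 : g = 0 := (Prod.mk.inj hc).1
    have hf0 : f = 0 := by
      have := (Prod.mk.inj hc).2
      omega
    refine AddMonoidHom.ext fun a => ?_
    obtain ⟨m, n⟩ := a
    rw [hφ' m n, hf0, hg0]
    simp
  have hΔ : (0 : ℝ) < (f : ℝ) ^ 2 + (g : ℝ) ^ 2 := by
    by_contra hc
    push Not at hc
    have h1 : (f : ℝ) = 0 := by nlinarith [sq_nonneg (f : ℝ), sq_nonneg (g : ℝ)]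
    have h2 : (g : ℝ) = 0 := by nlinarith [sq_nonneg (f : ℝ), sq_nonneg (g : ℝ)]
    apply hfg
    have h1' : f = 0 := by exact_mod_cast h1
    have h2' : g = 0 := by exact_mod_cast h2
    rw [h1', h2']
    simp
  have hNr : (N : ℝ) ≠ 0 := by exact_mod_cast hN
  have hpos' := hpos (g, -f) hfg
  rw [hQ] at hpos'
  push_cast at hpos'
  set D : ℝ := (f : ℝ) ^ 2 + (g : ℝ) ^ 2 with hD
  refine ⟨(α * f ^ 2 + β * f * g + γ * g ^ 2) / D ^ 2,
    (2 * α * f * g + β * (g ^ 2 - f ^ 2) - 2 * γ * f * g) / (D ^ 2 * N),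
    (α * g ^ 2 - β * g * f + γ * f ^ 2) / (D ^ 2 * N ^ 2), ?_, ?_⟩
  · apply div_pos
    · linarith
    · positivity
  · rintro ⟨m, n⟩ p hc hp
    have hp' : p * (f * m + g * n) = N * (g * m - f * n) := by
      rw [← hφ' m n]
      exact hp
    have hpr : (p : ℝ) * (f * m + g * n) = N * (g * m - f * n) := by exact_mod_cast hp'
    have hcr : ((f : ℝ) * m + g * n) ≠ 0 := by
      rw [hφ' m n] at hc
      exact_mod_cast hc
    rw [hφ' m n, hQ]
    push_cast
    have hD0 : D ≠ 0 := ne_of_gt hΔ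
    rw [eq_div_iff (pow_ne_zero 2 hcr)]
    field_simp
    rw [hD]
    linear_combination ((2 * α * f * g + β * (g ^ 2 - f ^ 2) - 2 * γ * f * g) * N * (f * m + g * n) +
      (α * g ^ 2 - β * g * f + γ * f ^ 2) * (p * (f * m + g * n) + N * (g * m - f * n))) * hpr

end Pool.Agent.H75.TB
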