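import Pool.Agent.H75.TB.Defs

/-!
# TB-G1: path systems and path words

A path system in a group `B` consists of homomorphisms of the vertex groups and elements `t e`
with `t e * i (u e) = i (u' e) * t e`. It gives a homomorphism `Θ` of `D.Grp` to `B` with
`Θ (a at v) = γ_v i_v(a) γ_v⁻¹`, `Θ (t_e) = γ_{tgt e} t e γ_{src e}⁻¹`, `γ_root = 1`, where `γ` is
defined by recursion on the depth: for `v ≠ root`, `e = par v`: if `src e = v` (parent `tgt e`)
then `γ_v = γ_{tgt e} * t e`, and if `tgt e = v` (parent `src e`) then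
`γ_v = γ_{src e} * (t e)⁻¹`. (If both cases of `par_spec` hold for `v`, i.e. `src e = tgt e = v`,
the depths give a contradiction.) The existence of `γ` with these properties is
`exists_gamma`.
-/

namespace Pool.Agent.H75.TB

open Multiplicative

variable (D : TubGraph)

/-- path systems -/
structure PathSys (B : Type*) [Group B] where
  i : D.V → Multiplicative (ℤ × ℤ) →* B
  t : D.E → B
  rel : ∀ e, t e * i (D.src e) (ofAdd (D.u e)) = i (D.tgt e) (ofAdd (D.u' e)) * t e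

variable {D}

/-- the element `a` of the vertex group of `v` in the fundamental group -/
def gv (v : D.V) (a : ℤ × ℤ) : D.Grp := PresentedGroup.mk D.rels (D.vert v a)

/-- the stable letter in the fundamental group -/
def gt (e : D.E) : D.Grp := PresentedGroup.mk D.rels (D.stab e)

theorem gv_eq (v : D.V) (a : ℤ × ℤ) : gv v a =
    (PresentedGroup.mk D.rels (FreeGroup.of (Sum.inl (v, false)))) ^ a.1 *
    (PresentedGroup.mk D.rels (FreeGroup.of (Sum.inl (v, true)))) ^ a.2 := by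
  rw [gv, TubGraph.vert, map_mul, map_zpow, map_zpow]

theorem gv_comm (v : D.V) : Commute (PresentedGroup.mk D.rels (FreeGroup.of (Sum.inl (v, false))))
    (PresentedGroup.mk D.rels (FreeGroup.of (Sum.inl (v, true)))) := by
  have h := PresentedGroup.one_of_mem (rels := D.rels) (Or.inl (Or.inl ⟨v, rfl⟩))
  rw [map_mul, map_mul, map_mul, map_inv, map_inv, mul_inv_eq_one, mul_inv_eq_iff_eq_mul] at h
  exact h

theorem gv_add (v : D.V) (a b : ℤ × ℤ) : gv v (a + b) = gv v a * gv v b := by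
  rw [gv_eq, gv_eq, gv_eq, Prod.fst_add, Prod.snd_add, zpow_add, zpow_add]
  have h := ((gv_comm v).zpow_zpow b.1 a.2).eq
  simp only [mul_assoc]
  congr 1
  simp only [← mul_assoc]
  rw [h]

theorem gt_rel (e : D.E) : gt e * gv (D.src e) (D.u e) = gv (D.tgt e) (D.u' e) * gt e := by
  have h := PresentedGroup.one_of_mem (rels := D.rels) (Or.inl (Or.inr ⟨e, rfl⟩))
  rw [map_mul, map_mul, map_mul, map_inv, map_inv, mul_inv_eq_one, mul_inv_eq_iff_eq_mul] at h
  exact h

theorem gt_par (v : {v : D.V // v ≠ D.root}) : gt (D.par v) = 1 :=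
  PresentedGroup.one_of_mem (rels := D.rels) (Or.inr ⟨v, rfl⟩)

/-- the canonical path system in the fundamental group -/
def canSys (D : TubGraph) : PathSys D D.Grp where
  i v := MonoidHom.mk' (fun a => gv v (toAdd a)) (fun a b => gv_add v _ _)
  t := gt
  rel := gt_rel

theorem exists_gamma_aux {B : Type*} [Group B] (S : PathSys D B) (n : ℕ) : ∃ γ : D.V → B,
    γ D.root = 1 ∧ ∀ v : {v : D.V // v ≠ D.root}, D.depth v < n →
      γ (D.tgt (D.par v)) * S.t (D.par v) = γ (D.src (D.par v)) := by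
  classical
  induction n with
  | zero => exact ⟨fun _ => 1, rfl, fun v h => absurd h (Nat.not_lt_zero _)⟩
  | succ n ih =>
    obtain ⟨γ, h0, h1⟩ := ih
    obtain ⟨γ', hγ'⟩ : ∃ γ' : D.V → B, γ' = fun w => if h : w ≠ D.root ∧ D.depth w = n then
        (if D.src (D.par ⟨w, h.1⟩) = w then γ (D.tgt (D.par ⟨w, h.1⟩)) * S.t (D.par ⟨w, h.1⟩)
          else γ (D.src (D.par ⟨w, h.1⟩)) * (S.t (D.par ⟨w, h.1⟩))⁻¹) else γ w := ⟨_, rfl⟩
    have hA : ∀ w, ¬ (w ≠ D.root ∧ D.depth w = n) → γ' w = γ w := by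
      intro w hw
      rw [hγ']
      exact dif_neg hw
    have hB : ∀ v : {v : D.V // v ≠ D.root}, D.depth v = n → γ' v =
        if D.src (D.par v) = v then γ (D.tgt (D.par v)) * S.t (D.par v)
          else γ (D.src (D.par v)) * (S.t (D.par v))⁻¹ := by
      intro v hv
      rw [hγ']
      exact dif_pos ⟨v.2, hv⟩
    refine ⟨γ', ?_, ?_⟩
    · rw [hA _ (fun h => h.1 rfl)]
      exact h0
    · intro v hv
      rcases Nat.lt_succ_iff_lt_or_eq.1 hv with hlt | heq
      · rcases D.par_spec v with ⟨h2, h3⟩ | ⟨h2, h3⟩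
        · rw [hA (D.tgt (D.par v)) (fun h => by omega),
            hA (D.src (D.par v)) (fun h => by rw [h2] at h; omega)]
          exact h1 v hlt
        · rw [hA (D.tgt (D.par v)) (fun h => by rw [h2] at h; omega),
            hA (D.src (D.par v)) (fun h => by omega)]
          exact h1 v hlt
      · rcases D.par_spec v with ⟨h2, h3⟩ | ⟨h2, h3⟩
        · rw [hA (D.tgt (D.par v)) (fun h => by omega)]
          have h4 := hB v heq
          rw [if_pos h2] at h4
          rw [h2, h4]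
        · have h5 : D.src (D.par v) ≠ v := fun h => by
            rw [h] at h3
            exact lt_irrefl _ h3
          rw [hA (D.src (D.par v)) (fun h => by omega)]
          have h4 := hB v heq
          rw [if_neg h5] at h4
          rw [h2, h4, inv_mul_cancel_right]

theorem exists_gamma {B : Type*} [Group B] (S : PathSys D B) : ∃ γ : D.V → B,
    γ D.root = 1 ∧ ∀ v, γ (D.tgt (D.par v)) * S.t (D.par v) = γ (D.src (D.par v)) := by
  have hfin := D.finV
  obtain ⟨n, hn⟩ := (Set.finite_range D.depth).bddAbove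
  obtain ⟨γ, h0, h1⟩ := exists_gamma_aux S (n + 1)
  exact ⟨γ, h0, fun v => h1 v (Nat.lt_succ_of_le (hn ⟨_, rfl⟩))⟩

/-- the homomorphism defined by a path system -/
theorem exists_lift {B : Type*} [Group B] (S : PathSys D B) :
    ∃ (Θ : D.Grp →* B) (γ : D.V → B), γ D.root = 1 ∧
      (∀ v a, Θ (gv v a) = γ v * S.i v (ofAdd a) * (γ v)⁻¹) ∧
      ∀ e, Θ (gt e) = γ (D.tgt e) * S.t e * (γ (D.src e))⁻¹ := by
  obtain ⟨γ, h0, h1⟩ := exists_gamma S
  let f : D.Gen → B := fun g => match g with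
    | Sum.inl (v, false) => γ v * S.i v (ofAdd (1, 0)) * (γ v)⁻¹
    | Sum.inl (v, true) => γ v * S.i v (ofAdd (0, 1)) * (γ v)⁻¹
    | Sum.inr e => γ (D.tgt e) * S.t e * (γ (D.src e))⁻¹
  have hv : ∀ v a, FreeGroup.lift f (D.vert v a) = γ v * S.i v (ofAdd a) * (γ v)⁻¹ := by
    intro v a
    rw [TubGraph.vert, map_mul, map_zpow, map_zpow, FreeGroup.lift_apply_of, FreeGroup.lift_apply_of]
    show (γ v * S.i v (ofAdd (1, 0)) * (γ v)⁻¹) ^ a.1 * (γ v * S.i v (ofAdd (0, 1)) * (γ v)⁻¹) ^ a.2 = _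
    rw [conj_zpow, conj_zpow, ← map_zpow (S.i v), ← map_zpow (S.i v), ← ofAdd_zsmul, ← ofAdd_zsmul]
    have h2 : ofAdd a = ofAdd (a.1 • ((1, 0) : ℤ × ℤ)) * ofAdd (a.2 • ((0, 1) : ℤ × ℤ)) := by
      rw [← ofAdd_add]
      congr 1
      ext <;> simp
    rw [h2, map_mul]
    group
  have ht : ∀ e, FreeGroup.lift f (D.stab e) = γ (D.tgt e) * S.t e * (γ (D.src e))⁻¹ := by
    intro e
    rw [TubGraph.stab, FreeGroup.lift_apply_of]
  have hrel : ∀ r ∈ D.rels, FreeGroup.lift f r = 1 := by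
    rintro r ((⟨v, rfl⟩ | ⟨e, rfl⟩) | ⟨v, rfl⟩)
    · rw [map_mul, map_mul, map_mul, map_inv, map_inv, FreeGroup.lift_apply_of, FreeGroup.lift_apply_of,
        mul_inv_eq_one, mul_inv_eq_iff_eq_mul]
      show (γ v * S.i v (ofAdd (1, 0)) * (γ v)⁻¹) * (γ v * S.i v (ofAdd (0, 1)) * (γ v)⁻¹) =
        (γ v * S.i v (ofAdd (0, 1)) * (γ v)⁻¹) * (γ v * S.i v (ofAdd (1, 0)) * (γ v)⁻¹)
      have h2 : S.i v (ofAdd (1, 0)) * S.i v (ofAdd (0, 1)) = S.i v (ofAdd (0, 1)) * S.i v (ofAdd (1, 0)) := by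
        rw [← map_mul (S.i v), ← map_mul (S.i v), mul_comm]
      calc (γ v * S.i v (ofAdd (1, 0)) * (γ v)⁻¹) * (γ v * S.i v (ofAdd (0, 1)) * (γ v)⁻¹)
          = γ v * (S.i v (ofAdd (1, 0)) * S.i v (ofAdd (0, 1))) * (γ v)⁻¹ := by group
        _ = γ v * (S.i v (ofAdd (0, 1)) * S.i v (ofAdd (1, 0))) * (γ v)⁻¹ := by rw [h2]
        _ = _ := by group
    · rw [map_mul, map_mul, map_mul, map_inv, map_inv, hv, hv, ht, mul_inv_eq_one, mul_inv_eq_iff_eq_mul]
      calc γ (D.tgt e) * S.t e * (γ (D.src e))⁻¹ * (γ (D.src e) * S.i (D.src e) (ofAdd (D.u e)) * (γ (D.src e))⁻¹)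
          = γ (D.tgt e) * (S.t e * S.i (D.src e) (ofAdd (D.u e))) * (γ (D.src e))⁻¹ := by group
        _ = γ (D.tgt e) * (S.i (D.tgt e) (ofAdd (D.u' e)) * S.t e) * (γ (D.src e))⁻¹ := by rw [S.rel]
        _ = _ := by group
    · rw [ht, h1]
      exact mul_inv_cancel _
  refine ⟨PresentedGroup.toGroup hrel, γ, h0, ?_, ?_⟩
  · intro v a
    exact hv v a
  · intro e
    exact ht e

/-- start of the letter `t_e` (`true`) or `t_e⁻¹` (`false`), read from left to right -/
def st (x : D.E × Bool) : D.V := if x.2 then D.tgt x.1 else D.src x.1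

/-- end of the letter -/
def fi (x : D.E × Bool) : D.V := if x.2 then D.src x.1 else D.tgt x.1

/-- generator of the edge group at the end of the letter -/
def eg (x : D.E × Bool) : ℤ × ℤ := if x.2 then D.u x.1 else D.u' x.1

variable (D) in
/-- a path word: a list of letters, each followed by an element of the vertex group at its end -/
abbrev PWord : Type := List ((D.E × Bool) × (ℤ × ℤ))

/-- the word is a path from `v` to `w` -/
def IsPath (w : D.V) : D.V → PWord D → Prop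
  | v, [] => v = w
  | v, x :: l => st x.1 = v ∧ IsPath w (fi x.1) l

/-- a path word is reduced if it contains no `t a t⁻¹` or `t⁻¹ a t` with `a` in the edge group -/
def Red (l : PWord D) : Prop :=
  l.IsChain fun x y => x.1.1 = y.1.1 → x.1.2 ≠ y.1.2 → ∀ m : ℤ, x.2 ≠ m • eg x.1

/-- value of the path word `a₀ t₁ a₁ t₂ a₂ ⋯` starting at `v` in a path system -/
def PathSys.ev {B : Type*} [Group B] (S : PathSys D B) : D.V → ℤ × ℤ → PWord D → B
  | v, a, [] => S.i v (ofAdd a)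
  | v, a, x :: l => S.i v (ofAdd a) * (if x.1.2 then S.t x.1.1 else (S.t x.1.1)⁻¹) *
      S.ev (fi x.1) x.2 l

/-- telescoping: `Θ` of the value in `D.Grp` -/
theorem lift_ev {B : Type*} [Group B] (S : PathSys D B) (Θ : D.Grp →* B) (γ : D.V → B)
    (h1 : ∀ v a, Θ (gv v a) = γ v * S.i v (ofAdd a) * (γ v)⁻¹)
    (h2 : ∀ e, Θ (gt e) = γ (D.tgt e) * S.t e * (γ (D.src e))⁻¹) (v w : D.V) (a : ℤ × ℤ)
    (l : PWord D) (hl : IsPath w v l) :
    Θ ((canSys D).ev v a l) = γ v * S.ev v a l * (γ w)⁻¹ := by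
  induction l generalizing v a with
  | nil =>
    obtain rfl : v = w := hl
    exact h1 v a
  | cons x l ih =>
    obtain ⟨h3, h4⟩ := hl
    have h5 := ih (fi x.1) x.2 h4
    rw [PathSys.ev, map_mul, map_mul, h5, PathSys.ev]
    have h6 : Θ ((canSys D).i v (ofAdd a)) = γ v * S.i v (ofAdd a) * (γ v)⁻¹ := h1 v a
    rw [h6]
    obtain ⟨⟨e, b⟩, c⟩ := x
    cases b with
    | true =>
      have h7 : D.tgt e = v := h3
      have h8 : Θ ((canSys D).t e) = γ (D.tgt e) * S.t e * (γ (D.src e))⁻¹ := h2 e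
      show γ v * S.i v (ofAdd a) * (γ v)⁻¹ * Θ ((canSys D).t e) * _ = γ v * (S.i v (ofAdd a) * S.t e * _) * (γ w)⁻¹
      rw [h8, h7]
      show γ v * S.i v (ofAdd a) * (γ v)⁻¹ * (γ v * S.t e * (γ (D.src e))⁻¹) * (γ (D.src e) * _ * (γ w)⁻¹) = _
      group
    | false =>
      have h7 : D.src e = v := h3
      have h8 : Θ ((canSys D).t e) = γ (D.tgt e) * S.t e * (γ (D.src e))⁻¹ := h2 e
      show γ v * S.i v (ofAdd a) * (γ v)⁻¹ * Θ ((canSys D).t e)⁻¹ * _ =
        γ v * (S.i v (ofAdd a) * (S.t e)⁻¹ * _) * (γ w)⁻¹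
      rw [map_inv, h8, h7]
      show γ v * S.i v (ofAdd a) * (γ v)⁻¹ * (γ (D.tgt e) * S.t e * (γ v)⁻¹)⁻¹ * (γ (D.tgt e) * _ * (γ w)⁻¹) = _
      group

end Pool.Agent.H75.TB
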