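import Pool.Agent.H75.TB.Ev

/-!
# TB-M8: Pólya's theorem in one variable

Let `f` be a Laurent polynomial over `ℚ` with `pe f y > 0` for all `y > 0`. Write
`f = T lo * toLaurent P`, `P = ∑_{i ≤ d} p_i X^i`, `p_0 ≠ 0`, `p_d ≠ 0` (`f ≠ 0`;
`exists_T_pow` and division by a power of `X`). Then `P(y) > 0` for `y > 0`, `p_0 = lim_{y→0} P ≥ 0`
so `p_0 > 0`, and `p_d > 0` (sign of `P` at `+∞`). For `a, b ≥ 0`, `a + b = N + d`, the coefficient
of `X^a` in `(1+X)^N P` is `∑_i p_i C(N, a-i)` and
`a! b! / N! * (this) = ∑_i p_i (a)_i (b)_{d-i}`, `(x)_j = x(x-1)⋯(x-j+1)` (`Nat.descFactorial`);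
both sides vanish term by term when `i > a` or `a - i > N` (i.e. `b < d - i`).
`|(a)_i (b)_{d-i} - a^i b^{d-i}| ≤ C_d (a+b)^{d-1}` and
`∑ p_i a^i b^{d-i} ≥ c (a+b)^d` with `c > 0` the minimum of the continuous function
`∑ p_i s^i (1-s)^{d-i}` on `[0,1]`, positive: `(1-s)^d P(s/(1-s))` for `s < 1`, `p_d` at `s = 1`.
So for `N ≥ N₀` all coefficients of `(1+X)^N P` of index `0, …, N+d` are positive, the others are 0.
Finally `(1+T 1)^(2m) T(-m) f` has the coefficient of index `b` equal to the coefficient of index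
`b + m - lo` of `(1+X)^(2m) P`; it is positive when `0 ≤ b + m - lo ≤ 2m + d`, true for `|b| ≤ L`
if `m` is large.
-/

namespace Pool.Agent.H75.TB

open LaurentPolynomial

/-- the perturbed homogeneous form on the simplex -/
noncomputable def pG (P : Polynomial ℚ) (ε s : ℝ) : ℝ :=
  ∑ i ∈ Finset.range (P.natDegree + 1), (P.coeff i : ℝ) * (∏ j ∈ Finset.range i, (s - j * ε)) *
    ∏ j ∈ Finset.range (P.natDegree - i), (1 - s - j * ε)

theorem pG_zero (P : Polynomial ℚ) (s : ℝ) : pG P 0 s =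
    ∑ i ∈ Finset.range (P.natDegree + 1), (P.coeff i : ℝ) * s ^ i * (1 - s) ^ (P.natDegree - i) := by
  unfold pG
  refine Finset.sum_congr rfl fun i _ => ?_
  simp

theorem pG_cont (P : Polynomial ℚ) : Continuous fun z : ℝ × ℝ => pG P z.1 z.2 := by
  unfold pG
  fun_prop

theorem pG_inner (P : Polynomial ℚ) (hP : ∀ y : ℝ, 0 < y → 0 < Polynomial.aeval y P) {s : ℝ} (h0 : 0 < s)
    (h1 : s < 1) : 0 < pG P 0 s := by
  have h1' : 0 < 1 - s := by linarith
  have hd := hP (s / (1 - s)) (div_pos h0 h1')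
  rw [Polynomial.aeval_eq_sum_range] at hd
  have : pG P 0 s = (1 - s) ^ P.natDegree * ∑ i ∈ Finset.range (P.natDegree + 1), P.coeff i • (s / (1 - s)) ^ i := by
    rw [pG_zero, Finset.mul_sum]
    refine Finset.sum_congr rfl fun i hi => ?_
    have hi' : i ≤ P.natDegree := by
      have := Finset.mem_range.1 hi
      omega
    rw [Rat.smul_def, div_pow]
    have h2 : (1 - s) ^ P.natDegree = (1 - s) ^ i * (1 - s) ^ (P.natDegree - i) := by
      rw [← pow_add]; congr 1; omega
    rw [h2]
    field_simp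
  rw [this]
  positivity

theorem pG_pos (P : Polynomial ℚ) (h0 : P.coeff 0 ≠ 0)
    (hP : ∀ y : ℝ, 0 < y → 0 < Polynomial.aeval y P) {s : ℝ} (hs : s ∈ Set.Icc (0 : ℝ) 1) : 0 < pG P 0 s := by
  have hc : Continuous fun s : ℝ => pG P 0 s := (pG_cont P).comp (by fun_prop : Continuous fun s : ℝ => ((0 : ℝ), s))
  have hcl : Set.Icc (0 : ℝ) 1 ⊆ {s : ℝ | 0 ≤ pG P 0 s} := by
    have h2 : IsClosed {s : ℝ | 0 ≤ pG P 0 s} := isClosed_le continuous_const hc
    have h3 : Set.Ioo (0 : ℝ) 1 ⊆ {s : ℝ | 0 ≤ pG P 0 s} := fun s hs => (pG_inner P hP hs.1 hs.2).le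
    have h4 := closure_minimal h3 h2
    rwa [closure_Ioo (by norm_num)] at h4
  refine lt_of_le_of_ne (hcl hs) ?_
  rcases eq_or_lt_of_le hs.1 with h | h
  · rw [← h, pG_zero, Finset.sum_eq_single 0]
    · simp only [pow_zero, mul_one, sub_zero, one_pow, Nat.sub_zero]
      exact fun h => h0 (by exact_mod_cast h.symm)
    · intro b _ hb
      simp [hb]
    · simp
  · rcases eq_or_lt_of_le hs.2 with h' | h'
    · rw [h', pG_zero, Finset.sum_eq_single P.natDegree]
      · simp only [one_pow, mul_one, sub_self, Nat.sub_self, pow_zero]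
        intro h
        have hP0 : P ≠ 0 := by
          rintro rfl
          simp at h0
        have h5 : P.coeff P.natDegree ≠ 0 := by
          rw [Polynomial.coeff_natDegree]
          exact Polynomial.leadingCoeff_ne_zero.2 hP0
        exact h5 (by exact_mod_cast h.symm)
      · intro b hb hb'
        have : P.natDegree - b ≠ 0 := by
          have := Finset.mem_range.1 hb
          omega
        simp [this]
      · simp
    · exact (pG_inner P hP h h').ne

theorem dF_prod (a i : ℕ) : (a.descFactorial i : ℝ) = ∏ j ∈ Finset.range i, ((a : ℝ) - j) := by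
  induction i with
  | zero => simp
  | succ i ih =>
    rw [Nat.descFactorial_succ, Finset.prod_range_succ, ← ih, Nat.cast_mul]
    rcases le_or_gt i a with h | h
    · rw [Nat.cast_sub h]; ring
    · rw [Nat.descFactorial_eq_zero_iff_lt.2 h]; simp

theorem dF_scale (a i n : ℕ) (hn : 0 < n) :
    (a.descFactorial i : ℝ) = (n : ℝ) ^ i * ∏ j ∈ Finset.range i, ((a : ℝ) / n - j * (1 / n)) := by
  have hn' : (n : ℝ) ≠ 0 := by positivity
  rw [dF_prod]
  have : (n : ℝ) ^ i = ∏ j ∈ Finset.range i, (n : ℝ) := by simp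
  rw [this, ← Finset.prod_mul_distrib]
  refine Finset.prod_congr rfl fun j _ => ?_
  field_simp

theorem choose_id (N d a b i : ℕ) (hi : i ≤ d) (h : a + b = N + d) :
    (if i ≤ a then N.choose (a - i) else 0) * (a.factorial * b.factorial) =
      N.factorial * (a.descFactorial i * b.descFactorial (d - i)) := by
  by_cases h1 : i ≤ a
  · rw [if_pos h1]
    by_cases h2 : d - i ≤ b
    · have e1 : N = (a - i) + (b - (d - i)) := by omega
      have e2 := Nat.factorial_mul_descFactorial h1
      have e3 := Nat.factorial_mul_descFactorial h2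
      have e4 := Nat.choose_mul_factorial_mul_factorial (show a - i ≤ N by omega)
      rw [show N - (a - i) = b - (d - i) by omega] at e4
      rw [← e2, ← e3, ← e4]
      ring
    · have e1 : N < a - i := by omega
      rw [Nat.choose_eq_zero_of_lt e1, Nat.descFactorial_eq_zero_iff_lt.2 (by omega : b < d - i)]
      ring
  · rw [if_neg h1, Nat.descFactorial_eq_zero_iff_lt.2 (by omega : a < i)]
    ring

theorem coeff_id (P : Polynomial ℚ) (N a : ℕ) : ((1 + Polynomial.X) ^ N * P).coeff a =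
    ∑ i ∈ Finset.range (P.natDegree + 1), P.coeff i * ((if i ≤ a then N.choose (a - i) else 0 : ℕ) : ℚ) := by
  conv_lhs => rw [P.as_sum_range_C_mul_X_pow]
  rw [Finset.mul_sum, Polynomial.finsetSum_coeff]
  refine Finset.sum_congr rfl fun i _ => ?_
  rw [show ((1 + Polynomial.X) ^ N * (Polynomial.C (P.coeff i) * Polynomial.X ^ i) : Polynomial ℚ) =
    Polynomial.C (P.coeff i) * ((1 + Polynomial.X) ^ N * Polynomial.X ^ i) by ring,
    Polynomial.coeff_C_mul, Polynomial.coeff_mul_X_pow']
  split_ifs with h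
  · rw [Polynomial.coeff_one_add_X_pow]
  · simp

/-- Pólya's theorem for polynomials: all coefficients up to the degree are positive. -/
theorem polya_poly (P : Polynomial ℚ) (h0 : P.coeff 0 ≠ 0)
    (hP : ∀ y : ℝ, 0 < y → 0 < Polynomial.aeval y P) :
    ∃ N₀ : ℕ, ∀ N ≥ N₀, ∀ a ≤ N + P.natDegree, 0 < ((1 + Polynomial.X) ^ N * P).coeff a := by
  have hev : ∀ᶠ ε in nhds (0 : ℝ), ∀ s ∈ Set.Icc (0 : ℝ) 1, 0 < pG P ε s := by
    refine isCompact_Icc.eventually_forall_of_forall_eventually fun s hs => ?_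
    exact (pG_cont P).continuousAt.eventually (lt_mem_nhds (pG_pos P h0 hP hs))
  have htend : Filter.Tendsto (fun n : ℕ => 1 / (n : ℝ)) Filter.atTop (nhds 0) := tendsto_one_div_atTop_nhds_zero_nat
  obtain ⟨n₀, hn₀⟩ := Filter.eventually_atTop.1 (htend.eventually hev)
  refine ⟨n₀ + 1, fun N hN a ha => ?_⟩
  obtain ⟨b, hb⟩ : ∃ b, a + b = N + P.natDegree := ⟨N + P.natDegree - a, by omega⟩
  set n := N + P.natDegree with hn
  have hn1 : 0 < n := by omega
  have hn1' : (n : ℝ) ≠ 0 := by positivity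
  have hpos := hn₀ n (by omega) ((a : ℝ) / n) ⟨by positivity, by
    rw [div_le_one (by positivity)]
    exact_mod_cast ha⟩
  have hba : 1 - (a : ℝ) / n = (b : ℝ) / n := by
    have : (a : ℝ) + b = n := by exact_mod_cast hb
    field_simp
    linarith
  have key : ((((1 + Polynomial.X) ^ N * P).coeff a : ℚ) : ℝ) * (a.factorial * b.factorial) =
      N.factorial * ((n : ℝ) ^ P.natDegree * pG P (1 / n) ((a : ℝ) / n)) := by
    rw [coeff_id]
    unfold pG
    rw [Rat.cast_sum, Finset.sum_mul, Finset.mul_sum, Finset.mul_sum]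
    refine Finset.sum_congr rfl fun i hi => ?_
    have hi' : i ≤ P.natDegree := by
      have := Finset.mem_range.1 hi
      omega
    have h1 := choose_id N P.natDegree a b i hi' hb
    obtain ⟨c, hc⟩ : ∃ c : ℕ, c = (if i ≤ a then N.choose (a - i) else 0) := ⟨_, rfl⟩
    rw [← hc] at h1 ⊢
    have h2 : (c : ℝ) * (a.factorial * b.factorial) =
      N.factorial * (a.descFactorial i * b.descFactorial (P.natDegree - i)) := by exact_mod_cast h1
    rw [dF_scale a i n hn1, dF_scale b (P.natDegree - i) n hn1] at h2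
    rw [hba]
    have h3 : (n : ℝ) ^ P.natDegree = (n : ℝ) ^ i * (n : ℝ) ^ (P.natDegree - i) := by
      rw [← pow_add]; congr 1; omega
    rw [h3]
    rw [Rat.cast_mul, Rat.cast_natCast]
    linear_combination (P.coeff i : ℝ) * h2
  have h4 : (0 : ℝ) < ((((1 + Polynomial.X) ^ N * P).coeff a : ℚ) : ℝ) := by
    have h5 : 0 < (N.factorial : ℝ) * ((n : ℝ) ^ P.natDegree * pG P (1 / n) ((a : ℝ) / n)) := by positivity
    rw [← key] at h5
    exact pos_of_mul_pos_left h5 (by positivity)
  exact_mod_cast h4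

end Pool.Agent.H75.TB
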