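import Pool.Agent.H75.TB.Defs

/-!
# Right-angled Artin groups: universal property and graph automorphisms
-/

namespace Pool.Agent.H75.TB

variable {ι : Type} {Γ : SimpleGraph ι}

/-- generators -/
def rg (Γ : SimpleGraph ι) (i : ι) : RAAG Γ := PresentedGroup.of i

theorem rg_comm {i j : ι} (h : Γ.Adj i j) : rg Γ i * rg Γ j = rg Γ j * rg Γ i := by
  have h1 : PresentedGroup.mk {r : FreeGroup ι | ∃ i j, Γ.Adj i j ∧
    r = FreeGroup.of i * FreeGroup.of j * (FreeGroup.of i)⁻¹ * (FreeGroup.of j)⁻¹}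
      (FreeGroup.of i * FreeGroup.of j * (FreeGroup.of i)⁻¹ * (FreeGroup.of j)⁻¹) = 1 :=
    PresentedGroup.one_of_mem ⟨i, j, h, rfl⟩
  have h2 : rg Γ i * rg Γ j * (rg Γ i)⁻¹ * (rg Γ j)⁻¹ = 1 := by
    rw [map_mul, map_mul, map_mul, map_inv, map_inv] at h1
    exact h1
  rw [mul_inv_eq_one, mul_inv_eq_iff_eq_mul] at h2
  exact h2

theorem raag_rel {B : Type*} [Group B] (f : ι → B) (hf : ∀ i j, Γ.Adj i j → f i * f j = f j * f i) :
    ∀ r ∈ {r : FreeGroup ι | ∃ i j, Γ.Adj i j ∧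
      r = FreeGroup.of i * FreeGroup.of j * (FreeGroup.of i)⁻¹ * (FreeGroup.of j)⁻¹},
      FreeGroup.lift f r = 1 := by
  rintro r ⟨i, j, h, rfl⟩
  simp only [map_mul, map_inv, FreeGroup.lift_apply_of]
  rw [mul_inv_eq_one, mul_inv_eq_iff_eq_mul]
  exact hf i j h

/-- universal property -/
def raagLift {B : Type*} [Group B] (f : ι → B) (hf : ∀ i j, Γ.Adj i j → f i * f j = f j * f i) :
    RAAG Γ →* B := PresentedGroup.toGroup (raag_rel f hf)

@[simp] theorem raagLift_rg {B : Type*} [Group B] (f : ι → B)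
    (hf : ∀ i j, Γ.Adj i j → f i * f j = f j * f i) (i : ι) : raagLift f hf (rg Γ i) = f i := by
  simp [raagLift, rg]

theorem raag_hom_ext {B : Type*} [Group B] {f g : RAAG Γ →* B} (h : ∀ i, f (rg Γ i) = g (rg Γ i)) :
    f = g := PresentedGroup.ext h

/-- the homomorphism induced by a graph homomorphism -/
def raagMap {κ : Type} {Δ : SimpleGraph κ} (f : ι → κ) (hf : ∀ i j, Γ.Adj i j → Δ.Adj (f i) (f j)) :
    RAAG Γ →* RAAG Δ := raagLift (fun i => rg Δ (f i)) fun i j h => rg_comm (hf i j h)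

/-- the action of a group of graph automorphisms -/
def raagAut {F : Type*} [Group F] [MulAction F ι]
    (h : ∀ (f : F) i j, Γ.Adj i j → Γ.Adj (f • i) (f • j)) : F →* MulAut (RAAG Γ) where
  toFun f := MonoidHom.toMulEquiv (raagMap (fun i => f • i) (h f)) (raagMap (fun i => f⁻¹ • i) (h f⁻¹))
    (raag_hom_ext fun i => by simp [raagMap]) (raag_hom_ext fun i => by simp [raagMap])
  map_one' := by
    refine MulEquiv.toMonoidHom_injective (raag_hom_ext fun i => ?_)
    simp [raagMap]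
  map_mul' f g := by
    refine MulEquiv.toMonoidHom_injective (raag_hom_ext fun i => ?_)
    simp [raagMap, mul_smul]

@[simp] theorem raagAut_rg {F : Type*} [Group F] [MulAction F ι]
    (h : ∀ (f : F) i j, Γ.Adj i j → Γ.Adj (f • i) (f • j)) (f : F) (i : ι) :
    raagAut h f (rg Γ i) = rg Γ (f • i) := by
  simp [raagAut, raagMap]

end Pool.Agent.H75.TB
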