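import Pool.Agent.H75.TB.Raag
import Pool.Agent.H75.TB.Path

/-!
# TB-G4: the path system in a right-angled Artin group extended by a finite group

`M : EmbData D` contains sheets `J`, functionals `d v j`, the homomorphism `φ` (restricted to the
vertex groups) with `φ (u' e) = φ (u e) ≠ 0`, `c e = |φ (u e)|`, and permutations `σ e` matching the functionals
on the edge elements. `M.graph` has the vertices `inl j` (`z_j`) and `inr ⟨e, π, x⟩`
(`τ_{e,π,x}`, `π` a permutation of `J`, `x : ZMod (c e)`); the `z_j` are pairwise adjacent and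
`z_i ~ τ_{e,π,x}` iff `d (tgt e) (π⁻¹ i) (u' e) ≠ 0`. The finite group
`M.F = Perm J × ∏_e ZMod (c e)` acts. The path system is
`a at v ↦ (∏_j z_j^{d v j a}, (1, φ v a))`, `t_e ↦ (τ_{e,1,0}, (σ_e, 0))`.

Checks for `exists_sys`: the element `(1, k)` of `F` fixes all `z_j`, so `i v` is a homomorphism.
Relation: `t_e i(u_e) = (τ_{e,1,0} * σ_e • z(u_e), (σ_e, φ u_e))` and
`i(u'_e) t_e = (z(u'_e) * (1, φ u_e) • τ_{e,1,0}, (σ_e, φ u_e))`; `(1, φ u_e) • τ_{e,1,0} = τ_{e,1,0}`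
because `φ u_e = 0` in `ZMod (c e)` (only the component `e` matters), `σ_e • z(u_e) = ∏ z_{σ_e j}^{d (src e) j (u e)}
= ∏_j z_j^{d (tgt e) j (u' e)} = z(u'_e)` by `mtch`, and `z(u'_e)` commutes with `τ_{e,1,0}` because
it only involves `z_j` with `d (tgt e) j (u' e) ≠ 0`.
-/

namespace Pool.Agent.H75.TB

open Multiplicative

structure EmbData (D : TubGraph) where
  J : Type
  finJ : Fintype J
  decJ : DecidableEq J
  d : D.V → J → (ℤ × ℤ →+ ℤ)
  φ : D.V → (ℤ × ℤ →+ ℤ)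
  φ_ne : ∀ e, φ (D.src e) (D.u e) ≠ 0
  φ_eq : ∀ e, φ (D.tgt e) (D.u' e) = φ (D.src e) (D.u e)
  σ : D.E → Equiv.Perm J
  mtch : ∀ e j, d (D.tgt e) (σ e j) (D.u' e) = d (D.src e) j (D.u e)
  fort_src : ∀ e a, (∀ j, d (D.src e) j (D.u e) = 0 → d (D.src e) j a = 0) →
    φ (D.src e) (D.u e) • a = φ (D.src e) a • D.u e
  fort_tgt : ∀ e a, (∀ j, d (D.tgt e) j (D.u' e) = 0 → d (D.tgt e) j a = 0) →
    φ (D.tgt e) (D.u' e) • a = φ (D.tgt e) a • D.u' e
  sep : ∀ v a, (∀ j, d v j a = 0) → a = 0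

namespace EmbData

variable {D : TubGraph} (M : EmbData D)

instance : Fintype M.J := M.finJ
instance : DecidableEq M.J := M.decJ

/-- `c e = |φ (u e)| > 0` -/
def c (e : D.E) : ℕ := (M.φ (D.src e) (D.u e)).natAbs

lemma c_pos (e : D.E) : 0 < M.c e := Int.natAbs_pos.mpr (M.φ_ne e)

instance (e : D.E) : NeZero (M.c e) := ⟨(M.c_pos e).ne'⟩

/-- the finite group -/
abbrev F : Type := Equiv.Perm M.J × Multiplicative (∀ e : D.E, ZMod (M.c e))

/-- letters `τ` -/
abbrev I : Type := Σ e : D.E, Equiv.Perm M.J × ZMod (M.c e)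

/-- vertices of the graph -/
abbrev VV : Type := M.J ⊕ M.I

instance : MulAction M.F M.VV where
  smul f
    | Sum.inl j => Sum.inl (f.1 j)
    | Sum.inr ⟨e, π, x⟩ => Sum.inr ⟨e, f.1 * π, toAdd f.2 e + x⟩
  one_smul
    | Sum.inl j => rfl
    | Sum.inr ⟨e, π, x⟩ => by
      show Sum.inr _ = _
      simp
  mul_smul f g
    | Sum.inl j => rfl
    | Sum.inr ⟨e, π, x⟩ => by
      show Sum.inr _ = Sum.inr _
      simp [mul_assoc, add_assoc]

@[simp] lemma smul_inl (f : M.F) (j : M.J) : f • (Sum.inl j : M.VV) = Sum.inl (f.1 j) := rfl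
@[simp] lemma smul_inr (f : M.F) (e : D.E) (π : Equiv.Perm M.J) (x : ZMod (M.c e)) :
    f • (Sum.inr ⟨e, π, x⟩ : M.VV) = Sum.inr ⟨e, f.1 * π, toAdd f.2 e + x⟩ := rfl

/-- `z_i` is adjacent to `τ_{e,π,x}` -/
def adjZ (i : M.J) (τ : M.I) : Prop := M.d (D.tgt τ.1) (τ.2.1⁻¹ i) (D.u' τ.1) ≠ 0

/-- adjacency -/
def adj : M.VV → M.VV → Prop
  | Sum.inl i, Sum.inl j => i ≠ j
  | Sum.inl i, Sum.inr τ => M.adjZ i τ
  | Sum.inr τ, Sum.inl i => M.adjZ i τ
  | Sum.inr _, Sum.inr _ => False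

/-- the defining graph -/
def graph : SimpleGraph M.VV where
  Adj := M.adj
  symm := ⟨by
    rintro (i | τ) (j | τ') h
    · exact Ne.symm h
    · exact h
    · exact h
    · exact h⟩
  loopless := ⟨by
    rintro (i | τ) h
    · exact h rfl
    · exact h⟩

lemma adj_smul (f : M.F) (i j : M.VV) (h : M.graph.Adj i j) : M.graph.Adj (f • i) (f • j) := by
  have key : ∀ (i : M.J) (τ : M.I), M.adjZ i τ →
      M.adjZ (f.1 i) ⟨τ.1, f.1 * τ.2.1, toAdd f.2 τ.1 + τ.2.2⟩ := by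
    rintro i ⟨e, π, x⟩ h
    unfold adjZ at h ⊢
    simpa [mul_inv_rev, Equiv.Perm.mul_apply] using h
  rcases i with i | ⟨e, π, x⟩ <;> rcases j with j | ⟨e', π', x'⟩
  · exact fun hh => h (f.1.injective hh)
  · exact key i _ h
  · exact key j _ h
  · exact h

/-- the ambient group -/
abbrev B : Type := RAAG M.graph ⋊[raagAut M.adj_smul] M.F

lemma z_comm : Pairwise fun i j => ∀ (x y : Multiplicative ℤ),
    Commute (zpowersHom (RAAG M.graph) (rg M.graph (Sum.inl i)) x)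
      (zpowersHom (RAAG M.graph) (rg M.graph (Sum.inl j)) y) := by
  intro i j hij x y
  have h : Commute (rg M.graph (Sum.inl i)) (rg M.graph (Sum.inl j)) :=
    rg_comm (Γ := M.graph) (show M.graph.Adj (Sum.inl i) (Sum.inl j) from hij)
  simp only [zpowersHom_apply]
  exact h.zpow_zpow _ _

/-- the free abelian group on the `z_j` -/
def zz : (M.J → Multiplicative ℤ) →* RAAG M.graph :=
  MonoidHom.noncommPiCoprod (fun j => zpowersHom (RAAG M.graph) (rg M.graph (Sum.inl j))) M.z_comm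

/-- vertex elements in the ambient group -/
def iv (v : D.V) (a : ℤ × ℤ) : M.B :=
  ⟨M.zz fun j => ofAdd (M.d v j a), (1, ofAdd fun e => ((M.φ v a : ℤ) : ZMod (M.c e)))⟩

/-- stable letters in the ambient group -/
def te (e : D.E) : M.B := ⟨rg M.graph (Sum.inr ⟨e, 1, 0⟩), (M.σ e, 1)⟩

theorem zz_single (j : M.J) (y : Multiplicative ℤ) :
    M.zz (Pi.mulSingle j y) = rg M.graph (Sum.inl j) ^ toAdd y := by
  unfold zz
  rw [MonoidHom.noncommPiCoprod_mulSingle, zpowersHom_apply]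

theorem aut_zz (f : M.F) (x : M.J → Multiplicative ℤ) :
    raagAut M.adj_smul f (M.zz x) = M.zz (fun j => x (f.1⁻¹ j)) := by
  have key : (MulEquiv.toMonoidHom (raagAut M.adj_smul f)).comp M.zz = M.zz.comp
      { toFun := fun x j => x (f.1⁻¹ j), map_one' := rfl, map_mul' := fun _ _ => rfl } := by
    refine MonoidHom.pi_ext fun j y => ?_
    show raagAut M.adj_smul f (M.zz (Pi.mulSingle j y)) =
      M.zz (fun i => (Pi.mulSingle j y : M.J → Multiplicative ℤ) (f.1⁻¹ i))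
    have e : (fun i => (Pi.mulSingle j y : M.J → Multiplicative ℤ) (f.1⁻¹ i)) = Pi.mulSingle (f.1 j) y := by
      funext i
      by_cases h : i = f.1 j
      · subst h
        have e0 : f.1⁻¹ (f.1 j) = j := f.1.symm_apply_apply j
        rw [e0, Pi.mulSingle_eq_same, Pi.mulSingle_eq_same]
      · rw [Pi.mulSingle_eq_of_ne h, Pi.mulSingle_eq_of_ne]
        intro h'
        exact h (by rw [← h']; exact (f.1.apply_symm_apply i).symm)
    rw [e, zz_single, zz_single, map_zpow, raagAut_rg, smul_inl]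
  exact DFunLike.congr_fun key x

theorem comm_zz (τ : M.I) (x : M.J → Multiplicative ℤ) (h : ∀ j, x j ≠ 1 → M.adjZ j τ) :
    Commute (rg M.graph (Sum.inr τ)) (M.zz x) := by
  unfold zz
  rw [MonoidHom.noncommPiCoprod_apply]
  refine Finset.noncommProd_commute _ _ _ _ fun j _ => ?_
  by_cases hx : x j = 1
  · rw [hx, map_one]
    exact Commute.one_right _
  · have h1 : Commute (rg M.graph (Sum.inr τ)) (rg M.graph (Sum.inl j)) :=
      rg_comm (Γ := M.graph) (show M.graph.Adj (Sum.inr τ) (Sum.inl j) from h j hx)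
    rw [zpowersHom_apply]
    exact h1.zpow_right _

theorem iv_add (v : D.V) (a b : ℤ × ℤ) : M.iv v (a + b) = M.iv v a * M.iv v b := by
  refine SemidirectProduct.ext ?_ ?_
  · rw [SemidirectProduct.mul_left]
    show M.zz (fun j => ofAdd (M.d v j (a + b))) = M.zz (fun j => ofAdd (M.d v j a)) *
      raagAut M.adj_smul (1, ofAdd fun e => ((M.φ v a : ℤ) : ZMod (M.c e))) (M.zz fun j => ofAdd (M.d v j b))
    rw [aut_zz, ← map_mul]
    congr 1
    funext j
    show ofAdd (M.d v j (a + b)) = ofAdd (M.d v j a) * ofAdd (M.d v j b)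
    rw [map_add, ofAdd_add]
  · rw [SemidirectProduct.mul_right]
    show ((1 : Equiv.Perm M.J), ofAdd fun e => ((M.φ v (a + b) : ℤ) : ZMod (M.c e))) =
      ((1 : Equiv.Perm M.J) * 1, (ofAdd fun e => ((M.φ v a : ℤ) : ZMod (M.c e))) *
        ofAdd fun e => ((M.φ v b : ℤ) : ZMod (M.c e)))
    rw [mul_one, ← ofAdd_add]
    congr 2
    funext e
    rw [map_add, Int.cast_add]
    rfl

theorem te_rel (e : D.E) : M.te e * M.iv (D.src e) (D.u e) = M.iv (D.tgt e) (D.u' e) * M.te e := by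
  refine SemidirectProduct.ext ?_ ?_
  · rw [SemidirectProduct.mul_left, SemidirectProduct.mul_left]
    show rg M.graph (Sum.inr ⟨e, 1, 0⟩) * raagAut M.adj_smul (M.σ e, 1)
        (M.zz fun j => ofAdd (M.d (D.src e) j (D.u e))) =
      (M.zz fun j => ofAdd (M.d (D.tgt e) j (D.u' e))) * raagAut M.adj_smul
        (1, ofAdd fun e' => ((M.φ (D.tgt e) (D.u' e) : ℤ) : ZMod (M.c e'))) (rg M.graph (Sum.inr ⟨e, 1, 0⟩))
    rw [aut_zz, raagAut_rg, smul_inr]
    have e1 : (fun j => ofAdd (M.d (D.src e) ((M.σ e)⁻¹ j) (D.u e))) =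
        fun j => ofAdd (M.d (D.tgt e) j (D.u' e)) := by
      funext j
      have e0 : M.σ e ((M.σ e)⁻¹ j) = j := (M.σ e).apply_symm_apply j
      rw [← M.mtch e ((M.σ e)⁻¹ j), e0]
    have e2 : ((M.φ (D.tgt e) (D.u' e) : ℤ) : ZMod (M.c e)) = 0 := by
      rw [M.φ_eq, ZMod.intCast_zmod_eq_zero_iff_dvd]
      unfold c
      exact Int.natAbs_dvd.2 dvd_rfl
    show rg M.graph (Sum.inr ⟨e, 1, 0⟩) * M.zz (fun j => ofAdd (M.d (D.src e) ((M.σ e)⁻¹ j) (D.u e))) =
      (M.zz fun j => ofAdd (M.d (D.tgt e) j (D.u' e))) * rg M.graph (Sum.inr ⟨e, 1 * 1,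
        ((M.φ (D.tgt e) (D.u' e) : ℤ) : ZMod (M.c e)) + 0⟩)
    rw [e1, e2, mul_one, add_zero]
    refine M.comm_zz ⟨e, 1, 0⟩ _ fun j hj => ?_
    show M.d (D.tgt e) ((1 : Equiv.Perm M.J)⁻¹ j) (D.u' e) ≠ 0
    intro h0
    apply hj
    have h1 : M.d (D.tgt e) j (D.u' e) = 0 := by simpa using h0
    rw [h1, ofAdd_zero]
  · rw [SemidirectProduct.mul_right, SemidirectProduct.mul_right]
    show (M.σ e * 1, (1 : Multiplicative (∀ e : D.E, ZMod (M.c e))) *
        ofAdd fun e' => ((M.φ (D.src e) (D.u e) : ℤ) : ZMod (M.c e'))) =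
      (1 * M.σ e, (ofAdd fun e' => ((M.φ (D.tgt e) (D.u' e) : ℤ) : ZMod (M.c e'))) *
        (1 : Multiplicative (∀ e : D.E, ZMod (M.c e))))
    rw [mul_one, one_mul, mul_one, one_mul, M.φ_eq]

theorem exists_sys : ∃ S : PathSys D M.B, (∀ v a, S.i v (ofAdd a) = M.iv v a) ∧
    ∀ e, S.t e = M.te e :=
  ⟨{ i := fun v => MonoidHom.mk' (fun a => M.iv v (toAdd a)) (fun _ _ => M.iv_add v _ _)
     t := M.te
     rel := M.te_rel }, fun _ _ => rfl, fun _ => rfl⟩

end EmbData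

end Pool.Agent.H75.TB
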