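import Pool.Agent.H75.TB.Match
import Pool.Agent.H75.TB.Target
import Pool.Agent.H75.TB.Par

/-!
# TB-S: from the matched measures to embedding data

`L` = maximum of all `|p e|`, `|p' e|` and `1`; `μ` from `matching`. Summing the matching identity
over all `ω` (finitely many are nonzero) the total masses of `μ (src e)` and `μ (tgt e)` agree
(`lineSum` summed over `ω` is the total mass), so by induction on the depth (`par_spec`) all `μ v` have
the same total mass `M`. `J = Fin M`; for each `v` an enumeration `f v : Fin M → ℤ × ℤ` with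
`#{j : f v j = x} = μ v x` (`Finsupp.toMultiset`, a list of length `M`).
`d v j y = (f v j).1 * (N * xc (φ v) y) + (f v j).2 * φ v y`. On the edge elements, with
`f (src e) j = (a, b)`: `d (src e) j (u e) = φ(u e) (a p_e + b)`, and
`d (tgt e) j (u' e) = φ(u' e) (a' p'_e + b')`. The number of `j` with `a p_e + b = ω` is
`lineSum (μ (src e)) (p e) ω`; by `matching` there is a permutation `σ e` with
`(value at tgt of σ e j) = (value at src of j)` (equal cardinalities of the fibres of two functions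
`Fin M → ℤ`).
`fort`: some `j` has `f v j = (1, -p)` (`|p| ≤ L`); `d v j (u) = N x(u) - p φ(u) = 0`, so
`N x(a) = p φ(a)`; multiply by `φ(u)`: `x(a) φ(u) = x(u) φ(a)`, so `y = φ(u) • a - φ(a) • u` has
`x(y) = 0`, `φ(y) = 0`, hence `y = 0` (`xc`, `φ ≠ 0`: determinant `φ(1,0)² + φ(0,1)² ≠ 0`).
`sep`: `j` with `f v j = (1, 0)` and `(1, 1)`.

Status: complete (helper26).
-/

namespace Pool.Agent.H75.TB

/-- the multiset of the values `a p + b` -/
theorem sheets_line (m m' : ℤ × ℤ →₀ ℕ) (p p' : ℤ)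
    (h : ∀ ω, lineSum m p ω = lineSum m' p' ω) :
    (Finsupp.toMultiset m).map (fun x => x.1 * p + x.2) =
      (Finsupp.toMultiset m').map (fun x => x.1 * p' + x.2) := by
  classical
  have key : ∀ (n : ℤ × ℤ →₀ ℕ) (q ω : ℤ),
      ((Finsupp.toMultiset n).map (fun x => x.1 * q + x.2)).count ω = lineSum n q ω := by
    intro n q ω
    rw [Finsupp.toMultiset_map, Finsupp.count_toMultiset, Finsupp.mapDomain, Finsupp.sum_apply]
    unfold lineSum
    refine Finsupp.sum_congr fun x _ => ?_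
    rw [Finsupp.single_apply]
  refine Multiset.ext.2 fun ω => ?_
  rw [key, key, h]

theorem sheets_enum {α : Type} (s : Multiset α) (M : ℕ) (h : Multiset.card s = M) :
    ∃ f : Fin M → α, (Finset.univ : Finset (Fin M)).val.map f = s := by
  induction s using Quotient.inductionOn with
  | _ l =>
    have hl : l.length = M := h
    subst hl
    refine ⟨l.get, ?_⟩
    rw [Fin.univ_val_map, List.ofFn_get]
    rfl

/-- two tuples with the same multiset of values differ by a permutation -/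
theorem sheets_perm {M : ℕ} (g g' : Fin M → ℤ)
    (h : (Finset.univ : Finset (Fin M)).val.map g = (Finset.univ : Finset (Fin M)).val.map g') :
    ∃ σ : Equiv.Perm (Fin M), ∀ j, g' (σ j) = g j := by
  rw [Fin.univ_val_map, Fin.univ_val_map, Multiset.coe_eq_coe] at h
  have h1 : g ∘ Tuple.sort g = g' ∘ Tuple.sort g' := by
    apply List.ofFn_injective
    exact ((((Tuple.sort g).ofFn_comp_perm g).trans h).trans
      ((Tuple.sort g').ofFn_comp_perm g').symm).eq_of_pairwise'
      (Tuple.monotone_sort g).sortedLE_ofFn.pairwise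
      (Tuple.monotone_sort g').sortedLE_ofFn.pairwise
  refine ⟨(Tuple.sort g).symm.trans (Tuple.sort g'), fun j => ?_⟩
  have h2 := congrFun h1 ((Tuple.sort g).symm j)
  simp only [Function.comp_apply, Equiv.apply_symm_apply] at h2
  exact h2.symm

/-- both coordinates of a vector vanish -/
theorem sheets_zero {φ : ℤ × ℤ →+ ℤ} (hφ : φ ≠ 0) {y : ℤ × ℤ} (h1 : xc φ y = 0) (h2 : φ y = 0) :
    y = 0 := by
  have e : φ y = y.1 * φ (1, 0) + y.2 * φ (0, 1) := by
    have h3 : y = y.1 • ((1, 0) : ℤ × ℤ) + y.2 • ((0, 1) : ℤ × ℤ) := by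
      ext <;> simp
    conv_lhs => rw [h3]
    rw [map_add, map_zsmul, map_zsmul, smul_eq_mul, smul_eq_mul]
  have e1 : φ (0, 1) * y.1 - φ (1, 0) * y.2 = 0 := h1
  rw [e] at h2
  have hne : φ (1, 0) ^ 2 + φ (0, 1) ^ 2 ≠ 0 := by
    intro h0
    apply hφ
    have a1 : φ (1, 0) = 0 := by nlinarith [sq_nonneg (φ (1, 0)), sq_nonneg (φ (0, 1))]
    have a2 : φ (0, 1) = 0 := by nlinarith [sq_nonneg (φ (1, 0)), sq_nonneg (φ (0, 1))]
    apply AddMonoidHom.ext
    intro x
    have h3 : x = x.1 • ((1, 0) : ℤ × ℤ) + x.2 • ((0, 1) : ℤ × ℤ) := by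
      ext <;> simp
    rw [h3, map_add, map_zsmul, map_zsmul, a1, a2]
    simp
  have b1 : (φ (1, 0) ^ 2 + φ (0, 1) ^ 2) * y.1 = 0 := by linear_combination φ (0, 1) * e1 + φ (1, 0) * h2
  have b2 : (φ (1, 0) ^ 2 + φ (0, 1) ^ 2) * y.2 = 0 := by linear_combination φ (0, 1) * h2 - φ (1, 0) * e1
  ext
  · exact (mul_eq_zero.1 b1).resolve_left hne
  · exact (mul_eq_zero.1 b2).resolve_left hne

theorem sheets_fort {φ : ℤ × ℤ →+ ℤ} (hφ : φ ≠ 0) {N p : ℤ} (hN : N ≠ 0) {u a : ℤ × ℤ}
    (hp : p * φ u = N * xc φ u) (h : N * xc φ a = p * φ a) : φ u • a = φ a • u := by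
  have h1 : xc φ a * φ u = xc φ u * φ a := by
    apply mul_left_cancel₀ hN
    linear_combination φ u * h + φ a * hp
  have h2 : φ u • a - φ a • u = 0 := by
    apply sheets_zero hφ
    · rw [map_sub, map_zsmul, map_zsmul, smul_eq_mul, smul_eq_mul]
      linear_combination h1
    · rw [map_sub, map_zsmul, map_zsmul, smul_eq_mul, smul_eq_mul]
      ring
  exact sub_eq_zero.1 h2

theorem exists_embData (D : TubGraph) (φ : D.V → (ℤ × ℤ →+ ℤ)) (hφ : ∀ v, φ v ≠ 0)
    (φ_ne : ∀ e, φ (D.src e) (D.u e) ≠ 0)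
    (φ_eq : ∀ e, φ (D.tgt e) (D.u' e) = φ (D.src e) (D.u e))
    (N : ℤ) (hN : N ≠ 0) (p p' : D.E → ℤ)
    (hp : ∀ e, p e * φ (D.src e) (D.u e) = N * xc (φ (D.src e)) (D.u e))
    (hp' : ∀ e, p' e * φ (D.tgt e) (D.u' e) = N * xc (φ (D.tgt e)) (D.u' e))
    (A B Γ : D.V → ℚ) (hΓ : ∀ v, 0 < Γ v)
    (h : ∀ e, qv (A (D.src e)) (B (D.src e)) (Γ (D.src e)) (p e) =
      qv (A (D.tgt e)) (B (D.tgt e)) (Γ (D.tgt e)) (p' e)) :
    Nonempty (EmbData D) := by
  classical
  have := D.finV
  have := D.finE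
  obtain ⟨L, hL1, hL⟩ : ∃ L : ℕ, 1 ≤ L ∧ ∀ e, |p e| ≤ (L : ℤ) ∧ |p' e| ≤ (L : ℤ) := by
    have := Fintype.ofFinite D.E
    refine ⟨(Finset.univ.sup fun e => max (p e).natAbs (p' e).natAbs) + 1, by omega, fun e => ?_⟩
    have h1 : max (p e).natAbs (p' e).natAbs ≤
        Finset.univ.sup fun e => max (p e).natAbs (p' e).natAbs :=
      Finset.le_sup (f := fun e => max (p e).natAbs (p' e).natAbs) (Finset.mem_univ e)
    rw [Int.abs_eq_natAbs, Int.abs_eq_natAbs]
    have h2 := le_max_left (p e).natAbs (p' e).natAbs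
    have h3 := le_max_right (p e).natAbs (p' e).natAbs
    constructor
    · exact_mod_cast (h2.trans h1).trans (Nat.le_succ _)
    · exact_mod_cast (h3.trans h1).trans (Nat.le_succ _)
  obtain ⟨μ, hμ, hμ1⟩ := matching A B Γ hΓ L
  have hline : ∀ e, (Finsupp.toMultiset (μ (D.src e))).map (fun x => x.1 * p e + x.2) =
      (Finsupp.toMultiset (μ (D.tgt e))).map (fun x => x.1 * p' e + x.2) := fun e =>
    sheets_line _ _ _ _ (hμ _ _ _ _ (hL e).1 (hL e).2 (h e))
  have hcard : ∀ e, Multiset.card (Finsupp.toMultiset (μ (D.src e))) =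
      Multiset.card (Finsupp.toMultiset (μ (D.tgt e))) := fun e => by
    have h1 := congrArg Multiset.card (hline e)
    rwa [Multiset.card_map, Multiset.card_map] at h1
  obtain ⟨M, hM⟩ : ∃ M : ℕ, ∀ v, Multiset.card (Finsupp.toMultiset (μ v)) = M := by
    refine ⟨Multiset.card (Finsupp.toMultiset (μ D.root)), ?_⟩
    have key : ∀ n v, D.depth v = n → Multiset.card (Finsupp.toMultiset (μ v)) =
        Multiset.card (Finsupp.toMultiset (μ D.root)) := by
      intro n
      induction n using Nat.strong_induction_on with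
      | _ n ih =>
        intro v hv
        by_cases hr : v = D.root
        · rw [hr]
        · rcases D.par_spec ⟨v, hr⟩ with ⟨h1, h2⟩ | ⟨h1, h2⟩
          · have h3 := hcard (D.par ⟨v, hr⟩)
            rw [h1] at h3
            rw [h3]
            exact ih _ (hv ▸ h2) _ rfl
          · have h3 := hcard (D.par ⟨v, hr⟩)
            rw [h1] at h3
            rw [← h3]
            exact ih _ (hv ▸ h2) _ rfl
    exact fun v => key _ v rfl
  choose f hf using fun v => sheets_enum (Finsupp.toMultiset (μ v)) M (hM v)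
  have hfx : ∀ v x, 0 < μ v x → ∃ j, f v j = x := by
    intro v x hx
    have h1 : x ∈ Finsupp.toMultiset (μ v) := by
      rw [Finsupp.mem_toMultiset, Finsupp.mem_support_iff]
      omega
    rw [← hf v, Multiset.mem_map] at h1
    obtain ⟨j, -, hj⟩ := h1
    exact ⟨j, hj⟩
  have hσ : ∀ e, ∃ σ : Equiv.Perm (Fin M), ∀ j,
      (f (D.tgt e) (σ j)).1 * p' e + (f (D.tgt e) (σ j)).2 =
        (f (D.src e) j).1 * p e + (f (D.src e) j).2 := by
    intro e
    have h1 := hline e
    rw [← hf (D.src e), ← hf (D.tgt e), Multiset.map_map, Multiset.map_map] at h1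
    obtain ⟨σ, hσ⟩ := sheets_perm _ _ h1
    exact ⟨σ, hσ⟩
  choose σ hσ using hσ
  let d : D.V → Fin M → (ℤ × ℤ →+ ℤ) := fun v j =>
    (f v j).1 • (N • xc (φ v)) + (f v j).2 • φ v
  have hd : ∀ v j y, d v j y = (f v j).1 * (N * xc (φ v) y) + (f v j).2 * φ v y := by
    intro v j y
    simp only [d, AddMonoidHom.add_apply, AddMonoidHom.smul_apply, smul_eq_mul]
  refine ⟨{ J := Fin M
            finJ := inferInstance
            decJ := inferInstance
            d := d
            φ := φ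
            φ_ne := φ_ne
            φ_eq := φ_eq
            σ := σ
            mtch := ?_
            fort_src := ?_
            fort_tgt := ?_
            sep := ?_ }⟩
  · intro e j
    rw [hd, hd, ← hp e, ← hp' e, φ_eq e]
    linear_combination φ (D.src e) (D.u e) * hσ e j
  · intro e a ha
    obtain ⟨j, hj⟩ := hfx (D.src e) (1, -p e) (hμ1 _ _ (by rw [abs_neg]; exact (hL e).1))
    have h1 := ha j (by rw [hd, hj, ← hp e]; ring)
    rw [hd, hj] at h1
    exact sheets_fort (hφ _) hN (hp e) (by linear_combination h1)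
  · intro e a ha
    obtain ⟨j, hj⟩ := hfx (D.tgt e) (1, -p' e) (hμ1 _ _ (by rw [abs_neg]; exact (hL e).2))
    have h1 := ha j (by rw [hd, hj, ← hp' e]; ring)
    rw [hd, hj] at h1
    exact sheets_fort (hφ _) hN (hp' e) (by linear_combination h1)
  · intro v a ha
    obtain ⟨j, hj⟩ := hfx v (1, 0) (hμ1 _ _ (by simp))
    obtain ⟨k, hk⟩ := hfx v (1, 1) (hμ1 _ _ (by rw [abs_one]; exact_mod_cast hL1))
    have h1 := ha j
    have h2 := ha k
    rw [hd, hj] at h1
    rw [hd, hk] at h2
    have h3 : N * xc (φ v) a = 0 := by linear_combination h1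
    exact sheets_zero (hφ v) ((mul_eq_zero.1 h3).resolve_left hN) (by linear_combination h2 - h3)

end Pool.Agent.H75.TB
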