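import Pool.Agent.H75.TB.Ev

/-!
# Solutions of the matching problem
-/

namespace Pool.Agent.H75.TB

open LaurentPolynomial

/-- `(Φ, h)` is a solution with rows in `[-R, R]`: for every vertex `v` and slope `|p| ≤ L`
`∑_a h_{v,a} T^{a p} = Φ (A_v + B_v p + Γ_v p²)`. -/
structure IsSol {V : Type} (A B Γ : V → ℚ) (L R : ℕ) (Φ : ℚ → LP) (h : V → ℤ →₀ LP) : Prop where
  ev : ∀ v (p : ℤ), |p| ≤ L → rowEv (h v) p = Φ (qv (A v) (B v) (Γ v) p)
  supp : ∀ v (a : ℤ), (R : ℤ) < |a| → h v a = 0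

variable {V : Type} {A B Γ : V → ℚ} {L R : ℕ} {Φ Φ' : ℚ → LP} {h h' : V → ℤ →₀ LP}

lemma IsSol.add (H : IsSol A B Γ L R Φ h) (H' : IsSol A B Γ L R Φ' h') :
    IsSol A B Γ L R (fun q => Φ q + Φ' q) (fun v => h v + h' v) where
  ev v p hp := by rw [rowEv_add, H.ev v p hp, H'.ev v p hp]
  supp v a ha := by rw [Finsupp.add_apply, H.supp v a ha, H'.supp v a ha, add_zero]

lemma IsSol.smul (c : LP) (H : IsSol A B Γ L R Φ h) :
    IsSol A B Γ L R (fun q => c * Φ q) (fun v => c • h v) where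
  ev v p hp := by rw [rowEv_smul, H.ev v p hp]
  supp v a ha := by rw [Finsupp.smul_apply, H.supp v a ha, smul_zero]

end Pool.Agent.H75.TB
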