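import Pool.Agent.H75.TB.Path
import Pool.Agent.H75.TB.Britton

/-!
# TB-G7: the vertex groups embed; noncommuting elements

Base group `G₀ = V → Multiplicative (ℤ × ℤ)` (direct product of the vertex groups; `D.finV` is not
needed). For an edge `e` let `A e = zpowers (Pi.mulSingle (src e) (ofAdd (u e)))`,
`B e = zpowers (Pi.mulSingle (tgt e) (ofAdd (u' e)))`; both generators have infinite order
(`u_ne`, `u'_ne`), so there is an isomorphism `A e ≃* B e` taking one to the other.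
`multi_britton` gives `P`, `ι`, `t`; `S.i v = ι ∘ mulSingle v`, `S.t = t` is a path system in `P`.
`exists_lift`: `Θ`, `γ`. `vertex_injective`: `Θ (gv v a) = γ v * ι (mulSingle v a) * (γ v)⁻¹`.
`not_commute`: if `t_e a t_e⁻¹` (`a` at `src e`) and `b` (at `tgt e`) commute in `D.Grp`, apply `Θ`
and conjugate by `γ (tgt e)`: `t_e i(a) t_e⁻¹ i(b) t_e i(a)⁻¹ t_e⁻¹ i(b)⁻¹ = 1` in `P`; the list
`[(e, 1, a), (e, -1, b), (e, 1, a⁻¹), (e, -1, b⁻¹)]` is a chain for `BRed` because `a ∉ A e`, `b ∉ B e`,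
`a⁻¹ ∉ A e`; it is not empty: contradiction to `multi_britton`.
-/

namespace Pool.Agent.H75.TB

variable {D : TubGraph}

theorem exists_zpowers_equiv {G : Type*} [Group G] {x y : G} (hx : ∀ n : ℤ, x ^ n = 1 → n = 0)
    (hy : ∀ n : ℤ, y ^ n = 1 → n = 0) :
    ∃ φ : Subgroup.zpowers x ≃* Subgroup.zpowers y,
      ∀ h : x ∈ Subgroup.zpowers x, (φ ⟨x, h⟩ : G) = y := by
  have inj : ∀ z : G, (∀ n : ℤ, z ^ n = 1 → n = 0) → Function.Injective (zpowersHom G z) := by
    intro z hz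
    rw [injective_iff_map_eq_one]
    intro n hn
    have : z ^ (Multiplicative.toAdd n) = 1 := by simpa [zpowersHom_apply] using hn
    exact hz _ this
  have ran : ∀ z : G, (zpowersHom G z).range = Subgroup.zpowers z := by
    intro z
    ext w
    simp only [MonoidHom.mem_range, Subgroup.mem_zpowers_iff, zpowersHom_apply]
    exact ⟨fun ⟨n, hn⟩ => ⟨Multiplicative.toAdd n, hn⟩, fun ⟨n, hn⟩ => ⟨Multiplicative.ofAdd n, hn⟩⟩
  refine ⟨(MulEquiv.subgroupCongr (ran x)).symm.trans ((MonoidHom.ofInjective (inj x hx)).symm.trans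
    ((MonoidHom.ofInjective (inj y hy)).trans (MulEquiv.subgroupCongr (ran y)))), fun h => ?_⟩
  have e1 : (MonoidHom.ofInjective (inj x hx)).symm ((MulEquiv.subgroupCongr (ran x)).symm ⟨x, h⟩) =
      Multiplicative.ofAdd 1 := by
    rw [MulEquiv.symm_apply_eq]
    apply Subtype.ext
    change x = zpowersHom G x (Multiplicative.ofAdd 1)
    simp
  simp only [MulEquiv.trans_apply, e1]
  change zpowersHom G y (Multiplicative.ofAdd 1) = y
  simp

theorem exists_source (D : TubGraph) : ∃ (P : Type) (_ : Group P) (S : PathSys D P),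
    (∀ v (a : ℤ × ℤ), S.i v (Multiplicative.ofAdd a) = 1 → a = 0) ∧
    ∀ (e : D.E) (a b : ℤ × ℤ), (∀ m : ℤ, a ≠ m • D.u e) → (∀ m : ℤ, b ≠ m • D.u' e) →
      (S.t e * S.i (D.src e) (Multiplicative.ofAdd a) * (S.t e)⁻¹) * S.i (D.tgt e) (Multiplicative.ofAdd b) ≠
      S.i (D.tgt e) (Multiplicative.ofAdd b) *
        (S.t e * S.i (D.src e) (Multiplicative.ofAdd a) * (S.t e)⁻¹) := by
  classical
  have := D.finE
  let G₀ : Type := D.V → Multiplicative (ℤ × ℤ)
  have pw : ∀ (v : D.V) (c : ℤ × ℤ) (n : ℤ), (Pi.mulSingle v (Multiplicative.ofAdd c) : G₀) ^ n =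
      Pi.mulSingle v (Multiplicative.ofAdd (n • c)) := by
    intro v c n
    rw [← Pi.mulSingle_zpow, ofAdd_zsmul]
  have inj : ∀ (v : D.V) (c c' : ℤ × ℤ), (Pi.mulSingle v (Multiplicative.ofAdd c) : G₀) =
      Pi.mulSingle v (Multiplicative.ofAdd c') → c = c' := by
    intro v c c' h
    exact Multiplicative.ofAdd.injective (Pi.mulSingle_injective v h)
  have ord : ∀ (v : D.V) (c : ℤ × ℤ), c ≠ 0 → ∀ n : ℤ,
      (Pi.mulSingle v (Multiplicative.ofAdd c) : G₀) ^ n = 1 → n = 0 := by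
    intro v c hc n hn
    rw [pw] at hn
    have h0 : (Pi.mulSingle v (Multiplicative.ofAdd (0 : ℤ × ℤ)) : G₀) = 1 := by
      rw [ofAdd_zero, Pi.mulSingle_one]
    rw [← h0] at hn
    have := inj _ _ _ hn
    exact (smul_eq_zero.1 this).resolve_right hc
  let x : D.E → G₀ := fun e => Pi.mulSingle (D.src e) (Multiplicative.ofAdd (D.u e))
  let y : D.E → G₀ := fun e => Pi.mulSingle (D.tgt e) (Multiplicative.ofAdd (D.u' e))
  have hφ : ∀ e : D.E, ∃ φ : Subgroup.zpowers (x e) ≃* Subgroup.zpowers (y e),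
      ∀ h : x e ∈ Subgroup.zpowers (x e), (φ ⟨x e, h⟩ : G₀) = y e := fun e =>
    exists_zpowers_equiv (ord _ _ (D.u_ne e)) (ord _ _ (D.u'_ne e))
  choose φ hφ using hφ
  obtain ⟨P, hP, ι, t, hι, hrel, hB⟩ := multi_britton (G := G₀) (I := D.E) (fun e => Subgroup.zpowers (x e))
    (fun e => Subgroup.zpowers (y e)) φ
  let S : PathSys D P :=
    { i := fun v => ι.comp (MonoidHom.mulSingle (fun _ : D.V => Multiplicative (ℤ × ℤ)) v)
      t := t
      rel := fun e => by
        have := hrel e ⟨x e, Subgroup.mem_zpowers _⟩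
        rw [hφ] at this
        exact this }
  refine ⟨P, hP, S, ?_, ?_⟩
  · intro v a h
    have h1 : ι (Pi.mulSingle v (Multiplicative.ofAdd a)) = ι 1 := by rw [map_one]; exact h
    have h2 := hι h1
    have h0 : (Pi.mulSingle v (Multiplicative.ofAdd (0 : ℤ × ℤ)) : G₀) = 1 := by
      rw [ofAdd_zero, Pi.mulSingle_one]
    rw [← h0] at h2
    exact inj _ _ _ h2
  · intro e a b ha hb heq
    have na : ∀ c : ℤ × ℤ, (∀ m : ℤ, c ≠ m • D.u e) →
        ¬ (Pi.mulSingle (D.src e) (Multiplicative.ofAdd c) : G₀) ∈ Subgroup.zpowers (x e) := by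
      rintro c hc ⟨m, hm⟩
      have hm' : (x e) ^ m = Pi.mulSingle (D.src e) (Multiplicative.ofAdd c) := hm
      simp only [x] at hm'
      rw [pw] at hm'
      exact hc m (inj _ _ _ hm').symm
    have nb : ∀ c : ℤ × ℤ, (∀ m : ℤ, c ≠ m • D.u' e) →
        ¬ (Pi.mulSingle (D.tgt e) (Multiplicative.ofAdd c) : G₀) ∈ Subgroup.zpowers (y e) := by
      rintro c hc ⟨m, hm⟩
      have hm' : (y e) ^ m = Pi.mulSingle (D.tgt e) (Multiplicative.ofAdd c) := hm
      simp only [y] at hm'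
      rw [pw] at hm'
      exact hc m (inj _ _ _ hm').symm
    have ha' : ∀ m : ℤ, -a ≠ m • D.u e := fun m hm => ha (-m) (by rw [neg_smul, ← hm, neg_neg])
    have := hB 1 [(e, 1, Pi.mulSingle (D.src e) (Multiplicative.ofAdd a)),
      (e, -1, Pi.mulSingle (D.tgt e) (Multiplicative.ofAdd b)),
      (e, 1, Pi.mulSingle (D.src e) (Multiplicative.ofAdd (-a))),
      (e, -1, Pi.mulSingle (D.tgt e) (Multiplicative.ofAdd (-b)))] ?_ ?_
    · simp at this
    · simp only [List.isChain_cons_cons, List.isChain_singleton, and_true]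
      refine ⟨fun _ h => absurd h (na a ha), fun _ h => absurd h (nb b hb), fun _ h => absurd h (na _ ha')⟩
    · refine ⟨1, ?_⟩
      have e1 : S.i (D.src e) (Multiplicative.ofAdd a) = ι (Pi.mulSingle (D.src e) (Multiplicative.ofAdd a)) := rfl
      have e2 : S.i (D.tgt e) (Multiplicative.ofAdd b) = ι (Pi.mulSingle (D.tgt e) (Multiplicative.ofAdd b)) := rfl
      have e3 : S.t e = t e := rfl
      rw [e1, e2, e3] at heq
      have n1 : (Pi.mulSingle (D.src e) (Multiplicative.ofAdd (-a)) : G₀) =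
          (Pi.mulSingle (D.src e) (Multiplicative.ofAdd a))⁻¹ := by
        rw [ofAdd_neg, Pi.mulSingle_inv]
      have n2 : (Pi.mulSingle (D.tgt e) (Multiplicative.ofAdd (-b)) : G₀) =
          (Pi.mulSingle (D.tgt e) (Multiplicative.ofAdd b))⁻¹ := by
        rw [ofAdd_neg, Pi.mulSingle_inv]
      have m1 : ι (Pi.mulSingle (D.src e) (Multiplicative.ofAdd (-a))) =
          (ι (Pi.mulSingle (D.src e) (Multiplicative.ofAdd a)))⁻¹ := by rw [n1]; exact map_inv ι _
      have m2 : ι (Pi.mulSingle (D.tgt e) (Multiplicative.ofAdd (-b))) =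
          (ι (Pi.mulSingle (D.tgt e) (Multiplicative.ofAdd b)))⁻¹ := by rw [n2]; exact map_inv ι _
      simp only [List.map_cons, List.map_nil, List.prod_cons, List.prod_nil, map_one, one_mul, mul_one, m1, m2,
        Units.val_one, zpow_one, Units.val_neg, zpow_neg]
      generalize ι (Pi.mulSingle (D.src e) (Multiplicative.ofAdd a)) = p at heq ⊢
      generalize ι (Pi.mulSingle (D.tgt e) (Multiplicative.ofAdd b)) = q at heq ⊢
      have h4 : t e * p * ((t e)⁻¹ * q * (t e * p⁻¹ * ((t e)⁻¹ * q⁻¹))) =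
          (t e * p * (t e)⁻¹ * q) * (q * (t e * p * (t e)⁻¹))⁻¹ := by group
      rw [h4, heq, mul_inv_cancel]

theorem vertex_injective (v : D.V) (a : ℤ × ℤ) (h : gv v a = (1 : D.Grp)) : a = 0 := by
  obtain ⟨P, hP, S, h1, h2⟩ := exists_source D
  obtain ⟨Θ, γ, h3, h4, h5⟩ := exists_lift S
  have h6 := h4 v a
  rw [h, map_one] at h6
  refine h1 v a ?_
  have h7 : S.i v (Multiplicative.ofAdd a) = (γ v)⁻¹ * (γ v * S.i v (Multiplicative.ofAdd a) * (γ v)⁻¹) * γ v := by
    group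
  rw [h7, ← h6]
  group

theorem not_commute (e : D.E) (a b : ℤ × ℤ) (ha : ∀ m : ℤ, a ≠ m • D.u e)
    (hb : ∀ m : ℤ, b ≠ m • D.u' e) :
    (gt e * gv (D.src e) a * (gt e)⁻¹) * gv (D.tgt e) b ≠
      gv (D.tgt e) b * (gt e * gv (D.src e) a * (gt e)⁻¹) := by
  obtain ⟨P, hP, S, h1, h2⟩ := exists_source D
  obtain ⟨Θ, γ, h3, h4, h5⟩ := exists_lift S
  intro h
  apply h2 e a b ha hb
  have h6 := congrArg Θ h
  simp only [map_mul, map_inv, h4, h5] at h6
  generalize S.i (D.src e) (Multiplicative.ofAdd a) = p at h6 ⊢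
  generalize S.i (D.tgt e) (Multiplicative.ofAdd b) = q at h6 ⊢
  generalize S.t e = s at h6 ⊢
  generalize γ (D.src e) = g at h6 ⊢
  generalize γ (D.tgt e) = k at h6 ⊢
  have e1 : (s * p * s⁻¹) * q = k⁻¹ * (k * s * g⁻¹ * (g * p * g⁻¹) * (k * s * g⁻¹)⁻¹ * (k * q * k⁻¹)) * k := by
    group
  have e2 : q * (s * p * s⁻¹) = k⁻¹ * (k * q * k⁻¹ * (k * s * g⁻¹ * (g * p * g⁻¹) * (k * s * g⁻¹)⁻¹)) * k := by
    group
  rw [e1, e2, h6]

end Pool.Agent.H75.TB
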