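import Pool.Agent.H75.TB.Far
import Pool.Agent.H75.TB.Grow

/-!
# TB-M10: a solution positive for `y ≥ η` and for `y ≤ 1/η`

Let `(Φ, h)` be the solution of `far`. The mirror image `h⁻_v a = invert (h_v (-a))`,
`Φ⁻ q = invert (Φ q)` is again a solution with rows `|a| ≤ R`
(`∑_a invert (h_{-a}) T (a p) = invert (∑_a h_{-a} T (-a p)) = invert (∑_a h_a T (a p))`), and
`pe (h⁻_v a) y = pe (h_v (-a)) y⁻¹`. For a large natural number `m` the solution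
`T m • h + T (-m) • h⁻` (`IsSol.add`, `IsSol.smul`) is positive for `y ≥ η`:
`y^m h_a(y) + y^{-m} h_{-a}(1/y) > 0` because `|h⁻_a(y)| < y^{2m} h_a(y)` by `grow`; and at
`y ≤ 1/η` with `z = 1/y ≥ η` the value is `z^{-m} h_a(1/z) + z^m h_{-a}(z) > 0` by the same
inequality for the row `-a`.
-/

namespace Pool.Agent.H75.TB

open LaurentPolynomial

/-- the mirror image of a row system -/
noncomputable def mirRow (h : ℤ →₀ LP) : ℤ →₀ LP :=
  Finsupp.mapRange (fun f : LP => invert f) (map_zero _) (Finsupp.equivMapDomain (Equiv.neg ℤ) h)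

theorem mirRow_apply (h : ℤ →₀ LP) (a : ℤ) : mirRow h a = invert (h (-a)) := by
  unfold mirRow
  rw [Finsupp.mapRange_apply, Finsupp.equivMapDomain_apply]
  rfl

theorem rowEv_mirRow (h : ℤ →₀ LP) (p : ℤ) : rowEv (mirRow h) p = invert (rowEv h p) := by
  unfold mirRow rowEv
  rw [Finsupp.sum_mapRange_index (fun a => by rw [zero_mul]), Finsupp.sum_equivMapDomain, map_finsuppSum]
  refine Finsupp.sum_congr fun A _ => ?_
  rw [map_mul, invert_T]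
  congr 2
  show -A * p = -(A * p)
  ring

theorem IsSol.mirror {V : Type} {A B Γ : V → ℚ} {L R : ℕ} {Φ : ℚ → LP} {h : V → ℤ →₀ LP}
    (H : IsSol A B Γ L R Φ h) : IsSol A B Γ L R (fun q => invert (Φ q)) (fun v => mirRow (h v)) where
  ev v p hp := by rw [rowEv_mirRow, H.ev v p hp]
  supp v a ha := by rw [mirRow_apply, H.supp v (-a) (by rwa [abs_neg]), map_zero]

theorem twoSided {V : Type} [Finite V] (A B Γ : V → ℚ) (hΓ : ∀ v, 0 < Γ v) (L : ℕ) (η : ℝ)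
    (hη : 1 < η) (R₀ : ℕ) :
    ∃ R ≥ R₀, ∃ (Φ : ℚ → LP) (h : V → ℤ →₀ LP), IsSol A B Γ L R Φ h ∧
      ∀ v (a : ℤ), |a| ≤ R → ∀ y : ℝ, 0 < y → (η ≤ y ∨ y ≤ η⁻¹) → 0 < pe (h v a) y := by
  obtain ⟨R, hR, Φ, h, hsol, hpos⟩ := far A B Γ hΓ L η hη R₀
  have hη0 : 0 < η := by linarith
  have hgrow : ∀ (v : V) (a : ℤ), ∃ m₀ : ℕ, |a| ≤ R → ∀ m ≥ m₀, ∀ y, η ≤ y →
      |pe (invert (h v (-a))) y| < y ^ m * pe (h v a) y := by
    intro v a
    by_cases ha : |a| ≤ R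
    · obtain ⟨m₀, hm⟩ := grow (h v a) (invert (h v (-a))) η hη (hpos v a ha)
      exact ⟨m₀, fun _ => hm⟩
    · exact ⟨0, fun h => absurd h ha⟩
  choose m₀ hm₀ using hgrow
  have : Fintype V := Fintype.ofFinite V
  obtain ⟨M, hM⟩ : ∃ M : ℕ, ∀ (v : V) (a : ℤ), |a| ≤ R → m₀ v a ≤ M := by
    refine ⟨∑ v, ∑ a ∈ Finset.Icc (-(R : ℤ)) R, m₀ v a, fun v a ha => ?_⟩
    calc m₀ v a ≤ ∑ a ∈ Finset.Icc (-(R : ℤ)) R, m₀ v a :=
          Finset.single_le_sum (f := fun a => m₀ v a) (fun _ _ => Nat.zero_le _)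
            (Finset.mem_Icc.2 (abs_le.1 ha))
      _ ≤ ∑ v, ∑ a ∈ Finset.Icc (-(R : ℤ)) R, m₀ v a :=
          Finset.single_le_sum (f := fun v => ∑ a ∈ Finset.Icc (-(R : ℤ)) R, m₀ v a)
            (fun _ _ => Nat.zero_le _) (Finset.mem_univ v)
  refine ⟨R, hR, fun q => T (M : ℤ) * Φ q + T (-(M : ℤ)) * invert (Φ q),
    fun v => (T (M : ℤ) : LP) • h v + (T (-(M : ℤ)) : LP) • mirRow (h v),
    (hsol.smul (T (M : ℤ))).add (hsol.mirror.smul (T (-(M : ℤ)))), ?_⟩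
  intro v a ha y hy hor
  have hval : pe (((T (M : ℤ) : LP) • h v + (T (-(M : ℤ)) : LP) • mirRow (h v)) a) y =
      y ^ M * pe (h v a) y + (y ^ M)⁻¹ * pe (h v (-a)) y⁻¹ := by
    rw [Finsupp.add_apply, Finsupp.smul_apply, Finsupp.smul_apply, smul_eq_mul, smul_eq_mul, pe_add,
      pe_mul _ _ hy.ne', pe_mul _ _ hy.ne', pe_T, pe_T, mirRow_apply, pe_invert, zpow_neg, zpow_natCast]
  show 0 < pe (((T (M : ℤ) : LP) • h v + (T (-(M : ℤ)) : LP) • mirRow (h v)) a) y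
  rw [hval]
  have ht : 0 < y ^ M := pow_pos hy M
  rcases hor with h1 | h1
  · have hk := hm₀ v a ha (2 * M) (by have := hM v a ha; omega) y h1
    rw [pe_invert, mul_comm 2 M, pow_mul] at hk
    have h3 := (abs_lt.1 hk).1
    have e : y ^ M * pe (h v a) y + (y ^ M)⁻¹ * pe (h v (-a)) y⁻¹ =
        (y ^ M)⁻¹ * ((y ^ M) ^ 2 * pe (h v a) y + pe (h v (-a)) y⁻¹) := by
      field_simp
    rw [e]
    exact mul_pos (inv_pos.2 ht) (by linarith)
  · have hz : η ≤ y⁻¹ := by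
      rw [le_inv_comm₀ hη0 hy]
      exact h1
    have hk := hm₀ v (-a) (by rwa [abs_neg]) (2 * M) (by have := hM v (-a) (by rwa [abs_neg]); omega) y⁻¹ hz
    rw [neg_neg, pe_invert, inv_inv, mul_comm 2 M, pow_mul, inv_pow] at hk
    have h3 := (abs_lt.1 hk).1
    have e : y ^ M * pe (h v a) y + (y ^ M)⁻¹ * pe (h v (-a)) y⁻¹ =
        y ^ M * (pe (h v a) y + ((y ^ M)⁻¹) ^ 2 * pe (h v (-a)) y⁻¹) := by
      field_simp
    rw [e]
    exact mul_pos ht (by linarith)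

end Pool.Agent.H75.TB
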