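import Pool.Agent.H75.TB.Final

/-!
# Groups with a tubular free-by-cyclic subgroup of finite index
-/

namespace Pool.Agent.H75.TB

open Pool.Agent.H29

theorem virtuallyRAAG_of_finiteIndex {G : Type*} [Group G] (H : Subgroup G) [H.FiniteIndex]
    (h : VirtuallyRAAG H) : VirtuallyRAAG G := by
  obtain ⟨K, n, Γ, f, hK, hf⟩ := h
  have := hK
  refine ⟨K.map H.subtype, n, Γ, f.comp (K.equivMapOfInjective H.subtype
    H.subtype_injective).symm.toMonoidHom, ?_, ?_⟩
  · constructor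
    rw [Subgroup.index_map_subtype]
    exact mul_ne_zero hK.index_ne_zero Subgroup.FiniteIndex.index_ne_zero
  · intro x y hxy
    exact (K.equivMapOfInjective H.subtype H.subtype_injective).symm.injective (hf hxy)

theorem tubular_cat0_virtual {G : Type*} [Group G] (H : Subgroup G) [H.FiniteIndex]
    (hH : FreeByCyclic H) (D : TubGraph) (hD : Nonempty (H ≃* D.Grp)) {X : Type*} [MetricSpace X]
    [Nonempty X] [IsCAT0 X] [MulAction G X]
    (hiso : ∀ (g : G) (x y : X), dist (g • x) (g • y) = dist x y)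
    (hprop : ∀ K : Set X, IsCompact K → {g : G | ∃ x ∈ K, g • x ∈ K}.Finite)
    (hco : ∃ K : Set X, IsCompact K ∧ ∀ x : X, ∃ g : G, g • x ∈ K) : VirtuallyRAAG G := by
  refine virtuallyRAAG_of_finiteIndex H ?_
  refine tubular_cat0 hH D hD (X := X) (fun g x y => hiso g x y) ?_ ?_
  · intro K hK
    have h1 := hprop K hK
    have h2 : {g : H | ∃ x ∈ K, g • x ∈ K} = (fun g : H => (g : G)) ⁻¹' {g : G | ∃ x ∈ K, g • x ∈ K} :=
      rfl
    rw [h2]
    exact h1.preimage (Subtype.val_injective.injOn)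
  · obtain ⟨K, hK, hKc⟩ := hco
    have hcont : ∀ g : G, Continuous fun x : X => g • x := fun g =>
      (Isometry.of_dist_eq (hiso g)).continuous
    obtain ⟨S, hS⟩ : ∃ S : Set G, S.Finite ∧ ∀ g : G, ∃ s ∈ S, s * g ∈ H := by
      have : Finite (G ⧸ H) := Subgroup.finite_quotient_of_finiteIndex
      refine ⟨Set.range fun q : G ⧸ H => (Quotient.out q)⁻¹, Set.finite_range _, fun g => ?_⟩
      refine ⟨_, ⟨(QuotientGroup.mk g : G ⧸ H), rfl⟩, ?_⟩
      have h1 : (QuotientGroup.mk (Quotient.out (QuotientGroup.mk g : G ⧸ H)) : G ⧸ H) =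
        QuotientGroup.mk g := Quotient.out_eq _
      exact QuotientGroup.eq.mp h1
    refine ⟨⋃ s ∈ S, (fun x => s • x) '' K, hS.1.isCompact_biUnion fun s _ =>
      hK.image (hcont s), fun x => ?_⟩
    obtain ⟨g, hg⟩ := hKc x
    obtain ⟨s, hs, hsg⟩ := hS.2 g
    refine ⟨⟨s * g, hsg⟩, Set.mem_biUnion hs ⟨g • x, hg, ?_⟩⟩
    show s • g • x = (s * g) • x
    rw [mul_smul]

end Pool.Agent.H75.TB
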