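import Pool.Agent.H75.TB.Path

/-!
# TB-G2a: every element of the fundamental group is the value of a loop at the root

(i) `tree_path`: for every vertex `v` there is a path word from the root to `v`, and one from `v`
to the root, all of whose vertex elements are `0` and whose letters are `t_{par w}^{±1}`; its value
in `D.Grp` is `1` (`gt_par`). Strong induction on the depth with `par_spec`.
(ii) Concatenation (`ev_append`): `cat a l b l'` = replace the last vertex element `c` of `(a, l)`
by `c + b` and append `l'`; the value is the product.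
(iii) the set of values of loops at the root is stable under multiplication and inverses (reverse
the word) and contains the generators (`gv v a`: path root→v, `a`, path v→root; `gt e`: path
root → tgt e, letter `t_e`, path src e → root); it is everything (`PresentedGroup.induction_on` /
`PresentedGroup.closure_range_of`; `gv v (1,0) = of (v,false)`, `gv v (0,1) = of (v,true)`).
(Alternatively show that the set of values is stable under left multiplication by the generators
and their inverses.)
-/

namespace Pool.Agent.H75.TB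

variable {D : TubGraph}

/-- value of a letter in the fundamental group -/
noncomputable def wlet (x : D.E × Bool) : D.Grp := if x.2 then gt x.1 else (gt x.1)⁻¹

theorem wev_nil (v : D.V) (a : ℤ × ℤ) : (canSys D).ev v a [] = gv v a := rfl

theorem wev_cons (v : D.V) (a : ℤ × ℤ) (x : (D.E × Bool) × (ℤ × ℤ)) (l : PWord D) :
    (canSys D).ev v a (x :: l) = gv v a * wlet x.1 * (canSys D).ev (fi x.1) x.2 l := rfl

theorem gv_zero (v : D.V) : gv v 0 = 1 := by
  have h := gv_add v 0 0
  rw [add_zero] at h
  exact (left_eq_mul.1 h)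

theorem wev_snoc (v : D.V) (a : ℤ × ℤ) (x : D.E × Bool) (b : ℤ × ℤ) (l : PWord D) :
    (canSys D).ev v a (l ++ [(x, b)]) = (canSys D).ev v a l * wlet x * gv (fi x) b := by
  induction l generalizing v a with
  | nil => rw [List.nil_append, wev_cons, wev_nil, wev_nil]
  | cons y l ih =>
    rw [List.cons_append, wev_cons, wev_cons, ih]
    simp only [mul_assoc]

theorem wpath_snoc {v w : D.V} {l : PWord D} (h : IsPath w v l) {x : D.E × Bool} (hx : st x = w)
    (b : ℤ × ℤ) : IsPath (fi x) v (l ++ [(x, b)]) := by
  induction l generalizing v with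
  | nil =>
    have h' : v = w := h
    exact ⟨hx.trans h'.symm, rfl⟩
  | cons y l ih => exact ⟨h.1, ih h.2⟩

theorem wev_left (v : D.V) (b a : ℤ × ℤ) (l : PWord D) :
    (canSys D).ev v (b + a) l = gv v b * (canSys D).ev v a l := by
  cases l with
  | nil => rw [wev_nil, wev_nil, gv_add]
  | cons x l =>
    rw [wev_cons, wev_cons, gv_add]
    simp only [mul_assoc]

theorem tree_path (v : D.V) : ∃ l l' : PWord D, IsPath v D.root l ∧ IsPath D.root v l' ∧
    (canSys D).ev D.root 0 l = 1 ∧ (canSys D).ev v 0 l' = 1 := by
  have key : ∀ (n : ℕ) (v : D.V), D.depth v = n → ∃ l l' : PWord D, IsPath v D.root l ∧ IsPath D.root v l' ∧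
      (canSys D).ev D.root 0 l = 1 ∧ (canSys D).ev v 0 l' = 1 := by
    intro n
    induction n using Nat.strong_induction_on with
    | _ n ih =>
      intro v hv
      by_cases h : v = D.root
      · subst h
        exact ⟨[], [], rfl, rfl, gv_zero _, gv_zero _⟩
      · have hpar := gt_par (D := D) ⟨v, h⟩
        rcases D.par_spec ⟨v, h⟩ with ⟨h1, h2⟩ | ⟨h1, h2⟩
        · obtain ⟨l, l', e1, e2, e3, e4⟩ := ih _ (by rw [← hv]; exact h2) _ rfl
          refine ⟨l ++ [((D.par ⟨v, h⟩, true), 0)], ((D.par ⟨v, h⟩, false), 0) :: l', ?_, ?_, ?_, ?_⟩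
          · have := wpath_snoc e1 (x := (D.par ⟨v, h⟩, true)) rfl 0
            have h3 : fi (D.par ⟨v, h⟩, true) = v := h1
            rwa [h3] at this
          · exact ⟨h1, e2⟩
          · rw [wev_snoc, e3, gv_zero, one_mul, mul_one]
            exact hpar
          · rw [wev_cons, gv_zero, one_mul]
            have h3 : wlet (D.par ⟨v, h⟩, false) = (1 : D.Grp) := by
              show (gt (D.par ⟨v, h⟩))⁻¹ = 1
              rw [hpar, inv_one]
            rw [h3, one_mul]
            exact e4
        · obtain ⟨l, l', e1, e2, e3, e4⟩ := ih _ (by rw [← hv]; exact h2) _ rfl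
          refine ⟨l ++ [((D.par ⟨v, h⟩, false), 0)], ((D.par ⟨v, h⟩, true), 0) :: l', ?_, ?_, ?_, ?_⟩
          · have := wpath_snoc e1 (x := (D.par ⟨v, h⟩, false)) rfl 0
            have h3 : fi (D.par ⟨v, h⟩, false) = v := h1
            rwa [h3] at this
          · exact ⟨h1, e2⟩
          · rw [wev_snoc, e3, gv_zero, one_mul, mul_one]
            show (gt (D.par ⟨v, h⟩))⁻¹ = 1
            rw [hpar, inv_one]
          · rw [wev_cons, gv_zero, one_mul]
            have h3 : wlet (D.par ⟨v, h⟩, true) = (1 : D.Grp) := hpar
            rw [h3, one_mul]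
            exact e4
  exact key _ v rfl

/-- values of the paths from `v` to the root -/
def WVal (v : D.V) (g : D.Grp) : Prop :=
  ∃ (a : ℤ × ℤ) (l : PWord D), IsPath D.root v l ∧ (canSys D).ev v a l = g

theorem WVal.left {v : D.V} {g : D.Grp} (h : WVal v g) (b : ℤ × ℤ) : WVal v (gv v b * g) := by
  obtain ⟨a, l, h1, rfl⟩ := h
  exact ⟨b + a, l, h1, wev_left v b a l⟩

theorem WVal.let {x : D.E × Bool} {g : D.Grp} (h : WVal (fi x) g) : WVal (st x) (wlet x * g) := by
  obtain ⟨a, l, h1, rfl⟩ := h
  refine ⟨0, (x, a) :: l, ⟨rfl, h1⟩, ?_⟩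
  rw [wev_cons, gv_zero, one_mul]

theorem wval_root (v : D.V) (g : D.Grp) : WVal v g ↔ WVal D.root g := by
  have key : ∀ (n : ℕ) (v : D.V), D.depth v = n → (WVal v g ↔ WVal D.root g) := by
    intro n
    induction n using Nat.strong_induction_on with
    | _ n ih =>
      intro v hv
      by_cases h : v = D.root
      · rw [h]
      · have hpar := gt_par (D := D) ⟨v, h⟩
        have e1 : WVal (D.src (D.par ⟨v, h⟩)) g ↔ WVal (D.tgt (D.par ⟨v, h⟩)) g := by
          constructor
          · intro h3
            have h4 := WVal.let (x := (D.par ⟨v, h⟩, true)) h3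
            have h5 : wlet (D.par ⟨v, h⟩, true) = (1 : D.Grp) := hpar
            rw [h5, one_mul] at h4
            exact h4
          · intro h3
            have h4 := WVal.let (x := (D.par ⟨v, h⟩, false)) h3
            have h5 : wlet (D.par ⟨v, h⟩, false) = (1 : D.Grp) := by
              show (gt (D.par ⟨v, h⟩))⁻¹ = 1
              rw [hpar, inv_one]
            rw [h5, one_mul] at h4
            exact h4
        rcases D.par_spec ⟨v, h⟩ with ⟨h1, h2⟩ | ⟨h1, h2⟩
        · have e2 := ih _ (by rw [← hv]; exact h2) _ rfl
          have h1' : D.src (D.par ⟨v, h⟩) = v := h1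
          rw [h1'] at e1
          exact e1.trans e2
        · have e2 := ih _ (by rw [← hv]; exact h2) _ rfl
          have h1' : D.tgt (D.par ⟨v, h⟩) = v := h1
          rw [h1'] at e1
          exact e1.symm.trans e2
  exact key _ v rfl

theorem wval_gv {g : D.Grp} (h : WVal D.root g) (v : D.V) (b : ℤ × ℤ) : WVal D.root (gv v b * g) :=
  (wval_root v _).1 (((wval_root v _).2 h).left b)

theorem wval_let {g : D.Grp} (h : WVal D.root g) (x : D.E × Bool) : WVal D.root (wlet x * g) :=
  (wval_root _ _).1 (WVal.let ((wval_root (fi x) _).2 h))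

theorem wval_mk (w : FreeGroup D.Gen) : ∀ g : D.Grp, WVal D.root g → WVal D.root (PresentedGroup.mk D.rels w * g) := by
  induction w using FreeGroup.induction_on with
  | C1 => intro g hg; rw [map_one, one_mul]; exact hg
  | of x =>
    intro g hg
    rcases x with ⟨v, _ | _⟩ | e
    · have h1 := wval_gv hg v (1, 0)
      have h2 : gv v (1, 0) = PresentedGroup.mk D.rels (FreeGroup.of (Sum.inl (v, false))) := by
        simp [gv, TubGraph.vert]
      rw [h2] at h1
      exact h1
    · have h1 := wval_gv hg v (0, 1)
      have h2 : gv v (0, 1) = PresentedGroup.mk D.rels (FreeGroup.of (Sum.inl (v, true))) := by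
        simp [gv, TubGraph.vert]
      rw [h2] at h1
      exact h1
    · exact wval_let hg (e, true)
  | inv_of x _ =>
    intro g hg
    rcases x with ⟨v, _ | _⟩ | e
    · have h1 := wval_gv hg v (-1, 0)
      have h2 : gv v (-1, 0) = PresentedGroup.mk D.rels (FreeGroup.of (Sum.inl (v, false)))⁻¹ := by
        simp [gv, TubGraph.vert]
      rw [h2] at h1
      exact h1
    · have h1 := wval_gv hg v (0, -1)
      have h2 : gv v (0, -1) = PresentedGroup.mk D.rels (FreeGroup.of (Sum.inl (v, true)))⁻¹ := by
        simp [gv, TubGraph.vert]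
      rw [h2] at h1
      exact h1
    · exact wval_let hg (e, false)
  | mul x y hx hy =>
    intro g hg
    rw [map_mul, mul_assoc]
    exact hx _ (hy _ hg)

theorem exists_word (g : D.Grp) : ∃ (a : ℤ × ℤ) (l : PWord D),
    IsPath D.root D.root l ∧ (canSys D).ev D.root a l = g := by
  obtain ⟨w, rfl⟩ := PresentedGroup.mk_surjective D.rels g
  have h := wval_mk w 1 ⟨0, [], rfl, gv_zero _⟩
  rw [mul_one] at h
  exact h

end Pool.Agent.H75.TB
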